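import Pool.Agent.Helper37.BA_PT1

/-!
# MP_3dd6d4_an : module MT (Minkowski trick)
-/

set_option autoImplicit false

open MeasureTheory Complex FourierTransform Filter Topology
open scoped ENNReal NNReal ComplexConjugate

noncomputable section

namespace Helper72.BA.P

theorem cs_weight {Ω : Type*} [MeasurableSpace Ω] (ν : Measure Ω) {w f g : Ω → ℝ≥0∞}
    (hw : Measurable w) (hf : Measurable f) (hg : Measurable g) :
    ∫⁻ ω, w ω * (f ω * g ω) ∂ν ≤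
      (∫⁻ ω, w ω * f ω ^ 2 ∂ν) ^ (1 / 2 : ℝ) * (∫⁻ ω, w ω * g ω ^ 2 ∂ν) ^ (1 / 2 : ℝ) := by
  have hhalf : (0:ℝ) ≤ 1 / 2 := by norm_num
  have hpq : (2:ℝ).HolderConjugate 2 := Real.HolderConjugate.two_two
  have h := ENNReal.lintegral_mul_le_Lp_mul_Lq ν hpq
    (f := fun ω => w ω ^ (1 / 2 : ℝ) * f ω) (g := fun ω => w ω ^ (1 / 2 : ℝ) * g ω)
    (by fun_prop) (by fun_prop)
  have hsq : ∀ x : ℝ≥0∞, x ^ (1 / 2 : ℝ) * x ^ (1 / 2 : ℝ) = x := by
    intro x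
    rw [← ENNReal.rpow_add_of_nonneg _ _ hhalf hhalf]
    norm_num
  have e1 : ∫⁻ ω, ((fun ω => w ω ^ (1 / 2 : ℝ) * f ω) * fun ω => w ω ^ (1 / 2 : ℝ) * g ω) ω ∂ν =
      ∫⁻ ω, w ω * (f ω * g ω) ∂ν := by
    refine lintegral_congr fun ω => ?_
    change w ω ^ (1 / 2 : ℝ) * f ω * (w ω ^ (1 / 2 : ℝ) * g ω) = _
    rw [mul_mul_mul_comm, hsq]
  have e2 : ∀ u : Ω → ℝ≥0∞, ∫⁻ ω, (w ω ^ (1 / 2 : ℝ) * u ω) ^ (2:ℝ) ∂ν =
      ∫⁻ ω, w ω * u ω ^ 2 ∂ν := by
    intro u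
    refine lintegral_congr fun ω => ?_
    rw [ENNReal.mul_rpow_of_nonneg _ _ (by norm_num), ← ENNReal.rpow_mul]
    norm_num
  rw [e1, e2, e2] at h
  exact h

/-- Minkowski's integral inequality in weighted `L²`. -/
theorem mink2 {X Ω : Type*} [MeasurableSpace X] [MeasurableSpace Ω] (μ : Measure X)
    (ν : Measure Ω) [SFinite μ] [SFinite ν] (w : Ω → ℝ≥0∞) (f : X → Ω → ℝ≥0∞) (hw : Measurable w)
    (hf : Measurable (Function.uncurry f)) :
    ∫⁻ ω, w ω * (∫⁻ x, f x ω ∂μ) ^ 2 ∂ν ≤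
      (∫⁻ x, (∫⁻ ω, w ω * f x ω ^ 2 ∂ν) ^ (1 / 2 : ℝ) ∂μ) ^ 2 := by
  have hfx : ∀ x, Measurable (f x) := fun x => hf.comp measurable_prodMk_left
  have hfω : ∀ ω, Measurable fun x => f x ω := fun ω => hf.comp measurable_prodMk_right
  have e1 : ∀ ω, w ω * (∫⁻ x, f x ω ∂μ) ^ 2 = ∫⁻ x, ∫⁻ y, w ω * (f x ω * f y ω) ∂μ ∂μ := by
    intro ω
    have : ∀ x, ∫⁻ y, w ω * (f x ω * f y ω) ∂μ = w ω * (f x ω * ∫⁻ y, f y ω ∂μ) := by
      intro x
      have hm := hfω ω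
      rw [lintegral_const_mul _ (by fun_prop), lintegral_const_mul _ (hfω ω)]
    simp_rw [this]
    have hm := hfω ω
    rw [lintegral_const_mul _ (by fun_prop), lintegral_mul_const _ (hfω ω), sq]
  simp_rw [e1]
  rw [lintegral_lintegral_swap]
  · have e2 : ∀ x, ∫⁻ ω, ∫⁻ y, w ω * (f x ω * f y ω) ∂μ ∂ν =
        ∫⁻ y, ∫⁻ ω, w ω * (f x ω * f y ω) ∂ν ∂μ := by
      intro x
      rw [lintegral_lintegral_swap]
      refine Measurable.aemeasurable ?_
      have h1 : Measurable fun p : Ω × X => f p.2 p.1 := hf.comp measurable_swap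
      exact (hw.comp measurable_fst).mul (((hfx x).comp measurable_fst).mul h1)
    simp_rw [e2]
    have hN : Measurable fun x => (∫⁻ ω, w ω * f x ω ^ 2 ∂ν) ^ (1 / 2 : ℝ) := by
      refine Measurable.pow_const ?_ _
      refine Measurable.lintegral_prod_right' (f := fun p : X × Ω => w p.2 * f p.1 p.2 ^ 2) ?_
      exact (hw.comp measurable_snd).mul (Measurable.pow_const hf 2)
    calc ∫⁻ x, ∫⁻ y, ∫⁻ ω, w ω * (f x ω * f y ω) ∂ν ∂μ ∂μ
        ≤ ∫⁻ x, ∫⁻ y, (∫⁻ ω, w ω * f x ω ^ 2 ∂ν) ^ (1 / 2 : ℝ) *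
            (∫⁻ ω, w ω * f y ω ^ 2 ∂ν) ^ (1 / 2 : ℝ) ∂μ ∂μ :=
          lintegral_mono fun x => lintegral_mono fun y => cs_weight ν hw (hfx x) (hfx y)
      _ = _ := by
          have e3 : ∀ x, ∫⁻ y, (∫⁻ ω, w ω * f x ω ^ 2 ∂ν) ^ (1 / 2 : ℝ) *
            (∫⁻ ω, w ω * f y ω ^ 2 ∂ν) ^ (1 / 2 : ℝ) ∂μ =
            (∫⁻ ω, w ω * f x ω ^ 2 ∂ν) ^ (1 / 2 : ℝ) *
              ∫⁻ y, (∫⁻ ω, w ω * f y ω ^ 2 ∂ν) ^ (1 / 2 : ℝ) ∂μ :=
            fun x => lintegral_const_mul _ hN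
          simp_rw [e3]
          rw [lintegral_mul_const _ hN, sq]
  · refine Measurable.aemeasurable ?_
    refine Measurable.lintegral_prod_right' (f := fun p : (Ω × X) × X =>
      w p.1.1 * (f p.1.2 p.1.1 * f p.2 p.1.1)) ?_
    have h1 : Measurable fun p : (Ω × X) × X => f p.1.2 p.1.1 :=
      hf.comp ((measurable_snd.comp measurable_fst).prodMk (measurable_fst.comp measurable_fst))
    have h2 : Measurable fun p : (Ω × X) × X => f p.2 p.1.1 :=
      hf.comp (measurable_snd.prodMk (measurable_fst.comp measurable_fst))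
    exact (hw.comp (measurable_fst.comp measurable_fst)).mul (h1.mul h2)

/-- One convolution step. -/
theorem conv_step {Ga Gb a b A B : ℂ → ℝ≥0∞} (hGa : Measurable Ga) (hGb : Measurable Gb)
    (ha : Measurable a) (hb : Measurable b)
    (h1 : ∀ ξ, ∫⁻ η, Ga (ξ - η) * a η ^ 2 ≤ A ξ ^ 2)
    (h2 : ∀ ξ, ∫⁻ η, Gb (ξ - η) * b η ^ 2 ≤ B ξ ^ 2) (ξ : ℂ) :
    ∫⁻ η, lc Ga Gb (ξ - η) * lc a b η ^ 2 ≤ lc A B ξ ^ 2 := by
  have hhalf : (0:ℝ) ≤ 1 / 2 := by norm_num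
  set w : ℂ × ℂ → ℝ≥0∞ := fun p => Ga p.2 * Gb (ξ - p.1 - p.2) with hw
  have hwm : Measurable w := by
    rw [hw]
    fun_prop
  set f : ℂ → ℂ × ℂ → ℝ≥0∞ := fun x p => a (x - p.2) * b (p.1 - (x - p.2)) with hf
  have hfm : Measurable (Function.uncurry f) := by
    rw [hf]
    change Measurable fun q : ℂ × (ℂ × ℂ) => a (q.1 - q.2.2) * b (q.2.1 - (q.1 - q.2.2))
    fun_prop
  have e1 : ∫⁻ η, lc Ga Gb (ξ - η) * lc a b η ^ 2 =
      ∫⁻ p : ℂ × ℂ, w p * (∫⁻ x, f x p) ^ 2 ∂(volume.prod volume) := by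
    have hin : ∀ p : ℂ × ℂ, ∫⁻ x, f x p = lc a b p.1 := by
      intro p
      unfold lc
      rw [hf]
      dsimp only
      exact lintegral_sub_right_eq_self (fun t => a t * b (p.1 - t)) p.2
    simp_rw [hin]
    rw [lintegral_prod _ (by
      refine Measurable.aemeasurable ?_
      exact hwm.mul (((measurable_lc ha hb).comp measurable_fst).pow_const 2))]
    refine lintegral_congr fun η => ?_
    have hwη : Measurable fun y => w (η, y) := hwm.comp measurable_prodMk_left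
    dsimp only
    rw [lintegral_mul_const _ hwη]
    rfl
  rw [e1]
  refine (mink2 volume (volume.prod volume) w f hwm hfm).trans ?_
  refine pow_le_pow_left' ?_ 2
  unfold lc
  refine lintegral_mono fun x => ?_
  have e2 : ∫⁻ p : ℂ × ℂ, w p * f x p ^ 2 ∂(volume.prod volume) ≤ (A x * B (ξ - x)) ^ 2 := by
    rw [lintegral_prod_symm _ (by
      refine Measurable.aemeasurable ?_
      exact hwm.mul ((hfm.comp measurable_prodMk_left).pow_const 2))]
    have e3 : ∀ r : ℂ, ∫⁻ η, w (η, r) * f x (η, r) ^ 2 ≤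
        Ga r * a (x - r) ^ 2 * B (ξ - x) ^ 2 := by
      intro r
      have e4 : ∀ η, w (η, r) * f x (η, r) ^ 2 =
          Ga r * a (x - r) ^ 2 * (Gb (ξ - η - r) * b (η - (x - r)) ^ 2) := by
        intro η
        rw [hw, hf]
        dsimp only
        ring
      simp_rw [e4]
      rw [lintegral_const_mul _ (by fun_prop)]
      refine mul_le_mul_right ?_ _
      refine le_trans (le_of_eq ?_) (h2 (ξ - x))
      rw [← lintegral_sub_right_eq_self (fun y => Gb (ξ - x - y) * b y ^ 2) (x - r)]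
      refine lintegral_congr fun η => ?_
      rw [show ξ - x - (η - (x - r)) = ξ - η - r by ring]
    refine (lintegral_mono e3).trans ?_
    rw [lintegral_mul_const _ (by fun_prop), mul_pow]
    refine mul_le_mul_left ?_ _
    refine le_trans (le_of_eq ?_) (h1 x)
    rw [← lintegral_sub_left_eq_self (fun r => Ga r * a (x - r) ^ 2) x]
    refine lintegral_congr fun η => ?_
    rw [sub_sub_cancel]
  refine (ENNReal.rpow_le_rpow e2 hhalf).trans (le_of_eq ?_)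
  rw [← ENNReal.rpow_natCast, ← ENNReal.rpow_mul]
  norm_num

theorem lintegral_lc {a b : ℂ → ℝ≥0∞} (ha : Measurable a) (hb : Measurable b) :
    ∫⁻ s, lc a b s = (∫⁻ s, a s) * ∫⁻ s, b s := by
  unfold lc
  rw [lintegral_lintegral_swap (by fun_prop)]
  have e : ∀ t, ∫⁻ s, a t * b (s - t) = a t * ∫⁻ s, b s := by
    intro t
    rw [lintegral_const_mul _ (by fun_prop), lintegral_sub_right_eq_self (fun s => b s) t]
  simp_rw [e]
  rw [lintegral_mul_const _ ha]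

theorem minkowski_trick (G h : ℂ → ℝ≥0∞) (hG : Measurable G) (hh : Measurable h)
    (hG1 : ∫⁻ z, G z = 1) (j : ℕ) :
    ∫⁻ s, lcp h j s ^ 2 ≤
      ∫⁻ s, lcp (fun ξ => (∫⁻ η, G (ξ - η) * h η ^ 2) ^ (1 / 2 : ℝ)) j s ^ 2 := by
  set V : ℂ → ℝ≥0∞ := fun ξ => (∫⁻ η, G (ξ - η) * h η ^ 2) ^ (1 / 2 : ℝ) with hV
  have hpt : ∀ (j : ℕ) (ξ : ℂ), ∫⁻ η, lcp G j (ξ - η) * lcp h j η ^ 2 ≤ lcp V j ξ ^ 2 := by
    intro j
    induction j with
    | zero =>
      intro ξ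
      change ∫⁻ η, G (ξ - η) * h η ^ 2 ≤ V ξ ^ 2
      rw [hV]
      dsimp only
      rw [← ENNReal.rpow_natCast, ← ENNReal.rpow_mul]
      norm_num
    | succ j ih =>
      intro ξ
      have h0 : ∀ ξ, ∫⁻ η, G (ξ - η) * h η ^ 2 ≤ V ξ ^ 2 := by
        intro ξ
        rw [hV]
        dsimp only
        rw [← ENNReal.rpow_natCast, ← ENNReal.rpow_mul]
        norm_num
      exact conv_step (measurable_lcp hG j) hG (measurable_lcp hh j) hh ih h0 ξ
  have hmass : ∀ j : ℕ, ∫⁻ s, lcp G j s = 1 := by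
    intro j
    induction j with
    | zero => exact hG1
    | succ j ih =>
      change ∫⁻ s, lc (lcp G j) G s = 1
      rw [lintegral_lc (measurable_lcp hG j) hG, ih, hG1, one_mul]
  have hGm := measurable_lcp hG j
  have hhm := measurable_lcp hh j
  calc ∫⁻ s, lcp h j s ^ 2 = ∫⁻ ξ, ∫⁻ η, lcp G j (ξ - η) * lcp h j η ^ 2 := by
        rw [lintegral_lintegral_swap (by fun_prop)]
        refine lintegral_congr fun η => ?_
        rw [lintegral_mul_const _ (by fun_prop),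
          lintegral_sub_right_eq_self (fun s => lcp G j s) η, hmass, one_mul]
    _ ≤ ∫⁻ s, lcp V j s ^ 2 := lintegral_mono (hpt j)

end Helper72.BA.P
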