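import Pool.Agent.Helper72.BA.Defs

/-!
# MP_3dd6d4_an : module PT1 (abstract Pitt inequality, Hölder induction)
-/

set_option autoImplicit false

open MeasureTheory Complex FourierTransform Filter Topology
open scoped ENNReal NNReal ComplexConjugate

noncomputable section

namespace Helper72.BA.P

theorem lc_comm' (a b : ℂ → ℝ≥0∞) : lc a b = lc b a := by
  funext s
  unfold lc
  rw [← lintegral_sub_left_eq_self (fun t => a t * b (s - t)) s]
  refine lintegral_congr fun t => ?_
  rw [sub_sub_cancel, mul_comm]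

theorem measurable_lc {a b : ℂ → ℝ≥0∞} (ha : Measurable a) (hb : Measurable b) :
    Measurable (lc a b) := by
  unfold lc
  refine Measurable.lintegral_prod_right' (f := fun p : ℂ × ℂ => a p.2 * b (p.1 - p.2)) ?_
  fun_prop

theorem lc_assoc' {a b c : ℂ → ℝ≥0∞} (ha : Measurable a) (hb : Measurable b)
    (hc : Measurable c) : lc (lc a b) c = lc a (lc b c) := by
  funext s
  unfold lc
  have e1 : ∀ t, (∫⁻ r, a r * b (t - r)) * c (s - t) = ∫⁻ r, a r * b (t - r) * c (s - t) := by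
    intro t
    rw [lintegral_mul_const]
    fun_prop
  simp_rw [e1]
  rw [lintegral_lintegral_swap (by fun_prop)]
  refine lintegral_congr fun r => ?_
  have e2 : ∀ t, a r * b (t - r) * c (s - t) = a r * (b (t - r) * c (s - t)) :=
    fun t => mul_assoc _ _ _
  simp_rw [e2]
  rw [lintegral_const_mul _ (by fun_prop)]
  congr 1
  rw [← lintegral_add_right_eq_self (fun t => b (t - r) * c (s - t)) r]
  refine lintegral_congr fun t => ?_
  rw [add_sub_cancel_right, sub_sub, add_comm r t]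

theorem measurable_lcp {a : ℂ → ℝ≥0∞} (ha : Measurable a) (j : ℕ) : Measurable (lcp a j) := by
  induction j with
  | zero => exact ha
  | succ j ih => exact measurable_lc ih ha

theorem lc_lcp {a : ℂ → ℝ≥0∞} (ha : Measurable a) (i j : ℕ) :
    lc (lcp a i) (lcp a j) = lcp a (i + j + 1) := by
  induction j with
  | zero => rfl
  | succ j ih =>
    change lc (lcp a i) (lc (lcp a j) a) = lc (lcp a (i + (j + 1))) a
    rw [← lc_assoc' (measurable_lcp ha i) (measurable_lcp ha j) ha, ih]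
    rfl

theorem lcp_neg {a : ℂ → ℝ≥0∞} (hs : ∀ z, a (-z) = a z) (j : ℕ) (z : ℂ) :
    lcp a j (-z) = lcp a j z := by
  induction j generalizing z with
  | zero => exact hs z
  | succ j ih =>
    change lc (lcp a j) a (-z) = lc (lcp a j) a z
    unfold lc
    rw [← lintegral_neg_eq_self]
    refine lintegral_congr fun t => ?_
    rw [ih, show -z - -t = -(z - t) by ring, hs]

/-- `B_{j+1}` : `lc (ω F^m) W_j`, and `B_1 = ω F^m`. -/
def BB (g ω : ℂ → ℝ≥0∞) : ℕ → (ℂ → ℝ≥0∞)
  | 0 => g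
  | (j + 1) => lc g (lcp ω j)

theorem measurable_BB {g ω : ℂ → ℝ≥0∞} (hg : Measurable g) (hω : Measurable ω) (j : ℕ) :
    Measurable (BB g ω j) := by
  cases j with
  | zero => exact hg
  | succ j => exact measurable_lc hg (measurable_lcp hω j)

theorem BB_succ {g ω : ℂ → ℝ≥0∞} (hg : Measurable g) (hω : Measurable ω) (j : ℕ) :
    lc (BB g ω j) ω = BB g ω (j + 1) := by
  cases j with
  | zero => rfl
  | succ j =>
    change lc (lc g (lcp ω j)) ω = lc g (lc (lcp ω j) ω)
    exact lc_assoc' hg (measurable_lcp hω j) hω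

/-- the Hölder induction -/
theorem holder_ind {m : ℝ} (hm : 0 < m) {ω F : ℂ → ℝ≥0∞} (hω : Measurable ω) (hF : Measurable F)
    (j : ℕ) (hj : (j : ℝ) + 1 ≤ m) (s : ℂ) :
    lcp (fun ξ => ω ξ * F ξ) j s ≤ lcp ω j s ^ (1 - (j + 1) / m) *
      BB (fun ξ => ω ξ * F ξ ^ m) ω j s ^ (((j : ℝ) + 1) / m) := by
  induction j generalizing s with
  | zero =>
    change ω s * F s ≤ ω s ^ (1 - ((0 : ℕ) + 1) / m) *
      (ω s * F s ^ m) ^ ((((0 : ℕ) : ℝ) + 1) / m)
    have h1 : (0:ℝ) ≤ 1 / m := by positivity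
    have hj' : (1:ℝ) ≤ m := by
      have := hj
      push_cast at this
      linarith
    have h2 : (0:ℝ) ≤ 1 - 1 / m := by
      rw [sub_nonneg, div_le_one hm]
      exact hj'
    rw [Nat.cast_zero, zero_add, ENNReal.mul_rpow_of_nonneg _ _ h1, ← ENNReal.rpow_mul,
      mul_one_div_cancel hm.ne', ENNReal.rpow_one, ← mul_assoc,
      ← ENNReal.rpow_add_of_nonneg _ _ h2 h1, sub_add_cancel, ENNReal.rpow_one]
  | succ j ih =>
    have hj2 : (j : ℝ) + 1 + 1 ≤ m := by
      push_cast at hj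
      linarith
    have hj1 : (j : ℝ) + 1 ≤ m := by linarith
    have ih' := ih hj1
    set g : ℂ → ℝ≥0∞ := fun ξ => ω ξ * F ξ ^ m with hg
    have hgm : Measurable g := by
      rw [hg]
      fun_prop
    have hWm := measurable_lcp hω j
    have hBm := measurable_BB hgm hω j
    set W := lcp ω j with hW
    set B := BB g ω j with hB
    change lc (lcp (fun ξ => ω ξ * F ξ) j) (fun ξ => ω ξ * F ξ) s ≤
      lc W ω s ^ (1 - (((j + 1 : ℕ) : ℝ) + 1) / m) *
      BB g ω (j + 1) s ^ ((((j + 1 : ℕ) : ℝ) + 1) / m)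
    have hα : (0:ℝ) ≤ 1 - ((j : ℝ) + 1 + 1) / m := by
      rw [sub_nonneg, div_le_one hm]
      exact hj2
    have hβ : (0:ℝ) ≤ ((j : ℝ) + 1) / m := by positivity
    have hγ : (0:ℝ) ≤ 1 / m := by positivity
    have hpt : ∀ t, lcp (fun ξ => ω ξ * F ξ) j t * (ω (s - t) * F (s - t)) ≤
        ∏ i : Fin 3, (![fun t => W t * ω (s - t), fun t => B t * ω (s - t),
          fun t => W t * g (s - t)] i t) ^
          (![1 - ((j : ℝ) + 1 + 1) / m, ((j : ℝ) + 1) / m, 1 / m] i) := by
      intro t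
      refine (mul_le_mul_left (ih' t) _).trans ?_
      simp only [Fin.prod_univ_three, Matrix.cons_val_zero, Matrix.cons_val_one,
        Matrix.cons_val]
      rw [ENNReal.mul_rpow_of_nonneg _ _ hα, ENNReal.mul_rpow_of_nonneg _ _ hβ,
        ENNReal.mul_rpow_of_nonneg _ _ hγ, hg]
      dsimp only
      rw [ENNReal.mul_rpow_of_nonneg _ _ hγ, ← ENNReal.rpow_mul (F (s - t)),
        mul_one_div_cancel hm.ne', ENNReal.rpow_one]
      have e1 : W t ^ (1 - ((j : ℝ) + 1) / m) =
          W t ^ (1 - ((j : ℝ) + 1 + 1) / m) * W t ^ (1 / m) := by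
        rw [← ENNReal.rpow_add_of_nonneg _ _ hα hγ]
        congr 1
        field_simp
        ring
      have e2 : ω (s - t) = ω (s - t) ^ (1 - ((j : ℝ) + 1 + 1) / m) *
          ω (s - t) ^ (((j : ℝ) + 1) / m) * ω (s - t) ^ (1 / m) := by
        rw [← ENNReal.rpow_add_of_nonneg _ _ hα hβ,
          ← ENNReal.rpow_add_of_nonneg _ _ (add_nonneg hα hβ) hγ]
        nth_rewrite 1 [← ENNReal.rpow_one (ω (s - t))]
        congr 1
        field_simp
        ring
      rw [e1]
      nth_rewrite 1 [e2]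
      apply le_of_eq
      ring
    unfold lc
    refine (lintegral_mono hpt).trans ?_
    refine (ENNReal.lintegral_prod_norm_pow_le Finset.univ (fun i _ => ?_) ?_ fun i _ => ?_).trans ?_
    · fin_cases i
      · exact (hWm.mul (hω.comp (measurable_const.sub measurable_id))).aemeasurable
      · exact (hBm.mul (hω.comp (measurable_const.sub measurable_id))).aemeasurable
      · exact (hWm.mul (hgm.comp (measurable_const.sub measurable_id))).aemeasurable
    · simp only [Fin.sum_univ_three, Matrix.cons_val_zero, Matrix.cons_val_one,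
        Matrix.cons_val]
      field_simp
      ring
    · fin_cases i
      · exact hα
      · exact hβ
      · exact hγ
    · simp only [Fin.prod_univ_three, Matrix.cons_val_zero, Matrix.cons_val_one,
        Matrix.cons_val]
      have e3 : ∫⁻ t, B t * ω (s - t) = BB g ω (j + 1) s := by
        rw [← BB_succ hgm hω j]
        rfl
      have e4 : ∫⁻ t, W t * g (s - t) = BB g ω (j + 1) s := by
        change lc W g s = lc g W s
        rw [lc_comm']
      rw [e3, e4, mul_assoc, ← ENNReal.rpow_add_of_nonneg _ _ hβ hγ]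
      apply le_of_eq
      push_cast
      congr 2
      field_simp

theorem pitt_abstract (k : ℕ) (hk : 2 ≤ k) (ω F : ℂ → ℝ≥0∞) (hω : Measurable ω) (hF : Measurable F)
    (hsym : ∀ z, ω (-z) = ω z) :
    ∫⁻ s, lcp (fun ξ => ω ξ * F ξ) (k - 1) s ^ 2 ≤
      ∫⁻ ξ, ω ξ * F ξ ^ (2 * k) * lcp ω (2 * k - 2) ξ := by
  obtain ⟨l, rfl⟩ : ∃ l, k = l + 2 := ⟨k - 2, by omega⟩
  have hm : (0:ℝ) < 2 * ((l + 2 : ℕ) : ℝ) := by positivity
  set g : ℂ → ℝ≥0∞ := fun ξ => ω ξ * F ξ ^ (2 * (l + 2)) with hg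
  have hgm : Measurable g := by
    rw [hg]
    fun_prop
  have hg' : (fun ξ => ω ξ * F ξ ^ (2 * ((l + 2 : ℕ) : ℝ))) = g := by
    funext ξ
    rw [hg]
    dsimp only
    rw [← ENNReal.rpow_natCast]
    push_cast
    rfl
  have h1 : ∀ s, lcp (fun ξ => ω ξ * F ξ) (l + 1) s ^ 2 ≤ lcp ω (l + 1) s * lc g (lcp ω l) s := by
    intro s
    have h := holder_ind hm hω hF (l + 1) (by push_cast; linarith [(Nat.cast_nonneg l : (0:ℝ) ≤ l)]) s
    rw [hg'] at h
    have e1 : (1:ℝ) - (((l + 1 : ℕ) : ℝ) + 1) / (2 * ((l + 2 : ℕ) : ℝ)) = 1 / 2 := by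
      push_cast
      field_simp
      ring
    have e2 : (((l + 1 : ℕ) : ℝ) + 1) / (2 * ((l + 2 : ℕ) : ℝ)) = 1 / 2 := by
      push_cast
      field_simp
      ring
    rw [e1, e2] at h
    calc lcp (fun ξ => ω ξ * F ξ) (l + 1) s ^ 2
        ≤ (lcp ω (l + 1) s ^ (1 / 2 : ℝ) * BB g ω (l + 1) s ^ (1 / 2 : ℝ)) ^ 2 := by gcongr
      _ = lcp ω (l + 1) s * lc g (lcp ω l) s := by
        rw [mul_pow, ← ENNReal.rpow_natCast, ← ENNReal.rpow_natCast, ← ENNReal.rpow_mul,
          ← ENNReal.rpow_mul]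
        norm_num
        rfl
  have hW1 := measurable_lcp hω (l + 1)
  have hW0 := measurable_lcp hω l
  calc ∫⁻ s, lcp (fun ξ => ω ξ * F ξ) (l + 2 - 1) s ^ 2
      ≤ ∫⁻ s, lcp ω (l + 1) s * lc g (lcp ω l) s := lintegral_mono h1
    _ = ∫⁻ s, ∫⁻ t, lcp ω (l + 1) s * (g t * lcp ω l (s - t)) := by
      refine lintegral_congr fun s => ?_
      unfold lc
      rw [lintegral_const_mul]
      fun_prop
    _ = ∫⁻ t, ∫⁻ s, lcp ω (l + 1) s * (g t * lcp ω l (s - t)) := by
      rw [lintegral_lintegral_swap]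
      fun_prop
    _ = ∫⁻ ξ, ω ξ * F ξ ^ (2 * (l + 2)) * lcp ω (2 * (l + 2) - 2) ξ := by
      refine lintegral_congr fun t => ?_
      have e1 : ∀ s, lcp ω (l + 1) s * (g t * lcp ω l (s - t)) =
          g t * (lcp ω (l + 1) s * lcp ω l (t - s)) := by
        intro s
        rw [← lcp_neg hsym l (t - s), neg_sub]
        ring
      simp_rw [e1]
      rw [lintegral_const_mul _ (by fun_prop)]
      congr 1
      have := congrFun (lc_lcp hω (l + 1) l) t
      rw [show 2 * (l + 2) - 2 = l + 1 + l + 1 by omega, ← this]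
      rfl

end Helper72.BA.P
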