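import Pool.Agent.Helper37.BA_RC
import Pool.Agent.Helper85.BP.Defs

/-!
# MP_3dd6d4_an, all exponents : module K1 (Riesz composition formula with complex exponents)
-/

set_option autoImplicit false

open MeasureTheory Complex FourierTransform Filter Topology
open scoped ENNReal NNReal ComplexConjugate

noncomputable section

namespace Helper85.BP.P

open Helper72.BA Helper85.BP

theorem cpw_norm {a : ℂ} (ha : a.re < 2) (w : ℂ) : ‖cpw a w‖ = ‖w‖ ^ (a.re - 2) := by
  unfold cpw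
  have h : (a - 2).re ≠ 0 := by
    simp only [Complex.sub_re, Complex.re_ofNat]
    linarith
  rw [Complex.norm_cpow_eq_rpow_re_of_nonneg (norm_nonneg w) h]
  simp only [Complex.sub_re, Complex.re_ofNat]

theorem cpw_real (a : ℝ) (w : ℂ) : cpw (a : ℂ) w = ((‖w‖ ^ (a - 2) : ℝ) : ℂ) := by
  unfold cpw
  rw [Complex.ofReal_cpow (norm_nonneg w)]
  push_cast
  rfl

theorem cpw_meas (a : ℂ) : Measurable (cpw a) := by
  unfold cpw
  fun_prop

theorem ae_ne_two (z : ℂ) : ∀ᵐ w : ℂ, w ≠ 0 ∧ z - w ≠ 0 := by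
  have h1 : ∀ᵐ w : ℂ, w ≠ 0 := by
    simp [ae_iff]
  have h2 : ∀ᵐ w : ℂ, w ≠ z := by
    simp [ae_iff]
  filter_upwards [h1, h2] with w hw1 hw2
  exact ⟨hw1, sub_ne_zero.2 (Ne.symm hw2)⟩

theorem lint_real (a b : ℝ) (ha : 0 < a) (hb : 0 < b) (hab : a + b < 2) (z : ℂ) (hz : z ≠ 0) :
    ∫⁻ w : ℂ, ENNReal.ofReal (‖w‖ ^ (a - 2) * ‖z - w‖ ^ (b - 2)) =
      ENNReal.ofReal (Gc a * Gc b / Gc (a + b) * ‖z‖ ^ (a + b - 2)) := by
  have h := P.riesz_comp a b ha hb hab z hz
  have hr : 0 < ‖z‖ := norm_pos_iff.2 hz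
  have hG : ∀ s : ℝ, 0 < s → s < 2 → 0 < Gc s := fun s h1 h2 => by
    unfold Gc
    exact div_pos (mul_pos Real.pi_pos (Real.Gamma_pos_of_pos (by linarith)))
      (Real.Gamma_pos_of_pos (by linarith))
  rw [← ofReal_norm, ENNReal.ofReal_rpow_of_pos hr, ← ENNReal.ofReal_mul (div_pos (mul_pos
    (hG a ha (by linarith)) (hG b hb (by linarith))) (hG (a + b) (by linarith) hab)).le] at h
  rw [← h]
  refine lintegral_congr_ae ?_
  filter_upwards [ae_ne_two z] with w hw
  have h1 : 0 < ‖w‖ := norm_pos_iff.2 hw.1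
  have h2 : 0 < ‖z - w‖ := norm_pos_iff.2 hw.2
  rw [ENNReal.ofReal_mul (Real.rpow_nonneg h1.le _), ← ENNReal.ofReal_rpow_of_pos h1,
    ← ENNReal.ofReal_rpow_of_pos h2, ofReal_norm, ofReal_norm]

theorem int_real (a b : ℝ) (ha : 0 < a) (hb : 0 < b) (hab : a + b < 2) (z : ℂ) (hz : z ≠ 0) :
    Integrable (fun w : ℂ => ‖w‖ ^ (a - 2) * ‖z - w‖ ^ (b - 2)) := by
  have hm : Measurable (fun w : ℂ => ‖w‖ ^ (a - 2) * ‖z - w‖ ^ (b - 2)) := by fun_prop
  refine ⟨hm.aestronglyMeasurable, ?_⟩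
  rw [hasFiniteIntegral_iff_ofReal (Eventually.of_forall fun w =>
    mul_nonneg (Real.rpow_nonneg (norm_nonneg _) _) (Real.rpow_nonneg (norm_nonneg _) _)),
    lint_real a b ha hb hab z hz]
  exact ENNReal.ofReal_lt_top

theorem val_real (a b : ℝ) (ha : 0 < a) (hb : 0 < b) (hab : a + b < 2) (z : ℂ) (hz : z ≠ 0) :
    ∫ w : ℂ, ‖w‖ ^ (a - 2) * ‖z - w‖ ^ (b - 2) =
      Gc a * Gc b / Gc (a + b) * ‖z‖ ^ (a + b - 2) := by
  have hr : 0 < ‖z‖ := norm_pos_iff.2 hz
  have hG : ∀ s : ℝ, 0 < s → s < 2 → 0 < Gc s := fun s h1 h2 => by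
    unfold Gc
    exact div_pos (mul_pos Real.pi_pos (Real.Gamma_pos_of_pos (by linarith)))
      (Real.Gamma_pos_of_pos (by linarith))
  rw [integral_eq_lintegral_of_nonneg_ae (Eventually.of_forall fun w =>
    mul_nonneg (Real.rpow_nonneg (norm_nonneg _) _) (Real.rpow_nonneg (norm_nonneg _) _))
    (int_real a b ha hb hab z hz).1, lint_real a b ha hb hab z hz, ENNReal.toReal_ofReal]
  exact mul_nonneg (div_pos (mul_pos
    (hG a ha (by linarith)) (hG b hb (by linarith))) (hG (a + b) (by linarith) hab)).le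
    (Real.rpow_nonneg hr.le _)

theorem int_cx (a b : ℂ) (ha : 0 < a.re) (hb : 0 < b.re) (hab : a.re + b.re < 2) (z : ℂ)
    (hz : z ≠ 0) : Integrable (fun w => cpw a w * cpw b (z - w)) := by
  refine (int_real a.re b.re ha hb hab z hz).mono'
    (((cpw_meas a).mul ((cpw_meas b).comp (measurable_const.sub measurable_id))).aestronglyMeasurable)
    (Eventually.of_forall fun w => ?_)
  rw [norm_mul, cpw_norm (by linarith), cpw_norm (by linarith)]

theorem Gx_real (a : ℝ) : Gx (a : ℂ) = (Gc a : ℂ) := by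
  unfold Gx Gc
  rw [show (a : ℂ) / 2 = ((a / 2 : ℝ) : ℂ) by push_cast; rfl,
    show (1 : ℂ) - ((a / 2 : ℝ) : ℂ) = ((1 - a / 2 : ℝ) : ℂ) by push_cast; rfl,
    Complex.Gamma_ofReal, Complex.Gamma_ofReal]
  push_cast
  rfl

theorem real_case (a b : ℝ) (ha : 0 < a) (hb : 0 < b) (hab : a + b < 2) (z : ℂ) (hz : z ≠ 0) :
    ∫ w, cpw a w * cpw b (z - w) = Gx a * Gx b / Gx (a + b) * cpw (a + b) z := by
  have h := val_real a b ha hb hab z hz
  have e1 : ∀ w : ℂ, cpw a w * cpw b (z - w) =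
      ((‖w‖ ^ (a - 2) * ‖z - w‖ ^ (b - 2) : ℝ) : ℂ) := by
    intro w
    rw [cpw_real, cpw_real]
    push_cast
    rfl
  simp_rw [e1]
  rw [integral_complex_ofReal, h, show (a : ℂ) + b = ((a + b : ℝ) : ℂ) by push_cast; rfl,
    Gx_real, Gx_real, Gx_real, cpw_real]
  push_cast
  rfl

theorem Gx_ne {a : ℂ} (h0 : 0 < a.re) (h2 : a.re < 2) : Gx a ≠ 0 := by
  unfold Gx
  refine div_ne_zero (mul_ne_zero (by exact_mod_cast Real.pi_pos.ne') ?_) ?_
  · refine Complex.Gamma_ne_zero_of_re_pos ?_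
    rw [Complex.div_ofNat_re]
    linarith
  · refine Complex.Gamma_ne_zero_of_re_pos ?_
    rw [Complex.sub_re, Complex.div_ofNat_re, Complex.one_re]
    linarith

theorem Gx_diff {a : ℂ} (h0 : 0 < a.re) (h2 : a.re < 2) : DifferentiableAt ℂ Gx a := by
  unfold Gx
  have hG : ∀ s : ℂ, 0 < s.re → DifferentiableAt ℂ Complex.Gamma s := by
    intro s hs
    refine Complex.differentiableAt_Gamma s fun m h => ?_
    rw [h] at hs
    simp only [Complex.neg_re, Complex.natCast_re] at hs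
    have : (0:ℝ) ≤ m := Nat.cast_nonneg m
    linarith
  have h3 : 0 < (a / 2).re := by
    rw [Complex.div_ofNat_re]
    linarith
  have h4 : 0 < (1 - a / 2).re := by
    rw [Complex.sub_re, Complex.div_ofNat_re, Complex.one_re]
    linarith
  refine DifferentiableAt.div (DifferentiableAt.const_mul ?_ _) ?_
    (Complex.Gamma_ne_zero_of_re_pos h4)
  · exact DifferentiableAt.comp a (hG _ h3) (by fun_prop)
  · exact DifferentiableAt.comp a (hG _ h4) (by fun_prop)

theorem cpw_diff (z : ℂ) (a : ℂ) (ha : a.re < 2) :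
    HasDerivAt (fun a => cpw a z) (cpw a z * Complex.log ‖z‖) a := by
  unfold cpw
  have h1 : HasDerivAt (fun a : ℂ => a - 2) 1 a := (hasDerivAt_id a).sub_const 2
  have h2 : a - 2 ≠ 0 := by
    intro h
    have := congrArg Complex.re h
    simp only [Complex.sub_re, Complex.re_ofNat, Complex.zero_re] at this
    linarith
  have := h1.const_cpow (c := (‖z‖ : ℂ)) (Or.inr h2)
  rwa [mul_one] at this

/-- bound for the logarithm times a power -/
theorem log_pow_bound {r s t ε : ℝ} (hr : 0 ≤ r) (hε : 0 < ε) (h1 : s - ε ≤ t) (h2 : t ≤ s + ε)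
    : r ^ t * |Real.log r| ≤
      (1 / ε) * (r ^ (s - 2 * ε) + 2 * r ^ s + r ^ (s + 2 * ε)) := by
  rcases hr.eq_or_lt with rfl | hr
  · rw [Real.log_zero, abs_zero, mul_zero]
    have := fun x : ℝ => Real.rpow_nonneg (le_refl (0:ℝ)) x
    have h4 := this (s - 2 * ε)
    have h5 := this s
    have h6 := this (s + 2 * ε)
    positivity
  · have hl : |Real.log r| ≤ (1 / ε) * (r ^ ε + r ^ (-ε)) := by
      rw [abs_le]
      have a1 := Real.log_le_rpow_div hr.le hε
      have a2 := Real.log_le_rpow_div (inv_pos.2 hr).le hε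
      rw [Real.log_inv, Real.inv_rpow hr.le, ← Real.rpow_neg hr.le] at a2
      have p1 : 0 < r ^ ε / ε := by positivity
      have p2 : 0 < r ^ (-ε) / ε := by positivity
      have e : (1 / ε) * (r ^ ε + r ^ (-ε)) = r ^ ε / ε + r ^ (-ε) / ε := by ring
      rw [e]
      constructor <;> linarith
    have ht : r ^ t ≤ r ^ (s - ε) + r ^ (s + ε) := by
      rcases le_or_gt 1 r with h | h
      · have := Real.rpow_le_rpow_of_exponent_le h h2
        have := Real.rpow_nonneg hr.le (s - ε)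
        linarith
      · have := Real.rpow_le_rpow_of_exponent_ge hr h.le h1
        have := Real.rpow_nonneg hr.le (s + ε)
        linarith
    have e1 : r ^ (s - ε) * r ^ ε = r ^ s := by rw [← Real.rpow_add hr]; congr 1; ring
    have e2 : r ^ (s - ε) * r ^ (-ε) = r ^ (s - 2 * ε) := by rw [← Real.rpow_add hr]; congr 1; ring
    have e3 : r ^ (s + ε) * r ^ ε = r ^ (s + 2 * ε) := by rw [← Real.rpow_add hr]; congr 1; ring
    have e4 : r ^ (s + ε) * r ^ (-ε) = r ^ s := by rw [← Real.rpow_add hr]; congr 1; ring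
    calc r ^ t * |Real.log r| ≤ (r ^ (s - ε) + r ^ (s + ε)) * ((1 / ε) * (r ^ ε + r ^ (-ε))) := by
          gcongr
      _ = (1 / ε) * (r ^ (s - ε) * r ^ (-ε) + (r ^ (s - ε) * r ^ ε + r ^ (s + ε) * r ^ (-ε)) +
            r ^ (s + ε) * r ^ ε) := by ring
      _ = _ := by rw [e1, e2, e3, e4]; ring

theorem int_diff (b : ℂ) (hb : 0 < b.re) (z : ℂ) (hz : z ≠ 0) (a : ℂ) (ha : 0 < a.re)
    (hab : a.re + b.re < 2) :
    DifferentiableAt ℂ (fun a => ∫ w, cpw a w * cpw b (z - w)) a := by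
  obtain ⟨ε, hε, he1, he2⟩ : ∃ ε : ℝ, 0 < ε ∧ 0 < a.re - 2 * ε ∧ a.re + 2 * ε + b.re < 2 := by
    refine ⟨min (a.re / 4) ((2 - a.re - b.re) / 4), lt_min (by linarith) (by linarith), ?_, ?_⟩
    · have := min_le_left (a.re / 4) ((2 - a.re - b.re) / 4)
      linarith
    · have := min_le_right (a.re / 4) ((2 - a.re - b.re) / 4)
      linarith
  have hbd : Integrable (fun w : ℂ => (1 / ε) * (‖w‖ ^ (a.re - 2 * ε - 2) * ‖z - w‖ ^ (b.re - 2) +
      2 * (‖w‖ ^ (a.re - 2) * ‖z - w‖ ^ (b.re - 2)) +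
      ‖w‖ ^ (a.re + 2 * ε - 2) * ‖z - w‖ ^ (b.re - 2))) :=
    (((int_real _ _ he1 hb (by linarith) z hz).add
      ((int_real _ _ ha hb hab z hz).const_mul 2)).add
      (int_real (a.re + 2 * ε) b.re (by linarith) hb (by linarith) z hz)).const_mul _
  have key := hasDerivAt_integral_of_dominated_loc_of_deriv_le (μ := (volume : Measure ℂ))
    (F := fun (a : ℂ) (w : ℂ) => cpw a w * cpw b (z - w))
    (F' := fun (a : ℂ) (w : ℂ) => cpw a w * Complex.log ‖w‖ * cpw b (z - w))
    (x₀ := a) (s := Metric.ball a ε) (bound := fun w : ℂ => (1 / ε) *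
      (‖w‖ ^ (a.re - 2 * ε - 2) * ‖z - w‖ ^ (b.re - 2) +
      2 * (‖w‖ ^ (a.re - 2) * ‖z - w‖ ^ (b.re - 2)) +
      ‖w‖ ^ (a.re + 2 * ε - 2) * ‖z - w‖ ^ (b.re - 2)))
    (Metric.ball_mem_nhds a hε)
    (Eventually.of_forall fun a' =>
      ((cpw_meas a').mul ((cpw_meas b).comp (measurable_const.sub
        measurable_id))).aestronglyMeasurable)
    (int_cx a b ha hb hab z hz)
    (by
      refine Measurable.aestronglyMeasurable ?_
      refine ((cpw_meas a).mul ?_).mul ((cpw_meas b).comp (measurable_const.sub measurable_id))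
      fun_prop)
    (Eventually.of_forall fun w a' ha' => ?_) hbd
    (Eventually.of_forall fun w a' ha' => ?_)
  · exact key.2.differentiableAt
  · have h1 : |a'.re - a.re| < ε := by
      have h2 : |(a' - a).re| ≤ ‖a' - a‖ := Complex.abs_re_le_norm _
      rw [Complex.sub_re] at h2
      have h3 : ‖a' - a‖ < ε := by simpa [dist_eq_norm] using ha'
      linarith
    rw [abs_lt] at h1
    have ha2 : a'.re < 2 := by linarith
    have hlog : ‖Complex.log (‖w‖ : ℂ)‖ = |Real.log ‖w‖| := by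
      rw [← Complex.ofReal_log (norm_nonneg w), Complex.norm_real, Real.norm_eq_abs]
    show ‖cpw a' w * Complex.log ‖w‖ * cpw b (z - w)‖ ≤ _
    rw [norm_mul, norm_mul, cpw_norm ha2, cpw_norm (by linarith), hlog]
    have := log_pow_bound (r := ‖w‖) (s := a.re - 2) (t := a'.re - 2) (norm_nonneg w) hε
      (by linarith) (by linarith)
    calc ‖w‖ ^ (a'.re - 2) * |Real.log ‖w‖| * ‖z - w‖ ^ (b.re - 2)
        ≤ (1 / ε) * (‖w‖ ^ (a.re - 2 - 2 * ε) + 2 * ‖w‖ ^ (a.re - 2) +
            ‖w‖ ^ (a.re - 2 + 2 * ε)) * ‖z - w‖ ^ (b.re - 2) :=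
          mul_le_mul_of_nonneg_right this (Real.rpow_nonneg (norm_nonneg _) _)
      _ = _ := by
          rw [show a.re - 2 - 2 * ε = a.re - 2 * ε - 2 by ring,
            show a.re - 2 + 2 * ε = a.re + 2 * ε - 2 by ring]
          ring
  · have h1 : |a'.re - a.re| < ε := by
      have h2 : |(a' - a).re| ≤ ‖a' - a‖ := Complex.abs_re_le_norm _
      rw [Complex.sub_re] at h2
      have h3 : ‖a' - a‖ < ε := by simpa [dist_eq_norm] using ha'
      linarith
    rw [abs_lt] at h1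
    exact (cpw_diff w a' (by linarith)).mul_const _

/-- continuation in the first exponent -/
theorem cont_first (b : ℂ) (hb : 0 < b.re) (z : ℂ) (hz : z ≠ 0)
    (h : ∀ a : ℝ, 0 < a → a + b.re < 2 →
      ∫ w, cpw a w * cpw b (z - w) = Gx a * Gx b / Gx (a + b) * cpw (a + b) z)
    (a : ℂ) (ha : 0 < a.re) (hab : a.re + b.re < 2) :
    ∫ w, cpw a w * cpw b (z - w) = Gx a * Gx b / Gx (a + b) * cpw (a + b) z := by
  set U : Set ℂ := {a : ℂ | 0 < a.re ∧ a.re < 2 - b.re} with hU
  have hUo : IsOpen U :=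
    (isOpen_lt continuous_const Complex.continuous_re).inter
      (isOpen_lt Complex.continuous_re continuous_const)
  have hUc : IsPreconnected U := by
    have : Convex ℝ U := by
      have h1 : U = Complex.reLm ⁻¹' Set.Ioo 0 (2 - b.re) := rfl
      rw [h1]
      exact (convex_Ioo 0 (2 - b.re)).linear_preimage _
    exact this.isPreconnected
  have hF : AnalyticOnNhd ℂ (fun a => ∫ w, cpw a w * cpw b (z - w)) U :=
    DifferentiableOn.analyticOnNhd (fun a ha =>
      (int_diff b hb z hz a ha.1 (by have := ha.2; linarith)).differentiableWithinAt) hUo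
  have hG : AnalyticOnNhd ℂ (fun a => Gx a * Gx b / Gx (a + b) * cpw (a + b) z) U := by
    refine DifferentiableOn.analyticOnNhd (fun a ha => ?_) hUo
    have h1 := ha.1
    have h2 := ha.2
    have h3 : 0 < (a + b).re := by rw [Complex.add_re]; linarith
    have h4 : (a + b).re < 2 := by rw [Complex.add_re]; linarith
    have hd : DifferentiableAt ℂ (fun a : ℂ => a + b) a := by fun_prop
    refine DifferentiableAt.differentiableWithinAt ?_
    refine DifferentiableAt.mul (DifferentiableAt.div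
      ((Gx_diff h1 (by linarith)).mul_const _) (DifferentiableAt.comp a (Gx_diff h3 h4) hd)
      (Gx_ne h3 h4)) ?_
    exact DifferentiableAt.comp (g := fun a => cpw a z) a
      (cpw_diff z (a + b) h4).differentiableAt hd
  set x0 : ℝ := (2 - b.re) / 2 with hx0
  have hx0U : (x0 : ℂ) ∈ U := by
    constructor
    · rw [Complex.ofReal_re]; linarith
    · rw [Complex.ofReal_re]; linarith
  have hfreq : ∃ᶠ a in 𝓝[≠] (x0 : ℂ), (∫ w, cpw a w * cpw b (z - w)) =
      Gx a * Gx b / Gx (a + b) * cpw (a + b) z := by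
    have ht : Tendsto (fun x : ℝ => (x : ℂ)) (𝓝[≠] x0) (𝓝[≠] (x0 : ℂ)) := by
      refine tendsto_nhdsWithin_of_tendsto_nhds_of_eventually_within _
        ((Complex.continuous_ofReal.tendsto x0).mono_left nhdsWithin_le_nhds) ?_
      filter_upwards [self_mem_nhdsWithin] with x hx
      simpa using hx
    refine ht.frequently (Eventually.frequently ?_)
    have : ∀ᶠ x in 𝓝 x0, x ∈ Set.Ioo 0 (2 - b.re) :=
      Ioo_mem_nhds (by linarith) (by linarith)
    filter_upwards [this.filter_mono nhdsWithin_le_nhds] with x hx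
    exact h x hx.1 (by have := hx.2; linarith)
  exact hF.eqOn_of_preconnected_of_frequently_eq hG hUc hx0U hfreq
    (show a ∈ U from ⟨ha, by linarith⟩)

theorem swap_conv (a b z : ℂ) :
    ∫ w, cpw a w * cpw b (z - w) = ∫ w, cpw b w * cpw a (z - w) := by
  have h := integral_sub_left_eq_self (fun w => cpw a w * cpw b (z - w)) (volume : Measure ℂ) z
  rw [← h]
  refine integral_congr_ae (Eventually.of_forall fun w => ?_)
  show cpw a (z - w) * cpw b (z - (z - w)) = cpw b w * cpw a (z - w)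
  rw [sub_sub_cancel, mul_comm]

/-- Riesz composition formula in the plane, complex exponents -/
theorem riesz_cx (a b : ℂ) (ha : 0 < a.re) (hb : 0 < b.re) (hab : a.re + b.re < 2) (z : ℂ)
    (hz : z ≠ 0) :
    Integrable (fun w => cpw a w * cpw b (z - w)) ∧
    ∫ w, cpw a w * cpw b (z - w) = Gx a * Gx b / Gx (a + b) * cpw (a + b) z := by
  refine ⟨int_cx a b ha hb hab z hz, ?_⟩
  -- first: `b` real, `a` complex
  have step1 : ∀ (a : ℂ) (b : ℝ), 0 < a.re → 0 < b → a.re + b < 2 →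
      ∫ w, cpw a w * cpw b (z - w) = Gx a * Gx b / Gx (a + b) * cpw (a + b) z := by
    intro a b ha hb hab
    refine cont_first (b : ℂ) (by simpa using hb) z hz
      (fun a ha h => real_case a b ha hb (by simpa using h) z hz) a ha (by simpa using hab)
  refine cont_first b hb z hz (fun a ha h => ?_) a ha hab
  rw [swap_conv, step1 b a hb ha (by linarith), add_comm b (a : ℂ), mul_comm (Gx b)]

end Helper85.BP.P
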