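import Mathlib

set_option autoImplicit false

namespace Pool.Agent.Helper37.Benz

/-- Vertices of the hexagonal lattice. -/
abbrev Vtx := ℤ × ℤ × Bool

/-- `u` is of the first class, `w` of the second class, and they are neighbours in the hexagonal
lattice: `(x, y, false)` is joined to `(x, y, true)`, `(x - 1, y, true)` and `(x, y - 1, true)`. -/
def Nbr (u w : Vtx) : Prop :=
  u.2.2 = false ∧ w.2.2 = true ∧
    ((w.1 = u.1 ∧ w.2.1 = u.2.1) ∨ (w.1 = u.1 - 1 ∧ w.2.1 = u.2.1) ∨
      (w.1 = u.1 ∧ w.2.1 = u.2.1 - 1))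

/-- The hexagonal (honeycomb) lattice. -/
def lattice : SimpleGraph Vtx where
  Adj u w := Nbr u w ∨ Nbr w u
  symm := ⟨fun _ _ h => Or.symm h⟩
  loopless := ⟨fun u h => by
    have h' : Nbr u u := by rcases h with h | h <;> exact h
    have := h'.1.symm.trans h'.2.1
    exact absurd this (by decide)⟩

/-- The six corners of the hexagon with index `p`, in cyclic order. -/
def corner (p : ℤ × ℤ) : Fin 6 → Vtx :=
  ![(p.1, p.2, false), (p.1 - 1, p.2, true), (p.1 - 1, p.2, false),
    (p.1 - 1, p.2 - 1, true), (p.1, p.2 - 1, false), (p.1, p.2 - 1, true)]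

/-- The six edges of the hexagon with index `p`. -/
def hexEdges (p : ℤ × ℤ) : Finset (Sym2 Vtx) :=
  Finset.univ.image fun i : Fin 6 => s(corner p i, corner p (i + 1))

/-- The finite set `F` consists of the hexagons of a benzenoid system: some cycle `C` of the
lattice consists exactly of those edges which belong to exactly one hexagon of `F`, that is, `F` is
the set of the hexagons inside `C`. -/
def IsBenzenoid (F : Finset (ℤ × ℤ)) : Prop :=
  ∃ (u : Vtx) (C : lattice.Walk u u), C.IsCycle ∧
    ∀ e : Sym2 Vtx, e ∈ C.edges ↔ ∃! p : ℤ × ℤ, p ∈ F ∧ e ∈ hexEdges p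

/-- The vertices of the benzenoid system with set `F` of hexagons. -/
def verts (F : Finset (ℤ × ℤ)) : Finset Vtx := F.biUnion fun p => Finset.univ.image (corner p)

/-- The edges of the benzenoid system with set `F` of hexagons. -/
def edges (F : Finset (ℤ × ℤ)) : Finset (Sym2 Vtx) := F.biUnion hexEdges

open Classical in
/-- The set of Kekule structures (perfect matchings) of the benzenoid system. -/
noncomputable def kekule (F : Finset (ℤ × ℤ)) : Finset (Finset (Sym2 Vtx)) :=
  (edges F).powerset.filter fun M => ∀ v ∈ verts F, ∃! e, e ∈ M ∧ v ∈ e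

/-- The Pauling bond order of the edge `e`. -/
noncomputable def pauling (F : Finset (ℤ × ℤ)) (e : Sym2 Vtx) : ℚ :=
  (((kekule F).filter fun M => e ∈ M).card : ℚ) / ((kekule F).card : ℚ)

/-- The ring bond order of the hexagon `h`. -/
noncomputable def RBO (F : Finset (ℤ × ℤ)) (h : ℤ × ℤ) : ℚ := ∑ e ∈ hexEdges h, pauling F e

end Pool.Agent.Helper37.Benz
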