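import Mathlib
import Pool.Agent.Helper37.BenzDefs

set_option autoImplicit false

namespace Pool.Agent.Helper37.Benz

/-- the 67 hexagons -/
def hexList : List (ℤ × ℤ) := [
    (-6, 3), (-6, 4), (-5, 2), (-5, 3), (-5, 4), (-4, -2), (-4, -1), (-4, 0), (-4, 3), (-4, 4), (-3, -3), (-3, -2),
    (-3, -1), (-3, 2), (-3, 5), (-3, 6), (-2, -3), (-2, -1), (-2, 0), (-2, 1), (-2, 2), (-2, 5), (-2, 6), (-1, -1),
    (-1, 0), (-1, 1), (-1, 2), (-1, 3), (-1, 4), (-1, 5), (0, -4), (0, -2), (0, -1), (0, 0), (0, 1), (0, 2),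
    (0, 4), (1, -5), (1, -4), (1, -3), (1, -2), (1, -1), (1, 0), (1, 1), (2, -6), (2, -5), (2, -2), (2, -1),
    (2, 0), (2, 1), (2, 3), (3, -6), (3, -5), (3, -2), (3, 1), (3, 2), (3, 3), (4, -4), (4, -3), (4, 0),
    (4, 1), (4, 2), (5, -4), (5, -3), (5, -2), (6, -4), (6, -3)]

/-- the boundary cycle, of length 150 -/
def cycList : List Vtx := [
    (-7, 2, true), (-7, 3, false), (-7, 3, true), (-7, 4, false), (-7, 4, true), (-6, 4, false),
    (-6, 4, true), (-5, 4, false), (-5, 4, true), (-4, 4, false), (-4, 3, true), (-4, 3, false),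
    (-4, 2, true), (-3, 2, false), (-3, 2, true), (-2, 2, false), (-2, 2, true), (-2, 3, false),
    (-2, 3, true), (-2, 4, false), (-3, 4, true), (-3, 4, false), (-4, 4, true), (-4, 5, false),
    (-4, 5, true), (-4, 6, false), (-4, 6, true), (-3, 6, false), (-3, 6, true), (-2, 6, false),
    (-2, 5, true), (-1, 5, false), (-1, 4, true), (0, 4, false), (0, 3, true), (0, 3, false),
    (-1, 3, true), (-1, 3, false), (-1, 2, true), (0, 2, false), (0, 1, true), (1, 1, false),
    (1, 1, true), (2, 1, false), (2, 1, true), (2, 2, false), (1, 2, true), (1, 3, false),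
    (1, 3, true), (2, 3, false), (2, 3, true), (3, 3, false), (3, 2, true), (4, 2, false),
    (4, 1, true), (4, 1, false), (4, 0, true), (4, 0, false), (4, -1, true), (4, -1, false),
    (3, -1, true), (3, 0, false), (2, 0, true), (2, 0, false), (2, -1, true), (2, -1, false),
    (2, -2, true), (3, -2, false), (3, -3, true), (4, -3, false), (4, -3, true), (4, -2, false),
    (4, -2, true), (5, -2, false), (5, -3, true), (6, -3, false), (6, -4, true), (6, -4, false),
    (6, -5, true), (6, -5, false), (5, -5, true), (5, -5, false), (4, -5, true), (4, -5, false),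
    (3, -5, true), (3, -4, false), (3, -4, true), (3, -3, false), (2, -3, true), (2, -3, false),
    (1, -3, true), (1, -3, false), (1, -4, true), (1, -4, false), (1, -5, true), (2, -5, false),
    (2, -5, true), (3, -5, false), (3, -6, true), (3, -6, false), (3, -7, true), (3, -7, false),
    (2, -7, true), (2, -7, false), (1, -7, true), (1, -6, false), (0, -6, true), (0, -5, false),
    (-1, -5, true), (-1, -4, false), (-1, -4, true), (0, -4, false), (0, -4, true), (0, -3, false),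
    (-1, -3, true), (-1, -2, false), (-2, -2, true), (-2, -2, false), (-3, -2, true), (-3, -2, false),
    (-3, -3, true), (-2, -3, false), (-2, -4, true), (-2, -4, false), (-3, -4, true), (-3, -4, false),
    (-4, -4, true), (-4, -3, false), (-5, -3, true), (-5, -2, false), (-5, -2, true), (-5, -1, false),
    (-5, -1, true), (-5, 0, false), (-5, 0, true), (-4, 0, false), (-4, -1, true), (-3, -1, false),
    (-3, -1, true), (-3, 0, false), (-3, 0, true), (-3, 1, false), (-4, 1, true), (-4, 2, false),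
    (-5, 2, true), (-5, 2, false), (-5, 1, true), (-5, 1, false), (-6, 1, true), (-6, 2, false),
    (-7, 2, true)]

/-- the edges of the boundary cycle, as edges of hexagons -/
def bdList : List ((ℤ × ℤ) × Fin 6) := [
    ((-6, 3), 2), ((-6, 3), 1), ((-6, 4), 2), ((-6, 4), 1), ((-6, 4), 0), ((-5, 4), 1), ((-5, 4), 0), ((-4, 4), 1),
    ((-4, 4), 0), ((-4, 4), 5), ((-4, 4), 4), ((-4, 3), 5), ((-3, 2), 0), ((-2, 2), 1), ((-2, 2), 0), ((-1, 2), 1),
    ((-1, 3), 2), ((-1, 3), 1), ((-1, 4), 2), ((-2, 5), 3), ((-3, 5), 4), ((-3, 5), 3), ((-3, 5), 2), ((-3, 5), 1),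
    ((-3, 6), 2), ((-3, 6), 1), ((-3, 6), 0), ((-2, 6), 1), ((-2, 6), 0), ((-2, 6), 5), ((-1, 5), 0), ((-1, 5), 5),
    ((0, 4), 0), ((0, 4), 5), ((0, 4), 4), ((0, 4), 3), ((-1, 4), 4), ((-1, 3), 5), ((0, 2), 0), ((0, 2), 5),
    ((1, 1), 0), ((2, 1), 1), ((2, 1), 0), ((3, 1), 1), ((3, 2), 2), ((2, 3), 3), ((2, 3), 2), ((2, 3), 1),
    ((2, 3), 0), ((3, 3), 1), ((3, 3), 0), ((3, 3), 5), ((4, 2), 0), ((4, 2), 5), ((4, 2), 4), ((4, 1), 5),
    ((4, 1), 4), ((4, 0), 5), ((4, 0), 4), ((4, 0), 3), ((4, 0), 2), ((3, 1), 3), ((2, 1), 4), ((2, 0), 5),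
    ((2, 0), 4), ((2, -1), 5), ((3, -2), 0), ((3, -2), 5), ((4, -3), 0), ((5, -3), 1), ((5, -2), 2), ((5, -2), 1),
    ((5, -2), 0), ((5, -2), 5), ((6, -3), 0), ((6, -3), 5), ((6, -3), 4), ((6, -4), 5), ((6, -4), 4), ((6, -4), 3),
    ((5, -4), 4), ((5, -4), 3), ((4, -4), 4), ((4, -4), 3), ((4, -4), 2), ((4, -4), 1), ((4, -3), 2), ((3, -2), 3),
    ((2, -2), 4), ((2, -2), 3), ((1, -2), 4), ((1, -3), 5), ((1, -3), 4), ((1, -4), 5), ((2, -5), 0), ((3, -5), 1),
    ((3, -5), 0), ((3, -5), 5), ((3, -5), 4), ((3, -6), 5), ((3, -6), 4), ((3, -6), 3), ((2, -6), 4), ((2, -6), 3),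
    ((2, -6), 2), ((1, -5), 3), ((1, -5), 2), ((0, -4), 3), ((0, -4), 2), ((0, -4), 1), ((0, -4), 0), ((1, -4), 1),
    ((1, -3), 2), ((0, -2), 3), ((0, -2), 2), ((-1, -1), 3), ((-2, -1), 4), ((-2, -1), 3), ((-3, -1), 4), ((-3, -2), 5),
    ((-2, -3), 0), ((-2, -3), 5), ((-2, -3), 4), ((-2, -3), 3), ((-3, -3), 4), ((-3, -3), 3), ((-3, -3), 2), ((-4, -2), 3),
    ((-4, -2), 2), ((-4, -2), 1), ((-4, -1), 2), ((-4, -1), 1), ((-4, 0), 2), ((-4, 0), 1), ((-4, 0), 0), ((-4, 0), 5),
    ((-3, -1), 0), ((-2, -1), 1), ((-2, 0), 2), ((-2, 0), 1), ((-2, 1), 2), ((-3, 2), 3), ((-3, 2), 2), ((-4, 3), 3),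
    ((-5, 3), 4), ((-5, 2), 5), ((-5, 2), 4), ((-5, 2), 3), ((-5, 2), 2), ((-6, 3), 3)]

/-- a perfect matching -/
def matchList : List ((ℤ × ℤ) × Fin 6) := [
    ((-6, 3), 2), ((-6, 4), 0), ((-6, 4), 2), ((-6, 4), 4), ((-5, 2), 0), ((-5, 2), 2), ((-5, 2), 4), ((-5, 4), 0),
    ((-5, 4), 4), ((-4, -2), 2), ((-4, -1), 2), ((-4, -1), 4), ((-4, 0), 0), ((-4, 0), 2), ((-4, 0), 4), ((-4, 3), 3),
    ((-4, 4), 0), ((-4, 4), 4), ((-3, -3), 0), ((-3, -3), 2), ((-3, -3), 4), ((-3, -1), 4), ((-3, 2), 0), ((-3, 2), 3),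
    ((-3, 5), 2), ((-3, 5), 4), ((-3, 6), 0), ((-3, 6), 2), ((-3, 6), 4), ((-2, -3), 0), ((-2, -3), 4), ((-2, -1), 1),
    ((-2, -1), 4), ((-2, 0), 1), ((-2, 0), 4), ((-2, 1), 0), ((-2, 1), 4), ((-2, 2), 0), ((-2, 5), 5), ((-2, 6), 0),
    ((-1, -1), 5), ((-1, 1), 0), ((-1, 1), 4), ((-1, 2), 5), ((-1, 3), 2), ((-1, 3), 5), ((-1, 4), 2), ((-1, 4), 5),
    ((-1, 5), 0), ((0, -4), 0), ((0, -4), 2), ((0, -2), 2), ((0, -2), 5), ((0, -1), 0), ((0, 0), 5), ((0, 1), 5),
    ((0, 2), 5), ((0, 4), 0), ((0, 4), 4), ((1, -5), 0), ((1, -5), 2), ((1, -4), 5), ((1, -3), 2), ((1, -3), 5),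
    ((1, -2), 0), ((1, 0), 4), ((1, 1), 4), ((2, -6), 0), ((2, -6), 2), ((2, -6), 4), ((2, -2), 0), ((2, -2), 3),
    ((2, 0), 4), ((2, 1), 1), ((2, 1), 4), ((2, 3), 0), ((2, 3), 2), ((2, 3), 4), ((3, -6), 0), ((3, -6), 4),
    ((3, -5), 1), ((3, -5), 5), ((3, -2), 0), ((3, -2), 3), ((3, 1), 1), ((3, 1), 5), ((3, 3), 0), ((3, 3), 4),
    ((4, -4), 0), ((4, -4), 2), ((4, -4), 4), ((4, -3), 0), ((4, 0), 2), ((4, 0), 4), ((4, 1), 0), ((4, 1), 4),
    ((4, 2), 5), ((5, -4), 0), ((5, -4), 4), ((5, -3), 5), ((5, -2), 0), ((5, -2), 2), ((6, -4), 4), ((6, -3), 0),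
    ((6, -3), 4)]

/-- vertices of the first class in the sectors 0, 2, 4 -/
def evenT : List Vtx := [
    (-5, -2, false), (-5, -1, false), (-5, 0, false), (-4, -3, false), (-4, -2, false), (-4, -1, false),
    (-4, 0, false), (-4, 5, false), (-4, 6, false), (-3, -4, false), (-3, -3, false), (-3, -2, false),
    (-3, -1, false), (-3, 0, false), (-3, 4, false), (-3, 5, false), (-3, 6, false), (-2, -4, false),
    (-2, -3, false), (-2, -2, false), (-2, -1, false), (-2, 0, false), (-2, 3, false), (-2, 4, false),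
    (-2, 5, false), (-2, 6, false), (-1, 2, false), (-1, 3, false), (-1, 4, false), (-1, 5, false),
    (0, 1, false), (0, 2, false), (0, 3, false), (0, 4, false), (1, -2, false), (2, -3, false),
    (2, -2, false), (3, -4, false), (3, -3, false), (3, -2, false), (4, -5, false), (4, -4, false),
    (4, -3, false), (4, -2, false), (5, -5, false), (5, -4, false), (5, -3, false), (5, -2, false),
    (6, -5, false), (6, -4, false), (6, -3, false)]

/-- vertices of the second class in the sectors 0, 2, 4 -/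
def evenU : List Vtx := [
    (-5, -3, true), (-5, -2, true), (-5, -1, true), (-5, 0, true), (-4, -4, true), (-4, -3, true),
    (-4, -2, true), (-4, -1, true), (-4, 4, true), (-4, 5, true), (-4, 6, true), (-3, -4, true),
    (-3, -3, true), (-3, -2, true), (-3, -1, true), (-3, 0, true), (-3, 4, true), (-3, 5, true),
    (-3, 6, true), (-2, -4, true), (-2, -2, true), (-2, -1, true), (-2, 0, true), (-2, 2, true),
    (-2, 3, true), (-2, 4, true), (-2, 5, true), (-1, 1, true), (-1, 2, true), (-1, 3, true),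
    (-1, 4, true), (0, -2, true), (0, 0, true), (0, 1, true), (0, 3, true), (1, -3, true),
    (1, -2, true), (2, -3, true), (2, -2, true), (3, -5, true), (3, -4, true), (3, -3, true),
    (4, -5, true), (4, -4, true), (4, -3, true), (4, -2, true), (5, -5, true), (5, -4, true),
    (5, -3, true), (6, -5, true), (6, -4, true)]

/-- vertices of the second class in the sectors 1, 3, 5 -/
def oddT : List Vtx := [
    (-7, 2, true), (-7, 3, true), (-7, 4, true), (-6, 1, true), (-6, 2, true), (-6, 3, true),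
    (-6, 4, true), (-5, 1, true), (-5, 2, true), (-5, 3, true), (-5, 4, true), (-4, 1, true),
    (-4, 2, true), (-4, 3, true), (-3, 1, true), (-3, 2, true), (-2, 1, true), (-1, -5, true),
    (-1, -4, true), (-1, -3, true), (-1, -2, true), (0, -6, true), (0, -5, true), (0, -4, true),
    (0, -3, true), (1, -7, true), (1, -6, true), (1, -5, true), (1, -4, true), (1, -1, true),
    (1, 0, true), (1, 1, true), (1, 2, true), (1, 3, true), (2, -7, true), (2, -6, true),
    (2, -5, true), (2, -1, true), (2, 0, true), (2, 1, true), (2, 2, true), (2, 3, true),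
    (3, -7, true), (3, -6, true), (3, -1, true), (3, 0, true), (3, 1, true), (3, 2, true),
    (4, -1, true), (4, 0, true), (4, 1, true)]

/-- vertices of the first class in the sectors 1, 3, 5 -/
def oddU : List Vtx := [
    (-7, 3, false), (-7, 4, false), (-6, 2, false), (-6, 3, false), (-6, 4, false), (-5, 1, false),
    (-5, 2, false), (-5, 3, false), (-5, 4, false), (-4, 2, false), (-4, 3, false), (-4, 4, false),
    (-3, 1, false), (-3, 2, false), (-2, 1, false), (-2, 2, false), (-1, -4, false), (-1, -2, false),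
    (-1, -1, false), (-1, 1, false), (0, -5, false), (0, -4, false), (0, -3, false), (0, -2, false),
    (1, -6, false), (1, -5, false), (1, -4, false), (1, -3, false), (1, -1, false), (1, 0, false),
    (1, 1, false), (1, 3, false), (2, -7, false), (2, -6, false), (2, -5, false), (2, -1, false),
    (2, 0, false), (2, 1, false), (2, 2, false), (2, 3, false), (3, -7, false), (3, -6, false),
    (3, -5, false), (3, 0, false), (3, 1, false), (3, 2, false), (3, 3, false), (4, -1, false),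
    (4, 0, false), (4, 1, false), (4, 2, false)]

/-- the neighbouring hexagon across edge `i` -/
def nb (p : ℤ × ℤ) (i : Fin 6) : ℤ × ℤ :=
  (![(p.1, p.2 + 1), (p.1 - 1, p.2 + 1), (p.1 - 1, p.2), (p.1, p.2 - 1), (p.1 + 1, p.2 - 1),
    (p.1 + 1, p.2)] : Fin 6 → ℤ × ℤ) i

/-- edge `i` of the hexagon `p` -/
def edge (x : (ℤ × ℤ) × Fin 6) : Sym2 Vtx := s(corner x.1 x.2, corner x.1 (x.2 + 1))

theorem mem_hexEdges (p : ℤ × ℤ) (e : Sym2 Vtx) : e ∈ hexEdges p ↔ ∃ i, edge (p, i) = e := by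
  unfold hexEdges edge
  simp

def star : List Vtx :=
  [(0, 0, false), (-1, 0, true), (-1, 0, false), (-1, -1, true), (0, -1, false), (0, -1, true)]

theorem chk_cyc : ∀ x ∈ bdList, x.1 ∈ hexList ∧ nb x.1 x.2 ∉ hexList := by decide +kernel

theorem chk_cyc2 : ∀ p ∈ hexList, ∀ i : Fin 6, nb p i ∉ hexList → (p, i) ∈ bdList := by
  decide +kernel

theorem chk_edges : List.zipWith (fun a b => s(a, b)) cycList cycList.tail = bdList.map edge := by
  decide +kernel

theorem chk_nodup : cycList.tail.Nodup := by decide +kernel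

theorem chk_sec1 : ∀ p ∈ hexList, ∀ i : Fin 6,
    (corner p i ∈ evenT → corner p (i + 1) ∈ evenU) ∧
    (corner p (i + 1) ∈ evenT → corner p i ∈ evenU) := by decide +kernel

theorem chk_sec2 : ∀ p ∈ hexList, ∀ i : Fin 6,
    (corner p i ∈ oddT → corner p (i + 1) ∈ oddU) ∧
    (corner p (i + 1) ∈ oddT → corner p i ∈ oddU) := by decide +kernel

theorem chk_all : ∀ p ∈ hexList, ∀ i : Fin 6,
    corner p i ∈ evenT ++ (evenU ++ (oddT ++ (oddU ++ star))) := by decide +kernel

theorem chk_verts : ∀ v ∈ evenT ++ (evenU ++ (oddT ++ (oddU ++ star))),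
    (matchList.filter fun x => decide (v = corner x.1 x.2 ∨ v = corner x.1 (x.2 + 1))).length = 1 := by
  decide +kernel

theorem chk_match : ∀ x ∈ matchList, x.1 ∈ hexList := by decide +kernel

theorem chk_star : ∀ p ∈ hexList, ∀ i : Fin 6, corner p i ∈ star → corner p (i + 1) ∈ star →
    ∃ j : Fin 6, (corner p i = corner (0, 0) j ∧ corner p (i + 1) = corner (0, 0) (j + 1)) ∨
      (corner p i = corner (0, 0) (j + 1) ∧ corner p (i + 1) = corner (0, 0) j) := by
  decide +kernel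

theorem chk_disj : (∀ v ∈ star, v ∉ evenU ∧ v ∉ oddU) := by decide +kernel

theorem chk_len : evenT.Nodup ∧ evenU.Nodup ∧ oddT.Nodup ∧ oddU.Nodup ∧
    evenT.length = evenU.length ∧ oddT.length = oddU.length ∧ hexList.Nodup ∧ hexList.length = 67 ∧
    (0, 0) ∈ hexList := by
  decide +kernel

theorem chk_disj2 : (∀ v ∈ star, v ∉ evenT ∧ v ∉ oddT) := by decide +kernel

attribute [irreducible] hexList cycList bdList matchList evenT evenU oddT oddU star

end Pool.Agent.Helper37.Benz
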