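import Mathlib
import Pool.Agent.Helper37.BenzData

set_option autoImplicit false

namespace Pool.Agent.Helper37.Benz

instance (u w : Vtx) : Decidable (Nbr u w) := by unfold Nbr; infer_instance

instance : DecidableRel lattice.Adj := fun u w => by unfold lattice; infer_instance

/-! ### general facts -/

theorem mem_verts_iff (F : Finset (ℤ × ℤ)) (v : Vtx) :
    v ∈ verts F ↔ ∃ p ∈ F, ∃ i, corner p i = v := by
  unfold verts
  simp

theorem mem_edges_iff (F : Finset (ℤ × ℤ)) (e : Sym2 Vtx) :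
    e ∈ edges F ↔ ∃ p ∈ F, ∃ i, edge (p, i) = e := by
  unfold edges
  simp [mem_hexEdges]

theorem mem_verts_of_edge {F : Finset (ℤ × ℤ)} {e : Sym2 Vtx} (he : e ∈ edges F) {v : Vtx}
    (hv : v ∈ e) : v ∈ verts F := by
  rw [mem_edges_iff] at he
  obtain ⟨p, hp, i, rfl⟩ := he
  rw [mem_verts_iff]
  unfold edge at hv
  rw [Sym2.mem_iff] at hv
  rcases hv with rfl | rfl
  · exact ⟨p, hp, i, rfl⟩
  · exact ⟨p, hp, i + 1, rfl⟩

theorem mem_kekule {F : Finset (ℤ × ℤ)} {M : Finset (Sym2 Vtx)} :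
    M ∈ kekule F ↔ M ⊆ edges F ∧ ∀ v ∈ verts F, ∃! e, e ∈ M ∧ v ∈ e := by
  unfold kekule
  simp [Finset.mem_filter]

/-- The counting argument for one sector: if all neighbours of the vertices of `T` lie in `U` and
both sets have the same size then every perfect matching matches `U` into `T`. -/
theorem sector {F : Finset (ℤ × ℤ)} {M : Finset (Sym2 Vtx)} (hM : M ∈ kekule F)
    (T U : Finset Vtx) (hT : T ⊆ verts F) (hcard : U.card ≤ T.card)
    (hnb : ∀ a b, s(a, b) ∈ edges F → a ∈ T → b ∈ U) :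
    ∀ a b, s(a, b) ∈ M → b ∈ U → a ∈ T := by
  classical
  rw [mem_kekule] at hM
  obtain ⟨hsub, hM⟩ := hM
  have h1 : ∀ t : Vtx, t ∈ T → ∃ u, u ∈ U ∧ s(t, u) ∈ M := by
    intro t ht
    obtain ⟨e, ⟨he, hte⟩, _⟩ := hM t (hT ht)
    obtain ⟨u, rfl⟩ := hte
    exact ⟨u, hnb t u (hsub he) ht, he⟩
  choose! φ hφ using h1
  have hinj : Set.InjOn φ T := by
    intro t ht t' ht' heq
    have ht : t ∈ T := ht
    have ht' : t' ∈ T := ht'
    have m1 := (hφ t ht).2
    have m2 := (hφ t' ht').2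
    rw [← heq] at m2
    have hv : φ t ∈ verts F := mem_verts_of_edge (hsub m1) (Sym2.mem_mk_right _ _)
    have := (hM _ hv).unique ⟨m1, Sym2.mem_mk_right _ _⟩ ⟨m2, Sym2.mem_mk_right _ _⟩
    rw [Sym2.eq_iff] at this
    rcases this with ⟨h, _⟩ | ⟨h, h'⟩
    · exact h
    · exact h.trans h'
  have himg : T.image φ = U := by
    apply Finset.eq_of_subset_of_card_le
    · intro u hu
      obtain ⟨t, ht, rfl⟩ := Finset.mem_image.1 hu
      exact (hφ t ht).1
    · rw [Finset.card_image_of_injOn hinj]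
      exact hcard
  intro a b hab hb
  rw [← himg] at hb
  obtain ⟨t, ht, rfl⟩ := Finset.mem_image.1 hb
  have m1 := (hφ t ht).2
  have hv : φ t ∈ verts F := mem_verts_of_edge (hsub m1) (Sym2.mem_mk_right _ _)
  have := (hM _ hv).unique ⟨m1, Sym2.mem_mk_right _ _⟩ ⟨hab, Sym2.mem_mk_right _ _⟩
  rw [Sym2.eq_iff] at this
  rcases this with ⟨h, _⟩ | ⟨h, h'⟩
  · rw [← h]; exact ht
  · rw [← h', ← h]; exact ht

/-! ### the example -/

/-- the set of hexagons -/
def FF : Finset (ℤ × ℤ) := hexList.toFinset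

theorem mem_FF (p : ℤ × ℤ) : p ∈ FF ↔ p ∈ hexList := List.mem_toFinset

theorem card_FF : FF.card = 67 := by
  unfold FF
  rw [List.toFinset_card_of_nodup chk_len.2.2.2.2.2.2.1]
  exact chk_len.2.2.2.2.2.2.2.1

theorem edge_pair {a b : Vtx} (h : s(a, b) ∈ edges FF) : ∃ p ∈ hexList, ∃ i : Fin 6,
    (a = corner p i ∧ b = corner p (i + 1)) ∨ (a = corner p (i + 1) ∧ b = corner p i) := by
  rw [mem_edges_iff] at h
  obtain ⟨p, hp, i, he⟩ := h
  rw [mem_FF] at hp
  refine ⟨p, hp, i, ?_⟩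
  unfold edge at he
  rw [Sym2.eq_iff] at he
  rcases he with ⟨h1, h2⟩ | ⟨h1, h2⟩
  · exact Or.inl ⟨h1.symm, h2.symm⟩
  · exact Or.inr ⟨h2.symm, h1.symm⟩

/-- every edge of a perfect matching at a vertex of the central hexagon is an edge of that
hexagon -/
theorem star_closed {M : Finset (Sym2 Vtx)} (hM : M ∈ kekule FF) {v : Vtx} (hv : v ∈ star)
    {w : Vtx} (h : s(v, w) ∈ M) : s(v, w) ∈ hexEdges (0, 0) := by
  classical
  have hsub := (mem_kekule.1 hM).1
  obtain ⟨n1, n2, n3, n4, l1, l2, _⟩ := chk_len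
  have hedge := hsub h
  obtain ⟨p, hp, i, hpi⟩ := edge_pair hedge
  -- the sets
  have hTe : evenT.toFinset ⊆ verts FF → ∀ a b, s(a, b) ∈ M → b ∈ evenU → a ∈ evenT := by
    intro hT a b hab hb
    have := sector hM evenT.toFinset evenU.toFinset hT (by
      rw [List.toFinset_card_of_nodup n1, List.toFinset_card_of_nodup n2]; exact l1.ge) (by
      intro a b hab ha
      rw [List.mem_toFinset] at ha ⊢
      obtain ⟨p, hp, i, h | h⟩ := edge_pair hab
      · rw [h.1] at ha; rw [h.2]; exact (chk_sec1 p hp i).1 ha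
      · rw [h.1] at ha; rw [h.2]; exact (chk_sec1 p hp i).2 ha) a b hab (List.mem_toFinset.2 hb)
    exact List.mem_toFinset.1 this
  have hTo : oddT.toFinset ⊆ verts FF → ∀ a b, s(a, b) ∈ M → b ∈ oddU → a ∈ oddT := by
    intro hT a b hab hb
    have := sector hM oddT.toFinset oddU.toFinset hT (by
      rw [List.toFinset_card_of_nodup n3, List.toFinset_card_of_nodup n4]; exact l2.ge) (by
      intro a b hab ha
      rw [List.mem_toFinset] at ha ⊢
      obtain ⟨p, hp, i, h | h⟩ := edge_pair hab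
      · rw [h.1] at ha; rw [h.2]; exact (chk_sec2 p hp i).1 ha
      · rw [h.1] at ha; rw [h.2]; exact (chk_sec2 p hp i).2 ha) a b hab (List.mem_toFinset.2 hb)
    exact List.mem_toFinset.1 this
  have hverts : ∀ v ∈ evenT ++ (evenU ++ (oddT ++ (oddU ++ star))), v ∈ verts FF := by
    intro v hv
    have h1 := chk_verts v hv
    have h2 : (matchList.filter fun x => decide (v = corner x.1 x.2 ∨ v = corner x.1 (x.2 + 1))) ≠ [] := by
      intro h; rw [h] at h1; simp at h1
    obtain ⟨x, hx⟩ := List.exists_mem_of_ne_nil _ h2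
    rw [List.mem_filter] at hx
    have h3 := of_decide_eq_true hx.2
    rw [mem_verts_iff]
    refine ⟨x.1, (mem_FF _).2 (chk_match x hx.1), ?_⟩
    rcases h3 with h3 | h3
    · exact ⟨_, h3.symm⟩
    · exact ⟨_, h3.symm⟩
  have hTe' := hTe (by
    intro v hv; rw [List.mem_toFinset] at hv; exact hverts v (by simp [hv]))
  have hTo' := hTo (by
    intro v hv; rw [List.mem_toFinset] at hv; exact hverts v (by simp [hv]))
  obtain ⟨d1, d2⟩ := chk_disj v hv
  have hvw : v ∈ star ∧ w ∈ star := by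
    refine ⟨hv, ?_⟩
    have hw : w ∈ evenT ++ (evenU ++ (oddT ++ (oddU ++ star))) := by
      rcases hpi with h | h
      · rw [h.2]; exact chk_all p hp _
      · rw [h.2]; exact chk_all p hp _
    simp only [List.mem_append] at hw
    rcases hw with hw | hw | hw | hw | hw
    · -- w in evenT: then v in evenU
      exfalso
      apply d1
      rcases hpi with h | h
      · rw [h.1]; rw [h.2] at hw; exact (chk_sec1 p hp i).2 hw
      · rw [h.1]; rw [h.2] at hw; exact (chk_sec1 p hp i).1 hw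
    · exact absurd (hTe' v w h hw) (chk_disj2 v hv).1
    · exfalso
      apply d2
      rcases hpi with h | h
      · rw [h.1]; rw [h.2] at hw; exact (chk_sec2 p hp i).2 hw
      · rw [h.1]; rw [h.2] at hw; exact (chk_sec2 p hp i).1 hw
    · exact absurd (hTo' v w h hw) (chk_disj2 v hv).2
    · exact hw
  -- both endpoints in the star
  rw [mem_hexEdges]
  rcases hpi with h | h
  · have h1 := hvw.1
    have h2 := hvw.2
    rw [h.1] at h1
    rw [h.2] at h2
    obtain ⟨j, hj | hj⟩ := chk_star p hp i h1 h2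
    · exact ⟨j, by unfold edge; rw [h.1, h.2, hj.1, hj.2]⟩
    · exact ⟨j, by unfold edge; rw [h.1, h.2, hj.1, hj.2]; exact Sym2.eq_swap⟩
  · have h1 := hvw.1
    have h2 := hvw.2
    rw [h.1] at h1
    rw [h.2] at h2
    obtain ⟨j, hj | hj⟩ := chk_star p hp i h2 h1
    · exact ⟨j, by unfold edge; rw [h.1, h.2, hj.1, hj.2]; exact Sym2.eq_swap⟩
    · exact ⟨j, by unfold edge; rw [h.1, h.2, hj.1, hj.2]⟩

end Pool.Agent.Helper37.Benz
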