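import Mathlib
import Pool.Agent.Helper37.BenzProof

set_option autoImplicit false

namespace Pool.Agent.Helper37.Benz

theorem corner_mem_star (i : Fin 6) : corner (0, 0) i ∈ star := by
  unfold star corner
  fin_cases i <;> simp

theorem star_mem_verts {v : Vtx} (hv : v ∈ star) : v ∈ verts FF := by
  rw [mem_verts_iff]
  refine ⟨(0, 0), (mem_FF _).2 chk_len.2.2.2.2.2.2.2.2, ?_⟩
  unfold star at hv
  simp only [List.mem_cons, List.not_mem_nil, or_false] at hv
  rcases hv with rfl | rfl | rfl | rfl | rfl | rfl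
  · exact ⟨0, rfl⟩
  · exact ⟨1, rfl⟩
  · exact ⟨2, rfl⟩
  · exact ⟨3, rfl⟩
  · exact ⟨4, rfl⟩
  · exact ⟨5, rfl⟩

theorem two_corners (j : Fin 6) :
    ((Finset.univ : Finset (Fin 6)).filter fun i => corner (0, 0) i ∈ edge ((0, 0), j)).card = 2 := by
  revert j
  decide +kernel

/-- every perfect matching contains exactly three edges of the central hexagon -/
theorem card_inter {M : Finset (Sym2 Vtx)} (hM : M ∈ kekule FF) :
    ((hexEdges (0, 0)).filter fun e => e ∈ M).card = 3 := by
  classical
  set A := (hexEdges (0, 0)).filter fun e => e ∈ M with hA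
  have hMM := (mem_kekule.1 hM).2
  -- each corner lies in exactly one edge of A
  have h1 : ∀ i : Fin 6, (A.filter fun e => corner (0, 0) i ∈ e).card = 1 := by
    intro i
    obtain ⟨e, ⟨he, hie⟩, huniq⟩ := hMM _ (star_mem_verts (corner_mem_star i))
    rw [Finset.card_eq_one]
    refine ⟨e, ?_⟩
    ext e'
    rw [Finset.mem_filter, Finset.mem_singleton, hA, Finset.mem_filter]
    constructor
    · rintro ⟨⟨_, h2⟩, h3⟩
      exact huniq e' ⟨h2, h3⟩
    · rintro rfl
      refine ⟨⟨?_, he⟩, hie⟩
      obtain ⟨w, rfl⟩ := hie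
      exact star_closed hM (corner_mem_star i) he
  -- each edge of A contains exactly two corners
  have h2 : ∀ e ∈ A, ((Finset.univ : Finset (Fin 6)).filter fun i => corner (0, 0) i ∈ e).card = 2 := by
    intro e he
    rw [hA, Finset.mem_filter, mem_hexEdges] at he
    obtain ⟨⟨j, rfl⟩, _⟩ := he
    convert two_corners j
  have h3 := Finset.sum_card_bipartiteAbove_eq_sum_card_bipartiteBelow
    (s := (Finset.univ : Finset (Fin 6))) (t := A) (fun i e => corner (0, 0) i ∈ e)
  have h4 : ∑ i : Fin 6, (A.filter fun e => corner (0, 0) i ∈ e).card = 6 := by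
    rw [Finset.sum_congr rfl (fun i _ => h1 i)]
    simp
  have h5 : ∑ e ∈ A, ((Finset.univ : Finset (Fin 6)).filter fun i => corner (0, 0) i ∈ e).card =
      A.card * 2 := by
    rw [Finset.sum_congr rfl h2]
    simp
  have h6 : 6 = A.card * 2 := by
    rw [← h4, ← h5]
    exact h3
  omega

/-- the perfect matching -/
def MM : Finset (Sym2 Vtx) := (matchList.map edge).toFinset

theorem MM_mem : MM ∈ kekule FF := by
  rw [mem_kekule]
  constructor
  · intro e he
    unfold MM at he
    rw [List.mem_toFinset, List.mem_map] at he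
    obtain ⟨x, hx, rfl⟩ := he
    rw [mem_edges_iff]
    exact ⟨x.1, (mem_FF _).2 (chk_match x hx), x.2, rfl⟩
  · intro v hv
    have hv' : v ∈ evenT ++ (evenU ++ (oddT ++ (oddU ++ star))) := by
      rw [mem_verts_iff] at hv
      obtain ⟨p, hp, i, rfl⟩ := hv
      exact chk_all p ((mem_FF _).1 hp) i
    have h1 := chk_verts v hv'
    rw [List.length_eq_one_iff] at h1
    obtain ⟨x, hx⟩ := h1
    have hxm : x ∈ matchList.filter fun x => decide (v = corner x.1 x.2 ∨ v = corner x.1 (x.2 + 1)) := by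
      rw [hx]; simp
    rw [List.mem_filter] at hxm
    refine ⟨edge x, ⟨?_, ?_⟩, ?_⟩
    · unfold MM
      rw [List.mem_toFinset, List.mem_map]
      exact ⟨x, hxm.1, rfl⟩
    · unfold edge
      rw [Sym2.mem_iff]
      exact of_decide_eq_true hxm.2
    · rintro e ⟨he, hve⟩
      unfold MM at he
      rw [List.mem_toFinset, List.mem_map] at he
      obtain ⟨y, hy, rfl⟩ := he
      have hym : y ∈ matchList.filter fun x => decide (v = corner x.1 x.2 ∨ v = corner x.1 (x.2 + 1)) := by
        rw [List.mem_filter]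
        refine ⟨hy, decide_eq_true ?_⟩
        unfold edge at hve
        rw [Sym2.mem_iff] at hve
        exact hve
      rw [hx, List.mem_singleton] at hym
      rw [hym]

theorem RBO_eq : RBO FF (0, 0) = 3 := by
  classical
  unfold RBO pauling
  have hpos : ((kekule FF).card : ℚ) ≠ 0 := by
    have : 0 < (kekule FF).card := Finset.card_pos.2 ⟨MM, MM_mem⟩
    positivity
  rw [← Finset.sum_div, div_eq_iff hpos]
  have h3 := Finset.sum_card_bipartiteAbove_eq_sum_card_bipartiteBelow
    (s := hexEdges (0, 0)) (t := kekule FF) (fun e M => e ∈ M)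
  have h4 : ∑ M ∈ kekule FF, ((hexEdges (0, 0)).filter fun e => e ∈ M).card = 3 * (kekule FF).card := by
    rw [Finset.sum_congr rfl (fun M hM => card_inter hM), Finset.sum_const, smul_eq_mul, mul_comm]
  have h5 : ∑ e ∈ hexEdges (0, 0), ((kekule FF).filter fun M => e ∈ M).card =
      3 * (kekule FF).card := h3.trans h4
  exact_mod_cast h5

/-! ### the boundary cycle -/

theorem chain_cyc : cycList.IsChain lattice.Adj := by decide +kernel

theorem cyc_ne : cycList ≠ [] := by decide +kernel

theorem cyc_closed : cycList.getLast cyc_ne = cycList.head cyc_ne := by decide +kernel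

theorem cyc_len : cycList.length = 151 := by decide +kernel

/-- the boundary cycle -/
def CC : lattice.Walk (cycList.head cyc_ne) (cycList.head cyc_ne) :=
  (SimpleGraph.Walk.ofSupport cycList cyc_ne chain_cyc).copy rfl cyc_closed

theorem CC_support : CC.support = cycList := by
  unfold CC
  rw [SimpleGraph.Walk.support_copy, SimpleGraph.Walk.support_ofSupport]

theorem CC_length : CC.length = 150 := by
  unfold CC
  rw [SimpleGraph.Walk.length_copy, SimpleGraph.Walk.length_ofSupport, cyc_len]

theorem CC_edges : CC.edges = bdList.map edge := by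
  rw [SimpleGraph.Walk.edges_eq_zipWith_support, CC_support]
  exact chk_edges

theorem CC_cycle : CC.IsCycle := by
  rw [SimpleGraph.Walk.isCycle_iff_isPath_tail_and_le_length]
  refine ⟨?_, by rw [CC_length]; norm_num⟩
  rw [SimpleGraph.Walk.isPath_def]
  have h : ¬ CC.Nil := by
    intro h
    have := SimpleGraph.Walk.length_eq_zero_iff.2 h
    rw [CC_length] at this
    omega
  rw [SimpleGraph.Walk.support_tail_of_not_nil _ h, CC_support]
  exact chk_nodup

/-- an edge belongs to exactly the two hexagons `p` and `nb p i` -/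
theorem mem_hex_iff (p q : ℤ × ℤ) (i : Fin 6) :
    edge (p, i) ∈ hexEdges q ↔ (q = p ∨ q = nb p i) := by
  rw [mem_hexEdges]
  obtain ⟨a, b⟩ := p
  obtain ⟨c, d⟩ := q
  constructor
  · rintro ⟨j, hj⟩
    unfold edge at hj
    rw [Sym2.eq_iff] at hj
    fin_cases i <;> fin_cases j <;> simp [corner, nb] at hj ⊢ <;> omega
  · rintro (h | h)
    · exact ⟨i, by rw [h]⟩
    · rw [h]
      fin_cases i
      · exact ⟨3, by unfold edge; rw [Sym2.eq_iff]; simp [corner, nb]⟩
      · exact ⟨4, by unfold edge; rw [Sym2.eq_iff]; simp [corner, nb]⟩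
      · exact ⟨5, by unfold edge; rw [Sym2.eq_iff]; simp [corner, nb]⟩
      · exact ⟨0, by unfold edge; rw [Sym2.eq_iff]; simp [corner, nb]⟩
      · exact ⟨1, by unfold edge; rw [Sym2.eq_iff]; simp [corner, nb]⟩
      · exact ⟨2, by unfold edge; rw [Sym2.eq_iff]; simp [corner, nb]⟩

theorem isBenzenoid : IsBenzenoid FF := by
  refine ⟨_, CC, CC_cycle, ?_⟩
  intro e
  rw [CC_edges, List.mem_map]
  constructor
  · rintro ⟨⟨p, i⟩, hx, rfl⟩
    obtain ⟨h1, h2⟩ := chk_cyc _ hx
    simp only at h1 h2
    refine ⟨p, ⟨(mem_FF _).2 h1, (mem_hex_iff p p i).2 (Or.inl rfl)⟩, ?_⟩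
    rintro q ⟨hq, hq'⟩
    rw [mem_hex_iff] at hq'
    rcases hq' with rfl | rfl
    · rfl
    · exact absurd ((mem_FF _).1 hq) h2
  · rintro ⟨p, ⟨hp, hpe⟩, huniq⟩
    rw [mem_hexEdges] at hpe
    obtain ⟨i, rfl⟩ := hpe
    refine ⟨(p, i), chk_cyc2 p ((mem_FF _).1 hp) i ?_, rfl⟩
    intro hnb
    have h1 := huniq (nb p i) ⟨(mem_FF _).2 hnb, (mem_hex_iff p _ i).2 (Or.inr rfl)⟩
    obtain ⟨a, b⟩ := p
    fin_cases i <;> simp [nb] at h1

end Pool.Agent.Helper37.Benz
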