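import Pool.Agent.Helper85.IW.Statements

set_option autoImplicit false
set_option maxSynthPendingDepth 3

open scoped ComplexConjugate

noncomputable section

namespace Pool.Agent.Helper37.IW_D4a

open Helper85.IW

/-- `z ↦ (X ↦ Re (conj z₁ X₁))` as a continuous linear map. -/
def P1 : E →L[ℝ] E →L[ℝ] ℝ := LinearMap.toContinuousLinearMap
  { toFun := fun z => (reL z.1).comp (ContinuousLinearMap.fst ℝ ℂ ℂ)
    map_add' := by
      intro x y
      ext X <;> simp [reL_apply, add_mul]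
    map_smul' := by
      intro c x
      ext X <;> simp [reL_apply] <;> ring }

/-- `z ↦ (X ↦ Re (conj z₂ X₂))` as a continuous linear map. -/
def P2 : E →L[ℝ] E →L[ℝ] ℝ := LinearMap.toContinuousLinearMap
  { toFun := fun z => (reL z.2).comp (ContinuousLinearMap.snd ℝ ℂ ℂ)
    map_add' := by
      intro x y
      ext X <;> simp [reL_apply, add_mul]
    map_smul' := by
      intro c x
      ext X <;> simp [reL_apply] <;> ring }

/-- `z ↦ (X ↦ Im (conj z₁ X₁))` as a continuous linear map. -/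
def Q1 : E →L[ℝ] E →L[ℝ] ℝ := LinearMap.toContinuousLinearMap
  { toFun := fun z => (imL z.1).comp (ContinuousLinearMap.fst ℝ ℂ ℂ)
    map_add' := by
      intro x y
      ext X <;> simp [imL_apply, add_mul]
    map_smul' := by
      intro c x
      ext X <;> simp [imL_apply] <;> ring }

/-- `z ↦ (X ↦ Im (conj z₂ X₂))` as a continuous linear map. -/
def Q2 : E →L[ℝ] E →L[ℝ] ℝ := LinearMap.toContinuousLinearMap
  { toFun := fun z => (imL z.2).comp (ContinuousLinearMap.snd ℝ ℂ ℂ)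
    map_add' := by
      intro x y
      ext X <;> simp [imL_apply, add_mul]
    map_smul' := by
      intro c x
      ext X <;> simp [imL_apply] <;> ring }

theorem P1_apply (z X : E) : P1 z X = (conj z.1 * X.1).re := rfl
theorem P2_apply (z X : E) : P2 z X = (conj z.2 * X.2).re := rfl
theorem Q1_apply (z X : E) : Q1 z X = (conj z.1 * X.1).im := rfl
theorem Q2_apply (z X : E) : Q2 z X = (conj z.2 * X.2).im := rfl

theorem hasFDerivAt_norm_c (z : ℂ) (hz : z ≠ 0) :
    HasFDerivAt (fun w : ℂ => ‖w‖) (‖z‖⁻¹ • reL z) z := by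
  have h1 : HasFDerivAt (fun w : ℂ => ‖w‖ ^ 2) (2 • innerSL ℝ z) z :=
    (hasStrictFDerivAt_norm_sq z).hasFDerivAt
  have hz2 : ‖z‖ ^ 2 ≠ 0 := by positivity
  have h2 := h1.sqrt hz2
  have h3 : (fun w : ℂ => Real.sqrt (‖w‖ ^ 2)) = fun w : ℂ => ‖w‖ := by
    funext w
    exact Real.sqrt_sq (norm_nonneg w)
  rw [h3] at h2
  refine h2.congr_fderiv ?_
  ext <;> simp [reL_apply, Real.sqrt_sq (norm_nonneg z)] <;> field_simp

theorem main : StD4a := by
  intro α β A B z hz1 hz2 αr αs βr βs Ar As Br Bs hα hβ hA hB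
  have hn1 : HasFDerivAt (fun w : E => ‖w.1‖)
      ((‖z.1‖⁻¹ • reL z.1).comp (ContinuousLinearMap.fst ℝ ℂ ℂ)) z :=
    (hasFDerivAt_norm_c z.1 hz1).comp z hasFDerivAt_fst
  have hn2 : HasFDerivAt (fun w : E => ‖w.2‖)
      ((‖z.2‖⁻¹ • reL z.2).comp (ContinuousLinearMap.snd ℝ ℂ ℂ)) z :=
    (hasFDerivAt_norm_c z.2 hz2).comp z hasFDerivAt_snd
  have hn := hn1.prodMk hn2
  have dα := HasFDerivAt.comp z hα hn
  have dβ := HasFDerivAt.comp z hβ hn
  have dA := HasFDerivAt.comp z hA hn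
  have dB := HasFDerivAt.comp z hB hn
  have hP1 : HasFDerivAt (fun w : E => P1 w) P1 z := P1.hasFDerivAt
  have hP2 : HasFDerivAt (fun w : E => P2 w) P2 z := P2.hasFDerivAt
  have hQ1 : HasFDerivAt (fun w : E => Q1 w) Q1 z := Q1.hasFDerivAt
  have hQ2 : HasFDerivAt (fun w : E => Q2 w) Q2 z := Q2.hasFDerivAt
  have hR := (dα.smul hP1).add (dβ.smul hP2)
  have hI := (dA.smul hQ1).add (dB.smul hQ2)
  have eR : (fun z : E => covR (α (‖z.1‖, ‖z.2‖)) (β (‖z.1‖, ‖z.2‖)) z) =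
      ((α ∘ fun w : E => (‖w.1‖, ‖w.2‖)) • fun w => P1 w) +
      ((β ∘ fun w : E => (‖w.1‖, ‖w.2‖)) • fun w => P2 w) := rfl
  have eI : (fun z : E => covI (A (‖z.1‖, ‖z.2‖)) (B (‖z.1‖, ‖z.2‖)) z) =
      ((A ∘ fun w : E => (‖w.1‖, ‖w.2‖)) • fun w => Q1 w) +
      ((B ∘ fun w : E => (‖w.1‖, ‖w.2‖)) • fun w => Q2 w) := rfl
  rw [← eR] at hR
  rw [← eI] at hI
  refine ⟨hR.differentiableAt, hI.differentiableAt, ?_⟩
  intro X Y
  rw [hR.fderiv, hI.fderiv]
  have hsq : ∀ w : ℂ, (conj w * w).re = ‖w‖ ^ 2 := by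
    intro w
    rw [← Complex.normSq_eq_conj_mul_self, Complex.ofReal_re, Complex.normSq_eq_norm_sq]
  unfold PIq PIx
  simp only [ContinuousLinearMap.add_apply, ContinuousLinearMap.smul_apply,
    ContinuousLinearMap.smulRight_apply, ContinuousLinearMap.comp_apply,
    ContinuousLinearMap.prod_apply, lin2_apply, P1_apply, P2_apply, Q1_apply, Q2_apply,
    Function.comp_apply, ContinuousLinearMap.coe_fst', ContinuousLinearMap.coe_snd', reL_apply,
    smul_eq_mul, hsq]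
  ring

end Pool.Agent.Helper37.IW_D4a
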