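import Pool.Agent.Helper85.IW.Statements

set_option autoImplicit false
set_option maxSynthPendingDepth 3

noncomputable section

namespace Pool.Agent.Helper37.IW_D6

open Helper85.IW

theorem hfst {f : ℝ → ℝ} {f' r s : ℝ} (h : HasDerivAt f f' r) :
    HasFDerivAt (fun q : ℝ × ℝ => f q.1) (lin2 f' 0) (r, s) := by
  have h1 : HasFDerivAt (fun q : ℝ × ℝ => q.1) (ContinuousLinearMap.fst ℝ ℝ ℝ) (r, s) :=
    hasFDerivAt_fst
  have h2 := HasDerivAt.comp_hasFDerivAt (h₂ := f) (f := fun q : ℝ × ℝ => q.1) (r, s)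
    (h₂' := f') h h1
  have h3 : f' • ContinuousLinearMap.fst ℝ ℝ ℝ = lin2 f' 0 := by
    ext <;> simp [lin2]
  exact h2.congr_fderiv h3

theorem hsnd {f : ℝ → ℝ} {f' r s : ℝ} (h : HasDerivAt f f' s) :
    HasFDerivAt (fun q : ℝ × ℝ => f q.2) (lin2 0 f') (r, s) := by
  have h1 : HasFDerivAt (fun q : ℝ × ℝ => q.2) (ContinuousLinearMap.snd ℝ ℝ ℝ) (r, s) :=
    hasFDerivAt_snd
  have h2 := HasDerivAt.comp_hasFDerivAt (h₂ := f) (f := fun q : ℝ × ℝ => q.2) (r, s)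
    (h₂' := f') h h1
  have h3 : f' • ContinuousLinearMap.snd ℝ ℝ ℝ = lin2 0 f' := by
    ext <;> simp [lin2]
  exact h2.congr_fderiv h3

theorem main (hK : StK) (hE : StE2) : StD6 := by
  intro p hp r s hr hs hrs
  obtain ⟨-, hC, -, -, -, -, -, -, hm0, -⟩ := hK p hp
  have hC0 : 0 < CC p := by linarith
  have hp0 : 0 < p := by linarith
  have hdr : HasDerivAt (fun x : ℝ => x ^ (p - 2)) ((p - 2) * r ^ (p - 2 - 1)) r :=
    Real.hasDerivAt_rpow_const (Or.inl hr.ne')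
  have hds : HasDerivAt (fun x : ℝ => x ^ (p - 2)) ((p - 2) * s ^ (p - 2 - 1)) s :=
    Real.hasDerivAt_rpow_const (Or.inl hs.ne')
  have hdsp : HasDerivAt (fun x : ℝ => x ^ p) (p * s ^ (p - 1)) s :=
    Real.hasDerivAt_rpow_const (Or.inl hs.ne')
  have hdinv : HasDerivAt (fun x : ℝ => (x ^ 2)⁻¹) (-(2 * r) / (r ^ 2) ^ 2) r := by
    have h1 : HasDerivAt (fun x : ℝ => x ^ 2) (2 * r) r := by
      simpa using hasDerivAt_pow 2 r
    exact h1.fun_inv (by positivity)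
  refine ⟨p * CC p ^ p * ((p - 2) * r ^ (p - 2 - 1)), 0, 0, -(p * ((p - 2) * s ^ (p - 2 - 1))),
    2 * CC p ^ p * ((p - 2) * r ^ (p - 2 - 1)) + mm p * (s ^ p * (-(2 * r) / (r ^ 2) ^ 2)),
    mm p * ((p * s ^ (p - 1)) * (r ^ 2)⁻¹), 0, (MM p + p) * ((p - 2) * s ^ (p - 2 - 1)),
    ?_, ?_, ?_, ?_, ?_⟩
  · exact hfst (hdr.const_mul (p * CC p ^ p))
  · exact hsnd ((hds.const_mul p).neg)
  · have h1 : HasFDerivAt (fun q : ℝ × ℝ => 2 * CC p ^ p * q.1 ^ (p - 2))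
        (lin2 (2 * CC p ^ p * ((p - 2) * r ^ (p - 2 - 1))) 0) (r, s) :=
      hfst (hdr.const_mul (2 * CC p ^ p))
    have h2 : HasFDerivAt (fun q : ℝ × ℝ => q.2 ^ p) (lin2 0 (p * s ^ (p - 1))) (r, s) :=
      hsnd hdsp
    have h3 : HasFDerivAt (fun q : ℝ × ℝ => (q.1 ^ 2)⁻¹)
        (lin2 (-(2 * r) / (r ^ 2) ^ 2) 0) (r, s) := hfst hdinv
    have h4 := h1.add ((h2.mul h3).const_mul (mm p))
    refine (h4.congr_fderiv ?_)
    ext
    · simp [lin2]
    · simp [lin2, mul_comm]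
  · exact hsnd (hds.const_mul (MM p + p))
  · intro e he a b c
    have hS : 0 < s ^ (p - 2) := Real.rpow_pos_of_pos hs _
    have hR : 0 < r ^ (p - 2) := Real.rpow_pos_of_pos hr _
    have er : r ^ (p - 2 - 1) = r ^ (p - 2) / r := by
      rw [Real.rpow_sub_one hr.ne']
    have es : s ^ (p - 2 - 1) = s ^ (p - 2) / s := by
      rw [Real.rpow_sub_one hs.ne']
    have esp : s ^ p = s ^ 2 * s ^ (p - 2) := by
      rw [← Real.rpow_natCast s 2, ← Real.rpow_add hs]; norm_num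
    have esp1 : s ^ (p - 1) = s * s ^ (p - 2) := by
      have := Real.rpow_add hs 1 (p - 2)
      rw [Real.rpow_one] at this
      rw [← this]; congr 1; ring
    have ha : CC p ^ 2 ≤ CC p ^ p * r ^ (p - 2) / s ^ (p - 2) := by
      rw [le_div_iff₀ hS]
      have e1 : CC p ^ p = CC p ^ 2 * CC p ^ (p - 2) := by
        rw [← Real.rpow_natCast (CC p) 2, ← Real.rpow_add hC0]; norm_num
      rw [e1, mul_assoc, ← Real.mul_rpow hC0.le hr.le]
      have : s ^ (p - 2) ≤ (CC p * r) ^ (p - 2) :=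
        Real.rpow_le_rpow hs.le hrs.le (by linarith)
      exact mul_le_mul_of_nonneg_left this (by positivity)
    have ht : |e * mm p * (s / r)| ≤ mm p * CC p := by
      have h1 : |e| = 1 := by rcases he with h | h <;> rw [h] <;> simp
      rw [abs_mul, abs_mul, h1, one_mul, abs_of_nonneg hm0, abs_of_pos (by positivity)]
      apply mul_le_mul_of_nonneg_left _ hm0
      rw [div_le_iff₀ hr]
      exact hrs.le
    have hmain := hE p hp (CC p ^ p * r ^ (p - 2) / s ^ (p - 2)) (e * mm p * (s / r)) ha ht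
      (2 * c) (a - c) (b - c)
    have hid : QQ e r s (al2 p r s) (p * CC p ^ p * ((p - 2) * r ^ (p - 2 - 1))) 0 (be2 p r s) 0
        (-(p * ((p - 2) * s ^ (p - 2 - 1)))) (A2 p r s)
        (2 * CC p ^ p * ((p - 2) * r ^ (p - 2 - 1)) + mm p * (s ^ p * (-(2 * r) / (r ^ 2) ^ 2)))
        (mm p * ((p * s ^ (p - 1)) * (r ^ 2)⁻¹)) (B2 p r s) 0
        ((MM p + p) * ((p - 2) * s ^ (p - 2 - 1))) a b c =
        p * s ^ (p - 2) * ((p - 1) * (CC p ^ p * r ^ (p - 2) / s ^ (p - 2) - 1) * (2 * c) ^ 2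
          + (2 * (p - 2) * (CC p ^ p * r ^ (p - 2) / s ^ (p - 2)) - e * mm p * (s / r)) *
            ((2 * c) * (a - c)) + (MM p - (p - 2)) * ((2 * c) * (b - c))
          + (p - 2) * (CC p ^ p * r ^ (p - 2) / s ^ (p - 2)) * (a - c) ^ 2
          - e * mm p * (s / r) * ((a - c) * (b - c)) + MM p * (b - c) ^ 2) := by
      unfold QQ al2 be2 A2 B2
      rw [er, es, esp, esp1]
      field_simp
      ring
    rw [hid]
    exact mul_nonneg (by positivity) hmain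

end Pool.Agent.Helper37.IW_D6
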