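import Pool.Agent.Helper85.IW.Statements

set_option autoImplicit false
set_option maxSynthPendingDepth 3

noncomputable section

namespace Pool.Agent.Helper37.IW_I

open Helper85.IW

theorem mt_id (θ x : ℝ) : x * mt θ x = uu θ x + (1 - θ * x) * uu1 θ x := by
  simp only [Helper85.IW.mt, uu, uu1, mux, h0x, h1x, h0, h1]; ring

theorem nt_id (θ x : ℝ) : nt θ x = uu θ x - θ * x * uu1 θ x := by
  simp only [nt, uu, uu1, nu]; ring

theorem q0_id (x : ℝ) : q0 x = x ^ 2 * q0xx x := by
  simp only [q0, q0xx]; ring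

theorem main (hK : StK) : StI := by
  intro p hp r s hr hs
  obtain ⟨-, hC, hD, hx1, -, -, -, huu, -⟩ := hK p hp
  have hC0 : 0 < CC p := by linarith
  have hC1 : 0 < 1 + CC p := by linarith
  have hD0 : 0 < DD p := by linarith
  have hp0 : 0 < p := by linarith
  have hx0 : 0 < x1 p := by linarith
  have hL : r + s = (1 + CC p) * r := by rw [← hs]; ring
  have hL0 : 0 < r + s := by rw [hL]; positivity
  have hw : r / (r + s) = 1 / (1 + CC p) := by
    rw [hL]; field_simp
  have hpw : p * (r / (r + s)) = x1 p := by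
    rw [hw, x1]; ring
  have hx1e : x1 p = p / (1 + CC p) := rfl
  have hθx : 1 / p * x1 p = 1 / (1 + CC p) := by
    rw [hx1e]; field_simp
  have hmt : mt (1 / p) (x1 p) = (CC p / p) * DD p := by
    have h := mt_id (1 / p) (x1 p)
    rw [huu, hθx, zero_add] at h
    have h2 : uu1 (1 / p) (x1 p) = DD p := rfl
    rw [h2] at h
    have h3 : mt (1 / p) (x1 p) = ((1 - 1 / (1 + CC p)) * DD p) / x1 p := by
      rw [eq_div_iff hx0.ne', ← h]; ring
    rw [h3, hx1e]
    field_simp
    ring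
  have hnt : nt (1 / p) (x1 p) = -(DD p / (1 + CC p)) := by
    rw [nt_id, huu, hθx]
    have h2 : uu1 (1 / p) (x1 p) = DD p := rfl
    rw [h2]
    ring
  -- powers
  set X := CC p ^ (p - 2) with hX
  set Y := r ^ (p - 2) with hY
  have hCp : CC p ^ p = CC p ^ 2 * X := by
    rw [hX, ← Real.rpow_natCast (CC p) 2, ← Real.rpow_add hC0]
    norm_num
  have hrp : r ^ p = r ^ 2 * Y := by
    rw [hY, ← Real.rpow_natCast r 2, ← Real.rpow_add hr]
    norm_num
  have hsk : s ^ (p - 2) = X * Y := by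
    rw [← hs, Real.mul_rpow hC0.le hr.le]
  have hsp : s ^ p = CC p ^ 2 * X * (r ^ 2 * Y) := by
    rw [← hs, Real.mul_rpow hC0.le hr.le, hCp, hrp]
  have hcc : cc p * (r + s) ^ (p - 2) = CC p * X * Y / DD p := by
    have h1 : (CC p / (1 + CC p)) ^ (p - 1) = CC p * X / (1 + CC p) / (1 + CC p) ^ (p - 2) := by
      rw [Real.div_rpow hC0.le hC1.le, hX]
      have e1 : CC p ^ (p - 1) = CC p * CC p ^ (p - 2) := by
        conv_rhs => rw [← Real.rpow_one (CC p), ← Real.rpow_mul hC0.le, one_mul,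
          ← Real.rpow_add hC0]
        congr 1; ring
      have e2 : (1 + CC p) ^ (p - 1) = (1 + CC p) * (1 + CC p) ^ (p - 2) := by
        have := Real.rpow_add hC1 1 (p - 2)
        rw [Real.rpow_one] at this
        rw [← this]; congr 1; ring
      rw [e1, e2]
      field_simp
    have h2 : (r + s) ^ (p - 2) = (1 + CC p) ^ (p - 2) * Y := by
      rw [hL, Real.mul_rpow hC1.le hr.le]
    have h3 : 0 < (1 + CC p) ^ (p - 2) := Real.rpow_pos_of_pos hC1 _
    unfold cc
    rw [h1, h2]
    field_simp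
  have hpf : pf (1 / p) = (p - 2) / p := by
    unfold pf; field_simp
  have hal : al1 p r s = al2 p r s := by
    unfold al1 al2
    rw [hpw, hmt, hCp, ← hY]
    have : cc p * p ^ 2 * (r + s) ^ (p - 2) * (CC p / p * DD p) =
        (cc p * (r + s) ^ (p - 2)) * (p ^ 2 * (CC p / p * DD p)) := by ring
    rw [this, hcc]
    field_simp
  have hw1 : 1 - r / (r + s) = CC p / (1 + CC p) := by
    rw [hw]; field_simp; ring
  have hbe : be1 p r s = be2 p r s := by
    unfold be1 be2
    rw [hpw, hnt, hw1, hsk]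
    have : cc p * p * (r + s) ^ (p - 2) * (-(DD p / (1 + CC p)) / (CC p / (1 + CC p))) =
        (cc p * (r + s) ^ (p - 2)) * (p * (-(DD p / (1 + CC p)) / (CC p / (1 + CC p)))) := by ring
    rw [this, hcc]
    field_simp
  refine ⟨hal, hbe, ?_, ?_, ?_⟩
  · unfold A1 A2 mm
    rw [hpw, hmt, hCp, ← hY, hsp, hpf, q0_id, hx1e, ← hx1e]
    have : cc p * p ^ 2 * (r + s) ^ (p - 2) * (CC p / p * DD p - (p - 2) / p * q0xx (x1 p)) =
        (cc p * (r + s) ^ (p - 2)) *
          (p ^ 2 * (CC p / p * DD p - (p - 2) / p * q0xx (x1 p))) := by ring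
    rw [this, hcc]
    have hx1sq : x1 p ^ 2 = p ^ 2 / (1 + CC p) ^ 2 := by rw [hx1e, div_pow]
    rw [hx1sq]
    field_simp
    ring
  · unfold B1 B2 MM
    rw [hpw, hnt, hw1, hsk, hpf]
    have : cc p * p * (r + s) ^ (p - 2) *
          ((p - 2) / p * r0 (x1 p) / (CC p / (1 + CC p)) ^ 2
            - -(DD p / (1 + CC p)) / (CC p / (1 + CC p))) =
        (cc p * (r + s) ^ (p - 2)) * (p *
          ((p - 2) / p * r0 (x1 p) / (CC p / (1 + CC p)) ^ 2
            - -(DD p / (1 + CC p)) / (CC p / (1 + CC p)))) := by ring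
    rw [this, hcc]
    field_simp
    ring
  · unfold W1 W2
    rw [hpw, huu, hCp, hrp, hsp]
    ring

end Pool.Agent.Helper37.IW_I
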