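import Pool.Agent.Helper85.LC.Defs

/-!
# MP_816dee_pr, module P2b: the coupling bound
-/

set_option autoImplicit false

namespace Pool.H37.LC

open Finset

variable {α : Type*} [DecidableEq α]

lemma sum_weight (E : Finset α) (r : ℝ) :
    ∑ F ∈ E.powerset, r ^ F.card * (1 - r) ^ (E.card - F.card) = 1 := by
  rw [Finset.sum_pow_mul_eq_add_pow]
  simp

lemma sum_between (T F : Finset α) (hTF : T ⊆ F) (x : ℝ) :
    ∑ F₁ ∈ F.powerset with T ⊆ F₁, x ^ (F.card - F₁.card) = (x + 1) ^ (F.card - T.card) := by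
  have h1 : (x + 1) ^ (F.card - T.card) = ∑ A ∈ (F \ T).powerset, x ^ A.card := by
    rw [← card_sdiff_of_subset hTF, ← Finset.sum_pow_mul_eq_add_pow]
    simp
  rw [h1]
  refine Finset.sum_bij' (fun F₁ _ => F \ F₁) (fun A _ => F \ A) ?_ ?_ ?_ ?_ ?_
  · intro F₁ h
    simp only [mem_filter, mem_powerset] at h ⊢
    exact sdiff_subset_sdiff (Subset.refl _) h.2
  · intro A h
    simp only [mem_filter, mem_powerset] at h ⊢
    refine ⟨sdiff_subset, fun x hx => mem_sdiff.2 ⟨hTF hx, fun hA => ?_⟩⟩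
    exact (mem_sdiff.1 (h hA)).2 hx
  · intro F₁ h
    simp only [mem_filter, mem_powerset] at h
    exact Finset.sdiff_sdiff_eq_self h.1
  · intro A h
    simp only [mem_powerset] at h
    exact Finset.sdiff_sdiff_eq_self (h.trans sdiff_subset)
  · intro F₁ h
    simp only [mem_filter, mem_powerset] at h
    rw [card_sdiff_of_subset h.1]

/-- first step: split off the first round -/
lemma weight_le (E T F : Finset α) (hF : F ⊆ E) (hTF : T ⊆ F) {r : ℝ} (h0 : 0 ≤ r) (h1 : r ≤ 1)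
    {n : ℕ} (hn : T.card ≤ n) :
    (2 * r - r ^ 2) ^ F.card * (1 - (2 * r - r ^ 2)) ^ (E.card - F.card) ≤
      2 ^ n * ∑ F₁ ∈ F.powerset with T ⊆ F₁, (r ^ F₁.card * (1 - r) ^ (E.card - F₁.card)) *
        (r ^ (F.card - F₁.card) * (1 - r) ^ (E.card - F.card)) := by
  have hcard : F.card ≤ E.card := card_le_card hF
  have hTc : T.card ≤ F.card := card_le_card hTF
  have e1 : ∀ F₁ ∈ F.powerset.filter (fun F₁ => T ⊆ F₁),
      (r ^ F₁.card * (1 - r) ^ (E.card - F₁.card)) *
        (r ^ (F.card - F₁.card) * (1 - r) ^ (E.card - F.card)) =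
      (r ^ F.card * (1 - r) ^ (2 * (E.card - F.card))) * (1 - r) ^ (F.card - F₁.card) := by
    intro F₁ h
    simp only [mem_filter, mem_powerset] at h
    have hc : F₁.card ≤ F.card := card_le_card h.1
    have a1 : r ^ F.card = r ^ F₁.card * r ^ (F.card - F₁.card) := by
      rw [← pow_add]
      congr 1
      omega
    have a2 : (1 - r) ^ (E.card - F₁.card) =
        (1 - r) ^ (E.card - F.card) * (1 - r) ^ (F.card - F₁.card) := by
      rw [← pow_add]
      congr 1
      omega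
    rw [a1, a2, two_mul, pow_add]
    ring
  rw [Finset.sum_congr rfl e1, ← Finset.mul_sum, sum_between T F hTF]
  have e2 : (2 * r - r ^ 2) ^ F.card * (1 - (2 * r - r ^ 2)) ^ (E.card - F.card) =
      (r ^ F.card * (1 - r) ^ (2 * (E.card - F.card))) *
        ((2 - r) ^ T.card * (1 - r + 1) ^ (F.card - T.card)) := by
    have a1 : 2 * r - r ^ 2 = r * (2 - r) := by ring
    have a2 : 1 - (2 * r - r ^ 2) = (1 - r) ^ 2 := by ring
    have a3 : (2 - r) ^ F.card = (2 - r) ^ T.card * (1 - r + 1) ^ (F.card - T.card) := by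
      have : 1 - r + 1 = 2 - r := by ring
      rw [this, ← pow_add]
      congr 1
      omega
    rw [a2, ← pow_mul, a1, mul_pow, a3]
    ring
  rw [e2]
  have e3 : (2 - r) ^ T.card ≤ 2 ^ n := by
    calc (2 - r) ^ T.card ≤ 2 ^ T.card := pow_le_pow_left₀ (by linarith) (by linarith) _
      _ ≤ 2 ^ n := pow_le_pow_right₀ (by norm_num) hn
  have e4 : 0 ≤ r ^ F.card * (1 - r) ^ (2 * (E.card - F.card)) :=
    mul_nonneg (pow_nonneg h0 _) (pow_nonneg (by linarith) _)
  have e5 : 0 ≤ (1 - r + 1) ^ (F.card - T.card) := pow_nonneg (by linarith) _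
  calc (r ^ F.card * (1 - r) ^ (2 * (E.card - F.card))) *
        ((2 - r) ^ T.card * (1 - r + 1) ^ (F.card - T.card))
      ≤ (r ^ F.card * (1 - r) ^ (2 * (E.card - F.card))) *
        (2 ^ n * (1 - r + 1) ^ (F.card - T.card)) :=
        mul_le_mul_of_nonneg_left (mul_le_mul_of_nonneg_right e3 e5) e4
    _ = _ := by ring

/-- second step: the second round avoids `N F₁` -/
lemma second_round (E F₁ N₁ : Finset α) (hF : F₁ ⊆ E) (hN : N₁ ⊆ E) (hd : Disjoint N₁ F₁)
    {r : ℝ} (h0 : 0 ≤ r) (h1 : r ≤ 1) {m : ℕ} (hm : m ≤ N₁.card) (I : Finset (Finset α))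
    (hI : ∀ F ∈ I, F₁ ⊆ F ∧ F ⊆ E ∧ Disjoint N₁ F) :
    ∑ F ∈ I, r ^ (F.card - F₁.card) * (1 - r) ^ (E.card - F.card) ≤ (1 - r) ^ m := by
  set G := (E \ F₁) \ N₁ with hG
  have hr : 0 ≤ 1 - r := by linarith
  have hN' : N₁ ⊆ E \ F₁ := fun x hx => mem_sdiff.2 ⟨hN hx, fun h => disjoint_left.1 hd hx h⟩
  have cG : G.card = E.card - F₁.card - N₁.card := by
    rw [hG, card_sdiff_of_subset hN', card_sdiff_of_subset hF]
  have cN : N₁.card ≤ E.card - F₁.card := by
    rw [← card_sdiff_of_subset hF]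
    exact card_le_card hN'
  have cF : F₁.card ≤ E.card := card_le_card hF
  have inj : Set.InjOn (fun F : Finset α => F \ F₁) (I : Set (Finset α)) := by
    intro A hA B hB h
    have h2 := congrArg (fun C => C ∪ F₁) h
    simp only at h2
    rwa [sdiff_union_of_subset (hI A hA).1, sdiff_union_of_subset (hI B hB).1] at h2
  have e1 : ∑ F ∈ I, r ^ (F.card - F₁.card) * (1 - r) ^ (E.card - F.card) =
      ∑ D ∈ I.image (fun F => F \ F₁), r ^ D.card * (1 - r) ^ (E.card - F₁.card - D.card) := by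
    rw [Finset.sum_image inj]
    refine Finset.sum_congr rfl fun F hFI => ?_
    have h2 : (F \ F₁).card = F.card - F₁.card := card_sdiff_of_subset (hI F hFI).1
    have h3 : F₁.card ≤ F.card := card_le_card (hI F hFI).1
    rw [h2]
    congr 2
    omega
  have e2 : I.image (fun F => F \ F₁) ⊆ G.powerset := by
    intro D hD
    obtain ⟨F, hFI, rfl⟩ := mem_image.1 hD
    rw [mem_powerset]
    intro x hx
    obtain ⟨hx1, hx2⟩ := mem_sdiff.1 hx
    refine mem_sdiff.2 ⟨mem_sdiff.2 ⟨(hI F hFI).2.1 hx1, hx2⟩, fun h => ?_⟩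
    exact disjoint_left.1 (hI F hFI).2.2 h hx1
  rw [e1]
  calc ∑ D ∈ I.image (fun F => F \ F₁), r ^ D.card * (1 - r) ^ (E.card - F₁.card - D.card)
      ≤ ∑ D ∈ G.powerset, r ^ D.card * (1 - r) ^ (E.card - F₁.card - D.card) :=
        Finset.sum_le_sum_of_subset_of_nonneg e2 fun D _ _ =>
          mul_nonneg (pow_nonneg h0 _) (pow_nonneg hr _)
    _ = ∑ D ∈ G.powerset, (r ^ D.card * (1 - r) ^ (G.card - D.card)) * (1 - r) ^ N₁.card := by
        refine Finset.sum_congr rfl fun D hD => ?_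
        rw [mem_powerset] at hD
        have := card_le_card hD
        rw [mul_assoc, ← pow_add]
        congr 2
        omega
    _ = (1 - r) ^ N₁.card := by rw [← Finset.sum_mul, sum_weight, one_mul]
    _ ≤ (1 - r) ^ m := pow_le_pow_of_le_one hr (by linarith) hm

end Pool.H37.LC

namespace Pool.H85.LC

open Finset

/-- the coupling bound -/
theorem pr_coupling {α : Type*} [DecidableEq α] (E : Finset α) {r : ℝ} (h0 : 0 ≤ r) (h1 : r ≤ 1)
    (t N : Finset α → Finset α) (n m : ℕ) (ht : ∀ F ⊆ E, t F ⊆ F)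
    (htn : ∀ F ⊆ E, (t F).card ≤ n)
    (hconv : ∀ F F', F ⊆ E → t F ⊆ F' → F' ⊆ F → N F' = N F)
    (hN : ∀ F ⊆ E, N F ⊆ E) (hNF : ∀ F ⊆ E, Disjoint (N F) F) :
    pr E (2 * r - r ^ 2) (fun F => m ≤ (N F).card) ≤ 2 ^ n * (1 - r) ^ m := by
  classical
  have hr : 0 ≤ 1 - r := by linarith
  have e0 : pr E (2 * r - r ^ 2) (fun F => m ≤ (N F).card) =
      ∑ F ∈ E.powerset.filter (fun F => m ≤ (N F).card),
        (2 * r - r ^ 2) ^ F.card * (1 - (2 * r - r ^ 2)) ^ (E.card - F.card) := by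
    unfold pr
    refine Finset.sum_congr ?_ fun _ _ => rfl
    ext F
    simp
  rw [e0]
  set W : Finset α → ℝ := fun F₁ => r ^ F₁.card * (1 - r) ^ (E.card - F₁.card) with hW
  set X : Finset α → Finset α → ℝ := fun F F₁ =>
    r ^ (F.card - F₁.card) * (1 - r) ^ (E.card - F.card) with hX
  calc ∑ F ∈ E.powerset.filter (fun F => m ≤ (N F).card),
        (2 * r - r ^ 2) ^ F.card * (1 - (2 * r - r ^ 2)) ^ (E.card - F.card)
      ≤ ∑ F ∈ E.powerset.filter (fun F => m ≤ (N F).card),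
        2 ^ n * ∑ F₁ ∈ F.powerset with t F ⊆ F₁, W F₁ * X F F₁ := by
        refine Finset.sum_le_sum fun F hF => ?_
        obtain ⟨hF1, _⟩ := mem_filter.1 hF
        rw [mem_powerset] at hF1
        exact Pool.H37.LC.weight_le E (t F) F hF1 (ht F hF1) h0 h1 (htn F hF1)
    _ = 2 ^ n * ∑ F ∈ E.powerset.filter (fun F => m ≤ (N F).card),
          ∑ F₁ ∈ F.powerset with t F ⊆ F₁, W F₁ * X F F₁ := by rw [← Finset.mul_sum]
    _ = 2 ^ n * ∑ F₁ ∈ E.powerset,
          ∑ F ∈ E.powerset.filter (fun F => m ≤ (N F).card ∧ t F ⊆ F₁ ∧ F₁ ⊆ F),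
            W F₁ * X F F₁ := by
        congr 1
        refine Finset.sum_comm' fun F F₁ => ?_
        simp only [mem_filter, mem_powerset]
        constructor
        · rintro ⟨⟨a, b⟩, c, d⟩
          exact ⟨⟨a, b, d, c⟩, c.trans a⟩
        · rintro ⟨⟨a, b, d, c⟩, _⟩
          exact ⟨⟨a, b⟩, c, d⟩
    _ ≤ 2 ^ n * ∑ F₁ ∈ E.powerset, W F₁ * (1 - r) ^ m := by
        refine mul_le_mul_of_nonneg_left ?_ (by positivity)
        refine Finset.sum_le_sum fun F₁ hF₁ => ?_
        rw [mem_powerset] at hF₁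
        rw [← Finset.mul_sum]
        refine mul_le_mul_of_nonneg_left ?_ (mul_nonneg (pow_nonneg h0 _) (pow_nonneg hr _))
        by_cases hne : (E.powerset.filter
            (fun F => m ≤ (N F).card ∧ t F ⊆ F₁ ∧ F₁ ⊆ F)).Nonempty
        · obtain ⟨F0, hF0⟩ := hne
          simp only [mem_filter, mem_powerset] at hF0
          obtain ⟨a, b, c, d⟩ := hF0
          have hNeq : N F₁ = N F0 := hconv F0 F₁ a c d
          refine Pool.H37.LC.second_round E F₁ (N F₁) hF₁ (hN F₁ hF₁) (hNF F₁ hF₁) h0 h1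
            (by rw [hNeq]; exact b) _ ?_
          intro F hF
          simp only [mem_filter, mem_powerset] at hF
          obtain ⟨a', b', c', d'⟩ := hF
          refine ⟨d', a', ?_⟩
          rw [hconv F F₁ a' c' d']
          exact hNF F a'
        · rw [not_nonempty_iff_eq_empty] at hne
          rw [hne]
          simp only [sum_empty]
          exact pow_nonneg hr _
    _ = 2 ^ n * (1 - r) ^ m := by
        rw [← Finset.sum_mul, Pool.H37.LC.sum_weight, one_mul]

end Pool.H85.LC
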