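import Pool.Agent.Helper37.LC_Coupling

/-!
# MP_816dee_pr, module D2: few non-vertical edges
-/

set_option autoImplicit false

namespace Pool.H37.LC

open Finset Pool.H85.LC

variable {V : Type*}

lemma dfs_initial {dfs : SimpleGraph V → V → List V} (h : IsDFS dfs) (Γ : SimpleGraph V)
    (z a b : V) (l₁ l₂ : List V) (hz : dfs Γ z = l₁ ++ a :: b :: l₂) :
    dfs Γ b = l₁ ++ [a, b] := by
  have hb : b ∈ dfs Γ z := by
    rw [hz]
    simp
  obtain ⟨s, hs⟩ := h.closed Γ z b hb
  obtain ⟨hnd, _, _⟩ := h.path Γ z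
  obtain ⟨_, _, hlast⟩ := h.path Γ b
  obtain ⟨m, hm⟩ : ∃ m, dfs Γ b = m ++ [b] := by
    refine ⟨(dfs Γ b).dropLast, ?_⟩
    rw [List.dropLast_append_getLast?]
    exact hlast
  rw [hm] at hs
  rw [hz] at hnd hs
  have h1 : m ++ b :: s = (l₁ ++ [a]) ++ b :: l₂ := by
    simpa using hs
  have hnd' : ((l₁ ++ [a]) ++ b :: l₂).Nodup := by simpa using hnd
  have hnd2 : (m ++ b :: s).Nodup := by rw [h1]; exact hnd'
  have h2 : b ∉ l₁ ++ [a] := by
    intro hmem
    exact (List.disjoint_of_nodup_append hnd') hmem (by simp)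
  have h3 : b ∉ m := by
    intro hmem
    exact (List.disjoint_of_nodup_append hnd2) hmem (by simp)
  have h4 : m = l₁ ++ [a] := by
    have key : ∀ (m m' s s' : List V), b ∉ m → b ∉ m' → m ++ b :: s = m' ++ b :: s' → m = m' := by
      intro m
      induction m with
      | nil =>
        intro m' s s' _ hm' he
        cases m' with
        | nil => rfl
        | cons c m' =>
          simp only [List.nil_append, List.cons_append, List.cons.injEq] at he
          exact absurd (by simp [he.1]) hm'
      | cons c m ih =>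
        intro m' s s' hm hm' he
        cases m' with
        | nil =>
          simp only [List.nil_append, List.cons_append, List.cons.injEq] at he
          exact absurd (by simp [he.1]) hm
        | cons c' m' =>
          simp only [List.cons_append, List.cons.injEq] at he
          have h5 := ih m' s s' (fun hh => hm (List.mem_cons_of_mem _ hh))
            (fun hh => hm' (List.mem_cons_of_mem _ hh)) he.2
          rw [he.1, h5]
    exact key m _ s l₂ h3 h2 h1
  rw [hm, h4]
  simp

end Pool.H37.LC

namespace Pool.H85.LC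

open Finset Pool.H37.LC

theorem few_nonvertical {V : Type*} [Fintype V] {dfs : SimpleGraph V → V → List V}
    (h : IsDFS dfs) (E : Finset (Sym2 V)) (hE : ∀ e ∈ E, ¬ e.IsDiag) {r : ℝ} (h0 : 0 ≤ r)
    (h1 : r ≤ 1) (m : ℕ) :
    pr E (2 * r - r ^ 2) (fun F => ∃ N ⊆ E, m ≤ N.card ∧
      ∀ e ∈ N, ¬ Vert (dfs (SimpleGraph.fromEdgeSet (F : Set (Sym2 V)))) e) ≤
      2 ^ Fintype.card V * (1 - r) ^ m := by
  classical
  set Γ : Finset (Sym2 V) → SimpleGraph V :=
    fun F => SimpleGraph.fromEdgeSet (F : Set (Sym2 V)) with hΓ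
  set t : Finset (Sym2 V) → Finset (Sym2 V) :=
    fun F => F.filter (fun e => ∃ x y l, e = s(x, y) ∧ dfs (Γ F) y = l ++ [x, y]) with ht
  set N : Finset (Sym2 V) → Finset (Sym2 V) :=
    fun F => E.filter (fun e => ¬ Vert (dfs (Γ F)) e) with hN
  have key : pr E (2 * r - r ^ 2) (fun F => m ≤ (N F).card) ≤
      2 ^ Fintype.card V * (1 - r) ^ m := by
    refine pr_coupling E h0 h1 t N (Fintype.card V) m ?_ ?_ ?_ ?_ ?_
    · intro F _
      exact filter_subset _ _
    · intro F _
      have hsub : t F ⊆ (univ : Finset V).image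
          (fun y => s((dfs (Γ F) y).dropLast.getLastD y, y)) := by
        intro e he
        obtain ⟨_, x, y, l, rfl, hy⟩ := mem_filter.1 he
        refine mem_image.2 ⟨y, mem_univ _, ?_⟩
        rw [hy]
        have : l ++ [x, y] = (l ++ [x]) ++ [y] := by simp
        rw [this, List.dropLast_concat]
        simp
      calc (t F).card ≤ _ := card_le_card hsub
        _ ≤ (univ : Finset V).card := card_image_le
        _ = Fintype.card V := card_univ
    · intro F F' hF htF hF'
      have hle : Γ F' ≤ Γ F := SimpleGraph.fromEdgeSet_mono (by exact_mod_cast hF')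
      have hdfs : dfs (Γ F') = dfs (Γ F) := by
        funext z
        refine h.stable (Γ F) (Γ F') z hle ?_
        obtain ⟨p1, p2, p3⟩ := h.path (Γ F) z
        refine ⟨p1, ?_, p3⟩
        rw [List.isChain_iff_forall_rel_of_append_cons_cons]
        intro a b l₁ l₂ hz
        have hb := dfs_initial h (Γ F) z a b l₁ l₂ hz
        have hadj : (Γ F).Adj a b :=
          (List.isChain_iff_forall_rel_of_append_cons_cons.1 p2) hz
        rw [SimpleGraph.fromEdgeSet_adj] at hadj ⊢
        refine ⟨?_, hadj.2⟩
        have : s(a, b) ∈ t F := mem_filter.2 ⟨by exact_mod_cast hadj.1, a, b, l₁, rfl, hb⟩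
        exact_mod_cast htF this
      simp only [hN, hdfs]
    · intro F _
      exact filter_subset _ _
    · intro F _
      rw [disjoint_left]
      intro e he heF
      obtain ⟨heE, hnv⟩ := mem_filter.1 he
      apply hnv
      induction e using Sym2.ind with
      | _ a b =>
        have hne : a ≠ b := fun hab => hE _ heE (by simp [hab])
        have hadj : (Γ F).Adj a b := by
          rw [SimpleGraph.fromEdgeSet_adj]
          exact ⟨by exact_mod_cast heF, hne⟩
        rcases h.vert (Γ F) a b hadj with h2 | h2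
        · exact ⟨a, b, rfl, h2⟩
        · exact ⟨b, a, Sym2.eq_swap, h2⟩
  refine le_trans ?_ key
  unfold pr
  apply Finset.sum_le_sum_of_subset_of_nonneg
  · intro F hF
    simp only [mem_filter, mem_powerset] at hF ⊢
    obtain ⟨hFE, N', hN'E, hm, hN'⟩ := hF
    refine ⟨hFE, hm.trans (card_le_card fun e he => ?_)⟩
    exact mem_filter.2 ⟨hN'E he, hN' e he⟩
  · intro F _ _
    have e1 : 0 ≤ 2 * r - r ^ 2 := by nlinarith
    have e2 : 0 ≤ 1 - (2 * r - r ^ 2) := by nlinarith [sq_nonneg (1 - r)]
    exact mul_nonneg (pow_nonneg e1 _) (pow_nonneg e2 _)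

end Pool.H85.LC
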