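import Mathlib

set_option autoImplicit false

open MeasureTheory Equiv
open scoped ENNReal unitInterval

namespace Pool.Agent.Helper37.Rendezvous

/-- Meeting time of the walk schedules `x` and `y` when the two labellings differ by the permutation
`π`: the least step `t ≥ 1` with `x_t = π (y_t)`, and `∞` if there is none. A schedule
`x_1, x_2, …` is the function `x : ℕ → Fin n` with `x_t = x (t - 1)`. -/
noncomputable def meetTime {n : ℕ} (π : Perm (Fin n)) (x y : ℕ → Fin n) : ℝ≥0∞ :=
  ⨅ (t : ℕ) (_ : x t = π (y t)), ((t : ℝ≥0∞) + 1)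

/-- Expected meeting time of the symmetric strategy `D`: both players draw their schedules from `D`,
independently, and `π` is uniform on the permutations of the `n` labels. -/
noncomputable def expTime {n : ℕ} (D : Measure (ℕ → Fin n)) : ℝ≥0∞ :=
  ∫⁻ x, ∫⁻ y, (∑ π : Perm (Fin n), meetTime π x y) / (Nat.factorial n : ℝ≥0∞) ∂D ∂D

/-- The schedule obtained by concatenating blocks of `L` steps. -/
def concat {n : ℕ} (L : ℕ) [NeZero L] (ω : ℕ → Fin L → Fin n) : ℕ → Fin n :=
  fun t => ω (t / L) (Fin.ofNat L t)

/-- The strategy that concatenates independent blocks of `L` steps, each with law `μ`. -/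
noncomputable def iidBlocks {n : ℕ} (L : ℕ) [NeZero L] (μ : Measure (Fin L → Fin n))
    [IsProbabilityMeasure μ] : Measure (ℕ → Fin n) :=
  (Measure.infinitePi fun _ : ℕ => μ).map (concat L)

/-- Law of one block (of `n` steps) of the Anderson-Weber strategy with parameter `θ`: with
probability `θ` stay at the location labelled `0` (the label called `1` in the text), with probability
`1 - θ` visit all locations in a uniformly random order. -/
noncomputable def awBlock (n : ℕ) [NeZero n] (θ : I) : Measure (Fin n → Fin n) :=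
  ENNReal.ofReal (θ : ℝ) • Measure.dirac (fun _ => (0 : Fin n)) +
    ENNReal.ofReal (1 - (θ : ℝ)) •
      ((Nat.factorial n : ℝ≥0∞)⁻¹ • ∑ p : Perm (Fin n), Measure.dirac (p : Fin n → Fin n))

instance {n : ℕ} [NeZero n] (θ : I) : IsProbabilityMeasure (awBlock n θ) := by
  constructor
  have h1 : ((Nat.factorial n : ℕ) : ℝ≥0∞) ≠ 0 := by
    exact_mod_cast Nat.factorial_ne_zero n
  have h2 : ((Nat.factorial n : ℕ) : ℝ≥0∞) ≠ ∞ := ENNReal.natCast_ne_top _
  simp only [awBlock, Measure.coe_add, Measure.coe_smul, Pi.add_apply, Pi.smul_apply,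
    measure_univ, smul_eq_mul, mul_one, Measure.finsetSum_apply, Finset.sum_const,
    Finset.card_univ, Fintype.card_perm, Fintype.card_fin, nsmul_eq_mul]
  rw [ENNReal.inv_mul_cancel h1 h2, mul_one, ← ENNReal.ofReal_add θ.2.1 (sub_nonneg.2 θ.2.2)]
  simp

/-- The Anderson-Weber strategy with parameter `θ`: independent blocks of `n` steps. -/
noncomputable def awStrategy (n : ℕ) [NeZero n] (θ : I) : Measure (ℕ → Fin n) :=
  iidBlocks n (awBlock n θ)

end Pool.Agent.Helper37.Rendezvous
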