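import Mathlib
import Pool.Agent.Helper37.RvDefs

set_option autoImplicit false

open MeasureTheory Equiv
open scoped ENNReal unitInterval

namespace Pool.Agent.Helper37.Rendezvous

open Classical in
/-- indicator of a proposition with values in `ℝ≥0∞` -/
noncomputable def ind (p : Prop) : ℝ≥0∞ := if p then 1 else 0

theorem ind_le_one (p : Prop) : ind p ≤ 1 := by
  unfold ind; split_ifs <;> simp

theorem ind_true {p : Prop} (h : p) : ind p = 1 := by simp [ind, h]

theorem ind_false {p : Prop} (h : ¬ p) : ind p = 0 := by simp [ind, h]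

theorem ind_congr {p q : Prop} (h : p ↔ q) : ind p = ind q := by
  rw [propext h]

theorem ind_mono {p q : Prop} (h : p → q) : ind p ≤ ind q := by
  by_cases hp : p
  · rw [ind_true hp, ind_true (h hp)]
  · rw [ind_false hp]; exact zero_le

theorem meetTime_eq_tsum {n : ℕ} (π : Perm (Fin n)) (x y : ℕ → Fin n) :
    meetTime π x y = ∑' t : ℕ, ind (∀ i < t, x i ≠ π (y i)) := by
  classical
  by_cases h : ∃ t, x t = π (y t)
  · have h0 : x (Nat.find h) = π (y (Nat.find h)) := Nat.find_spec h
    have e1 : meetTime π x y = ((Nat.find h : ℕ) : ℝ≥0∞) + 1 := by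
      apply le_antisymm
      · exact iInf₂_le (Nat.find h) h0
      · refine le_iInf₂ fun t ht => ?_
        have : Nat.find h ≤ t := Nat.find_min' h ht
        gcongr
    have e2 : ∀ t ∉ Finset.range (Nat.find h + 1), ind (∀ i < t, x i ≠ π (y i)) = 0 := by
      intro t ht
      apply ind_false
      intro hall
      rw [Finset.mem_range, not_lt] at ht
      exact hall (Nat.find h) (by omega) h0
    rw [e1, tsum_eq_sum e2]
    have e3 : ∀ t ∈ Finset.range (Nat.find h + 1), ind (∀ i < t, x i ≠ π (y i)) = 1 := by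
      intro t ht
      apply ind_true
      intro i hi
      rw [Finset.mem_range] at ht
      exact Nat.find_min h (by omega)
    rw [Finset.sum_congr rfl e3]
    simp
  · push Not at h
    have e1 : meetTime π x y = ∞ := by
      unfold meetTime
      rw [iInf_eq_top]
      intro t
      rw [iInf_eq_top]
      intro ht
      exact absurd ht (h t)
    have e2 : ∀ t, ind (∀ i < t, x i ≠ π (y i)) = 1 := fun t => ind_true fun i _ => h i
    simp only [e2]
    rw [e1, ENNReal.tsum_const_eq_top_of_ne_zero one_ne_zero]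

/-- measurability of the event of no meeting -/
theorem measurable_ind {n : ℕ} (π : Perm (Fin n)) (t : ℕ) :
    Measurable (fun p : (ℕ → Fin n) × (ℕ → Fin n) => ind (∀ i < t, p.1 i ≠ π (p.2 i))) := by
  classical
  unfold ind
  apply Measurable.ite _ measurable_const measurable_const
  have : {p : (ℕ → Fin n) × (ℕ → Fin n) | ∀ i < t, p.1 i ≠ π (p.2 i)} =
      ⋂ i ∈ Set.Iio t, {p : (ℕ → Fin n) × (ℕ → Fin n) | p.1 i ≠ π (p.2 i)} := by
    ext p; simp
  rw [this]
  refine MeasurableSet.biInter (Set.to_countable _) fun i _ => ?_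
  apply MeasurableSet.compl
  apply measurableSet_eq_fun
  · fun_prop
  · exact (measurable_of_finite _).comp (by fun_prop)

theorem measurable_meetTime {n : ℕ} (π : Perm (Fin n)) :
    Measurable (fun p : (ℕ → Fin n) × (ℕ → Fin n) => meetTime π p.1 p.2) := by
  simp only [meetTime_eq_tsum]
  exact Measurable.tsum fun t => measurable_ind π t

/-- probability of no meeting in the first `t` steps, `π` fixed -/
noncomputable def surv {n : ℕ} (D : Measure (ℕ → Fin n)) (π : Perm (Fin n)) (t : ℕ) : ℝ≥0∞ :=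
  ∫⁻ x, ∫⁻ y, ind (∀ i < t, x i ≠ π (y i)) ∂D ∂D

theorem expTime_eq {n : ℕ} (D : Measure (ℕ → Fin n)) [IsProbabilityMeasure D] :
    expTime D = (∑ π : Perm (Fin n), ∑' t : ℕ, surv D π t) / (Nat.factorial n : ℝ≥0∞) := by
  unfold expTime
  simp only [div_eq_mul_inv]
  have hm1 : ∀ x : ℕ → Fin n, ∀ π : Perm (Fin n), Measurable (fun y => meetTime π x y) := by
    intro x π
    exact (measurable_meetTime π).comp (measurable_const.prodMk measurable_id)
  have hm2 : ∀ π : Perm (Fin n), Measurable (fun x => ∫⁻ y, meetTime π x y ∂D) := by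
    intro π
    exact (measurable_meetTime π).lintegral_prod_right'
  have h1 : ∀ x : ℕ → Fin n, ∫⁻ y, (∑ π : Perm (Fin n), meetTime π x y) * (Nat.factorial n : ℝ≥0∞)⁻¹ ∂D
      = (∑ π : Perm (Fin n), ∫⁻ y, meetTime π x y ∂D) * (Nat.factorial n : ℝ≥0∞)⁻¹ := by
    intro x
    rw [lintegral_mul_const _ (by exact Finset.measurable_sum _ fun π _ => hm1 x π),
      lintegral_finsetSum _ fun π _ => hm1 x π]
  simp only [h1]
  rw [lintegral_mul_const _ (by exact Finset.measurable_sum _ fun π _ => hm2 π),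
    lintegral_finsetSum _ fun π _ => hm2 π]
  congr 1
  apply Finset.sum_congr rfl
  intro π _
  unfold surv
  have hi1 : ∀ x : ℕ → Fin n, ∀ t : ℕ, Measurable (fun y : ℕ → Fin n => ind (∀ i < t, x i ≠ π (y i))) := by
    intro x t
    exact (measurable_ind π t).comp (measurable_const.prodMk measurable_id)
  have hi2 : ∀ t : ℕ, Measurable (fun x : ℕ → Fin n => ∫⁻ y, ind (∀ i < t, x i ≠ π (y i)) ∂D) := by
    intro t
    exact (measurable_ind π t).lintegral_prod_right'
  have h2 : ∀ x : ℕ → Fin n, ∫⁻ y, meetTime π x y ∂D = ∑' t : ℕ, ∫⁻ y, ind (∀ i < t, x i ≠ π (y i)) ∂D := by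
    intro x
    simp only [meetTime_eq_tsum]
    rw [lintegral_tsum fun t => (hi1 x t).aemeasurable]
  simp only [h2]
  rw [lintegral_tsum fun t => (hi2 t).aemeasurable]

/-- probability of no meeting within the first `r` steps of a block -/
noncomputable def bsurv {n L : ℕ} (μ : Measure (Fin L → Fin n)) (π : Perm (Fin n)) (r : ℕ) : ℝ≥0∞ :=
  ∫⁻ a, ∫⁻ b, ind (∀ i : Fin L, (i : ℕ) < r → a i ≠ π (b i)) ∂μ ∂μ

theorem measurable_concat {n : ℕ} (L : ℕ) [NeZero L] : Measurable (concat (n := n) L) := by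
  unfold concat
  rw [measurable_pi_iff]
  intro t
  fun_prop

instance {n : ℕ} (L : ℕ) [NeZero L] (μ : Measure (Fin L → Fin n)) [IsProbabilityMeasure μ] :
    IsProbabilityMeasure (iidBlocks L μ) :=
  Measure.isProbabilityMeasure_map (measurable_concat L).aemeasurable

theorem prod_ind {ι : Type*} (s : Finset ι) (p : ι → Prop) :
    ∏ i ∈ s, ind (p i) = ind (∀ i ∈ s, p i) := by
  classical
  unfold ind
  by_cases h : ∀ i ∈ s, p i
  · rw [if_pos h]
    exact Finset.prod_eq_one fun i hi => if_pos (h i hi)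
  · rw [if_neg h]
    push Not at h
    obtain ⟨i, hi, hp⟩ := h
    exact Finset.prod_eq_zero hi (if_neg hp)

/-- product formula for lintegrals over infinite products -/
theorem lintegral_prod_infinitePi {Ω : Type*} [MeasurableSpace Ω] (μ : Measure Ω)
    [IsProbabilityMeasure μ] (s : Finset ℕ) (g : ℕ → Ω → ℝ≥0∞) (hg : ∀ j, Measurable (g j)) :
    ∫⁻ ω, ∏ j ∈ s, g j (ω j) ∂(Measure.infinitePi fun _ : ℕ => μ) = ∏ j ∈ s, ∫⁻ a, g j a ∂μ := by
  have hind : ProbabilityTheory.iIndepFun (fun (j : ℕ) (ω : ℕ → Ω) => g j (ω j))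
      (Measure.infinitePi fun _ : ℕ => μ) := ProbabilityTheory.iIndepFun_infinitePi (X := g) hg
  rw [ProbabilityTheory.lintegral_prod_eq_prod_lintegral_of_indepFun s _ hind
    (fun j => (hg j).comp (measurable_pi_apply j))]
  apply Finset.prod_congr rfl
  intro j _
  have := (measurePreserving_eval_infinitePi (fun _ : ℕ => μ) j).lintegral_comp (hg j)
  simpa using this

theorem surv_iid {n : ℕ} (L : ℕ) [NeZero L] (μ : Measure (Fin L → Fin n)) [IsProbabilityMeasure μ]
    (π : Perm (Fin n)) (t : ℕ) :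
    surv (iidBlocks L μ) π t = (bsurv μ π L) ^ (t / L) * bsurv μ π (t % L) := by
  have hL : 0 < L := NeZero.pos L
  unfold surv
  have hmeas := measurable_ind π t
  -- push the outer and inner integrals to the product space
  have hF : Measurable (fun x : ℕ → Fin n => ∫⁻ y, ind (∀ i < t, x i ≠ π (y i)) ∂(iidBlocks L μ)) :=
    hmeas.lintegral_prod_right'
  have e1 : ∫⁻ x, ∫⁻ y, ind (∀ i < t, x i ≠ π (y i)) ∂(iidBlocks L μ) ∂(iidBlocks L μ) =
      ∫⁻ ω, ∫⁻ y, ind (∀ i < t, concat L ω i ≠ π (y i)) ∂(iidBlocks L μ)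
        ∂(Measure.infinitePi fun _ : ℕ => μ) := by
    conv_lhs => rw [iidBlocks]
    rw [lintegral_map (by exact hF) (measurable_concat L)]
    rfl
  have e2 : ∀ ω : ℕ → Fin L → Fin n, ∫⁻ y, ind (∀ i < t, concat L ω i ≠ π (y i)) ∂(iidBlocks L μ) =
      ∫⁻ ω', ind (∀ i < t, concat L ω i ≠ π (concat L ω' i)) ∂(Measure.infinitePi fun _ : ℕ => μ) := by
    intro ω
    rw [iidBlocks, lintegral_map _ (measurable_concat L)]
    exact hmeas.comp (measurable_const.prodMk measurable_id)
  rw [e1]
  simp only [e2]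
  -- factor the indicator
  let ℓ : ℕ → ℕ := fun j => if j < t / L then L else t % L
  have hfac : ∀ ω ω' : ℕ → Fin L → Fin n, ind (∀ i < t, concat L ω i ≠ π (concat L ω' i)) =
      ∏ j ∈ Finset.range (t / L + 1), ind (∀ i : Fin L, (i : ℕ) < ℓ j → ω j i ≠ π (ω' j i)) := by
    intro ω ω'
    rw [prod_ind]
    apply ind_congr
    constructor
    · intro h j hj i hi
      rw [Finset.mem_range] at hj
      have hiL : (i : ℕ) < L := i.2
      have hlt : L * j + i < t := by
        have ht := Nat.div_add_mod t L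
        by_cases hjt : j < t / L
        · have : L * (j + 1) ≤ L * (t / L) := Nat.mul_le_mul_left L hjt
          have : L * j + L ≤ L * (t / L) := by rw [← Nat.mul_succ]; exact this
          omega
        · have hjt' : j = t / L := by omega
          simp only [ℓ, hjt, if_false] at hi
          rw [hjt']; omega
      have := h (L * j + i) hlt
      unfold concat at this
      have h1 : (L * j + (i : ℕ)) / L = j := by
        rw [Nat.mul_add_div hL, Nat.div_eq_of_lt hiL, add_zero]
      have h2 : Fin.ofNat L (L * j + (i : ℕ)) = i := by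
        apply Fin.ext
        simp [Fin.ofNat, Nat.mul_add_mod, Nat.mod_eq_of_lt hiL]
      rw [h1, h2] at this
      exact this
    · intro h i hi
      unfold concat
      have hdm := Nat.div_add_mod i L
      have hmod : i % L < L := Nat.mod_lt i hL
      apply h (i / L)
      · rw [Finset.mem_range]
        exact Nat.lt_succ_of_le (Nat.div_le_div_right hi.le)
      · simp only [ℓ, Fin.ofNat]
        split_ifs with hc
        · exact hmod
        · have h3 : i / L = t / L := le_antisymm (Nat.div_le_div_right hi.le) (not_lt.mp hc)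
          have h4 := Nat.div_add_mod t L
          rw [h3] at hdm
          omega
  simp only [hfac]
  have hg : ∀ (a : ℕ → Fin L → Fin n) (j : ℕ),
      Measurable (fun b : Fin L → Fin n => ind (∀ i : Fin L, (i : ℕ) < ℓ j → a j i ≠ π (b i))) :=
    fun a j => measurable_of_countable _
  have e3 : ∀ ω : ℕ → Fin L → Fin n,
      ∫⁻ ω', ∏ j ∈ Finset.range (t / L + 1), ind (∀ i : Fin L, (i : ℕ) < ℓ j → ω j i ≠ π (ω' j i))
        ∂(Measure.infinitePi fun _ : ℕ => μ) =
      ∏ j ∈ Finset.range (t / L + 1), ∫⁻ b, ind (∀ i : Fin L, (i : ℕ) < ℓ j → ω j i ≠ π (b i)) ∂μ := by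
    intro ω
    exact lintegral_prod_infinitePi μ _
      (fun j b => ind (∀ i : Fin L, (i : ℕ) < ℓ j → ω j i ≠ π (b i))) (hg ω)
  simp only [e3]
  rw [lintegral_prod_infinitePi μ _
    (fun j a => ∫⁻ b, ind (∀ i : Fin L, (i : ℕ) < ℓ j → a i ≠ π (b i)) ∂μ)
    (fun j => measurable_of_countable _)]
  rw [Finset.prod_range_succ]
  have e4 : ∀ j ∈ Finset.range (t / L),
      ∫⁻ a, ∫⁻ b, ind (∀ i : Fin L, (i : ℕ) < ℓ j → a i ≠ π (b i)) ∂μ ∂μ = bsurv μ π L := by
    intro j hj
    rw [Finset.mem_range] at hj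
    simp only [ℓ, if_pos hj]
    rfl
  rw [Finset.prod_congr rfl e4, Finset.prod_const, Finset.card_range]
  simp only [ℓ, lt_irrefl, if_false]
  rfl

/-- expected meeting time for i.i.d. blocks, `π` fixed -/
theorem tsum_surv_iid {n : ℕ} (L : ℕ) [NeZero L] (μ : Measure (Fin L → Fin n))
    [IsProbabilityMeasure μ] (π : Perm (Fin n)) :
    ∑' t : ℕ, surv (iidBlocks L μ) π t =
      (1 - bsurv μ π L)⁻¹ * ∑ r ∈ Finset.range L, bsurv μ π r := by
  simp only [surv_iid]
  have e := (Nat.divModEquiv L).symm.tsum_eq (fun t : ℕ => (bsurv μ π L) ^ (t / L) * bsurv μ π (t % L))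
  rw [← e, ENNReal.tsum_prod']
  have h1 : ∀ (a : ℕ) (b : Fin L), ((Nat.divModEquiv L).symm (a, b)) / L = a ∧
      ((Nat.divModEquiv L).symm (a, b)) % L = b := by
    intro a b
    have hb : (b : ℕ) < L := b.2
    have hL : 0 < L := NeZero.pos L
    have : ((Nat.divModEquiv L).symm (a, b)) = a * L + b := rfl
    rw [this]
    constructor
    · rw [mul_comm, Nat.mul_add_div hL, Nat.div_eq_of_lt hb, add_zero]
    · rw [mul_comm, Nat.mul_add_mod, Nat.mod_eq_of_lt hb]
  have h2 : ∀ (a : ℕ), ∑' b : Fin L, (bsurv μ π L) ^ (((Nat.divModEquiv L).symm (a, b)) / L) *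
      bsurv μ π (((Nat.divModEquiv L).symm (a, b)) % L) =
      (bsurv μ π L) ^ a * ∑ r ∈ Finset.range L, bsurv μ π r := by
    intro a
    rw [tsum_fintype]
    simp only [(h1 a _).1, (h1 a _).2]
    rw [← Finset.mul_sum, Finset.sum_range (fun r => bsurv μ π r)]
  simp only [h2]
  rw [ENNReal.tsum_mul_right, ENNReal.tsum_geometric]

end Pool.Agent.Helper37.Rendezvous
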