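import Mathlib

set_option autoImplicit false

open Equiv

namespace Pool.Agent.Helper37.Rendezvous

/-- number of permutations without a fixed point in `S` -/
def nofix {α : Type*} [Fintype α] [DecidableEq α] (S : Finset α) : ℕ :=
  (Finset.univ.filter fun p : Perm α => ∀ j ∈ S, p j ≠ j).card

/-- recursive formula -/
def F : ℕ → ℕ → ℤ
  | n, 0 => (Nat.factorial n : ℤ)
  | n, i + 1 => F n i - F (n - 1) i

theorem card_fix_point {α : Type*} [Fintype α] [DecidableEq α] (S : Finset α) (a : α) (ha : a ∉ S) :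
    (Finset.univ.filter fun p : Perm α => (∀ j ∈ S, p j ≠ j) ∧ p a = a).card =
      nofix (S.subtype fun x => x ≠ a) := by
  unfold nofix
  symm
  apply Finset.card_bij (fun (g : Perm {x // x ≠ a}) _ => Perm.ofSubtype g)
  · intro g hg
    simp only [Finset.mem_filter, Finset.mem_univ, true_and, Finset.mem_subtype] at hg ⊢
    constructor
    · intro j hj
      have hja : j ≠ a := fun h => ha (h ▸ hj)
      rw [Perm.ofSubtype_apply_of_mem g hja]
      intro h
      exact hg ⟨j, hja⟩ hj (Subtype.ext h)
    · exact Perm.ofSubtype_apply_of_not_mem g (by simp)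
  · intro g _ g' _ h
    exact Perm.ofSubtype_injective h
  · intro p hp
    simp only [Finset.mem_filter, Finset.mem_univ, true_and] at hp
    obtain ⟨hp1, hp2⟩ := hp
    have hmem : ∀ x, p x ≠ a ↔ x ≠ a := by
      intro x
      constructor
      · intro h hx; rw [hx] at h; exact h hp2
      · intro h hx; apply h; apply p.injective; rw [hx, hp2]
    refine ⟨p.subtypePerm (p := fun x => x ≠ a) hmem, ?_, ?_⟩
    · simp only [Finset.mem_filter, Finset.mem_univ, true_and, Finset.mem_subtype]
      rintro ⟨j, hja⟩ hj h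
      exact hp1 j hj (congrArg Subtype.val h)
    · apply Perm.ofSubtype_subtypePerm
      intro x hx h
      rw [h] at hx
      exact hx hp2

theorem nofix_eq_F : ∀ (i : ℕ) {α : Type} [Fintype α] [DecidableEq α] (S : Finset α), S.card = i →
    (nofix S : ℤ) = F (Fintype.card α) i := by
  intro i
  induction i with
  | zero =>
    intro α _ _ S hS
    rw [Finset.card_eq_zero] at hS
    subst hS
    simp [nofix, F, Fintype.card_perm]
  | succ i ih =>
    intro α _ _ S hS
    obtain ⟨a, T, haT, rfl, hT⟩ := Finset.card_eq_succ.mp hS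
    have h1 : nofix T = nofix (insert a T) +
        (Finset.univ.filter fun p : Perm α => (∀ j ∈ T, p j ≠ j) ∧ p a = a).card := by
      unfold nofix
      rw [← Finset.card_filter_add_card_filter_not (s := Finset.univ.filter fun p : Perm α => ∀ j ∈ T, p j ≠ j)
        (fun p => p a ≠ a)]
      rw [Finset.filter_filter, Finset.filter_filter]
      congr 2
      · ext p
        simp only [Finset.mem_filter, Finset.mem_univ, true_and, Finset.mem_insert, forall_eq_or_imp]
        exact and_comm
      · ext p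
        simp only [Finset.mem_filter, Finset.mem_univ, true_and, not_not]
    rw [card_fix_point T a haT] at h1
    have h2 := ih T hT
    have hc : (T.subtype fun x => x ≠ a).card = i := by
      rw [Finset.card_subtype, Finset.filter_true_of_mem]
      · exact hT
      · intro x hx h; exact haT (h ▸ hx)
    have h3 := ih (T.subtype fun x => x ≠ a) hc
    have h4 : Fintype.card {x : α // x ≠ a} = Fintype.card α - 1 := by
      rw [Fintype.card_subtype_compl, Fintype.card_subtype_eq]
    rw [h4] at h3
    have h5 : (nofix T : ℤ) = nofix (insert a T) + nofix (T.subtype fun x => x ≠ a) := by exact_mod_cast h1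
    rw [F, ← h2, ← h3, h5]; ring

theorem F_eq_nofix (n i : ℕ) (hi : i ≤ n) :
    ∃ S : Finset (Fin n), S.card = i ∧ (nofix S : ℤ) = F n i := by
  obtain ⟨S, _, hS⟩ := Finset.exists_subset_card_eq (s := (Finset.univ : Finset (Fin n))) (n := i)
    (by simpa using hi)
  refine ⟨S, hS, ?_⟩
  have := nofix_eq_F i S hS
  simpa using this

theorem F_nonneg (n i : ℕ) (hi : i ≤ n) : 0 ≤ F n i := by
  obtain ⟨S, _, h⟩ := F_eq_nofix n i hi
  rw [← h]; positivity

theorem nofix_option {α : Type} [Fintype α] [DecidableEq α] (S : Finset α) :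
    (Fintype.card α + 1) * nofix S ≤ nofix (S.map Function.Embedding.some) := by
  have h1 : (Fintype.card α + 1) * nofix S =
      ((Finset.univ : Finset (Option α)) ×ˢ (Finset.univ.filter fun p : Perm α => ∀ j ∈ S, p j ≠ j)).card := by
    rw [Finset.card_product, Finset.card_univ, Fintype.card_option]
    rfl
  rw [h1]
  unfold nofix
  apply Finset.card_le_card_of_injOn (fun q => Perm.decomposeOption.symm q)
  · rintro ⟨x, σ⟩ hq
    simp only [Finset.coe_product, Finset.coe_univ, Finset.coe_filter, Finset.mem_univ, true_and,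
      Set.mem_prod, Set.mem_univ, Set.mem_ofPred_eq] at hq
    simp only [Finset.coe_filter, Finset.mem_univ, true_and, Set.mem_ofPred_eq, Finset.mem_map,
      Function.Embedding.some_apply, forall_exists_index, and_imp]
    rintro _ s hs rfl
    rw [Perm.decomposeOption_symm_apply]
    simp only [Perm.coe_mul, Function.comp_apply, optionCongr_apply, Option.map_some]
    have hσ := hq s hs
    by_cases hx : x = some (σ s)
    · rw [hx, swap_apply_right]; simp
    · rw [swap_apply_of_ne_of_ne (by simp) (fun h => hx h.symm)]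
      simpa using hσ
  · intro a _ b _ h
    exact Perm.decomposeOption.symm.injective h

theorem F_mono (n i : ℕ) (hi : i ≤ n) : ((n : ℤ) + 1) * F n i ≤ F (n + 1) i := by
  obtain ⟨S, hS, h⟩ := F_eq_nofix n i hi
  have h1 := nofix_option S
  have h2 := nofix_eq_F i (S.map Function.Embedding.some) (by rw [Finset.card_map, hS])
  rw [Fintype.card_option, Fintype.card_fin] at h2
  rw [Fintype.card_fin] at h1
  rw [← h, ← h2]
  exact_mod_cast h1

/-- probability that a random permutation of `n` points has no fixed point among `i` given points -/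
noncomputable def q (n i : ℕ) : ℝ := (F n i : ℝ) / (Nat.factorial n : ℝ)

theorem q_zero (n : ℕ) : q n 0 = 1 := by
  unfold q
  rw [F]
  have : (Nat.factorial n : ℝ) ≠ 0 := by exact_mod_cast Nat.factorial_ne_zero n
  push_cast
  exact div_self this

theorem q_nonneg (n i : ℕ) (hi : i ≤ n) : 0 ≤ q n i := by
  unfold q
  have := F_nonneg n i hi
  have h2 : (0 : ℝ) ≤ F n i := by exact_mod_cast this
  positivity

theorem q_succ (n i : ℕ) : q (n + 1) (i + 1) = q (n + 1) i - q n i / (n + 1) := by
  unfold q
  rw [F, Nat.factorial_succ]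
  have h1 : (Nat.factorial n : ℝ) ≠ 0 := by exact_mod_cast Nat.factorial_ne_zero n
  have h2 : ((n : ℝ) + 1) ≠ 0 := by positivity
  push_cast
  field_simp

theorem q_le_q (n i : ℕ) (hi : i ≤ n) : q n i ≤ q (n + 1) i := by
  unfold q
  have h := F_mono n i hi
  have h' : ((n : ℝ) + 1) * (F n i : ℝ) ≤ (F (n + 1) i : ℝ) := by exact_mod_cast h
  rw [Nat.factorial_succ]
  have h1 : (0 : ℝ) < (Nat.factorial n : ℝ) := by exact_mod_cast Nat.factorial_pos n
  have h2 : (0 : ℝ) < ((n : ℝ) + 1) := by positivity
  push_cast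
  rw [div_le_div_iff₀ h1 (by positivity)]
  nlinarith

theorem q_anti (n i : ℕ) (hi : i + 1 ≤ n) : q n (i + 1) ≤ q n i := by
  obtain ⟨m, rfl⟩ : ∃ m, n = m + 1 := ⟨n - 1, by omega⟩
  rw [q_succ]
  have := q_nonneg m i (by omega)
  have h2 : (0 : ℝ) < ((m : ℝ) + 1) := by positivity
  have : 0 ≤ q m i / (m + 1) := by positivity
  linarith

theorem q_le_one (n i : ℕ) (hi : i ≤ n) : q n i ≤ 1 := by
  induction i with
  | zero => rw [q_zero]
  | succ i ih => exact (q_anti n i hi).trans (ih (by omega))

theorem q_lower (n i : ℕ) (hi : i ≤ n) : (1 - 1 / (n : ℝ)) ^ i ≤ q n i := by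
  induction i with
  | zero => rw [q_zero, pow_zero]
  | succ i ih =>
    obtain ⟨m, rfl⟩ : ∃ m, n = m + 1 := ⟨n - 1, by omega⟩
    rw [q_succ, pow_succ]
    have h1 := ih (by omega)
    have h2 := q_le_q m i (by omega)
    have h3 : (0 : ℝ) < ((m : ℝ) + 1) := by positivity
    push_cast at h1 ⊢
    have h4 : 0 ≤ 1 - 1 / ((m : ℝ) + 1) := by
      rw [sub_nonneg, div_le_one h3]; linarith [Nat.cast_nonneg (α := ℝ) m]
    calc (1 - 1 / ((m : ℝ) + 1)) ^ i * (1 - 1 / ((m : ℝ) + 1)) ≤ q (m + 1) i * (1 - 1 / ((m : ℝ) + 1)) :=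
          mul_le_mul_of_nonneg_right h1 h4
      _ = q (m + 1) i - q (m + 1) i / (m + 1) := by ring
      _ ≤ q (m + 1) i - q m i / (m + 1) := by
          have : q m i / (m + 1) ≤ q (m + 1) i / (m + 1) := by gcongr
          linarith

theorem q_sum (n i : ℕ) : ∑ l ∈ Finset.range i, q n l = (n + 1) * (1 - q (n + 1) i) := by
  induction i with
  | zero => simp [q_zero]
  | succ i ih =>
    rw [Finset.sum_range_succ, ih, q_succ]
    have h3 : ((n : ℝ) + 1) ≠ 0 := by positivity
    field_simp
    ring

theorem q_upper (n i : ℕ) (hn : 1 ≤ n) (hi : i ≤ n) :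
    q n i ≤ 1 / (n : ℝ) + Real.exp (-((i : ℝ) / n)) := by
  obtain ⟨m, rfl⟩ : ∃ m, n = m + 1 := ⟨n - 1, by omega⟩
  rcases Nat.eq_zero_or_pos m with hm | hm
  · subst hm
    have h1 := q_le_one 1 i hi
    have h2 := Real.exp_pos (-((i : ℝ) / ((0 + 1 : ℕ) : ℝ)))
    have h3 : (1 : ℝ) / ((0 + 1 : ℕ) : ℝ) = 1 := by norm_num
    rw [h3]
    have h4 : q (0 + 1) i ≤ 1 := h1
    linarith
  · have hmpos : (0 : ℝ) < m := by exact_mod_cast hm
    have hs := q_sum m i
    have h3 : (0 : ℝ) < ((m : ℝ) + 1) := by positivity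
    have hq : q (m + 1) i = 1 - (∑ l ∈ Finset.range i, q m l) / (m + 1) := by
      rw [hs]; field_simp; ring
    set a : ℝ := 1 - 1 / (m : ℝ) with ha
    have ha0 : 0 ≤ a := by
      rw [ha, sub_nonneg, div_le_one hmpos]; exact_mod_cast hm
    have ha1 : a ≤ 1 := by
      rw [ha]; have : 0 ≤ 1 / (m : ℝ) := by positivity
      linarith
    have hgeom : (∑ l ∈ Finset.range i, a ^ l) = m * (1 - a ^ i) := by
      have h := mul_neg_geom_sum a i
      have h1a : 1 - a = 1 / (m : ℝ) := by rw [ha]; ring
      rw [h1a] at h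
      field_simp at h
      linarith
    have hge : (m : ℝ) * (1 - a ^ i) ≤ ∑ l ∈ Finset.range i, q m l := by
      rw [← hgeom]
      apply Finset.sum_le_sum
      intro l hl
      rw [Finset.mem_range] at hl
      exact q_lower m l (by omega)
    have hai : a ^ i ≤ Real.exp (-((i : ℝ) / (m + 1))) := by
      have h1 : a ≤ Real.exp (-(1 / (m : ℝ))) := by
        have := Real.add_one_le_exp (-(1 / (m : ℝ)))
        rw [ha]; linarith
      calc a ^ i ≤ (Real.exp (-(1 / (m : ℝ)))) ^ i := pow_le_pow_left₀ ha0 h1 i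
        _ = Real.exp (-((i : ℝ) / m)) := by
            rw [← Real.exp_nat_mul]; congr 1; ring
        _ ≤ Real.exp (-((i : ℝ) / (m + 1))) := by
            apply Real.exp_le_exp.mpr
            apply neg_le_neg
            gcongr
            linarith
    rw [hq]
    have h5 : 1 - (∑ l ∈ Finset.range i, q m l) / (m + 1) ≤ 1 - (m : ℝ) * (1 - a ^ i) / (m + 1) := by
      have : (m : ℝ) * (1 - a ^ i) / (m + 1) ≤ (∑ l ∈ Finset.range i, q m l) / (m + 1) := by gcongr
      linarith
    have h6 : 1 - (m : ℝ) * (1 - a ^ i) / (m + 1) = 1 / (m + 1) + (m / (m + 1)) * a ^ i := by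
      field_simp; ring
    have h7 : (m : ℝ) / (m + 1) * a ^ i ≤ a ^ i := by
      have hai0 : 0 ≤ a ^ i := pow_nonneg ha0 i
      have : (m : ℝ) / (m + 1) ≤ 1 := by rw [div_le_one h3]; linarith
      nlinarith
    push_cast
    linarith

theorem q_self (n : ℕ) : q n n = (numDerangements n : ℝ) / (Nat.factorial n : ℝ) := by
  unfold q
  have h := nofix_eq_F n (Finset.univ : Finset (Fin n)) (by simp)
  rw [Fintype.card_fin] at h
  rw [← h, ← card_derangements_fin_eq_numDerangements, Fintype.card_of_subtype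
    (Finset.univ.filter fun p : Perm (Fin n) => ∀ j ∈ (Finset.univ : Finset (Fin n)), p j ≠ j)]
  · rw [Int.cast_natCast]; unfold nofix; congr!
  · intro p; simp [derangements]

end Pool.Agent.Helper37.Rendezvous
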