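import Mathlib
import Pool.Agent.Helper37.RvBlocks
import Pool.Agent.Helper37.RvPerm

set_option autoImplicit false

open MeasureTheory Equiv Filter Topology
open scoped ENNReal unitInterval

namespace Pool.Agent.Helper37.Rendezvous

/-- the value of a random permutation at a point is uniform -/
theorem avg_apply {V : Type*} [Fintype V] [DecidableEq V] (f : V → ℝ) (j : V) :
    (Fintype.card V : ℝ) * ∑ p : Perm V, f (p j) = (Nat.factorial (Fintype.card V) : ℝ) * ∑ v, f v := by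
  have h1 : ∀ j' : V, ∑ p : Perm V, f (p j') = ∑ p : Perm V, f (p j) := by
    intro j'
    apply Fintype.sum_equiv (Equiv.mulRight (swap j j'))
    intro p
    simp
  have h2 : ∑ j' : V, ∑ p : Perm V, f (p j') = (Fintype.card V : ℝ) * ∑ p : Perm V, f (p j) := by
    rw [Finset.sum_congr rfl (fun j' _ => h1 j'), Finset.sum_const, Finset.card_univ, nsmul_eq_mul]
  have h3 : ∑ j' : V, ∑ p : Perm V, f (p j') = (Nat.factorial (Fintype.card V) : ℝ) * ∑ v, f v := by
    rw [Finset.sum_comm]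
    have : ∀ p : Perm V, ∑ j', f (p j') = ∑ v, f v := fun p => Equiv.sum_comp p f
    rw [Finset.sum_congr rfl (fun p _ => this p), Finset.sum_const, Finset.card_univ, nsmul_eq_mul,
      Fintype.card_perm]
  rw [← h2, h3]

theorem sum_ind_eq_card {α : Type*} [Fintype α] (P : α → Prop) [DecidablePred P] :
    ∑ p : α, ind (P p) = ((Finset.univ.filter P).card : ℝ≥0∞) := by
  classical
  have h : ∀ p : α, ind (P p) = if P p then 1 else 0 := by
    intro p
    by_cases hp : P p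
    · rw [ind_true hp, if_pos hp]
    · rw [ind_false hp, if_neg hp]
  rw [Finset.sum_congr rfl (fun p _ => h p)]
  simp

theorem inv_fact_mul (n c : ℕ) : ((Nat.factorial n : ℕ) : ℝ≥0∞)⁻¹ * (c : ℝ≥0∞) =
    ENNReal.ofReal ((c : ℝ) / (Nat.factorial n : ℝ)) := by
  have hpos : (0 : ℝ) < (Nat.factorial n : ℝ) := by exact_mod_cast Nat.factorial_pos n
  rw [ENNReal.ofReal_div_of_pos hpos, ENNReal.ofReal_natCast, ENNReal.ofReal_natCast,
    ENNReal.div_eq_inv_mul]

/-- permutations avoiding the value `v` on the first `r` points -/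
theorem card_avoid (n : ℕ) (r : ℕ) (hr : r ≤ n) (hn : 0 < n) (v : Fin n) :
    ((Finset.univ.filter fun p : Perm (Fin n) => ∀ i : Fin n, (i : ℕ) < r → p i ≠ v).card : ℝ) /
      (Nat.factorial n : ℝ) = 1 - (r : ℝ) / n := by
  classical
  have h1 : ((Finset.univ.filter fun p : Perm (Fin n) => ∀ i : Fin n, (i : ℕ) < r → p i ≠ v).card : ℝ) =
      ∑ p : Perm (Fin n), (if r ≤ ((p v : Fin n) : ℕ) then (1 : ℝ) else 0) := by
    rw [Finset.card_filter]
    push_cast
    apply Fintype.sum_equiv (Equiv.inv (Perm (Fin n)))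
    intro p
    congr 1
    simp only [eq_iff_iff]
    constructor
    · intro h
      by_contra hlt
      push Not at hlt
      exact h (p⁻¹ v) hlt (by simp)
    · intro h i hi hpi
      have : p⁻¹ v = i := by rw [← hpi]; simp
      rw [Equiv.inv_apply, this] at h
      omega
  have h2 := avg_apply (fun w : Fin n => if r ≤ (w : ℕ) then (1 : ℝ) else 0) v
  rw [← h1, Fintype.card_fin] at h2
  have h3 : ∑ w : Fin n, (if r ≤ (w : ℕ) then (1 : ℝ) else 0) = (n : ℝ) - r := by
    rw [Finset.sum_boole]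
    have h4 : (Finset.univ.filter fun w : Fin n => r ≤ (w : ℕ)).card = n - r := by
      have h5 : (Finset.univ.filter fun w : Fin n => r ≤ (w : ℕ)).card =
          (Finset.univ.filter fun w : Fin n => ¬ ((w : ℕ) < r)).card := by
        congr 1; ext w; simp
      rw [h5, Finset.filter_not, Finset.card_sdiff_of_subset (Finset.filter_subset _ _)]
      simp [Fin.card_filter_val_lt, hr]
    rw [h4, Nat.cast_sub hr]
  rw [h3] at h2
  have hn' : (0 : ℝ) < n := by exact_mod_cast hn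
  have hpos : (0 : ℝ) < (Nat.factorial n : ℝ) := by exact_mod_cast Nat.factorial_pos n
  field_simp
  linarith

/-- average over pairs of permutations of the event of no meeting -/
theorem card_pair (n r : ℕ) (hr : r ≤ n) (π p' : Perm (Fin n)) :
    ((Finset.univ.filter fun p : Perm (Fin n) => ∀ i : Fin n, (i : ℕ) < r → p i ≠ π (p' i)).card : ℝ) /
      (Nat.factorial n : ℝ) = q n r := by
  have h1 : (Finset.univ.filter fun p : Perm (Fin n) => ∀ i : Fin n, (i : ℕ) < r → p i ≠ π (p' i)).card =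
      nofix (Finset.univ.filter fun i : Fin n => (i : ℕ) < r) := by
    unfold nofix
    apply Finset.card_bij (fun p _ => (π * p')⁻¹ * p)
    · intro p hp
      simp only [Finset.mem_filter, Finset.mem_univ, true_and] at hp ⊢
      intro j hj h
      apply hp j hj
      have := congrArg (π * p') h
      simpa using this
    · intro a _ b _ h
      exact mul_left_cancel h
    · intro b hb
      refine ⟨(π * p') * b, ?_, by group⟩
      simp only [Finset.mem_filter, Finset.mem_univ, true_and] at hb ⊢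
      intro i hi h
      apply hb i hi
      have h' : (π * p') (b i) = (π * p') i := h
      exact (π * p').injective h'
  have h2 := nofix_eq_F r (Finset.univ.filter fun i : Fin n => (i : ℕ) < r)
    (by rw [Fin.card_filter_val_lt, min_eq_right hr])
  rw [Fintype.card_fin] at h2
  unfold q
  rw [h1, ← h2, Int.cast_natCast]

theorem lintegral_awBlock {n : ℕ} [NeZero n] (θ : I) (f : (Fin n → Fin n) → ℝ≥0∞) :
    ∫⁻ a, f a ∂(awBlock n θ) = ENNReal.ofReal (θ : ℝ) * f (fun _ => 0) +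
      ENNReal.ofReal (1 - (θ : ℝ)) * ((Nat.factorial n : ℝ≥0∞)⁻¹ * ∑ p : Perm (Fin n), f p) := by
  unfold awBlock
  rw [lintegral_add_measure, lintegral_smul_measure, lintegral_smul_measure, lintegral_smul_measure,
    lintegral_dirac, lintegral_finsetSum_measure]
  simp only [lintegral_dirac, smul_eq_mul]

/-- survival probability within a block, Anderson-Weber, homes distinct -/
noncomputable def S (n : ℕ) (θ : ℝ) (r : ℕ) : ℝ :=
  θ ^ 2 + 2 * θ * (1 - θ) * (1 - (r : ℝ) / n) + (1 - θ) ^ 2 * q n r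

theorem bsurv_aw {n : ℕ} [NeZero n] (θ : I) (π : Perm (Fin n)) (r : ℕ) (hr : r ≤ n) :
    bsurv (awBlock n θ) π r =
      ENNReal.ofReal (θ : ℝ) * (ENNReal.ofReal (θ : ℝ) * ind (∀ i : Fin n, (i : ℕ) < r → (0 : Fin n) ≠ π 0) +
        ENNReal.ofReal (1 - (θ : ℝ)) * ENNReal.ofReal (1 - (r : ℝ) / n)) +
      ENNReal.ofReal (1 - (θ : ℝ)) * (ENNReal.ofReal (θ : ℝ) * ENNReal.ofReal (1 - (r : ℝ) / n) +
        ENNReal.ofReal (1 - (θ : ℝ)) * ENNReal.ofReal (q n r)) := by
  classical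
  have hn : 0 < n := NeZero.pos n
  have hfac0 : ((Nat.factorial n : ℕ) : ℝ≥0∞) ≠ 0 := by exact_mod_cast Nat.factorial_ne_zero n
  have hfact : ((Nat.factorial n : ℕ) : ℝ≥0∞) ≠ ∞ := ENNReal.natCast_ne_top _
  unfold bsurv
  simp only [lintegral_awBlock]
  -- W against M
  have e1 : (Nat.factorial n : ℝ≥0∞)⁻¹ * ∑ p : Perm (Fin n),
      ind (∀ i : Fin n, (i : ℕ) < r → (0 : Fin n) ≠ π (p i)) = ENNReal.ofReal (1 - (r : ℝ) / n) := by
    have : ∀ p : Perm (Fin n), ind (∀ i : Fin n, (i : ℕ) < r → (0 : Fin n) ≠ π (p i)) =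
        ind (∀ i : Fin n, (i : ℕ) < r → p i ≠ π⁻¹ 0) := by
      intro p
      apply ind_congr
      constructor
      · intro h i hi hc
        apply h i hi
        rw [hc]; simp
      · intro h i hi hc
        apply h i hi
        rw [hc]; simp
    rw [Finset.sum_congr rfl (fun p _ => this p), sum_ind_eq_card, inv_fact_mul, card_avoid n r hr hn]
  -- M against W
  have e2 : (Nat.factorial n : ℝ≥0∞)⁻¹ * ∑ p : Perm (Fin n),
      ind (∀ i : Fin n, (i : ℕ) < r → p i ≠ π 0) = ENNReal.ofReal (1 - (r : ℝ) / n) := by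
    rw [sum_ind_eq_card, inv_fact_mul, card_avoid n r hr hn]
  -- M against M
  have e3 : (Nat.factorial n : ℝ≥0∞)⁻¹ * ∑ p : Perm (Fin n), ((Nat.factorial n : ℝ≥0∞)⁻¹ *
      ∑ p' : Perm (Fin n), ind (∀ i : Fin n, (i : ℕ) < r → p i ≠ π (p' i))) = ENNReal.ofReal (q n r) := by
    rw [← Finset.mul_sum, Finset.sum_comm]
    have h : ∀ p' : Perm (Fin n), ∑ p : Perm (Fin n), ind (∀ i : Fin n, (i : ℕ) < r → p i ≠ π (p' i)) =
        (Nat.factorial n : ℝ≥0∞) * ENNReal.ofReal (q n r) := by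
      intro p'
      rw [sum_ind_eq_card]
      have h1 := card_pair n r hr π p'
      rw [← h1, ← inv_fact_mul, ← mul_assoc, ENNReal.mul_inv_cancel hfac0 hfact, one_mul]
    rw [Finset.sum_congr rfl (fun p' _ => h p'), Finset.sum_const, Finset.card_univ, Fintype.card_perm,
      Fintype.card_fin, nsmul_eq_mul]
    rw [← mul_assoc (Nat.factorial n : ℝ≥0∞)⁻¹ (Nat.factorial n : ℝ≥0∞) _,
      ENNReal.inv_mul_cancel hfac0 hfact, one_mul, ← mul_assoc,
      ENNReal.inv_mul_cancel hfac0 hfact, one_mul]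
  rw [e1]
  simp only [mul_add, Finset.sum_add_distrib]
  have e4 : (Nat.factorial n : ℝ≥0∞)⁻¹ * ∑ p : Perm (Fin n), ENNReal.ofReal (θ : ℝ) *
      ind (∀ i : Fin n, (i : ℕ) < r → p i ≠ π 0) =
      ENNReal.ofReal (θ : ℝ) * ENNReal.ofReal (1 - (r : ℝ) / n) := by
    rw [← Finset.mul_sum, ← mul_assoc, mul_comm (Nat.factorial n : ℝ≥0∞)⁻¹, mul_assoc, e2]
  have e5 : (Nat.factorial n : ℝ≥0∞)⁻¹ * ∑ p : Perm (Fin n), ENNReal.ofReal (1 - (θ : ℝ)) *
      ((Nat.factorial n : ℝ≥0∞)⁻¹ * ∑ p' : Perm (Fin n), ind (∀ i : Fin n, (i : ℕ) < r → p i ≠ π (p' i))) =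
      ENNReal.ofReal (1 - (θ : ℝ)) * ENNReal.ofReal (q n r) := by
    rw [← Finset.mul_sum, ← mul_assoc, mul_comm (Nat.factorial n : ℝ≥0∞)⁻¹, mul_assoc, e3]
  rw [e4, e5]

theorem bsurv_aw_formula {n : ℕ} [NeZero n] (θ : I) (r : ℕ) (hr : r ≤ n) :
    ENNReal.ofReal (θ : ℝ) * (ENNReal.ofReal (θ : ℝ) * 1 +
        ENNReal.ofReal (1 - (θ : ℝ)) * ENNReal.ofReal (1 - (r : ℝ) / n)) +
      ENNReal.ofReal (1 - (θ : ℝ)) * (ENNReal.ofReal (θ : ℝ) * ENNReal.ofReal (1 - (r : ℝ) / n) +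
        ENNReal.ofReal (1 - (θ : ℝ)) * ENNReal.ofReal (q n r)) = ENNReal.ofReal (S n θ r) := by
  have hn : (0 : ℝ) < n := by exact_mod_cast NeZero.pos n
  have h0 : (0 : ℝ) ≤ θ := θ.2.1
  have h1 : (0 : ℝ) ≤ 1 - θ := sub_nonneg.2 θ.2.2
  have h2 : (0 : ℝ) ≤ 1 - (r : ℝ) / n := by
    rw [sub_nonneg, div_le_one hn]; exact_mod_cast hr
  have h3 := q_nonneg n r hr
  rw [mul_one, ← ENNReal.ofReal_mul h1, ← ENNReal.ofReal_mul h0, ← ENNReal.ofReal_mul h1,
    ← ENNReal.ofReal_add h0 (by positivity), ← ENNReal.ofReal_mul h0,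
    ← ENNReal.ofReal_add (by positivity) (by positivity), ← ENNReal.ofReal_mul h1,
    ← ENNReal.ofReal_add (by positivity) (by positivity)]
  congr 1
  unfold S
  ring

theorem bsurv_aw_le {n : ℕ} [NeZero n] (θ : I) (π : Perm (Fin n)) (r : ℕ) (hr : r ≤ n) :
    bsurv (awBlock n θ) π r ≤ ENNReal.ofReal (S n θ r) := by
  rw [bsurv_aw θ π r hr, ← bsurv_aw_formula θ r hr]
  gcongr
  exact ind_le_one _

theorem bsurv_aw_eq {n : ℕ} [NeZero n] (θ : I) (π : Perm (Fin n)) (hπ : π 0 ≠ 0) (r : ℕ) (hr : r ≤ n) :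
    bsurv (awBlock n θ) π r = ENNReal.ofReal (S n θ r) := by
  rw [bsurv_aw θ π r hr, ← bsurv_aw_formula θ r hr, ind_true (fun _ _ => hπ.symm)]

end Pool.Agent.Helper37.Rendezvous
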