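import Mathlib
import Pool.Agent.Helper37.RvAW

set_option autoImplicit false

open MeasureTheory Equiv Filter Topology
open scoped ENNReal unitInterval

namespace Pool.Agent.Helper37.Rendezvous

theorem S_nonneg (n : ℕ) (hn : 0 < n) (θ : I) (r : ℕ) (hr : r ≤ n) : 0 ≤ S n θ r := by
  have hn' : (0 : ℝ) < n := by exact_mod_cast hn
  have h0 : (0 : ℝ) ≤ θ := θ.2.1
  have h1 : (0 : ℝ) ≤ 1 - θ := sub_nonneg.2 θ.2.2
  have h2 : (0 : ℝ) ≤ 1 - (r : ℝ) / n := by
    rw [sub_nonneg, div_le_one hn']; exact_mod_cast hr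
  have h3 := q_nonneg n r hr
  unfold S
  positivity

/-- total survival in a block -/
noncomputable def R (n : ℕ) (θ : ℝ) : ℝ := ∑ r ∈ Finset.range n, S n θ r

theorem R_nonneg (n : ℕ) (hn : 0 < n) (θ : I) : 0 ≤ R n θ :=
  Finset.sum_nonneg fun r hr => S_nonneg n hn θ r (Finset.mem_range.1 hr).le

theorem tsum_aw_le {n : ℕ} [NeZero n] (θ : I) (π : Perm (Fin n)) :
    ∑' t : ℕ, surv (awStrategy n θ) π t ≤
      (1 - ENNReal.ofReal (S n θ n))⁻¹ * ENNReal.ofReal (R n θ) := by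
  unfold awStrategy
  rw [tsum_surv_iid]
  have h1 : ENNReal.ofReal (R n θ) = ∑ r ∈ Finset.range n, ENNReal.ofReal (S n θ r) := by
    unfold R
    rw [ENNReal.ofReal_sum_of_nonneg]
    intro r hr
    exact S_nonneg n (NeZero.pos n) θ r (Finset.mem_range.1 hr).le
  rw [h1]
  gcongr with r hr
  · exact bsurv_aw_le θ π n le_rfl
  · exact bsurv_aw_le θ π r (Finset.mem_range.1 hr).le

theorem tsum_aw_eq {n : ℕ} [NeZero n] (θ : I) (π : Perm (Fin n)) (hπ : π 0 ≠ 0) :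
    ∑' t : ℕ, surv (awStrategy n θ) π t =
      (1 - ENNReal.ofReal (S n θ n))⁻¹ * ENNReal.ofReal (R n θ) := by
  unfold awStrategy
  rw [tsum_surv_iid]
  have h1 : ENNReal.ofReal (R n θ) = ∑ r ∈ Finset.range n, ENNReal.ofReal (S n θ r) := by
    unfold R
    rw [ENNReal.ofReal_sum_of_nonneg]
    intro r hr
    exact S_nonneg n (NeZero.pos n) θ r (Finset.mem_range.1 hr).le
  rw [h1, bsurv_aw_eq θ π hπ n le_rfl]
  congr 1
  apply Finset.sum_congr rfl
  intro r hr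
  exact bsurv_aw_eq θ π hπ r (Finset.mem_range.1 hr).le

instance {n : ℕ} [NeZero n] (θ : I) : IsProbabilityMeasure (awStrategy n θ) := by
  unfold awStrategy; infer_instance

theorem expTime_aw_le {n : ℕ} [NeZero n] (θ : I) :
    expTime (awStrategy n θ) ≤ (1 - ENNReal.ofReal (S n θ n))⁻¹ * ENNReal.ofReal (R n θ) := by
  have hfac0 : ((Nat.factorial n : ℕ) : ℝ≥0∞) ≠ 0 := by exact_mod_cast Nat.factorial_ne_zero n
  have hfact : ((Nat.factorial n : ℕ) : ℝ≥0∞) ≠ ∞ := ENNReal.natCast_ne_top _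
  rw [expTime_eq]
  calc (∑ π : Perm (Fin n), ∑' t : ℕ, surv (awStrategy n θ) π t) / (Nat.factorial n : ℝ≥0∞)
      ≤ (∑ _π : Perm (Fin n), (1 - ENNReal.ofReal (S n θ n))⁻¹ * ENNReal.ofReal (R n θ)) /
          (Nat.factorial n : ℝ≥0∞) := by
        gcongr with π _
        exact tsum_aw_le θ π
    _ = (1 - ENNReal.ofReal (S n θ n))⁻¹ * ENNReal.ofReal (R n θ) := by
        rw [Finset.sum_const, Finset.card_univ, Fintype.card_perm, Fintype.card_fin, nsmul_eq_mul,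
          mul_comm, mul_div_assoc, ENNReal.div_self hfac0 hfact, mul_one]

theorem card_home (n : ℕ) [NeZero n] :
    ((Finset.univ.filter fun π : Perm (Fin n) => π 0 ≠ 0).card : ℝ) / (Nat.factorial n : ℝ) =
      1 - 1 / (n : ℝ) := by
  have h := card_avoid n 1 (NeZero.pos n) (NeZero.pos n) 0
  rw [Nat.cast_one] at h
  rw [← h]
  congr 3
  ext p
  simp only [Finset.mem_filter, Finset.mem_univ, true_and, Nat.lt_one_iff]
  constructor
  · intro hp i hi
    have : i = 0 := by apply Fin.ext; rw [hi]; simp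
    rw [this]; exact hp
  · intro hp
    exact hp 0 (by simp)

theorem expTime_aw_ge {n : ℕ} [NeZero n] (θ : I) :
    ENNReal.ofReal (1 - 1 / (n : ℝ)) *
      ((1 - ENNReal.ofReal (S n θ n))⁻¹ * ENNReal.ofReal (R n θ)) ≤ expTime (awStrategy n θ) := by
  classical
  rw [expTime_eq]
  have h1 : ∑ π ∈ Finset.univ.filter (fun π : Perm (Fin n) => π 0 ≠ 0),
      ((1 - ENNReal.ofReal (S n θ n))⁻¹ * ENNReal.ofReal (R n θ)) ≤
      ∑ π : Perm (Fin n), ∑' t : ℕ, surv (awStrategy n θ) π t := by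
    calc ∑ π ∈ Finset.univ.filter (fun π : Perm (Fin n) => π 0 ≠ 0),
          ((1 - ENNReal.ofReal (S n θ n))⁻¹ * ENNReal.ofReal (R n θ))
        = ∑ π ∈ Finset.univ.filter (fun π : Perm (Fin n) => π 0 ≠ 0),
          ∑' t : ℕ, surv (awStrategy n θ) π t := by
          apply Finset.sum_congr rfl
          intro π hπ
          rw [Finset.mem_filter] at hπ
          rw [tsum_aw_eq θ π hπ.2]
      _ ≤ _ := Finset.sum_le_sum_of_subset (Finset.filter_subset _ _)
  rw [Finset.sum_const, nsmul_eq_mul] at h1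
  rw [ENNReal.div_eq_inv_mul, ← card_home n, ← inv_fact_mul, mul_assoc]
  gcongr

/-- limit value of the Anderson-Weber strategy -/
noncomputable def g : ℝ := Real.exp (-1)

noncomputable def num (θ : ℝ) : ℝ := θ + (1 - θ) ^ 2 * (1 - g)

noncomputable def den (θ : ℝ) : ℝ := 1 - θ ^ 2 - (1 - θ) ^ 2 * g

theorem g_bounds : 0.3678 < g ∧ g < 0.3679 := by
  have h1 := Real.exp_neg_one_gt_d9
  have h2 := Real.exp_neg_one_lt_d9
  unfold g
  constructor <;> linarith

theorem den_pos (θ : ℝ) (h0 : 0 ≤ θ) (h1 : θ < 1) : 0 < den θ := by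
  have hg := g_bounds
  unfold den
  nlinarith [mul_pos (sub_pos.2 h1) (sub_pos.2 h1), mul_nonneg h0 (sub_nonneg.2 h1.le)]

theorem num_ge (θ : ℝ) : 0.82888 * den θ ≤ num θ := by
  have h1 := Real.exp_neg_one_gt_d9
  have h2 := Real.exp_neg_one_lt_d9
  have h3 : Real.exp (-1) * (1 - θ) ^ 2 ≤ 0.3678794412 * (1 - θ) ^ 2 :=
    mul_le_mul_of_nonneg_right h2.le (sq_nonneg _)
  unfold num den g
  nlinarith [sq_nonneg (θ - 0.2475)]

/-- the optimal constant -/
noncomputable def cAW : ℝ := ⨅ θ : Set.Ico (0 : ℝ) 1, num θ / den θ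

theorem cAW_bdd : BddBelow (Set.range fun θ : Set.Ico (0 : ℝ) 1 => num θ / den θ) := by
  refine ⟨0.82888, ?_⟩
  rintro _ ⟨θ, rfl⟩
  have hd := den_pos θ θ.2.1 θ.2.2
  rw [le_div_iff₀ hd]
  exact num_ge θ

theorem cAW_ge : 0.82888 ≤ cAW := by
  have : Nonempty (Set.Ico (0 : ℝ) 1) := ⟨⟨0, by simp⟩⟩
  apply le_ciInf
  intro θ
  have hd := den_pos θ θ.2.1 θ.2.2
  rw [le_div_iff₀ hd]
  exact num_ge θ

theorem cAW_le (θ : ℝ) (h0 : 0 ≤ θ) (h1 : θ < 1) : cAW ≤ num θ / den θ :=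
  ciInf_le cAW_bdd ⟨θ, h0, h1⟩

theorem cAW_le_one : cAW ≤ 1 := by
  have h := cAW_le 0 le_rfl one_pos
  unfold num den at h
  have hg := g_bounds
  have : (0 + (1 - 0) ^ 2 * (1 - g)) / (1 - 0 ^ 2 - (1 - 0) ^ 2 * g) = 1 := by
    have h1 : (1 : ℝ) - g ≠ 0 := by linarith [hg.2]
    have h2 : (0 + (1 - 0) ^ 2 * (1 - g)) = 1 - g := by ring
    have h3 : (1 - 0 ^ 2 - (1 - 0) ^ 2 * g) = 1 - g := by ring
    rw [h2, h3, div_self h1]
  linarith

theorem cAW_den_le (θ : ℝ) (h0 : 0 ≤ θ) (h1 : θ ≤ 1) : cAW * den θ ≤ num θ := by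
  rcases h1.lt_or_eq with h | h
  · have hd := den_pos θ h0 h
    exact (le_div_iff₀ hd).1 (cAW_le θ h0 h)
  · rw [h]; unfold den num; norm_num

/-- sum of the `q n r` over the block -/
noncomputable def A (n : ℕ) : ℝ := ∑ r ∈ Finset.range n, q n r

theorem A_eq (n : ℕ) : A n = (n + 1) * (1 - q (n + 1) (n + 1)) - q n n := by
  unfold A
  rw [q_sum, q_succ]
  have : ((n : ℝ) + 1) ≠ 0 := by positivity
  field_simp
  ring

theorem sum_lin (n : ℕ) (hn : 0 < n) : ∑ r ∈ Finset.range n, (1 - (r : ℝ) / n) = ((n : ℝ) + 1) / 2 := by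
  have hn' : (0 : ℝ) < n := by exact_mod_cast hn
  rw [Finset.sum_sub_distrib, Finset.sum_const, Finset.card_range, nsmul_eq_mul, mul_one,
    ← Finset.sum_div]
  have h : ∑ i ∈ Finset.range n, (i : ℝ) = n * (n - 1) / 2 := by
    have := Finset.sum_range_id_mul_two n
    have h2 : (((∑ i ∈ Finset.range n, i) * 2 : ℕ) : ℝ) = ((n * (n - 1) : ℕ) : ℝ) := by exact_mod_cast this
    push_cast [Nat.cast_sub (Nat.succ_le_of_lt hn)] at h2
    linarith
  rw [h]
  field_simp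
  ring

theorem R_eq (n : ℕ) (hn : 0 < n) (θ : ℝ) :
    R n θ = n * θ ^ 2 + θ * (1 - θ) * (n + 1) + (1 - θ) ^ 2 * A n := by
  unfold R S A
  rw [Finset.sum_add_distrib, Finset.sum_add_distrib, ← Finset.mul_sum, ← Finset.mul_sum, sum_lin n hn,
    Finset.sum_const, Finset.card_range, nsmul_eq_mul]
  ring

theorem S_n (n : ℕ) (hn : 0 < n) (θ : ℝ) : S n θ n = θ ^ 2 + (1 - θ) ^ 2 * q n n := by
  have hn' : (n : ℝ) ≠ 0 := by exact_mod_cast hn.ne'
  unfold S
  rw [div_self hn']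
  ring

theorem q_tendsto : Tendsto (fun n : ℕ => q n n) atTop (𝓝 g) := by
  simp only [q_self]
  exact numDerangements_tendsto_inv_e

theorem A_tendsto : Tendsto (fun n : ℕ => A n / n) atTop (𝓝 (1 - g)) := by
  have h1 : Tendsto (fun n : ℕ => q (n + 1) (n + 1)) atTop (𝓝 g) :=
    q_tendsto.comp (tendsto_add_atTop_nat 1)
  have h2 : Tendsto (fun n : ℕ => ((n : ℝ))⁻¹) atTop (𝓝 0) := tendsto_inv_atTop_nhds_zero_nat
  have h3 : Tendsto (fun n : ℕ => (1 + ((n : ℝ))⁻¹) * (1 - q (n + 1) (n + 1)) - q n n * ((n : ℝ))⁻¹) atTop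
      (𝓝 ((1 + 0) * (1 - g) - g * 0)) :=
    ((tendsto_const_nhds.add h2).mul (tendsto_const_nhds.sub h1)).sub (q_tendsto.mul h2)
  have h4 : (1 + 0) * (1 - g) - g * 0 = 1 - g := by ring
  rw [h4] at h3
  apply h3.congr'
  filter_upwards [eventually_gt_atTop 0] with n hn
  have hn' : (n : ℝ) ≠ 0 := by exact_mod_cast (ne_of_gt hn)
  rw [A_eq]
  field_simp

/-- the error term -/
noncomputable def err (n : ℕ) : ℝ := |A n / n - (1 - g)| + |q n n - g|

theorem err_tendsto : Tendsto err atTop (𝓝 0) := by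
  have h1 := (A_tendsto.sub_const (1 - g)).abs
  have h2 := (q_tendsto.sub_const g).abs
  have h3 := h1.add h2
  simp only [sub_self, abs_zero, add_zero] at h3
  exact h3

theorem lower_real (n : ℕ) (hn : 0 < n) (hq : q n n ≤ 1 / 2) (θ : ℝ) (h0 : 0 ≤ θ) (h1 : θ ≤ 1) :
    (n : ℝ) * (cAW - 4 * err n) * (1 - S n θ n) ≤ R n θ := by
  have hn' : (0 : ℝ) < n := by exact_mod_cast hn
  have hA : A n / n ≥ (1 - g) - err n := by
    have := neg_abs_le (A n / n - (1 - g))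
    have h2 := abs_nonneg (q n n - g)
    unfold err; linarith
  have hQ : q n n ≥ g - err n := by
    have := neg_abs_le (q n n - g)
    have h2 := abs_nonneg (A n / n - (1 - g))
    unfold err; linarith
  have herr : 0 ≤ err n := by unfold err; positivity
  have hA' : A n ≥ n * ((1 - g) - err n) := by
    rw [ge_iff_le, le_div_iff₀ hn'] at hA
    linarith
  rw [R_eq n hn, S_n n hn]
  have hc := cAW_den_le θ h0 h1
  have hc1 := cAW_le_one
  have hc0 := cAW_ge
  unfold den num at hc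
  -- key inequality divided by n
  have key : (cAW - 4 * err n) * (1 - (θ ^ 2 + (1 - θ) ^ 2 * q n n)) ≤
      θ ^ 2 + θ * (1 - θ) + (1 - θ) ^ 2 * ((1 - g) - err n) := by
    have hD : (1 - θ) / 2 ≤ 1 - (θ ^ 2 + (1 - θ) ^ 2 * q n n) := by
      have : (1 - θ) ^ 2 * q n n ≤ (1 - θ) ^ 2 * (1 / 2) :=
        mul_le_mul_of_nonneg_left hq (sq_nonneg _)
      nlinarith [mul_nonneg h0 (sub_nonneg.2 h1)]
    have e1 : cAW * (1 - (θ ^ 2 + (1 - θ) ^ 2 * q n n)) ≤
        θ + (1 - θ) ^ 2 * (1 - g) + (1 - θ) ^ 2 * err n := by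
      have e2 : (1 - θ) ^ 2 * (g - err n) ≤ (1 - θ) ^ 2 * q n n :=
        mul_le_mul_of_nonneg_left hQ (sq_nonneg _)
      have e3 : cAW * (1 - (θ ^ 2 + (1 - θ) ^ 2 * q n n)) ≤
          cAW * (1 - θ ^ 2 - (1 - θ) ^ 2 * g + (1 - θ) ^ 2 * err n) := by
        apply mul_le_mul_of_nonneg_left _ (by linarith)
        linarith
      have e4 : cAW * ((1 - θ) ^ 2 * err n) ≤ 1 * ((1 - θ) ^ 2 * err n) :=
        mul_le_mul_of_nonneg_right hc1 (by positivity)
      nlinarith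
    have e5 : 4 * err n * ((1 - θ) / 2) ≤ 4 * err n * (1 - (θ ^ 2 + (1 - θ) ^ 2 * q n n)) :=
      mul_le_mul_of_nonneg_left hD (by positivity)
    have e6 : (1 - θ) ^ 2 * err n ≤ (1 - θ) * err n := by
      apply mul_le_mul_of_nonneg_right _ herr
      nlinarith
    nlinarith
  have e7 : (n : ℝ) * (cAW - 4 * err n) * (1 - (θ ^ 2 + (1 - θ) ^ 2 * q n n)) ≤
      n * (θ ^ 2 + θ * (1 - θ) + (1 - θ) ^ 2 * ((1 - g) - err n)) := by
    rw [mul_assoc]
    exact mul_le_mul_of_nonneg_left key hn'.le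
  have e8 : 0 ≤ θ * (1 - θ) := mul_nonneg h0 (sub_nonneg.2 h1)
  have e9 : (1 - θ) ^ 2 * (n * ((1 - g) - err n)) ≤ (1 - θ) ^ 2 * A n :=
    mul_le_mul_of_nonneg_left hA' (sq_nonneg _)
  nlinarith

theorem R_pos (n : ℕ) (hn : 0 < n) (θ : I) : 0 < R n θ := by
  have h1 : S n θ 0 ≤ R n θ := by
    unfold R
    apply Finset.single_le_sum (f := fun r => S n θ r)
      (fun r hr => S_nonneg n hn θ r (Finset.mem_range.1 hr).le) (Finset.mem_range.2 hn)
  have h2 : S n θ 0 = 1 := by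
    unfold S
    rw [q_zero]
    push_cast
    ring
  linarith

/-- uniform lower bound for all the Anderson-Weber strategies -/
theorem expTime_aw_lower {n : ℕ} [NeZero n] (hq : q n n ≤ 1 / 2) (θ : I) :
    ENNReal.ofReal ((1 - 1 / (n : ℝ)) * (n * (cAW - 4 * err n))) ≤ expTime (awStrategy n θ) := by
  have hn : 0 < n := NeZero.pos n
  have hn' : (1 : ℝ) ≤ n := by exact_mod_cast hn
  refine le_trans ?_ (expTime_aw_ge θ)
  have h1 : (0 : ℝ) ≤ 1 - 1 / (n : ℝ) := by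
    rw [sub_nonneg, div_le_one (by linarith)]; exact hn'
  rw [ENNReal.ofReal_mul h1]
  gcongr
  rw [← ENNReal.div_eq_inv_mul, ENNReal.le_div_iff_mul_le]
  · have hs := S_nonneg n hn θ n le_rfl
    rw [← ENNReal.ofReal_one, ← ENNReal.ofReal_sub 1 hs, ← ENNReal.ofReal_mul']
    · exact ENNReal.ofReal_le_ofReal (lower_real n hn hq θ θ.2.1 θ.2.2)
    · rw [S_n n hn]
      have h0 : (0 : ℝ) ≤ θ := θ.2.1
      have h2 : (0 : ℝ) ≤ 1 - θ := sub_nonneg.2 θ.2.2
      have : (1 - (θ : ℝ)) ^ 2 * q n n ≤ (1 - (θ : ℝ)) ^ 2 * (1 / 2) :=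
        mul_le_mul_of_nonneg_left hq (sq_nonneg _)
      nlinarith [mul_nonneg h0 h2]
  · right
    rw [ne_eq, ENNReal.ofReal_eq_zero, not_le]
    exact R_pos n hn θ
  · left
    exact ne_top_of_le_ne_top ENNReal.one_ne_top tsub_le_self

/-- pointwise convergence for fixed `θ < 1` -/
theorem ratio_tendsto (θ : ℝ) (h0 : 0 ≤ θ) (h1 : θ < 1) :
    Tendsto (fun n : ℕ => R n θ / n / (1 - S n θ n)) atTop (𝓝 (num θ / den θ)) := by
  have hd := den_pos θ h0 h1
  apply Tendsto.div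
  · have h2 : Tendsto (fun n : ℕ => ((n : ℝ))⁻¹) atTop (𝓝 0) := tendsto_inv_atTop_nhds_zero_nat
    have h3 : Tendsto (fun n : ℕ => θ ^ 2 + θ * (1 - θ) * (1 + ((n : ℝ))⁻¹) + (1 - θ) ^ 2 * (A n / n)) atTop
        (𝓝 (θ ^ 2 + θ * (1 - θ) * (1 + 0) + (1 - θ) ^ 2 * (1 - g))) :=
      (tendsto_const_nhds.add (tendsto_const_nhds.mul (tendsto_const_nhds.add h2))).add
        (tendsto_const_nhds.mul A_tendsto)
    have h4 : θ ^ 2 + θ * (1 - θ) * (1 + 0) + (1 - θ) ^ 2 * (1 - g) = num θ := by unfold num; ring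
    rw [h4] at h3
    apply h3.congr'
    filter_upwards [eventually_gt_atTop 0] with n hn
    have hn' : (n : ℝ) ≠ 0 := by exact_mod_cast (ne_of_gt hn)
    rw [R_eq n hn]
    field_simp
  · have h3 : Tendsto (fun n : ℕ => 1 - (θ ^ 2 + (1 - θ) ^ 2 * q n n)) atTop
        (𝓝 (1 - (θ ^ 2 + (1 - θ) ^ 2 * g))) :=
      tendsto_const_nhds.sub (tendsto_const_nhds.add (tendsto_const_nhds.mul q_tendsto))
    have h4 : 1 - (θ ^ 2 + (1 - θ) ^ 2 * g) = den θ := by unfold den; ring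
    rw [h4] at h3
    apply h3.congr'
    filter_upwards [eventually_gt_atTop 0] with n hn
    rw [S_n n hn]
  · exact hd.ne'

theorem expTime_aw_upper {n : ℕ} [NeZero n] (θ : I) (hS : S n θ n < 1) :
    expTime (awStrategy n θ) / n ≤ ENNReal.ofReal (R n θ / n / (1 - S n θ n)) := by
  have hn : 0 < n := NeZero.pos n
  have hn' : (0 : ℝ) < n := by exact_mod_cast hn
  have hs := S_nonneg n hn θ n le_rfl
  have h1 : (1 - ENNReal.ofReal (S n θ n)) = ENNReal.ofReal (1 - S n θ n) := by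
    rw [ENNReal.ofReal_sub 1 hs, ENNReal.ofReal_one]
  have h2 : expTime (awStrategy n θ) ≤ ENNReal.ofReal (R n θ / (1 - S n θ n)) := by
    refine (expTime_aw_le θ).trans ?_
    rw [h1, ← ENNReal.div_eq_inv_mul, ENNReal.ofReal_div_of_pos (by linarith)]
  calc expTime (awStrategy n θ) / n ≤ ENNReal.ofReal (R n θ / (1 - S n θ n)) / n := by gcongr
    _ = ENNReal.ofReal (R n θ / n / (1 - S n θ n)) := by
        rw [← ENNReal.ofReal_natCast, ← ENNReal.ofReal_div_of_pos hn']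
        congr 1
        ring

/-- The limit defining `c_AW` exists and equals `cAW`. -/
theorem aw_limit : Tendsto
    (fun m : ℕ => (⨅ θ : I, expTime (awStrategy (m + 2) θ)) / ((m + 2 : ℕ) : ℝ≥0∞)) atTop
    (𝓝 (ENNReal.ofReal cAW)) := by
  have hshift : Tendsto (fun m : ℕ => m + 2) atTop atTop := tendsto_add_atTop_nat 2
  rw [tendsto_order]
  constructor
  · intro a ha
    -- lower bound
    have hlim : Tendsto (fun m : ℕ => (1 - 1 / ((m + 2 : ℕ) : ℝ)) * (cAW - 4 * err (m + 2))) atTop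
        (𝓝 ((1 - 0) * (cAW - 4 * 0))) := by
      apply Tendsto.mul
      · apply tendsto_const_nhds.sub
        have h := (tendsto_inv_atTop_nhds_zero_nat (𝕜 := ℝ)).comp hshift
        simp only [one_div]
        exact h
      · exact tendsto_const_nhds.sub (tendsto_const_nhds.mul (err_tendsto.comp hshift))
    have hlim2 := (ENNReal.tendsto_ofReal hlim)
    have e0 : (1 - 0) * (cAW - 4 * 0) = cAW := by ring
    rw [e0] at hlim2
    have hq : ∀ᶠ m : ℕ in atTop, q (m + 2) (m + 2) < 1 / 2 := by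
      have h := q_tendsto.comp hshift
      have hg : g < 1 / 2 := by have := g_bounds.2; linarith
      exact h.eventually_lt_const hg
    filter_upwards [hlim2.eventually_const_lt ha, hq] with m hm hqm
    refine lt_of_lt_of_le hm ?_
    have hnn : ((m + 2 : ℕ) : ℝ) ≠ 0 := by positivity
    have hpos : (0 : ℝ) < ((m + 2 : ℕ) : ℝ) := by positivity
    have h1 : ENNReal.ofReal ((1 - 1 / ((m + 2 : ℕ) : ℝ)) * (cAW - 4 * err (m + 2))) =
        ENNReal.ofReal ((1 - 1 / ((m + 2 : ℕ) : ℝ)) * (((m + 2 : ℕ) : ℝ) * (cAW - 4 * err (m + 2)))) /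
          ((m + 2 : ℕ) : ℝ≥0∞) := by
      rw [← ENNReal.ofReal_natCast, ← ENNReal.ofReal_div_of_pos hpos]
      congr 1
      field_simp
    rw [h1]
    gcongr
    apply le_iInf
    intro θ
    exact expTime_aw_lower hqm.le θ
  · intro a ha
    -- upper bound
    have h1 : ∃ θ : Set.Ico (0 : ℝ) 1, ENNReal.ofReal (num θ / den θ) < a := by
      by_contra hcon
      push Not at hcon
      have hne : Nonempty (Set.Ico (0 : ℝ) 1) := ⟨⟨0, by simp⟩⟩
      have hatop : a ≠ ∞ := ne_top_of_le_ne_top ENNReal.ofReal_ne_top (hcon ⟨0, by simp⟩)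
      have : a.toReal ≤ cAW := by
        apply le_ciInf
        intro θ
        have hnn : 0 ≤ num θ / den θ := by
          have := cAW_le θ θ.2.1 θ.2.2
          have := cAW_ge
          linarith
        exact ENNReal.toReal_le_of_le_ofReal hnn (hcon θ)
      have h2 : a ≤ ENNReal.ofReal cAW := by
        rw [← ENNReal.ofReal_toReal hatop]
        exact ENNReal.ofReal_le_ofReal this
      exact absurd ha (not_lt.2 h2)
    obtain ⟨θ, hθ⟩ := h1
    have ht := (ratio_tendsto θ θ.2.1 θ.2.2).comp hshift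
    have ht2 := (ENNReal.tendsto_ofReal ht).eventually_lt_const hθ
    have hS : ∀ᶠ m : ℕ in atTop, S (m + 2) θ (m + 2) < 1 := by
      have hlim : Tendsto (fun n : ℕ => (θ : ℝ) ^ 2 + (1 - (θ : ℝ)) ^ 2 * q n n) atTop
          (𝓝 ((θ : ℝ) ^ 2 + (1 - (θ : ℝ)) ^ 2 * g)) :=
        tendsto_const_nhds.add (tendsto_const_nhds.mul q_tendsto)
      have hlt : (θ : ℝ) ^ 2 + (1 - (θ : ℝ)) ^ 2 * g < 1 := by
        have := den_pos θ θ.2.1 θ.2.2
        unfold den at this; linarith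
      filter_upwards [(hlim.comp hshift).eventually_lt_const hlt] with m hm
      rw [S_n (m + 2) (by omega)]
      exact hm
    filter_upwards [ht2, hS] with m hm hSm
    refine lt_of_le_of_lt ?_ hm
    let θ' : I := ⟨θ, θ.2.1, θ.2.2.le⟩
    calc (⨅ θ : I, expTime (awStrategy (m + 2) θ)) / ((m + 2 : ℕ) : ℝ≥0∞)
        ≤ expTime (awStrategy (m + 2) θ') / ((m + 2 : ℕ) : ℝ≥0∞) := by
          gcongr
          exact iInf_le _ θ'
      _ ≤ _ := expTime_aw_upper θ' hSm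

end Pool.Agent.Helper37.Rendezvous
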