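import Mathlib
import Pool.Agent.Helper37.RvPerm
import Pool.Agent.Helper37.RvAW

set_option autoImplicit false

open Equiv Finset
open scoped BigOperators

namespace Pool.Agent.Helper37.Rendezvous

/-- windows of a pattern: scan one half of the locations, or stay at one of two home locations -/
inductive Lab
  | scan (c : Bool)
  | stay (j : Bool)
deriving DecidableEq

/-- locations: two halves of size `N` -/
abbrev V (N : ℕ) := Bool × Fin N

/-- the label visited in window `w` at step `i` -/
def lab {N : ℕ} (s : Fin 6 → Lab) (α : Fin 6 → Perm (Fin N)) (h : Bool → V N) (w : Fin 6)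
    (i : Fin N) : V N :=
  match s w with
  | Lab.scan c => (c, α w i)
  | Lab.stay j => h j

/-- step `i` of window `w` is among the first `m` steps -/
def act {N : ℕ} (m : ℕ) (w : Fin 6) (i : Fin N) : Prop := (w : ℕ) * N + i < m

instance {N : ℕ} (m : ℕ) (w : Fin 6) (i : Fin N) : Decidable (act m w i) := by
  unfold act; infer_instance

/-- no meeting during the first `m` steps -/
def noM {N : ℕ} (s s' : Fin 6 → Lab) (m : ℕ) (σ : Perm (V N)) (α α' : Fin 6 → Perm (Fin N))
    (h h' : Bool → V N) : Prop :=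
  ∀ w i, act m w i → lab s α h w i ≠ σ (lab s' α' h' w i)

theorem expect_pi {ι κ : Type*} [Fintype ι] [DecidableEq ι] [Fintype κ] (f : ι → κ → ℝ) :
    𝔼 x : ι → κ, ∏ i, f i (x i) = ∏ i, 𝔼 v : κ, f i v := by
  simp only [Fintype.expect_eq_sum_div_card]
  rw [Finset.prod_div_distrib, Finset.prod_univ_sum, Fintype.piFinset_univ]
  simp

/-- locations at which home `j` of the first player has been checked by the second player -/
def cov {N : ℕ} (s s' : Fin 6 → Lab) (m : ℕ) (σ : Perm (V N)) (α' : Fin 6 → Perm (Fin N))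
    (j : Bool) : Finset (V N) :=
  univ.filter fun v => ∃ w i, act m w i ∧ s w = Lab.stay j ∧ ∃ c', s' w = Lab.scan c' ∧ σ (c', α' w i) = v

/-- avoidance in a window where both players scan -/
def e1 {N : ℕ} (s s' : Fin 6 → Lab) (m : ℕ) (σ : Perm (V N)) (α' : Fin 6 → Perm (Fin N))
    (w : Fin 6) (β : Perm (Fin N)) : Prop :=
  ∀ c c', s w = Lab.scan c → s' w = Lab.scan c' → ∀ i, act m w i → (c, β i) ≠ σ (c', α' w i)

/-- positions where the second player scans a location of the class of the first player -/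
def dom {N : ℕ} (s s' : Fin 6 → Lab) (m : ℕ) (σ : Perm (V N)) (α' : Fin 6 → Perm (Fin N))
    (w : Fin 6) : Finset (Fin N) :=
  univ.filter fun i => act m w i ∧ ∃ c c', s w = Lab.scan c ∧ s' w = Lab.scan c' ∧ (σ (c', α' w i)).1 = c

theorem noM_imp {N : ℕ} {s s' : Fin 6 → Lab} {m : ℕ} {σ : Perm (V N)} {α α' : Fin 6 → Perm (Fin N)}
    {h h' : Bool → V N} (H : noM s s' m σ α α' h h') :
    (∀ w, e1 s s' m σ α' w (α w)) ∧ (∀ j, h j ∉ cov s s' m σ α' j) ∧
      (∀ j, h' j ∉ cov s' s m σ⁻¹ α j) := by
  refine ⟨?_, ?_, ?_⟩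
  · intro w c c' hc hc' i hi heq
    have := H w i hi
    unfold lab at this
    rw [hc, hc'] at this
    exact this heq
  · intro j hj
    unfold cov at hj
    rw [mem_filter] at hj
    obtain ⟨_, w, i, hi, hs, c', hs', he⟩ := hj
    have := H w i hi
    unfold lab at this
    rw [hs, hs'] at this
    exact this he.symm
  · intro j hj
    unfold cov at hj
    rw [mem_filter] at hj
    obtain ⟨_, w, i, hi, hs, c', hs', he⟩ := hj
    have := H w i hi
    unfold lab at this
    rw [hs, hs'] at this
    apply this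
    simp only
    rw [← he]
    simp

open Classical in
/-- real-valued indicator -/
noncomputable def ri (p : Prop) : ℝ := if p then 1 else 0

theorem ri_nonneg (p : Prop) : 0 ≤ ri p := by unfold ri; split_ifs <;> norm_num

theorem ri_le_one (p : Prop) : ri p ≤ 1 := by unfold ri; split_ifs <;> norm_num

theorem ri_true {p : Prop} (h : p) : ri p = 1 := by unfold ri; rw [if_pos h]

theorem ri_false {p : Prop} (h : ¬ p) : ri p = 0 := by unfold ri; rw [if_neg h]

theorem ri_congr {p q : Prop} (h : p ↔ q) : ri p = ri q := by rw [propext h]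

theorem ri_forall {ι : Type*} [Fintype ι] (p : ι → Prop) : ri (∀ i, p i) = ∏ i, ri (p i) := by
  by_cases h : ∀ i, p i
  · rw [ri_true h]
    symm
    exact Finset.prod_eq_one fun i _ => ri_true (h i)
  · rw [ri_false h]
    push Not at h
    obtain ⟨i, hi⟩ := h
    symm
    exact Finset.prod_eq_zero (Finset.mem_univ i) (ri_false hi)

theorem ri_noM_le {N : ℕ} (s s' : Fin 6 → Lab) (m : ℕ) (σ : Perm (V N))
    (α α' : Fin 6 → Perm (Fin N)) (h h' : Bool → V N) :
    ri (noM s s' m σ α α' h h') ≤ (∏ w, ri (e1 s s' m σ α' w (α w))) *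
      ((∏ j, ri (h j ∉ cov s s' m σ α' j)) * (∏ j, ri (h' j ∉ cov s' s m σ⁻¹ α j))) := by
  by_cases H : noM s s' m σ α α' h h'
  · obtain ⟨h1, h2, h3⟩ := noM_imp H
    rw [ri_true H, ← ri_forall, ← ri_forall, ← ri_forall, ri_true h1, ri_true h2, ri_true h3]
    norm_num
  · rw [ri_false H]
    apply mul_nonneg (Finset.prod_nonneg fun _ _ => ri_nonneg _)
    exact mul_nonneg (Finset.prod_nonneg fun _ _ => ri_nonneg _) (Finset.prod_nonneg fun _ _ => ri_nonneg _)

theorem expect_ri_notMem {N : ℕ} (hN : 0 < N) (C : Finset (V N)) :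
    𝔼 v : V N, ri (v ∉ C) = 1 - (C.card : ℝ) / (2 * N) := by
  rw [Fintype.expect_eq_sum_div_card]
  have h1 : ∑ v : V N, ri (v ∉ C) = (Fintype.card (V N) : ℝ) - C.card := by
    have h2 : ∀ v : V N, ri (v ∉ C) = 1 - (if v ∈ C then (1 : ℝ) else 0) := by
      intro v
      by_cases hv : v ∈ C
      · rw [ri_false (by simpa using hv), if_pos hv]; ring
      · rw [ri_true hv, if_neg hv]; ring
    rw [Finset.sum_congr rfl (fun v _ => h2 v), Finset.sum_sub_distrib]
    simp
  rw [h1]
  have hc : (Fintype.card (V N) : ℝ) = 2 * N := by simp [V]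
  rw [hc]
  have hN' : (0 : ℝ) < N := by exact_mod_cast hN
  field_simp

/-- permutations avoiding prescribed distinct values on a set -/
theorem card_avoid_injOn {n : ℕ} (T : Finset (Fin n)) (v : Fin n → Fin n) (hv : Set.InjOn v T) :
    (univ.filter fun p : Perm (Fin n) => ∀ j ∈ T, p j ≠ v j).card = nofix T := by
  obtain ⟨g, hg⟩ := Finset.exists_equiv_extend_of_card_eq (α := Fin n) (β := Fin n) (t := univ)
    (by simp) (s := T) (f := v) (Finset.subset_univ _) hv
  let τ : Perm (Fin n) := g.trans (Equiv.subtypeUnivEquiv (by simp))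
  have hτ : ∀ j ∈ T, τ j = v j := fun j hj => hg j hj
  unfold nofix
  apply Finset.card_bij (fun p _ => τ⁻¹ * p)
  · intro p hp
    simp only [Finset.mem_filter, Finset.mem_univ, true_and] at hp ⊢
    intro j hj h
    apply hp j hj
    have := congrArg τ h
    simp only [Perm.coe_mul, Function.comp_apply] at this
    rw [Equiv.Perm.inv_def, Equiv.apply_symm_apply, hτ j hj] at this
    exact this
  · intro a _ b _ h
    exact mul_left_cancel h
  · intro b hb
    refine ⟨τ * b, ?_, by group⟩
    simp only [Finset.mem_filter, Finset.mem_univ, true_and] at hb ⊢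
    intro j hj h
    apply hb j hj
    rw [← hτ j hj] at h
    exact τ.injective h

theorem expect_avoid {n : ℕ} (T : Finset (Fin n)) (v : Fin n → Fin n) (hv : Set.InjOn v T) :
    𝔼 p : Perm (Fin n), ri (∀ j ∈ T, p j ≠ v j) = q n T.card := by
  classical
  rw [Fintype.expect_eq_sum_div_card, Fintype.card_perm, Fintype.card_fin]
  have h1 : ∑ p : Perm (Fin n), ri (∀ j ∈ T, p j ≠ v j) =
      ((univ.filter fun p : Perm (Fin n) => ∀ j ∈ T, p j ≠ v j).card : ℝ) := by
    rw [Finset.card_filter]
    push_cast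
    apply Finset.sum_congr rfl
    intro p _
    by_cases hp : ∀ j ∈ T, p j ≠ v j
    · rw [ri_true hp, if_pos hp]
    · rw [ri_false hp, if_neg hp]
  rw [h1, card_avoid_injOn T v hv]
  have h2 := nofix_eq_F T.card T rfl
  rw [Fintype.card_fin] at h2
  unfold q
  rw [← h2, Int.cast_natCast]

theorem expect_e1 {N : ℕ} (s s' : Fin 6 → Lab) (m : ℕ) (σ : Perm (V N))
    (α' : Fin 6 → Perm (Fin N)) (w : Fin 6) :
    𝔼 β : Perm (Fin N), ri (e1 s s' m σ α' w β) = q N (dom s s' m σ α' w).card := by
  -- the prescribed values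
  let c'0 : Bool := match s' w with
    | Lab.scan c => c
    | Lab.stay _ => true
  have hinj : Set.InjOn (fun i : Fin N => (σ (c'0, α' w i)).2) (dom s s' m σ α' w) := by
    intro i hi i' hi' heq
    simp only [dom, coe_filter, mem_univ, true_and, Set.mem_ofPred_eq] at hi hi'
    obtain ⟨_, c, c', hc, hc', he⟩ := hi
    obtain ⟨_, d, d', hd, hd', he'⟩ := hi'
    have h1 : c = d := by rw [hc] at hd; exact Lab.scan.inj hd
    have h2 : c' = d' := by rw [hc'] at hd'; exact Lab.scan.inj hd'
    have h3 : c'0 = c' := by simp only [c'0, hc']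
    subst h1 h2
    simp only [h3] at heq
    have h4 : σ (c', α' w i) = σ (c', α' w i') := Prod.ext (he.trans he'.symm) heq
    have h5 := σ.injective h4
    exact (α' w).injective (congrArg Prod.snd h5)
  rw [← expect_avoid (dom s s' m σ α' w) _ hinj]
  apply Finset.expect_congr rfl
  intro β _
  apply ri_congr
  constructor
  · intro H i hi
    simp only [dom, mem_filter, mem_univ, true_and] at hi
    obtain ⟨ha, c, c', hc, hc', he⟩ := hi
    have h3 : c'0 = c' := by simp only [c'0, hc']
    intro heq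
    apply H c c' hc hc' i ha
    rw [h3] at heq
    exact Prod.ext he.symm heq
  · intro H c c' hc hc' i ha heq
    have h3 : c'0 = c' := by simp only [c'0, hc']
    have hmem : i ∈ dom s s' m σ α' w := by
      simp only [dom, mem_filter, mem_univ, true_and]
      exact ⟨ha, c, c', hc, hc', by rw [← heq]⟩
    apply H i hmem
    rw [h3, ← heq]

end Pool.Agent.Helper37.Rendezvous
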