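import Mathlib
import Pool.Agent.Helper37.RvPair

set_option autoImplicit false

open Equiv Finset
open scoped BigOperators

namespace Pool.Agent.Helper37.Rendezvous

/-- sign of a class -/
def zc (c : Bool) : ℝ := if c then 1 else -1

theorem zc_sq (c : Bool) : zc c * zc c = 1 := by cases c <;> simp [zc]

theorem zc_abs (c : Bool) : |zc c| = 1 := by cases c <;> simp [zc]

theorem sum_zc (N : ℕ) : ∑ v : V N, zc v.1 = 0 := by
  rw [Fintype.sum_prod_type]
  simp [zc]

theorem expect_zc {N : ℕ} (hN : 0 < N) (l : V N) : 𝔼 σ : Perm (V N), zc (σ l).1 = 0 := by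
  rw [Fintype.expect_eq_sum_div_card]
  have h := avg_apply (fun v : V N => zc v.1) l
  rw [sum_zc, mul_zero] at h
  have hc : (Fintype.card (V N) : ℝ) ≠ 0 := by
    simp [V]; omega
  rcases mul_eq_zero.1 h with h | h
  · exact absurd h hc
  · rw [h, zero_div]

theorem expect_zc_mul {N : ℕ} (l l' : V N) (hl : l ≠ l') :
    𝔼 σ : Perm (V N), zc (σ l).1 * zc (σ l').1 ≤ 0 := by
  -- symmetry
  have hsym : ∀ l'' : V N, l'' ≠ l → 𝔼 σ : Perm (V N), zc (σ l).1 * zc (σ l'').1 =
      𝔼 σ : Perm (V N), zc (σ l).1 * zc (σ l').1 := by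
    intro l'' hl''
    apply Fintype.expect_equiv (Equiv.mulRight (swap l' l''))
    intro σ
    simp only [Equiv.coe_mulRight, Perm.coe_mul, Function.comp_apply, swap_apply_left]
    rw [swap_apply_of_ne_of_ne hl hl''.symm]
  have h0 : 𝔼 σ : Perm (V N), ∑ l'' : V N, zc (σ l).1 * zc (σ l'').1 = 0 := by
    have : ∀ σ : Perm (V N), ∑ l'' : V N, zc (σ l).1 * zc (σ l'').1 = 0 := by
      intro σ
      rw [← Finset.mul_sum, Equiv.sum_comp σ (fun v : V N => zc v.1), sum_zc, mul_zero]
    simp [this]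
  rw [Finset.expect_sum_comm] at h0
  rw [← Finset.add_sum_erase _ _ (Finset.mem_univ l)] at h0
  have h1 : 𝔼 σ : Perm (V N), zc (σ l).1 * zc (σ l).1 = 1 := by
    simp [zc_sq]
  rw [h1] at h0
  have h2 : ∑ l'' ∈ (univ : Finset (V N)).erase l, 𝔼 σ : Perm (V N), zc (σ l).1 * zc (σ l'').1 =
      (((univ : Finset (V N)).erase l).card : ℝ) * 𝔼 σ : Perm (V N), zc (σ l).1 * zc (σ l').1 := by
    rw [Finset.sum_congr rfl (fun l'' hl'' => hsym l'' (Finset.ne_of_mem_erase hl''))]
    rw [Finset.sum_const, nsmul_eq_mul]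
  rw [h2] at h0
  by_contra hcon
  push Not at hcon
  have : 0 ≤ (((univ : Finset (V N)).erase l).card : ℝ) *
      𝔼 σ : Perm (V N), zc (σ l).1 * zc (σ l').1 := by positivity
  linarith

theorem expect_sq_zc {N : ℕ} {ι : Type*} [Fintype ι] (A : Finset ι) (f : ι → V N)
    (hf : Function.Injective f) :
    𝔼 σ : Perm (V N), (∑ i ∈ A, zc (σ (f i)).1) ^ 2 ≤ A.card := by
  have h1 : ∀ σ : Perm (V N), (∑ i ∈ A, zc (σ (f i)).1) ^ 2 =
      ∑ i ∈ A, ∑ j ∈ A, zc (σ (f i)).1 * zc (σ (f j)).1 := by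
    intro σ
    rw [sq, Finset.sum_mul_sum]
  rw [Finset.expect_congr rfl (fun σ _ => h1 σ), Finset.expect_sum_comm]
  calc ∑ i ∈ A, 𝔼 σ : Perm (V N), ∑ j ∈ A, zc (σ (f i)).1 * zc (σ (f j)).1
      ≤ ∑ i ∈ A, (1 : ℝ) := by
        apply Finset.sum_le_sum
        intro i hi
        classical
        rw [Finset.expect_sum_comm, ← Finset.add_sum_erase _ _ hi]
        have e1 : 𝔼 σ : Perm (V N), zc (σ (f i)).1 * zc (σ (f i)).1 = 1 := by simp [zc_sq]
        rw [e1]
        have e2 : ∑ j ∈ A.erase i, 𝔼 σ : Perm (V N), zc (σ (f i)).1 * zc (σ (f j)).1 ≤ 0 := by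
          apply Finset.sum_nonpos
          intro j hj
          apply expect_zc_mul
          intro h
          exact Finset.ne_of_mem_erase hj (hf h).symm
        linarith
    _ = A.card := by simp

theorem exp_quad (y : ℝ) (hy : |y| ≤ 3) : Real.exp (-y) ≤ 1 - y + 23 * y ^ 2 := by
  have h := Complex.norm_exp_sub_sum_le_norm_mul_exp (((-y : ℝ)) : ℂ) 2
  have h1 : ‖Complex.exp ((-y : ℝ) : ℂ) - ∑ m ∈ Finset.range 2, ((-y : ℝ) : ℂ) ^ m / (m.factorial : ℂ)‖ =
      |Real.exp (-y) - (1 - y)| := by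
    rw [← Complex.ofReal_exp]
    simp only [Finset.sum_range_succ, Finset.sum_range_zero, pow_zero, Nat.factorial, pow_one,
      zero_add, Nat.cast_one, div_one, mul_one]
    rw [← Real.norm_eq_abs, ← Complex.norm_real]
    congr 1
    push_cast
    ring
  rw [h1] at h
  have h2 : ‖((-y : ℝ) : ℂ)‖ = |y| := by rw [Complex.norm_real, Real.norm_eq_abs, abs_neg]
  rw [h2, sq_abs] at h
  have h3 : Real.exp |y| ≤ 23 := by
    have h4 : Real.exp |y| ≤ Real.exp 3 := Real.exp_le_exp.2 hy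
    have h5 : Real.exp 3 = Real.exp 1 ^ 3 := by rw [← Real.exp_nat_mul]; norm_num
    have h6 := Real.exp_one_lt_d9
    have h7 : Real.exp 1 ^ 3 ≤ 2.7182818286 ^ 3 := pow_le_pow_left₀ (Real.exp_pos 1).le h6.le 3
    rw [h5] at h4
    have : (2.7182818286 : ℝ) ^ 3 ≤ 23 := by norm_num
    linarith
  have h8 : y ^ 2 * Real.exp |y| ≤ y ^ 2 * 23 := by
    apply mul_le_mul_of_nonneg_left h3 (sq_nonneg y)
  have h9 := le_abs_self (Real.exp (-y) - (1 - y))
  linarith

/-- number of steps of window `w` among the first `m` steps -/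
def len (N m : ℕ) (w : Fin 6) : ℕ := min N (m - w * N)

theorem card_act (N m : ℕ) (w : Fin 6) :
    (univ.filter fun i : Fin N => act m w i).card = len N m w := by
  have h : (univ.filter fun i : Fin N => act m w i) = univ.filter fun i : Fin N => (i : ℕ) < m - w * N := by
    ext i
    rw [mem_filter, mem_filter]
    unfold act
    constructor
    · rintro ⟨h1, h2⟩
      exact ⟨h1, by omega⟩
    · rintro ⟨h1, h2⟩
      exact ⟨h1, by omega⟩
  rw [h, Fin.card_filter_val_lt]
  rfl

/-- both players scan in window `w` -/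
def ss (s s' : Fin 6 → Lab) (w : Fin 6) : Bool :=
  match s w, s' w with
  | Lab.scan _, Lab.scan _ => true
  | _, _ => false

/-- number of active steps in windows where both players scan -/
def nss (N : ℕ) (s s' : Fin 6 → Lab) (m : ℕ) : ℕ := ∑ w, if ss s s' w then len N m w else 0

/-- centred size of `dom` -/
noncomputable def dev {N : ℕ} (s s' : Fin 6 → Lab) (m : ℕ) (σ : Perm (V N))
    (α' : Fin 6 → Perm (Fin N)) (w : Fin 6) : ℝ :=
  match s w, s' w with
  | Lab.scan c, Lab.scan c' =>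
    zc c / 2 * ∑ i ∈ univ.filter (fun i : Fin N => act m w i), zc (σ (c', α' w i)).1
  | _, _ => 0

theorem dom_card {N : ℕ} (s s' : Fin 6 → Lab) (m : ℕ) (σ : Perm (V N))
    (α' : Fin 6 → Perm (Fin N)) (w : Fin 6) :
    ((dom s s' m σ α' w).card : ℝ) = (if ss s s' w then (len N m w : ℝ) else 0) / 2 +
      dev s s' m σ α' w := by
  unfold dom ss dev
  rcases hs : s w with c | j <;> rcases hs' : s' w with c' | j'
  · simp only [if_true]
    rw [← card_act]
    have h1 : (univ.filter fun i : Fin N => act m w i ∧ ∃ d d', Lab.scan c = Lab.scan d ∧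
        Lab.scan c' = Lab.scan d' ∧ (σ (d', α' w i)).1 = d) =
        (univ.filter (fun i : Fin N => act m w i)).filter fun i => (σ (c', α' w i)).1 = c := by
      ext i
      simp only [mem_filter, mem_univ, true_and]
      constructor
      · rintro ⟨ha, d, d', hd, hd', he⟩
        rw [← Lab.scan.inj hd, ← Lab.scan.inj hd'] at he
        exact ⟨ha, he⟩
      · rintro ⟨ha, he⟩
        exact ⟨ha, c, c', rfl, rfl, he⟩
    rw [h1, Finset.card_filter]
    push_cast
    have h2 : ∀ i : Fin N, (if (σ (c', α' w i)).1 = c then (1 : ℝ) else 0) =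
        1 / 2 + zc c / 2 * zc (σ (c', α' w i)).1 := by
      intro i
      cases hσ : (σ (c', α' w i)).1 <;> cases c <;> simp [zc] <;> norm_num
    rw [Finset.sum_congr rfl (fun i _ => h2 i), Finset.sum_add_distrib, Finset.sum_const,
      nsmul_eq_mul, ← Finset.mul_sum]
    ring
  · simp
  · simp
  · simp

theorem dev_expect {N : ℕ} (hN : 0 < N) (s s' : Fin 6 → Lab) (m : ℕ)
    (α' : Fin 6 → Perm (Fin N)) (w : Fin 6) :
    𝔼 σ : Perm (V N), dev s s' m σ α' w = 0 := by
  unfold dev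
  rcases hs : s w with c | j <;> rcases hs' : s' w with c' | j'
  · simp only
    rw [← Finset.mul_expect, Finset.expect_sum_comm]
    rw [Finset.sum_eq_zero, mul_zero]
    intro i _
    exact expect_zc hN _
  · simp
  · simp
  · simp

theorem dev_sq {N : ℕ} (s s' : Fin 6 → Lab) (m : ℕ)
    (α' : Fin 6 → Perm (Fin N)) (w : Fin 6) :
    𝔼 σ : Perm (V N), (dev s s' m σ α' w) ^ 2 ≤ N / 4 := by
  unfold dev
  have h0 : (0 : ℝ) ≤ (N : ℝ) / 4 := by positivity
  rcases hs : s w with c | j <;> rcases hs' : s' w with c' | j'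
  · simp only
    have h1 : ∀ σ : Perm (V N), (zc c / 2 * ∑ i ∈ univ.filter (fun i : Fin N => act m w i),
        zc (σ (c', α' w i)).1) ^ 2 = 1 / 4 * (∑ i ∈ univ.filter (fun i : Fin N => act m w i),
        zc (σ (c', α' w i)).1) ^ 2 := by
      intro σ
      have := zc_sq c
      rw [mul_pow]
      have h2 : (zc c / 2) ^ 2 = 1 / 4 := by
        rw [div_pow, sq, this]; norm_num
      rw [h2]
    rw [Finset.expect_congr rfl (fun σ _ => h1 σ), ← Finset.mul_expect]
    have h3 := expect_sq_zc (univ.filter (fun i : Fin N => act m w i)) (fun i => (c', α' w i))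
      (fun a b hab => (α' w).injective (congrArg Prod.snd hab))
    rw [card_act] at h3
    have h4 : (len N m w : ℝ) ≤ N := by
      exact_mod_cast Nat.min_le_left _ _
    linarith
  · simpa using h0
  · simpa using h0
  · simpa using h0

theorem dev_abs {N : ℕ} (s s' : Fin 6 → Lab) (m : ℕ) (σ : Perm (V N))
    (α' : Fin 6 → Perm (Fin N)) (w : Fin 6) : |dev s s' m σ α' w| ≤ N / 2 := by
  unfold dev
  have h0 : (0 : ℝ) ≤ (N : ℝ) / 2 := by positivity
  rcases hs : s w with c | j <;> rcases hs' : s' w with c' | j'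
  · simp only
    rw [abs_mul, abs_div, zc_abs]
    have h1 : |∑ i ∈ univ.filter (fun i : Fin N => act m w i), zc (σ (c', α' w i)).1| ≤ N := by
      refine (Finset.abs_sum_le_sum_abs _ _).trans ?_
      simp only [zc_abs]
      rw [Finset.sum_const, nsmul_eq_mul, mul_one, card_act]
      exact_mod_cast Nat.min_le_left _ _
    have h2 : |(2 : ℝ)| = 2 := by norm_num
    rw [h2]
    linarith
  · simpa using h0
  · simpa using h0
  · simpa using h0

/-- the exponential moment -/
theorem expect_exp {N : ℕ} (hN : 0 < N) (s s' : Fin 6 → Lab) (m : ℕ)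
    (α' : Fin 6 → Perm (Fin N)) :
    𝔼 σ : Perm (V N), Real.exp (-(∑ w, ((dom s s' m σ α' w).card : ℝ)) / N) ≤
      Real.exp (-((nss N s s' m : ℝ) / (2 * N))) + 207 / N := by
  have hN' : (0 : ℝ) < N := by exact_mod_cast hN
  set Y : Perm (V N) → ℝ := fun σ => (∑ w, dev s s' m σ α' w) / N with hY
  have hsplit : ∀ σ : Perm (V N), -(∑ w, ((dom s s' m σ α' w).card : ℝ)) / N =
      -((nss N s s' m : ℝ) / (2 * N)) + -(Y σ) := by
    intro σ
    rw [hY]
    simp only [dom_card, nss]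
    rw [Finset.sum_add_distrib, ← Finset.sum_div]
    push_cast
    field_simp
    ring
  have hYabs : ∀ σ, |Y σ| ≤ 3 := by
    intro σ
    rw [hY]
    simp only
    rw [abs_div, abs_of_pos hN', div_le_iff₀ hN']
    refine (Finset.abs_sum_le_sum_abs _ _).trans ?_
    calc ∑ w : Fin 6, |dev s s' m σ α' w| ≤ ∑ w : Fin 6, (N : ℝ) / 2 :=
          Finset.sum_le_sum fun w _ => dev_abs s s' m σ α' w
      _ = 3 * N := by simp; ring
  have hYmean : 𝔼 σ : Perm (V N), Y σ = 0 := by
    rw [hY, ← Finset.expect_div, Finset.expect_sum_comm]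
    rw [Finset.sum_eq_zero (fun w _ => dev_expect hN s s' m α' w), zero_div]
  have hYsq : 𝔼 σ : Perm (V N), (Y σ) ^ 2 ≤ 9 / N := by
    have h1 : ∀ σ : Perm (V N), (Y σ) ^ 2 ≤ 6 * (∑ w, (dev s s' m σ α' w) ^ 2) / N ^ 2 := by
      intro σ
      rw [hY]
      simp only
      rw [div_pow]
      apply div_le_div_of_nonneg_right _ (by positivity)
      have := sq_sum_le_card_mul_sum_sq (s := (univ : Finset (Fin 6))) (f := fun w => dev s s' m σ α' w)
      simpa using this
    refine (Finset.expect_le_expect fun σ _ => h1 σ).trans ?_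
    rw [← Finset.expect_div, ← Finset.mul_expect, Finset.expect_sum_comm]
    have h2 : ∑ w : Fin 6, 𝔼 σ : Perm (V N), (dev s s' m σ α' w) ^ 2 ≤ 6 * (N / 4) := by
      calc ∑ w : Fin 6, 𝔼 σ : Perm (V N), (dev s s' m σ α' w) ^ 2 ≤ ∑ w : Fin 6, (N : ℝ) / 4 :=
            Finset.sum_le_sum fun w _ => dev_sq s s' m α' w
        _ = 6 * (N / 4) := by simp
    rw [div_le_div_iff₀ (by positivity) hN']
    nlinarith [mul_le_mul_of_nonneg_right h2 (by positivity : (0 : ℝ) ≤ N)]
  have h1 : ∀ σ : Perm (V N), Real.exp (-(∑ w, ((dom s s' m σ α' w).card : ℝ)) / N) ≤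
      Real.exp (-((nss N s s' m : ℝ) / (2 * N))) * (1 - Y σ + 23 * (Y σ) ^ 2) := by
    intro σ
    rw [hsplit, Real.exp_add]
    exact mul_le_mul_of_nonneg_left (exp_quad _ (hYabs σ)) (Real.exp_pos _).le
  refine (Finset.expect_le_expect fun σ _ => h1 σ).trans ?_
  rw [← Finset.mul_expect, Finset.expect_add_distrib, Finset.expect_sub_distrib, hYmean,
    ← Finset.mul_expect, Fintype.expect_const]
  set E := Real.exp (-((nss N s s' m : ℝ) / (2 * N))) with hE
  have hE1 : E ≤ 1 := by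
    rw [hE]; apply Real.exp_le_one_iff.2
    have : (0 : ℝ) ≤ (nss N s s' m : ℝ) / (2 * N) := by positivity
    linarith
  have hE0 : 0 < E := Real.exp_pos _
  have h9 : 0 ≤ (9 : ℝ) / N := by positivity
  have h3 : E * (1 - 0 + 23 * 𝔼 σ : Perm (V N), (Y σ) ^ 2) ≤ E * (1 + 23 * (9 / N)) := by
    apply mul_le_mul_of_nonneg_left _ hE0.le
    linarith
  refine h3.trans ?_
  have h4 : (207 : ℝ) / N = 23 * (9 / N) := by ring
  rw [h4]
  nlinarith

end Pool.Agent.Helper37.Rendezvous
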