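import Mathlib
import Pool.Agent.Helper37.RvPair2

set_option autoImplicit false

open Equiv Finset
open scoped BigOperators

namespace Pool.Agent.Helper37.Rendezvous

/-- lower bound for the size of the set `cov` -/
def lc (N : ℕ) (s s' : Fin 6 → Lab) (m : ℕ) (j : Bool) : ℕ :=
  ∑ c' : Bool, univ.sup fun w : Fin 6 => if s w = Lab.stay j ∧ s' w = Lab.scan c' then len N m w else 0

theorem lc_le_cov {N : ℕ} (s s' : Fin 6 → Lab) (m : ℕ) (σ : Perm (V N)) (α' : Fin 6 → Perm (Fin N))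
    (j : Bool) : lc N s s' m j ≤ (cov s s' m σ α' j).card := by
  classical
  have h1 : (cov s s' m σ α' j).card =
      ∑ c' : Bool, ((cov s s' m σ α' j).filter fun v => (σ.symm v).1 = c').card := by
    exact Finset.card_eq_sum_card_fiberwise (fun v _ => Finset.mem_coe.2 (Finset.mem_univ _))
  rw [h1]
  unfold lc
  apply Finset.sum_le_sum
  intro c' _
  apply Finset.sup_le
  intro w _
  split_ifs with hw
  · rw [← card_act N m w]
    apply Finset.card_le_card_of_injOn (fun i => σ (c', α' w i))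
    · intro i hi
      rw [Finset.mem_coe, mem_filter] at hi
      rw [Finset.mem_coe, mem_filter]
      refine ⟨?_, ?_⟩
      · unfold cov
        rw [mem_filter]
        exact ⟨mem_univ _, w, i, hi.2, hw.1, c', hw.2, rfl⟩
      · simp only [Equiv.symm_apply_apply]
    · intro a _ b _ hab
      exact (α' w).injective (congrArg Prod.snd (σ.injective hab))
  · exact Nat.zero_le _

theorem cov_card_le {N : ℕ} (s s' : Fin 6 → Lab) (m : ℕ) (σ : Perm (V N)) (α' : Fin 6 → Perm (Fin N))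
    (j : Bool) : (cov s s' m σ α' j).card ≤ 2 * N := by
  have := Finset.card_le_univ (cov s s' m σ α' j)
  simpa [V] using this

/-- factor for the homes of the first player -/
noncomputable def gh (N : ℕ) (s s' : Fin 6 → Lab) (m : ℕ) : ℝ :=
  ∏ j : Bool, (1 - (lc N s s' m j : ℝ) / (2 * N))

theorem lc_le {N : ℕ} (s s' : Fin 6 → Lab) (m : ℕ) (j : Bool) : lc N s s' m j ≤ 2 * N :=
  (lc_le_cov s s' m 1 (fun _ => 1) j).trans (cov_card_le s s' m 1 (fun _ => 1) j)

theorem gh_factor_nonneg {N : ℕ} (hN : 0 < N) (s s' : Fin 6 → Lab) (m : ℕ) (j : Bool) :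
    0 ≤ 1 - (lc N s s' m j : ℝ) / (2 * N) := by
  have h1 : (lc N s s' m j : ℝ) ≤ 2 * N := by exact_mod_cast lc_le s s' m j
  have hN' : (0 : ℝ) < N := by exact_mod_cast hN
  rw [sub_nonneg, div_le_one (by positivity)]
  exact h1

theorem gh_factor_le_one {N : ℕ} (s s' : Fin 6 → Lab) (m : ℕ) (j : Bool) :
    1 - (lc N s s' m j : ℝ) / (2 * N) ≤ 1 := by
  have : 0 ≤ (lc N s s' m j : ℝ) / (2 * N) := by positivity
  linarith

theorem gh_nonneg {N : ℕ} (hN : 0 < N) (s s' : Fin 6 → Lab) (m : ℕ) : 0 ≤ gh N s s' m :=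
  Finset.prod_nonneg fun j _ => gh_factor_nonneg hN s s' m j

theorem gh_le_one {N : ℕ} (hN : 0 < N) (s s' : Fin 6 → Lab) (m : ℕ) : gh N s s' m ≤ 1 :=
  Finset.prod_le_one (fun j _ => gh_factor_nonneg hN s s' m j) (fun j _ => gh_factor_le_one s s' m j)

theorem expect_homes {N : ℕ} (hN : 0 < N) (s s' : Fin 6 → Lab) (m : ℕ) (σ : Perm (V N))
    (α' : Fin 6 → Perm (Fin N)) :
    𝔼 h : Bool → V N, ∏ j, ri (h j ∉ cov s s' m σ α' j) ≤ gh N s s' m := by
  rw [expect_pi (fun j v => ri (v ∉ cov s s' m σ α' j))]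
  unfold gh
  apply Finset.prod_le_prod
  · intro j _
    exact Finset.expect_nonneg fun v _ => ri_nonneg _
  · intro j _
    rw [expect_ri_notMem hN]
    have h1 : (lc N s s' m j : ℝ) ≤ (cov s s' m σ α' j).card := by
      exact_mod_cast lc_le_cov s s' m σ α' j
    have hN' : (0 : ℝ) < N := by exact_mod_cast hN
    have : (lc N s s' m j : ℝ) / (2 * N) ≤ ((cov s s' m σ α' j).card : ℝ) / (2 * N) := by gcongr
    linarith

theorem expect_homes_nonneg {N : ℕ} (s s' : Fin 6 → Lab) (m : ℕ) (σ : Perm (V N))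
    (α' : Fin 6 → Perm (Fin N)) :
    0 ≤ 𝔼 h : Bool → V N, ∏ j, ri (h j ∉ cov s s' m σ α' j) :=
  Finset.expect_nonneg fun _ _ => Finset.prod_nonneg fun _ _ => ri_nonneg _

/-- probability of no meeting in the first `m` steps for two patterns -/
noncomputable def PP (N : ℕ) (s s' : Fin 6 → Lab) (m : ℕ) : ℝ :=
  𝔼 σ : Perm (V N), 𝔼 α' : Fin 6 → Perm (Fin N), 𝔼 α : Fin 6 → Perm (Fin N),
    𝔼 h : Bool → V N, 𝔼 h' : Bool → V N, ri (noM s s' m σ α α' h h')

theorem dom_card_le {N : ℕ} (s s' : Fin 6 → Lab) (m : ℕ) (σ : Perm (V N))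
    (α' : Fin 6 → Perm (Fin N)) (w : Fin 6) : (dom s s' m σ α' w).card ≤ N := by
  have := Finset.card_le_univ (dom s s' m σ α' w)
  simpa using this

theorem prod_q_le {N : ℕ} (hN : 0 < N) (d : Fin 6 → ℕ) (hd : ∀ w, d w ≤ N) :
    ∏ w, q N (d w) ≤ Real.exp (-(∑ w, (d w : ℝ)) / N) + 63 / N := by
  have hN' : (0 : ℝ) < N := by exact_mod_cast hN
  have hN1 : (1 : ℝ) ≤ N := by exact_mod_cast hN
  have h1 : ∏ w, q N (d w) ≤ ∏ w, (Real.exp (-((d w : ℝ) / N)) + 1 / N) := by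
    apply Finset.prod_le_prod
    · intro w _; exact q_nonneg N _ (hd w)
    · intro w _
      have := q_upper N (d w) hN (hd w)
      linarith
  refine h1.trans ?_
  have h2 : Real.exp (-(∑ w, (d w : ℝ)) / N) = ∏ w, Real.exp (-((d w : ℝ) / N)) := by
    rw [← Real.exp_sum, Finset.sum_neg_distrib, ← Finset.sum_div]
    congr 1
    ring
  rw [h2]
  -- general inequality: product of e_w + x with 0 ≤ e_w ≤ 1
  have key : ∀ (k : ℕ) (e : Fin k → ℝ) (x : ℝ), 0 ≤ x → (∀ w, 0 ≤ e w ∧ e w ≤ 1) →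
      ∏ w, (e w + x) ≤ ∏ w, e w + ((1 + x) ^ k - 1) := by
    intro k
    induction k with
    | zero => intro e x _ _; simp
    | succ k ih =>
      intro e x hx he
      rw [Fin.prod_univ_succ, Fin.prod_univ_succ, pow_succ]
      have h3 := ih (fun w => e w.succ) x hx (fun w => he w.succ)
      have h4 : 0 ≤ e 0 + x := add_nonneg (he 0).1 hx
      have h5 : ∏ w : Fin k, e w.succ ≤ 1 :=
        Finset.prod_le_one (fun w _ => (he w.succ).1) (fun w _ => (he w.succ).2)
      have h6 : 0 ≤ ∏ w : Fin k, e w.succ := Finset.prod_nonneg (fun w _ => (he w.succ).1)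
      have h7 : (1 : ℝ) ≤ (1 + x) ^ k := one_le_pow₀ (by linarith)
      have h8 := (he 0).2
      have h9 := (he 0).1
      calc (e 0 + x) * ∏ w : Fin k, (e w.succ + x)
          ≤ (e 0 + x) * (∏ w : Fin k, e w.succ + ((1 + x) ^ k - 1)) :=
            mul_le_mul_of_nonneg_left h3 h4
        _ ≤ e 0 * ∏ w : Fin k, e w.succ + ((1 + x) ^ k * (1 + x) - 1) := by
            nlinarith [mul_nonneg hx (sub_nonneg.2 h5), mul_nonneg (sub_nonneg.2 h8) (sub_nonneg.2 h7)]
  have h3 := key 6 (fun w => Real.exp (-((d w : ℝ) / N))) (1 / N) (by positivity) (by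
    intro w
    refine ⟨(Real.exp_pos _).le, Real.exp_le_one_iff.2 ?_⟩
    have : 0 ≤ (d w : ℝ) / N := by positivity
    linarith)
  refine h3.trans ?_
  have hx0 : 0 < 1 / (N : ℝ) := by positivity
  have hx1 : 1 / (N : ℝ) ≤ 1 := by rw [div_le_one hN']; exact hN1
  set x : ℝ := 1 / N with hx
  have h4 : (63 : ℝ) / N = 63 * x := by rw [hx]; ring
  rw [h4]
  have h5 : (1 + x) ^ 6 - 1 ≤ 63 * x := by
    have e : (1 + x) ^ 6 - 1 = x * (6 + 15 * x + 20 * x ^ 2 + 15 * x ^ 3 + 6 * x ^ 4 + x ^ 5) := by ring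
    have p2 : x ^ 2 ≤ 1 := pow_le_one₀ hx0.le hx1
    have p3 : x ^ 3 ≤ 1 := pow_le_one₀ hx0.le hx1
    have p4 : x ^ 4 ≤ 1 := pow_le_one₀ hx0.le hx1
    have p5 : x ^ 5 ≤ 1 := pow_le_one₀ hx0.le hx1
    rw [e, mul_comm]
    apply mul_le_mul_of_nonneg_right _ hx0.le
    linarith
  linarith

theorem PP_le {N : ℕ} (hN : 0 < N) (s s' : Fin 6 → Lab) (m : ℕ) :
    PP N s s' m ≤ Real.exp (-((nss N s s' m : ℝ) / (2 * N))) * (gh N s s' m * gh N s' s m) + 270 / N := by
  classical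
  have hNe : Nonempty (Fin N) := ⟨⟨0, hN⟩⟩
  have hN' : (0 : ℝ) < N := by exact_mod_cast hN
  have hG0 : 0 ≤ gh N s s' m * gh N s' s m := mul_nonneg (gh_nonneg hN _ _ _) (gh_nonneg hN _ _ _)
  have hG1 : gh N s s' m * gh N s' s m ≤ 1 :=
    mul_le_one₀ (gh_le_one hN _ _ _) (gh_nonneg hN _ _ _) (gh_le_one hN _ _ _)
  set G := gh N s s' m * gh N s' s m with hG
  -- integrate the homes
  have step1 : ∀ (σ : Perm (V N)) (α' α : Fin 6 → Perm (Fin N)),
      𝔼 h : Bool → V N, 𝔼 h' : Bool → V N, ri (noM s s' m σ α α' h h') ≤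
        (∏ w, ri (e1 s s' m σ α' w (α w))) * G := by
    intro σ α' α
    have h1 : 𝔼 h : Bool → V N, 𝔼 h' : Bool → V N, ri (noM s s' m σ α α' h h') ≤
        𝔼 h : Bool → V N, 𝔼 h' : Bool → V N, (∏ w, ri (e1 s s' m σ α' w (α w))) *
      ((∏ j, ri (h j ∉ cov s s' m σ α' j)) * (∏ j, ri (h' j ∉ cov s' s m σ⁻¹ α j))) :=
      Finset.expect_le_expect fun h _ => Finset.expect_le_expect fun h' _ =>
        ri_noM_le s s' m σ α α' h h'
    refine h1.trans ?_
    simp only [← Finset.mul_expect, ← Finset.expect_mul]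
    apply mul_le_mul_of_nonneg_left _ (Finset.prod_nonneg fun _ _ => ri_nonneg _)
    exact mul_le_mul (expect_homes hN s s' m σ α') (expect_homes hN s' s m σ⁻¹ α)
      (expect_homes_nonneg _ _ _ _ _) (gh_nonneg hN _ _ _)
  have step2 : ∀ (σ : Perm (V N)) (α' : Fin 6 → Perm (Fin N)),
      𝔼 α : Fin 6 → Perm (Fin N), 𝔼 h : Bool → V N, 𝔼 h' : Bool → V N,
        ri (noM s s' m σ α α' h h') ≤
      (Real.exp (-(∑ w, ((dom s s' m σ α' w).card : ℝ)) / N) + 63 / N) * G := by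
    intro σ α'
    refine (Finset.expect_le_expect fun α _ => step1 σ α' α).trans ?_
    rw [← Finset.expect_mul]
    apply mul_le_mul_of_nonneg_right _ hG0
    rw [expect_pi (fun w β => ri (e1 s s' m σ α' w β))]
    simp only [expect_e1]
    exact prod_q_le hN _ (dom_card_le s s' m σ α')
  unfold PP
  rw [Finset.expect_comm]
  have step3 : ∀ α' : Fin 6 → Perm (Fin N), 𝔼 σ : Perm (V N), 𝔼 α : Fin 6 → Perm (Fin N),
      𝔼 h : Bool → V N, 𝔼 h' : Bool → V N, ri (noM s s' m σ α α' h h') ≤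
      (Real.exp (-((nss N s s' m : ℝ) / (2 * N))) + 207 / N + 63 / N) * G := by
    intro α'
    refine (Finset.expect_le_expect fun σ _ => step2 σ α').trans ?_
    rw [← Finset.expect_mul, Finset.expect_add_distrib, Fintype.expect_const]
    apply mul_le_mul_of_nonneg_right _ hG0
    have := expect_exp hN s s' m α'
    linarith
  refine (Finset.expect_le_expect fun α' _ => step3 α').trans ?_
  rw [Fintype.expect_const]
  have h5 : (207 / N + 63 / N : ℝ) = 270 / N := by ring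
  rw [add_assoc, h5, add_mul]
  have h6 : (270 / N : ℝ) * G ≤ 270 / N := by
    have : 0 ≤ (270 / N : ℝ) := by positivity
    nlinarith
  linarith

end Pool.Agent.Helper37.Rendezvous
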