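import Mathlib
import Pool.Agent.Helper37.RvPair3

set_option autoImplicit false

open MeasureTheory Equiv Finset
open scoped BigOperators ENNReal

namespace Pool.Agent.Helper37.Rendezvous

/-- the private randomness of a player in one block -/
abbrev Om (N : ℕ) := (V N ≃ Fin (2 * N)) × (Fin 6 → Perm (Fin N)) × (Bool → V N)

/-- the word played in one block -/
def word {N : ℕ} (s : Fin 6 → Lab) (ω : Om N) : Fin (6 * N) → Fin (2 * N) := fun t =>
  ω.1 (lab s ω.2.1 ω.2.2 (finProdFinEquiv.symm t).1 (finProdFinEquiv.symm t).2)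

/-- one block: choose the pattern `pat k` with probability `wt k`, then uniform randomness -/
noncomputable def blk (N : ℕ) {K : ℕ} (wt : Fin K → ℝ) (pat : Fin K → Fin 6 → Lab) :
    Measure (Fin (6 * N) → Fin (2 * N)) :=
  ∑ k, ENNReal.ofReal (wt k) • ((Fintype.card (Om N) : ℝ≥0∞)⁻¹ •
    ∑ ω : Om N, Measure.dirac (word (pat k) ω))

theorem nonempty_Om {N : ℕ} (hN : 0 < N) : Nonempty (Om N) := by
  have h1 : Nonempty (V N ≃ Fin (2 * N)) := by
    rw [← Fintype.card_eq]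
    simp [V]
  have h2 : Nonempty (Bool → V N) := ⟨fun _ => (true, ⟨0, hN⟩)⟩
  obtain ⟨a⟩ := h1
  obtain ⟨b⟩ := h2
  exact ⟨(a, fun _ => 1, b)⟩

theorem ind_eq_ri (p : Prop) : ind p = ENNReal.ofReal (ri p) := by
  by_cases h : p
  · rw [ind_true h, ri_true h, ENNReal.ofReal_one]
  · rw [ind_false h, ri_false h, ENNReal.ofReal_zero]

theorem inv_card_mul_sum {α : Type*} [Fintype α] [Nonempty α] (f : α → ℝ) (hf : ∀ a, 0 ≤ f a) :
    (Fintype.card α : ℝ≥0∞)⁻¹ * ∑ a, ENNReal.ofReal (f a) = ENNReal.ofReal (𝔼 a, f a) := by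
  have hpos : (0 : ℝ) < (Fintype.card α : ℝ) := by exact_mod_cast Fintype.card_pos
  rw [Fintype.expect_eq_sum_div_card, ENNReal.ofReal_div_of_pos hpos, ENNReal.ofReal_natCast,
    ENNReal.ofReal_sum_of_nonneg (fun a _ => hf a), ENNReal.div_eq_inv_mul]

theorem isProb_blk {N : ℕ} (hN : 0 < N) {K : ℕ} (wt : Fin K → ℝ) (pat : Fin K → Fin 6 → Lab)
    (h0 : ∀ k, 0 ≤ wt k) (h1 : ∑ k, wt k = 1) : IsProbabilityMeasure (blk N wt pat) := by
  have := nonempty_Om hN
  constructor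
  have hc1 : (Fintype.card (Om N) : ℝ≥0∞) ≠ 0 := by
    exact_mod_cast Fintype.card_ne_zero
  have hc2 : (Fintype.card (Om N) : ℝ≥0∞) ≠ ∞ := ENNReal.natCast_ne_top _
  simp only [blk, Measure.finsetSum_apply, Measure.coe_smul, Pi.smul_apply,
    measure_univ, smul_eq_mul, Finset.sum_const, Finset.card_univ, nsmul_eq_mul, mul_one]
  rw [ENNReal.inv_mul_cancel hc1 hc2]
  simp only [mul_one]
  rw [← ENNReal.ofReal_sum_of_nonneg (fun k _ => h0 k), h1, ENNReal.ofReal_one]

theorem lintegral_blk {N : ℕ} {K : ℕ} (wt : Fin K → ℝ) (pat : Fin K → Fin 6 → Lab)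
    (f : (Fin (6 * N) → Fin (2 * N)) → ℝ≥0∞) :
    ∫⁻ x, f x ∂(blk N wt pat) = ∑ k, ENNReal.ofReal (wt k) *
      ((Fintype.card (Om N) : ℝ≥0∞)⁻¹ * ∑ ω : Om N, f (word (pat k) ω)) := by
  unfold blk
  rw [lintegral_finsetSum_measure]
  apply Finset.sum_congr rfl
  intro k _
  rw [lintegral_smul_measure, lintegral_smul_measure, lintegral_finsetSum_measure]
  simp only [smul_eq_mul]
  congr 2
  apply Finset.sum_congr rfl
  intro ω _
  exact lintegral_dirac _ _

/-- the permutation comparing the two players -/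
def cmp {N : ℕ} (π : Perm (Fin (2 * N))) (ρ ρ' : V N ≃ Fin (2 * N)) : Perm (V N) :=
  (ρ'.trans π).trans ρ.symm

theorem event_iff {N : ℕ} (π : Perm (Fin (2 * N))) (s s' : Fin 6 → Lab) (m : ℕ)
    (ω ω' : Om N) :
    (∀ t : Fin (6 * N), (t : ℕ) < m → word s ω t ≠ π (word s' ω' t)) ↔
      noM s s' m (cmp π ω.1 ω'.1) ω.2.1 ω'.2.1 ω.2.2 ω'.2.2 := by
  unfold noM
  constructor
  · intro H w i hi heq
    have h1 := H (finProdFinEquiv (w, i)) (by
      unfold act at hi
      simp only [finProdFinEquiv_apply_val]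
      rw [mul_comm] at hi
      omega)
    apply h1
    unfold word
    rw [Equiv.symm_apply_apply]
    simp only
    rw [heq]
    simp [cmp]
  · intro H t ht heq
    obtain ⟨⟨w, i⟩, rfl⟩ := finProdFinEquiv.surjective t
    apply H w i
    · unfold act
      simp only [finProdFinEquiv_apply_val] at ht
      rw [mul_comm]
      omega
    · unfold word at heq
      rw [Equiv.symm_apply_apply] at heq
      simp only at heq
      unfold cmp
      simp only [Equiv.trans_apply]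
      rw [← heq]
      simp

theorem expect_event {N : ℕ} (hN : 0 < N) (π : Perm (Fin (2 * N))) (s s' : Fin 6 → Lab) (m : ℕ) :
    𝔼 ω : Om N, 𝔼 ω' : Om N,
      ri (∀ t : Fin (6 * N), (t : ℕ) < m → word s ω t ≠ π (word s' ω' t)) = PP N s s' m := by
  have hOm := nonempty_Om hN
  have hne1 : Nonempty (V N ≃ Fin (2 * N)) := ⟨hOm.some.1⟩
  simp only [ri_congr (event_iff π s s' m _ _)]
  -- split the products
  have hsplit : ∀ f : Om N → ℝ, 𝔼 ω : Om N, f ω =
      𝔼 ρ : V N ≃ Fin (2 * N), 𝔼 α : Fin 6 → Perm (Fin N), 𝔼 h : Bool → V N, f (ρ, α, h) := by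
    intro f
    rw [← Finset.univ_product_univ, Finset.expect_product]
    apply Finset.expect_congr rfl
    intro ρ _
    rw [← Finset.univ_product_univ, Finset.expect_product]
  rw [hsplit]
  have h1 : ∀ ρ : V N ≃ Fin (2 * N), 𝔼 α : Fin 6 → Perm (Fin N), 𝔼 h : Bool → V N,
      𝔼 ω' : Om N, ri (noM s s' m (cmp π ρ ω'.1) α ω'.2.1 h ω'.2.2) = PP N s s' m := by
    intro ρ
    have h2 : ∀ (α : Fin 6 → Perm (Fin N)) (h : Bool → V N),
        𝔼 ω' : Om N, ri (noM s s' m (cmp π ρ ω'.1) α ω'.2.1 h ω'.2.2) =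
        𝔼 σ : Perm (V N), 𝔼 α' : Fin 6 → Perm (Fin N), 𝔼 h' : Bool → V N,
          ri (noM s s' m σ α α' h h') := by
      intro α h
      rw [hsplit]
      let e : (V N ≃ Fin (2 * N)) ≃ Perm (V N) :=
        { toFun := fun ρ' => cmp π ρ ρ'
          invFun := fun σ => (σ.trans ρ).trans π.symm
          left_inv := by
            intro ρ'
            ext x
            simp [cmp]
          right_inv := by
            intro σ
            ext x <;> simp [cmp] }
      exact Fintype.expect_equiv e _ _ (fun ρ' => rfl)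
    simp only [h2]
    unfold PP
    -- reorder
    have h3 : ∀ α : Fin 6 → Perm (Fin N), 𝔼 h : Bool → V N, 𝔼 σ : Perm (V N),
        𝔼 α' : Fin 6 → Perm (Fin N), 𝔼 h' : Bool → V N, ri (noM s s' m σ α α' h h') =
        𝔼 σ : Perm (V N), 𝔼 α' : Fin 6 → Perm (Fin N), 𝔼 h : Bool → V N, 𝔼 h' : Bool → V N,
          ri (noM s s' m σ α α' h h') := by
      intro α
      rw [Finset.expect_comm]
      apply Finset.expect_congr rfl
      intro σ _
      rw [Finset.expect_comm]
    simp only [h3]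
    rw [Finset.expect_comm]
    apply Finset.expect_congr rfl
    intro σ _
    rw [Finset.expect_comm]
  rw [Finset.expect_congr rfl (fun ρ _ => h1 ρ), Fintype.expect_const]

/-- survival probability of a block -/
noncomputable def BB (N : ℕ) {K : ℕ} (wt : Fin K → ℝ) (pat : Fin K → Fin 6 → Lab) (m : ℕ) : ℝ :=
  ∑ k, ∑ k', wt k * wt k' * PP N (pat k) (pat k') m

theorem PP_nonneg (N : ℕ) (s s' : Fin 6 → Lab) (m : ℕ) : 0 ≤ PP N s s' m :=
  Finset.expect_nonneg fun _ _ => Finset.expect_nonneg fun _ _ => Finset.expect_nonneg fun _ _ =>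
    Finset.expect_nonneg fun _ _ => Finset.expect_nonneg fun _ _ => ri_nonneg _

theorem BB_nonneg (N : ℕ) {K : ℕ} (wt : Fin K → ℝ) (pat : Fin K → Fin 6 → Lab)
    (h0 : ∀ k, 0 ≤ wt k) (m : ℕ) : 0 ≤ BB N wt pat m :=
  Finset.sum_nonneg fun k _ => Finset.sum_nonneg fun k' _ =>
    mul_nonneg (mul_nonneg (h0 k) (h0 k')) (PP_nonneg _ _ _ _)

theorem bsurv_blk {N : ℕ} (hN : 0 < N) {K : ℕ} (wt : Fin K → ℝ) (pat : Fin K → Fin 6 → Lab)
    (h0 : ∀ k, 0 ≤ wt k) (π : Perm (Fin (2 * N))) (m : ℕ) :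
    bsurv (blk N wt pat) π m = ENNReal.ofReal (BB N wt pat m) := by
  have hOm := nonempty_Om hN
  unfold bsurv
  have hin : ∀ a : Fin (6 * N) → Fin (2 * N),
      ∫⁻ b, ind (∀ t : Fin (6 * N), (t : ℕ) < m → a t ≠ π (b t)) ∂(blk N wt pat) =
      ENNReal.ofReal (∑ k', wt k' * 𝔼 ω' : Om N,
        ri (∀ t : Fin (6 * N), (t : ℕ) < m → a t ≠ π (word (pat k') ω' t))) := by
    intro a
    rw [lintegral_blk, ENNReal.ofReal_sum_of_nonneg]
    · apply Finset.sum_congr rfl
      intro k' _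
      rw [ENNReal.ofReal_mul (h0 k')]
      congr 1
      simp only [ind_eq_ri]
      exact inv_card_mul_sum _ (fun _ => ri_nonneg _)
    · intro k' _
      exact mul_nonneg (h0 k') (Finset.expect_nonneg fun _ _ => ri_nonneg _)
  simp only [hin]
  rw [lintegral_blk]
  unfold BB
  rw [ENNReal.ofReal_sum_of_nonneg]
  · apply Finset.sum_congr rfl
    intro k _
    have h2 : ∀ ω : Om N, 0 ≤ ∑ k', wt k' * 𝔼 ω' : Om N,
        ri (∀ t : Fin (6 * N), (t : ℕ) < m → word (pat k) ω t ≠ π (word (pat k') ω' t)) := by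
      intro ω
      exact Finset.sum_nonneg fun k' _ => mul_nonneg (h0 k') (Finset.expect_nonneg fun _ _ => ri_nonneg _)
    rw [inv_card_mul_sum _ h2, ← ENNReal.ofReal_mul (h0 k)]
    congr 1
    rw [Finset.expect_sum_comm, Finset.mul_sum]
    apply Finset.sum_congr rfl
    intro k' _
    rw [← Finset.mul_expect, expect_event hN, mul_assoc]
  · intro k _
    exact Finset.sum_nonneg fun k' _ => mul_nonneg (mul_nonneg (h0 k) (h0 k')) (PP_nonneg _ _ _ _)

theorem expTime_blk {N : ℕ} (hN : 0 < N) [NeZero (6 * N)] {K : ℕ} (wt : Fin K → ℝ)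
    (pat : Fin K → Fin 6 → Lab)
    (h0 : ∀ k, 0 ≤ wt k) [IsProbabilityMeasure (blk N wt pat)] (hlt : BB N wt pat (6 * N) < 1) :
    expTime (iidBlocks (6 * N) (blk N wt pat)) =
      ENNReal.ofReal ((∑ r ∈ Finset.range (6 * N), BB N wt pat r) / (1 - BB N wt pat (6 * N))) := by
  rw [expTime_eq]
  have h1 : ∀ π : Perm (Fin (2 * N)), ∑' t : ℕ, surv (iidBlocks (6 * N) (blk N wt pat)) π t =
      ENNReal.ofReal ((∑ r ∈ Finset.range (6 * N), BB N wt pat r) / (1 - BB N wt pat (6 * N))) := by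
    intro π
    rw [tsum_surv_iid]
    simp only [bsurv_blk hN wt pat h0]
    rw [← ENNReal.ofReal_sum_of_nonneg (fun r _ => BB_nonneg N wt pat h0 r)]
    rw [ENNReal.ofReal_div_of_pos (by linarith), ENNReal.div_eq_inv_mul,
      ENNReal.ofReal_sub _ (BB_nonneg N wt pat h0 _), ENNReal.ofReal_one]
  rw [Finset.sum_congr rfl (fun π _ => h1 π), Finset.sum_const, Finset.card_univ,
    Fintype.card_perm, Fintype.card_fin, nsmul_eq_mul]
  have h2 : ((Nat.factorial (2 * N) : ℕ) : ℝ≥0∞) ≠ 0 := by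
    exact_mod_cast Nat.factorial_ne_zero (2 * N)
  have h3 : ((Nat.factorial (2 * N) : ℕ) : ℝ≥0∞) ≠ ∞ := ENNReal.natCast_ne_top _
  rw [mul_comm, ENNReal.mul_div_cancel_right h2 h3]

end Pool.Agent.Helper37.Rendezvous
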