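import Mathlib
import Pool.Agent.Helper37.RvMeas

set_option autoImplicit false

open Finset

namespace Pool.Agent.Helper37.Rendezvous

/-- home `j` of the first player has met class `c'` of the second player in a window before `w` -/
def seen (s s' : Fin 6 → Lab) (j c' : Bool) (w : ℕ) : Bool :=
  decide (∃ w' : Fin 6, (w' : ℕ) < w ∧ s w' = Lab.stay j ∧ s' w' = Lab.scan c')

/-- number of classes seen -/
def nC (s s' : Fin 6 → Lab) (j : Bool) (w : ℕ) : ℕ :=
  (if seen s s' j true w then 1 else 0) + (if seen s s' j false w then 1 else 0)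

/-- number of earlier windows where both scan -/
def nT (s s' : Fin 6 → Lab) (w : ℕ) : ℕ := ∑ w' : Fin 6, if (w' : ℕ) < w ∧ ss s s' w' = true then 1 else 0

def bq : ℚ := 6065307 / 10000000
def aq : ℚ := 3934694 / 10000000

def fac (s s' : Fin 6 → Lab) (j : Bool) (w : ℕ) : ℚ := 1 - (nC s s' j w : ℚ) / 2

/-- product of the four home factors -/
def KK (s s' : Fin 6 → Lab) (w : ℕ) : ℚ :=
  (fac s s' true w * fac s s' false w) * (fac s' s true w * fac s' s false w)

/-- bound for the contribution of window `w`, divided by `2 N` -/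
def inc (s s' : Fin 6 → Lab) (w : Fin 6) : ℚ :=
  bq ^ nT s s' w * (match s w, s' w with
    | Lab.scan _, Lab.scan _ => aq * KK s s' w
    | Lab.stay j, Lab.scan c' =>
      if seen s s' j c' w then KK s s' w / 2
      else (3 / 8 - (nC s s' j w : ℚ) / 4) * fac s s' (!j) w * (fac s' s true w * fac s' s false w)
    | Lab.scan c, Lab.stay j' =>
      if seen s' s j' c w then KK s s' w / 2
      else (3 / 8 - (nC s' s j' w : ℚ) / 4) * fac s' s (!j') w * (fac s s' true w * fac s s' false w)
    | Lab.stay _, Lab.stay _ => KK s s' w / 2)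

/-- bound for the survival probability at the end of the block -/
def fin (s s' : Fin 6 → Lab) : ℚ := bq ^ nT s s' 6 * KK s s' 6

abbrev lA : Lab := Lab.scan true
abbrev lB : Lab := Lab.scan false
abbrev l1 : Lab := Lab.stay true
abbrev l2 : Lab := Lab.stay false

/-- the nine patterns -/
def pats : Fin 9 → Fin 6 → Lab :=
  ![![lA, lB, lA, lB, lA, lB],
    ![lA, lB, lA, lB, l1, l1],
    ![lA, lB, l1, l1, lA, lB],
    ![lA, lB, l1, l1, l2, l2],
    ![l1, l1, lA, lB, lB, lA],
    ![l1, l1, lA, lB, l1, l1],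
    ![l1, l1, l1, l1, lA, lB],
    ![l1, l1, l1, l1, l1, l1],
    ![lA, l1, l1, lB, l1, lB]]

/-- the weights of the nine patterns -/
def wts : Fin 9 → ℚ :=
  ![425 / 1000, 140 / 1000, 137 / 1000, 39 / 1000, 139 / 1000, 43 / 1000, 45 / 1000, 15 / 1000,
    17 / 1000]

theorem wts_nonneg : ∀ k, 0 ≤ wts k := by decide +kernel

theorem wts_sum : ∑ k, wts k = 1 := by decide +kernel

def totI : ℚ := ∑ k, ∑ k', wts k * wts k' * ∑ w, inc (pats k) (pats k') w
def totS : ℚ := ∑ k, ∑ k', wts k * wts k' * fin (pats k) (pats k')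

theorem tot_bound : totI ≤ 82866 / 100000 * (1 - totS) - 1 / 100000 ∧ totS ≤ 1 / 10 := by
  decide +kernel

end Pool.Agent.Helper37.Rendezvous
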