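import Mathlib
import Pool.Agent.Helper37.RvRat

set_option autoImplicit false

open Finset

namespace Pool.Agent.Helper37.Rendezvous

theorem len_full {N W r : ℕ} (w' : Fin 6) (h : (w' : ℕ) < W) : len N (W * N + r) w' = N := by
  unfold len
  have h1 : ((w' : ℕ) + 1) * N ≤ W * N := Nat.mul_le_mul_right N h
  rw [Nat.add_mul, one_mul] at h1
  exact Nat.min_eq_left (by omega)

theorem len_self {N r : ℕ} (w : Fin 6) (h : r ≤ N) : len N ((w : ℕ) * N + r) w = r := by
  unfold len
  rw [Nat.add_sub_cancel_left]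
  exact Nat.min_eq_right h

/-- home `j` meets a new class in window `w` -/
def new (s s' : Fin 6 → Lab) (j : Bool) (w : Fin 6) : Prop :=
  ∃ c', s w = Lab.stay j ∧ s' w = Lab.scan c' ∧ seen s s' j c' w = false

open Classical in
theorem lc_ge {N r : ℕ} (s s' : Fin 6 → Lab) (j : Bool) (w : Fin 6) (hr : r ≤ N) :
    N * nC s s' j w + (if new s s' j w then r else 0) ≤ lc N s s' ((w : ℕ) * N + r) j := by
  have key : ∀ c' : Bool, (if seen s s' j c' w then N else 0) +
      (if s w = Lab.stay j ∧ s' w = Lab.scan c' ∧ seen s s' j c' w = false then r else 0) ≤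
      univ.sup fun w' : Fin 6 => if s w' = Lab.stay j ∧ s' w' = Lab.scan c' then
        len N ((w : ℕ) * N + r) w' else 0 := by
    intro c'
    by_cases hs : seen s s' j c' w = true
    · rw [if_pos hs, if_neg (by rintro ⟨_, _, h⟩; rw [hs] at h; exact absurd h (by simp)), add_zero]
      unfold seen at hs
      obtain ⟨w', h1, h2⟩ := of_decide_eq_true hs
      have h3 := Finset.le_sup (f := fun w' : Fin 6 => if s w' = Lab.stay j ∧ s' w' = Lab.scan c' then
        len N ((w : ℕ) * N + r) w' else 0) (Finset.mem_univ w')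
      refine le_trans ?_ h3
      rw [if_pos h2, len_full w' h1]
    · rw [if_neg hs, zero_add]
      split_ifs with h
      · have h3 := Finset.le_sup (f := fun w' : Fin 6 => if s w' = Lab.stay j ∧ s' w' = Lab.scan c' then
          len N ((w : ℕ) * N + r) w' else 0) (Finset.mem_univ w)
        refine le_trans ?_ h3
        rw [if_pos ⟨h.1, h.2.1⟩, len_self w hr]
      · exact Nat.zero_le _
  unfold lc
  refine le_trans ?_ (Finset.sum_le_sum fun c' _ => key c')
  rw [Finset.sum_add_distrib, Fintype.sum_bool, Fintype.sum_bool]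
  apply Nat.add_le_add
  · unfold nC
    rw [mul_add]
    simp
  · split_ifs with h0 h1 h2 <;> try simp
    obtain ⟨c', hc⟩ := h0
    cases c'
    · exact absurd hc (by assumption)
    · exact absurd hc (by assumption)

theorem lc_ge_end {N : ℕ} (s s' : Fin 6 → Lab) (j : Bool) :
    N * nC s s' j 6 ≤ lc N s s' (6 * N) j := by
  have key : ∀ c' : Bool, (if seen s s' j c' 6 then N else 0) ≤
      univ.sup fun w' : Fin 6 => if s w' = Lab.stay j ∧ s' w' = Lab.scan c' then
        len N (6 * N) w' else 0 := by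
    intro c'
    by_cases hs : seen s s' j c' 6 = true
    · rw [if_pos hs]
      unfold seen at hs
      obtain ⟨w', h1, h2⟩ := of_decide_eq_true hs
      have h3 := Finset.le_sup (f := fun w' : Fin 6 => if s w' = Lab.stay j ∧ s' w' = Lab.scan c' then
        len N (6 * N) w' else 0) (Finset.mem_univ w')
      refine le_trans ?_ h3
      rw [if_pos h2]
      have := len_full (N := N) (r := 0) w' h1
      rw [add_zero] at this
      exact this.ge
    · rw [if_neg hs]; exact Nat.zero_le _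
  unfold lc
  refine le_trans ?_ (Finset.sum_le_sum fun c' _ => key c')
  rw [Fintype.sum_bool]
  unfold nC
  rw [mul_add]
  simp

theorem nss_ge {N r : ℕ} (s s' : Fin 6 → Lab) (w : Fin 6) (hr : r ≤ N) :
    N * nT s s' w + (if ss s s' w then r else 0) ≤ nss N s s' ((w : ℕ) * N + r) := by
  unfold nss nT
  rw [Finset.mul_sum]
  have h1 : (if ss s s' w then r else 0) = ∑ w' : Fin 6, if w' = w then (if ss s s' w then r else 0) else 0 := by
    simp
  rw [h1, ← Finset.sum_add_distrib]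
  apply Finset.sum_le_sum
  intro w' _
  by_cases hw : w' = w
  · subst hw
    rw [if_pos rfl, if_neg (by rintro ⟨h, _⟩; exact absurd h (lt_irrefl _)), mul_zero, zero_add,
      len_self w' hr]
  · rw [if_neg hw, add_zero]
    split_ifs with h h2 h2
    · rw [len_full w' h.1, mul_one]
    · exact absurd h.2 (by simpa using h2)
    · simp
    · simp

theorem nss_ge_end {N : ℕ} (s s' : Fin 6 → Lab) : N * nT s s' 6 ≤ nss N s s' (6 * N) := by
  unfold nss nT
  rw [Finset.mul_sum]
  apply Finset.sum_le_sum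
  intro w' _
  split_ifs with h h2 h2
  · have := len_full (N := N) (r := 0) w' h.1
    rw [add_zero] at this
    rw [this, mul_one]
  · exact absurd h.2 (by simpa using h2)
  · simp
  · simp

/-! real bounds -/

theorem exp_half_le : Real.exp (-(1 / 2 : ℝ)) ≤ (bq : ℝ) := by
  have h1 : Real.exp (-(1 / 2 : ℝ)) ^ 2 = Real.exp (-1) := by
    rw [← Real.exp_nat_mul]; norm_num
  have h2 := Real.exp_neg_one_lt_d9
  have h3 : (0 : ℝ) ≤ (bq : ℝ) := by unfold bq; norm_num
  apply le_of_sq_le_sq _ h3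
  rw [h1]
  refine h2.le.trans ?_
  unfold bq
  norm_num

theorem one_sub_exp_half_le : 1 - Real.exp (-(1 / 2 : ℝ)) ≤ (aq : ℝ) := by
  have h1 : Real.exp (-(1 / 2 : ℝ)) ^ 2 = Real.exp (-1) := by
    rw [← Real.exp_nat_mul]; norm_num
  have h2 := Real.exp_neg_one_gt_d9
  have h4 : (6065306 / 10000000 : ℝ) ≤ Real.exp (-(1 / 2 : ℝ)) := by
    apply le_of_sq_le_sq _ (Real.exp_pos _).le
    rw [h1]
    refine le_trans ?_ h2.le
    norm_num
  unfold aq
  push_cast
  linarith

/-- sum of the exponentials over a window -/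
theorem sum_exp_le {N : ℕ} (hN : 0 < N) :
    ∑ r ∈ range N, Real.exp (-((r : ℝ) / (2 * N))) ≤ (aq : ℝ) * (2 * N + 1) := by
  have hN' : (0 : ℝ) < N := by exact_mod_cast hN
  set x : ℝ := 1 / (2 * N) with hx
  have hx0 : 0 < x := by positivity
  have h1 : ∀ r : ℕ, Real.exp (-((r : ℝ) / (2 * N))) = Real.exp (-x) ^ r := by
    intro r
    rw [← Real.exp_nat_mul, hx]
    congr 1
    ring
  simp only [h1]
  have h2 := mul_neg_geom_sum (Real.exp (-x)) N
  have h3 : Real.exp (-x) ^ N = Real.exp (-(1 / 2 : ℝ)) := by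
    rw [← Real.exp_nat_mul, hx]
    congr 1
    field_simp
  rw [h3] at h2
  have h4 : 1 - Real.exp (-x) ≥ x / (1 + x) := by
    have h5 : Real.exp (-x) ≤ 1 / (1 + x) := by
      rw [Real.exp_neg, ← one_div]
      apply one_div_le_one_div_of_le (by linarith)
      have := Real.add_one_le_exp x
      linarith
    have h6 : 1 - 1 / (1 + x) = x / (1 + x) := by field_simp; ring
    linarith
  have h7 : 0 < x / (1 + x) := by positivity
  have hS0 : 0 ≤ ∑ i ∈ range N, Real.exp (-x) ^ i := Finset.sum_nonneg fun i _ => pow_nonneg (Real.exp_pos _).le i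
  have h8 : x / (1 + x) * ∑ i ∈ range N, Real.exp (-x) ^ i ≤ (aq : ℝ) := by
    refine le_trans ?_ one_sub_exp_half_le
    rw [← h2]
    exact mul_le_mul_of_nonneg_right h4 hS0
  have h9 : (x / (1 + x)) * (2 * N + 1) = 1 := by
    rw [hx]; field_simp
  have h10 : (∑ i ∈ range N, Real.exp (-x) ^ i) =
      (x / (1 + x) * ∑ i ∈ range N, Real.exp (-x) ^ i) * (2 * N + 1) := by
    rw [mul_comm (x / (1 + x)), mul_assoc, h9, mul_one]
  rw [h10]
  exact mul_le_mul_of_nonneg_right h8 (by positivity)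

/-- sum of a linear factor over a window -/
theorem sum_lin_le {N : ℕ} (hN : 0 < N) (u : ℝ) :
    ∑ r ∈ range N, (u - (r : ℝ) / (2 * N)) ≤ 2 * N * (u / 2 - 1 / 8) + 1 := by
  have hN' : (0 : ℝ) < N := by exact_mod_cast hN
  rw [Finset.sum_sub_distrib, Finset.sum_const, card_range, nsmul_eq_mul, ← Finset.sum_div]
  have h1 : (∑ r ∈ range N, (r : ℝ)) = (N : ℝ) * (N - 1) / 2 := by
    have h2 := Finset.sum_range_id_mul_two N
    have h3 : ((∑ i ∈ range N, i : ℕ) : ℝ) * 2 = (N : ℝ) * (N - 1) := by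
      have := congrArg (fun t : ℕ => (t : ℝ)) h2
      simp only [Nat.cast_mul, Nat.cast_ofNat] at this
      rw [this, Nat.cast_sub hN, Nat.cast_one]
    push_cast at h3
    linarith
  rw [h1]
  have h4 : (N : ℝ) * (N - 1) / 2 / (2 * N) = (N - 1) / 4 := by field_simp; ring
  rw [h4]
  linarith

/-! window sums -/

noncomputable def G (N : ℕ) (s s' : Fin 6 → Lab) (m : ℕ) : ℝ :=
  Real.exp (-((nss N s s' m : ℝ) / (2 * N))) * (gh N s s' m * gh N s' s m)

theorem nC_le (s s' : Fin 6 → Lab) (j : Bool) (w : ℕ) : nC s s' j w ≤ 2 := by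
  unfold nC; split_ifs <;> omega

theorem fac_nonneg (s s' : Fin 6 → Lab) (j : Bool) (w : ℕ) : (0 : ℝ) ≤ (fac s s' j w : ℝ) := by
  unfold fac
  have h : (nC s s' j w : ℝ) ≤ 2 := by exact_mod_cast nC_le s s' j w
  push_cast
  linarith

theorem fac_le_one (s s' : Fin 6 → Lab) (j : Bool) (w : ℕ) : (fac s s' j w : ℝ) ≤ 1 := by
  unfold fac
  have h : (0 : ℝ) ≤ (nC s s' j w : ℝ) := by positivity
  push_cast
  linarith

theorem KK_nonneg (s s' : Fin 6 → Lab) (w : ℕ) : (0 : ℝ) ≤ (KK s s' w : ℝ) := by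
  unfold KK
  push_cast
  exact mul_nonneg (mul_nonneg (fac_nonneg _ _ _ _) (fac_nonneg _ _ _ _))
    (mul_nonneg (fac_nonneg _ _ _ _) (fac_nonneg _ _ _ _))

theorem KK_le_one (s s' : Fin 6 → Lab) (w : ℕ) : (KK s s' w : ℝ) ≤ 1 := by
  unfold KK
  push_cast
  have h1 := fac_nonneg s s' true w
  have h2 := fac_nonneg s s' false w
  have h3 := fac_nonneg s' s true w
  have h4 := fac_nonneg s' s false w
  have h5 := fac_le_one s s' true w
  have h6 := fac_le_one s s' false w
  have h7 := fac_le_one s' s true w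
  have h8 := fac_le_one s' s false w
  exact mul_le_one₀ (mul_le_one₀ h5 h2 h6) (mul_nonneg h3 h4) (mul_le_one₀ h7 h4 h8)

theorem bq_pow (T : ℕ) : (0 : ℝ) ≤ (bq : ℝ) ^ T ∧ (bq : ℝ) ^ T ≤ 1 := by
  have h0 : (0 : ℝ) ≤ (bq : ℝ) := by unfold bq; norm_num
  have h1 : (bq : ℝ) ≤ 1 := by unfold bq; norm_num
  exact ⟨pow_nonneg h0 T, pow_le_one₀ h0 h1⟩

theorem gh_le_of {N : ℕ} (hN : 0 < N) (s s' : Fin 6 → Lab) (m w : ℕ) (x : Bool → ℕ)
    (h : ∀ j, N * nC s s' j w + x j ≤ lc N s s' m j) :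
    gh N s s' m ≤ ((fac s s' true w : ℝ) - (x true : ℝ) / (2 * N)) *
      ((fac s s' false w : ℝ) - (x false : ℝ) / (2 * N)) := by
  have hN' : (0 : ℝ) < N := by exact_mod_cast hN
  unfold gh
  rw [Fintype.prod_bool]
  have h1 : ∀ j, 1 - (lc N s s' m j : ℝ) / (2 * N) ≤ (fac s s' j w : ℝ) - (x j : ℝ) / (2 * N) := by
    intro j
    have h2 : ((N * nC s s' j w + x j : ℕ) : ℝ) ≤ (lc N s s' m j : ℝ) := by exact_mod_cast h j
    have h3 : ((N * nC s s' j w + x j : ℕ) : ℝ) / (2 * N) ≤ (lc N s s' m j : ℝ) / (2 * N) := by gcongr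
    have h4 : ((N * nC s s' j w + x j : ℕ) : ℝ) / (2 * N) = (nC s s' j w : ℝ) / 2 + (x j : ℝ) / (2 * N) := by
      push_cast
      field_simp
    unfold fac
    push_cast
    linarith
  exact mul_le_mul (h1 true) (h1 false) (gh_factor_nonneg hN s s' m false)
    ((gh_factor_nonneg hN s s' m true).trans (h1 true))

theorem exp_nss_le {N : ℕ} (hN : 0 < N) (s s' : Fin 6 → Lab) (m w z : ℕ)
    (h : N * nT s s' w + z ≤ nss N s s' m) :
    Real.exp (-((nss N s s' m : ℝ) / (2 * N))) ≤ (bq : ℝ) ^ nT s s' w * Real.exp (-((z : ℝ) / (2 * N))) := by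
  have hN' : (0 : ℝ) < N := by exact_mod_cast hN
  have h2 : ((N * nT s s' w + z : ℕ) : ℝ) ≤ (nss N s s' m : ℝ) := by exact_mod_cast h
  have h3 : ((N * nT s s' w + z : ℕ) : ℝ) / (2 * N) ≤ (nss N s s' m : ℝ) / (2 * N) := by gcongr
  have h4 : ((N * nT s s' w + z : ℕ) : ℝ) / (2 * N) = (nT s s' w : ℝ) * (1 / 2) + (z : ℝ) / (2 * N) := by
    push_cast
    field_simp
  have h5 : Real.exp (-((nss N s s' m : ℝ) / (2 * N))) ≤
      Real.exp ((nT s s' w : ℝ) * (-(1 / 2)) + -((z : ℝ) / (2 * N))) := by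
    apply Real.exp_le_exp.2
    linarith
  refine h5.trans ?_
  rw [Real.exp_add, Real.exp_nat_mul]
  apply mul_le_mul_of_nonneg_right _ (Real.exp_pos _).le
  exact pow_le_pow_left₀ (Real.exp_pos _).le exp_half_le _

open Classical in
theorem G_le {N : ℕ} (hN : 0 < N) (s s' : Fin 6 → Lab) (w : Fin 6) {r : ℕ} (hr : r ≤ N) :
    G N s s' ((w : ℕ) * N + r) ≤
      ((bq : ℝ) ^ nT s s' w * Real.exp (-(((if ss s s' w then r else 0 : ℕ) : ℝ) / (2 * N)))) *
      ((((fac s s' true w : ℝ) - ((if new s s' true w then r else 0 : ℕ) : ℝ) / (2 * N)) *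
        ((fac s s' false w : ℝ) - ((if new s s' false w then r else 0 : ℕ) : ℝ) / (2 * N))) *
       (((fac s' s true w : ℝ) - ((if new s' s true w then r else 0 : ℕ) : ℝ) / (2 * N)) *
        ((fac s' s false w : ℝ) - ((if new s' s false w then r else 0 : ℕ) : ℝ) / (2 * N)))) := by
  have h1 := exp_nss_le hN s s' ((w : ℕ) * N + r) w _ (nss_ge s s' w hr)
  have h2 := gh_le_of hN s s' ((w : ℕ) * N + r) w (fun j => if new s s' j w then r else 0)
    (fun j => lc_ge s s' j w hr)
  have h3 := gh_le_of hN s' s ((w : ℕ) * N + r) w (fun j => if new s' s j w then r else 0)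
    (fun j => lc_ge s' s j w hr)
  have g1 := gh_nonneg hN s s' ((w : ℕ) * N + r)
  have g2 := gh_nonneg hN s' s ((w : ℕ) * N + r)
  unfold G
  apply mul_le_mul h1 _ (mul_nonneg g1 g2)
    (mul_nonneg (bq_pow _).1 (Real.exp_pos _).le)
  exact mul_le_mul h2 h3 g2 (g1.trans h2)

theorem G_le_end {N : ℕ} (hN : 0 < N) (s s' : Fin 6 → Lab) : G N s s' (6 * N) ≤ (fin s s' : ℝ) := by
  have h1 := exp_nss_le hN s s' (6 * N) 6 0 (nss_ge_end s s')
  have h2 := gh_le_of hN s s' (6 * N) 6 (fun _ => 0) (fun j => lc_ge_end s s' j)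
  have h3 := gh_le_of hN s' s (6 * N) 6 (fun _ => 0) (fun j => lc_ge_end s' s j)
  have g1 := gh_nonneg hN s s' (6 * N)
  have g2 := gh_nonneg hN s' s (6 * N)
  simp only [Nat.cast_zero, zero_div, neg_zero, Real.exp_zero, mul_one, sub_zero] at h1 h2 h3
  unfold G fin KK
  push_cast
  apply mul_le_mul h1 _ (mul_nonneg g1 g2) (bq_pow _).1
  exact mul_le_mul h2 h3 g2 (g1.trans h2)

end Pool.Agent.Helper37.Rendezvous
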