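import Mathlib
import Pool.Agent.Helper37.RvSum

set_option autoImplicit false

open Finset

namespace Pool.Agent.Helper37.Rendezvous

theorem new_iff (s s' : Fin 6 → Lab) (j d c' : Bool) (w : Fin 6) (hs : s w = Lab.stay d)
    (hs' : s' w = Lab.scan c') : new s s' j w ↔ (d = j ∧ seen s s' j c' w = false) := by
  unfold new
  rw [hs, hs']
  constructor
  · rintro ⟨e, h1, h2, h3⟩
    have h4 := Lab.scan.inj h2
    subst h4
    exact ⟨Lab.stay.inj h1, h3⟩
  · rintro ⟨h1, h2⟩
    subst h1
    exact ⟨c', rfl, rfl, h2⟩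

theorem not_new_scan (s s' : Fin 6 → Lab) (j c : Bool) (w : Fin 6) (hs : s w = Lab.scan c) :
    ¬ new s s' j w := by
  rintro ⟨e, h1, _⟩
  rw [hs] at h1
  exact absurd h1 (by simp)

theorem not_new_stay (s s' : Fin 6 → Lab) (j c : Bool) (w : Fin 6) (hs : s' w = Lab.stay c) :
    ¬ new s s' j w := by
  rintro ⟨e, _, h1, _⟩
  rw [hs] at h1
  exact absurd h1 (by simp)

/-- constant contribution -/
theorem const_win {N : ℕ} (B K : ℝ) :
    ∑ _r ∈ range N, B * K = 2 * N * (B * (K / 2)) := by
  rw [Finset.sum_const, card_range, nsmul_eq_mul]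
  ring

/-- contribution of a window where one player stays and the other scans a new class -/
theorem lin_win {N : ℕ} (hN : 0 < N) (B f g k : ℝ) (n : ℝ) (hB0 : 0 ≤ B) (hB1 : B ≤ 1)
    (hf : f = 1 - n / 2) (hg0 : 0 ≤ g) (hg1 : g ≤ 1) (hk0 : 0 ≤ k) (hk1 : k ≤ 1) :
    ∑ r ∈ range N, B * (((f - (r : ℝ) / (2 * N)) * g) * k) ≤
      2 * N * (B * ((3 / 8 - n / 4) * g * k)) + 1 := by
  have h1 : ∑ r ∈ range N, B * (((f - (r : ℝ) / (2 * N)) * g) * k) =
      (B * (g * k)) * ∑ r ∈ range N, (f - (r : ℝ) / (2 * N)) := by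
    rw [Finset.mul_sum]
    apply Finset.sum_congr rfl
    intro r _
    ring
  rw [h1]
  have h2 := sum_lin_le hN f
  have hgk0 : 0 ≤ g * k := mul_nonneg hg0 hk0
  have hgk1 : g * k ≤ 1 := mul_le_one₀ hg1 hk0 hk1
  have h3 : 0 ≤ B * (g * k) := mul_nonneg hB0 hgk0
  have h4 : B * (g * k) ≤ 1 := mul_le_one₀ hB1 hgk0 hgk1
  calc (B * (g * k)) * ∑ r ∈ range N, (f - (r : ℝ) / (2 * N))
      ≤ (B * (g * k)) * (2 * N * (f / 2 - 1 / 8) + 1) := mul_le_mul_of_nonneg_left h2 h3
    _ = 2 * N * (B * ((f / 2 - 1 / 8) * g * k)) + B * (g * k) := by ring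
    _ ≤ 2 * N * (B * ((3 / 8 - n / 4) * g * k)) + 1 := by
        have h5 : f / 2 - 1 / 8 = 3 / 8 - n / 4 := by rw [hf]; ring
        rw [h5]
        linarith

theorem window_sum {N : ℕ} (hN : 0 < N) (s s' : Fin 6 → Lab) (w : Fin 6) :
    ∑ r ∈ range N, G N s s' ((w : ℕ) * N + r) ≤ 2 * N * (inc s s' w : ℝ) + 1 := by
  classical
  have hN' : (0 : ℝ) < N := by exact_mod_cast hN
  have hsum : ∑ r ∈ range N, G N s s' ((w : ℕ) * N + r) ≤ _ :=
    Finset.sum_le_sum fun r hr => G_le hN s s' w (Finset.mem_range.1 hr).le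
  refine hsum.trans ?_
  have hB := bq_pow (nT s s' w)
  have hK0 := KK_nonneg s s' w
  have hK1 := KK_le_one s s' w
  have e1 := fac_nonneg s s' true w
  have e2 := fac_nonneg s s' false w
  have e3 := fac_nonneg s' s true w
  have e4 := fac_nonneg s' s false w
  have e5 := fac_le_one s s' true w
  have e6 := fac_le_one s s' false w
  have e7 := fac_le_one s' s true w
  have e8 := fac_le_one s' s false w
  have e34 := mul_nonneg e3 e4
  have e78 := mul_le_one₀ e7 e4 e8
  have e12 := mul_nonneg e1 e2
  have e56 := mul_le_one₀ e5 e2 e6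
  have hfac : ∀ (t t' : Fin 6 → Lab) (j : Bool), (fac t t' j w : ℝ) = 1 - (nC t t' j w : ℝ) / 2 := by
    intro t t' j; unfold fac; push_cast; ring
  rcases hs : s w with c | j <;> rcases hs' : s' w with c' | j'
  · -- both scan
    have hss : ss s s' w = true := by unfold ss; rw [hs, hs']
    have n1 := fun j => not_new_scan s s' j c w hs
    have n2 := fun j => not_new_scan s' s j c' w hs'
    have hinc : (inc s s' w : ℝ) = (bq : ℝ) ^ nT s s' w * ((aq : ℝ) * (KK s s' w : ℝ)) := by
      unfold inc; rw [hs, hs']; push_cast; ring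
    simp only [hss, n1, n2, if_true, if_false, Nat.cast_zero, zero_div, sub_zero]
    rw [hinc]
    have h1 : ∀ r : ℕ, (bq : ℝ) ^ nT s s' w * Real.exp (-((r : ℝ) / (2 * N))) *
        ((fac s s' true w : ℝ) * (fac s s' false w : ℝ) * ((fac s' s true w : ℝ) * (fac s' s false w : ℝ))) =
        ((bq : ℝ) ^ nT s s' w * (KK s s' w : ℝ)) * Real.exp (-((r : ℝ) / (2 * N))) := by
      intro r
      unfold KK
      push_cast
      ring
    simp only [h1]
    rw [← Finset.mul_sum]
    have h2 := sum_exp_le hN
    have h3 : 0 ≤ (bq : ℝ) ^ nT s s' w * (KK s s' w : ℝ) := mul_nonneg hB.1 hK0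
    have h4 : (bq : ℝ) ^ nT s s' w * (KK s s' w : ℝ) ≤ 1 := mul_le_one₀ hB.2 hK0 hK1
    have h5 : (0 : ℝ) ≤ (aq : ℝ) ∧ (aq : ℝ) ≤ 1 := by unfold aq; norm_num
    have h6 : (bq : ℝ) ^ nT s s' w * (KK s s' w : ℝ) * (aq : ℝ) ≤ 1 := mul_le_one₀ h4 h5.1 h5.2
    calc _ ≤ (bq : ℝ) ^ nT s s' w * (KK s s' w : ℝ) * ((aq : ℝ) * (2 * N + 1)) :=
          mul_le_mul_of_nonneg_left h2 h3
      _ = 2 * N * ((bq : ℝ) ^ nT s s' w * ((aq : ℝ) * (KK s s' w : ℝ))) +
          (bq : ℝ) ^ nT s s' w * (KK s s' w : ℝ) * (aq : ℝ) := by ring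
      _ ≤ _ := by linarith
  · -- first scans, second stays
    have hss : ss s s' w = false := by unfold ss; rw [hs, hs']
    have n1 := fun d => not_new_scan s s' d c w hs
    have n2 := fun d => new_iff s' s d j' c w hs' hs
    by_cases hseen : seen s' s j' c w = true
    · have hinc : (inc s s' w : ℝ) = (bq : ℝ) ^ nT s s' w * ((KK s s' w : ℝ) / 2) := by
        unfold inc; rw [hs, hs']; simp only [hseen, if_true]; push_cast; ring
      have n3 : ∀ d, ¬ new s' s d w := by
        intro d hd
        rw [n2] at hd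
        rw [← hd.1, hseen] at hd
        exact absurd hd.2 (by simp)
      simp only [hss, n1, n3, if_false, Nat.cast_zero, zero_div, sub_zero, neg_zero, Real.exp_zero,
        mul_one, Bool.false_eq_true]
      rw [hinc]
      have h1 : ((fac s s' true w : ℝ) * (fac s s' false w : ℝ) *
          ((fac s' s true w : ℝ) * (fac s' s false w : ℝ))) = (KK s s' w : ℝ) := by
        unfold KK; push_cast; ring
      rw [h1, const_win]
      linarith
    · have hseen' : seen s' s j' c w = false := by simpa using hseen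
      have hinc : (inc s s' w : ℝ) = (bq : ℝ) ^ nT s s' w *
          ((3 / 8 - (nC s' s j' w : ℝ) / 4) * (fac s' s (!j') w : ℝ) *
          ((fac s s' true w : ℝ) * (fac s s' false w : ℝ))) := by
        unfold inc; rw [hs, hs']; simp only [hseen', if_false, Bool.false_eq_true]; push_cast; ring
      have n3 : new s' s j' w := (n2 j').2 ⟨rfl, hseen'⟩
      have n4 : ¬ new s' s (!j') w := by
        intro h
        rw [n2] at h
        exact absurd h.1 (by simp)
      simp only [hss, n1, if_false, Nat.cast_zero, zero_div, sub_zero, neg_zero, Real.exp_zero,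
        mul_one, Bool.false_eq_true]
      rw [hinc]
      cases j'
      · simp only [Bool.not_false] at n4 hinc ⊢
        simp only [n3, n4, if_true, if_false, Nat.cast_zero, zero_div, sub_zero]
        have h1 := lin_win hN ((bq : ℝ) ^ nT s s' w) (fac s' s false w : ℝ) (fac s' s true w : ℝ)
          ((fac s s' true w : ℝ) * (fac s s' false w : ℝ)) (nC s' s false w : ℝ) hB.1 hB.2
          (hfac _ _ _) e3 e7 e12 e56
        refine le_trans (le_of_eq ?_) h1
        apply Finset.sum_congr rfl
        intro r _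
        ring
      · simp only [Bool.not_true] at n4 hinc ⊢
        simp only [n3, n4, if_true, if_false, Nat.cast_zero, zero_div, sub_zero]
        have h1 := lin_win hN ((bq : ℝ) ^ nT s s' w) (fac s' s true w : ℝ) (fac s' s false w : ℝ)
          ((fac s s' true w : ℝ) * (fac s s' false w : ℝ)) (nC s' s true w : ℝ) hB.1 hB.2
          (hfac _ _ _) e4 e8 e12 e56
        refine le_trans (le_of_eq ?_) h1
        apply Finset.sum_congr rfl
        intro r _
        ring
  · -- first stays, second scans
    have hss : ss s s' w = false := by unfold ss; rw [hs, hs']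
    have n1 := fun d => not_new_scan s' s d c' w hs'
    have n2 := fun d => new_iff s s' d j c' w hs hs'
    by_cases hseen : seen s s' j c' w = true
    · have hinc : (inc s s' w : ℝ) = (bq : ℝ) ^ nT s s' w * ((KK s s' w : ℝ) / 2) := by
        unfold inc; rw [hs, hs']; simp only [hseen, if_true]; push_cast; ring
      have n3 : ∀ d, ¬ new s s' d w := by
        intro d hd
        rw [n2] at hd
        rw [← hd.1, hseen] at hd
        exact absurd hd.2 (by simp)
      simp only [hss, n1, n3, if_false, Nat.cast_zero, zero_div, sub_zero, neg_zero, Real.exp_zero,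
        mul_one, Bool.false_eq_true]
      rw [hinc]
      have h1 : ((fac s s' true w : ℝ) * (fac s s' false w : ℝ) *
          ((fac s' s true w : ℝ) * (fac s' s false w : ℝ))) = (KK s s' w : ℝ) := by
        unfold KK; push_cast; ring
      rw [h1, const_win]
      linarith
    · have hseen' : seen s s' j c' w = false := by simpa using hseen
      have hinc : (inc s s' w : ℝ) = (bq : ℝ) ^ nT s s' w *
          ((3 / 8 - (nC s s' j w : ℝ) / 4) * (fac s s' (!j) w : ℝ) *
          ((fac s' s true w : ℝ) * (fac s' s false w : ℝ))) := by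
        unfold inc; rw [hs, hs']; simp only [hseen', if_false, Bool.false_eq_true]; push_cast; ring
      have n3 : new s s' j w := (n2 j).2 ⟨rfl, hseen'⟩
      have n4 : ¬ new s s' (!j) w := by
        intro h
        rw [n2] at h
        exact absurd h.1 (by simp)
      simp only [hss, n1, if_false, Nat.cast_zero, zero_div, sub_zero, neg_zero, Real.exp_zero,
        mul_one, Bool.false_eq_true]
      rw [hinc]
      cases j
      · simp only [Bool.not_false] at n4 hinc ⊢
        simp only [n3, n4, if_true, if_false, Nat.cast_zero, zero_div, sub_zero]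
        have h1 := lin_win hN ((bq : ℝ) ^ nT s s' w) (fac s s' false w : ℝ) (fac s s' true w : ℝ)
          ((fac s' s true w : ℝ) * (fac s' s false w : ℝ)) (nC s s' false w : ℝ) hB.1 hB.2
          (hfac _ _ _) e1 e5 e34 e78
        refine le_trans (le_of_eq ?_) h1
        apply Finset.sum_congr rfl
        intro r _
        ring
      · simp only [Bool.not_true] at n4 hinc ⊢
        simp only [n3, n4, if_true, if_false, Nat.cast_zero, zero_div, sub_zero]
        have h1 := lin_win hN ((bq : ℝ) ^ nT s s' w) (fac s s' true w : ℝ) (fac s s' false w : ℝ)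
          ((fac s' s true w : ℝ) * (fac s' s false w : ℝ)) (nC s s' true w : ℝ) hB.1 hB.2
          (hfac _ _ _) e2 e6 e34 e78
        refine le_trans (le_of_eq ?_) h1
        apply Finset.sum_congr rfl
        intro r _
        ring
  · -- both stay
    have hss : ss s s' w = false := by unfold ss; rw [hs, hs']
    have n1 := fun d => not_new_stay s s' d j' w hs'
    have n2 := fun d => not_new_stay s' s d j w hs
    have hinc : (inc s s' w : ℝ) = (bq : ℝ) ^ nT s s' w * ((KK s s' w : ℝ) / 2) := by
      unfold inc; rw [hs, hs']; push_cast; ring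
    simp only [hss, n1, n2, if_false, Nat.cast_zero, zero_div, sub_zero, neg_zero, Real.exp_zero,
      mul_one, Bool.false_eq_true]
    rw [hinc]
    have h1 : ((fac s s' true w : ℝ) * (fac s s' false w : ℝ) *
        ((fac s' s true w : ℝ) * (fac s' s false w : ℝ))) = (KK s s' w : ℝ) := by
      unfold KK; push_cast; ring
    rw [h1, const_win]
    linarith

end Pool.Agent.Helper37.Rendezvous
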