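import Mathlib
import Pool.Agent.Helper37.RvWin

set_option autoImplicit false

open MeasureTheory Finset
open scoped ENNReal

namespace Pool.Agent.Helper37.Rendezvous

theorem sum_range_six {N : ℕ} (f : ℕ → ℝ) :
    ∑ t ∈ range (6 * N), f t = ∑ w : Fin 6, ∑ r ∈ range N, f ((w : ℕ) * N + r) := by
  rw [Finset.sum_range, ← finProdFinEquiv.sum_comp, Fintype.sum_prod_type]
  apply Finset.sum_congr rfl
  intro w _
  rw [Finset.sum_range]
  apply Finset.sum_congr rfl
  intro r _
  rw [finProdFinEquiv_apply_val, mul_comm, add_comm]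

/-- real weights -/
noncomputable def wr (k : Fin 9) : ℝ := (wts k : ℝ)

theorem wr_nonneg (k : Fin 9) : 0 ≤ wr k := by
  unfold wr; exact_mod_cast wts_nonneg k

theorem wr_sum : ∑ k, wr k = 1 := by
  unfold wr; exact_mod_cast wts_sum

theorem wr_sum2 (c : ℝ) : ∑ k, ∑ k', wr k * wr k' * c = c := by
  have h1 : ∀ k, ∑ k', wr k * wr k' * c = wr k * c := by
    intro k
    rw [← Finset.sum_mul, ← Finset.mul_sum, wr_sum, mul_one]
  simp only [h1]
  rw [← Finset.sum_mul, wr_sum, one_mul]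

theorem BB_le {N : ℕ} (hN : 0 < N) (m : ℕ) :
    BB N wr pats m ≤ ∑ k, ∑ k', wr k * wr k' * G N (pats k) (pats k') m + 270 / N := by
  rw [← wr_sum2 (270 / N)]
  unfold BB
  rw [← Finset.sum_add_distrib]
  apply Finset.sum_le_sum
  intro k _
  rw [← Finset.sum_add_distrib]
  apply Finset.sum_le_sum
  intro k' _
  rw [← mul_add]
  exact mul_le_mul_of_nonneg_left (PP_le hN _ _ _) (mul_nonneg (wr_nonneg _) (wr_nonneg _))

theorem BB_end {N : ℕ} (hN : 0 < N) : BB N wr pats (6 * N) ≤ (totS : ℝ) + 270 / N := by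
  refine (BB_le hN _).trans ?_
  have h : ∑ k, ∑ k', wr k * wr k' * G N (pats k) (pats k') (6 * N) ≤ (totS : ℝ) := by
    unfold totS
    push_cast
    apply Finset.sum_le_sum
    intro k _
    apply Finset.sum_le_sum
    intro k' _
    exact mul_le_mul_of_nonneg_left (G_le_end hN _ _) (mul_nonneg (wr_nonneg _) (wr_nonneg _))
  linarith

theorem BB_sum {N : ℕ} (hN : 0 < N) :
    ∑ r ∈ range (6 * N), BB N wr pats r ≤ 2 * N * (totI : ℝ) + 1626 := by
  have hN' : (0 : ℝ) < N := by exact_mod_cast hN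
  have h1 : ∑ r ∈ range (6 * N), BB N wr pats r ≤
      ∑ r ∈ range (6 * N), (∑ k, ∑ k', wr k * wr k' * G N (pats k) (pats k') r + 270 / N) :=
    Finset.sum_le_sum fun r _ => BB_le hN r
  refine h1.trans ?_
  rw [Finset.sum_add_distrib, Finset.sum_const, card_range, nsmul_eq_mul]
  have h2 : ((6 * N : ℕ) : ℝ) * (270 / N) = 1620 := by
    push_cast; field_simp; norm_num
  rw [h2, Finset.sum_comm]
  have h3 : ∀ k : Fin 9, ∑ r ∈ range (6 * N), ∑ k', wr k * wr k' * G N (pats k) (pats k') r =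
      ∑ k', wr k * wr k' * ∑ r ∈ range (6 * N), G N (pats k) (pats k') r := by
    intro k
    rw [Finset.sum_comm]
    apply Finset.sum_congr rfl
    intro k' _
    rw [Finset.mul_sum]
  simp only [h3]
  have h4 : ∀ k k' : Fin 9, ∑ r ∈ range (6 * N), G N (pats k) (pats k') r ≤
      2 * N * ((∑ w, inc (pats k) (pats k') w : ℚ) : ℝ) + 6 := by
    intro k k'
    rw [sum_range_six]
    refine (Finset.sum_le_sum fun w _ => window_sum hN (pats k) (pats k') w).trans ?_
    rw [Finset.sum_add_distrib, ← Finset.mul_sum]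
    push_cast
    simp
  have h5 : ∑ k, ∑ k', wr k * wr k' * ∑ r ∈ range (6 * N), G N (pats k) (pats k') r ≤
      ∑ k, ∑ k', wr k * wr k' * (2 * N * ((∑ w, inc (pats k) (pats k') w : ℚ) : ℝ) + 6) :=
    Finset.sum_le_sum fun k _ => Finset.sum_le_sum fun k' _ =>
      mul_le_mul_of_nonneg_left (h4 k k') (mul_nonneg (wr_nonneg _) (wr_nonneg _))
  have h6 : ∑ k, ∑ k', wr k * wr k' * (2 * N * ((∑ w, inc (pats k) (pats k') w : ℚ) : ℝ) + 6) =
      2 * N * (totI : ℝ) + 6 := by
    have e6 := wr_sum2 6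
    have e7 : ∀ k k' : Fin 9, wr k * wr k' * (2 * N * ((∑ w, inc (pats k) (pats k') w : ℚ) : ℝ) + 6) =
        2 * N * (wr k * wr k' * ((∑ w, inc (pats k) (pats k') w : ℚ) : ℝ)) + wr k * wr k' * 6 := by
      intro k k'
      ring
    simp only [e7, Finset.sum_add_distrib, ← Finset.mul_sum]
    simp only [Finset.mul_sum] at e6 ⊢
    rw [e6]
    unfold totI wr
    push_cast
    simp only [Finset.mul_sum]
  rw [h6] at h5
  linarith

/-- the improved strategy -/
theorem exists_strategy {N : ℕ} (hN : 200000000 ≤ N) :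
    ∃ D : Measure (ℕ → Fin (2 * N)), IsProbabilityMeasure D ∧
      expTime D ≤ ENNReal.ofReal (0.82866 * (2 * N)) := by
  have hN0 : 0 < N := by omega
  have hN' : (0 : ℝ) < N := by exact_mod_cast hN0
  have hNr : (200000000 : ℝ) ≤ N := by exact_mod_cast hN
  have hne : NeZero (6 * N) := ⟨by omega⟩
  have hp : IsProbabilityMeasure (blk N wr pats) := isProb_blk hN0 wr pats wr_nonneg wr_sum
  have hend := BB_end hN0
  have hsum := BB_sum hN0
  obtain ⟨hI, hS⟩ := tot_bound
  have hI' : (totI : ℝ) ≤ 82866 / 100000 * (1 - (totS : ℝ)) - 1 / 100000 := by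
    have : ((totI : ℚ) : ℝ) ≤ ((82866 / 100000 * (1 - totS) - 1 / 100000 : ℚ) : ℝ) := by
      exact_mod_cast hI
    push_cast at this
    exact this
  have hS' : (totS : ℝ) ≤ 1 / 10 := by
    have : ((totS : ℚ) : ℝ) ≤ ((1 / 10 : ℚ) : ℝ) := by exact_mod_cast hS
    push_cast at this
    exact this
  have h270 : (270 : ℝ) / N ≤ 1 / 10 := by
    rw [div_le_div_iff₀ hN' (by norm_num)]
    linarith
  have hlt : BB N wr pats (6 * N) < 1 := by linarith
  refine ⟨iidBlocks (6 * N) (blk N wr pats), inferInstance, ?_⟩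
  rw [expTime_blk hN0 wr pats wr_nonneg hlt]
  apply ENNReal.ofReal_le_ofReal
  have hd : 0 < 1 - BB N wr pats (6 * N) := by linarith
  rw [div_le_iff₀ hd]
  have h1 : 0.82866 * (2 * (N : ℝ)) * (1 - ((totS : ℝ) + 270 / N)) ≤
      0.82866 * (2 * (N : ℝ)) * (1 - BB N wr pats (6 * N)) := by
    apply mul_le_mul_of_nonneg_left _ (by positivity)
    linarith
  have h2 : 0.82866 * (2 * (N : ℝ)) * (1 - ((totS : ℝ) + 270 / N)) =
      2 * N * (82866 / 100000 * (1 - (totS : ℝ))) - 0.82866 * 540 := by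
    field_simp
    ring
  have h3 : 2 * (N : ℝ) * (totI : ℝ) ≤ 2 * N * (82866 / 100000 * (1 - (totS : ℝ)) - 1 / 100000) := by
    apply mul_le_mul_of_nonneg_left hI' (by positivity)
  linarith

end Pool.Agent.Helper37.Rendezvous
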