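import Mathlib

set_option autoImplicit false

namespace Pool.Agent.Helper37.Span

/-- The signed sumset with at most `s` terms of a finite set `A`: all `∑ a ∈ A, c a • a` with
integer coefficients `c` such that `∑ a ∈ A, |c a| ≤ s`. -/
def signedSumset {G : Type*} [AddCommGroup G] (A : Finset G) (s : ℕ) : Set G :=
  {g | ∃ c : G → ℤ, (∑ a ∈ A, |c a|) ≤ (s : ℤ) ∧ (∑ a ∈ A, c a • a) = g}

/-- The least size of a finite set whose signed sumset with at most `s` terms is everything. -/
noncomputable def phi (G : Type*) [AddCommGroup G] (s : ℕ) : ℕ :=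
  sInf {m | ∃ A : Finset G, A.card = m ∧ signedSumset A s = Set.univ}

end Pool.Agent.Helper37.Span
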