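import Mathlib
import Pool.Agent.Helper37.SpanDefs

set_option autoImplicit false

namespace Pool.Agent.Helper37.Span

/-- `a, b` span `G` with at most `s` signed terms. -/
def Spans {G : Type*} [AddCommGroup G] (a b : G) (s : ℕ) : Prop :=
  ∀ g : G, ∃ l m : ℤ, |l| + |m| ≤ (s : ℤ) ∧ l • a + m • b = g

theorem pair_iff {G : Type*} [AddCommGroup G] [DecidableEq G] {a b : G} (hab : a ≠ b) (s : ℕ) :
    signedSumset ({a, b} : Finset G) s = Set.univ ↔ Spans a b s := by
  constructor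
  · intro h g
    have hg : g ∈ signedSumset ({a, b} : Finset G) s := by rw [h]; trivial
    obtain ⟨c, hc, hs⟩ := hg
    rw [Finset.sum_pair hab] at hc hs
    exact ⟨c a, c b, hc, hs⟩
  · intro h
    ext g
    simp only [Set.mem_univ, iff_true]
    obtain ⟨l, m, hlm, hg⟩ := h g
    refine ⟨fun x => if x = a then l else m, ?_, ?_⟩
    · rw [Finset.sum_pair hab]
      simp [hab.symm, hlm]
    · rw [Finset.sum_pair hab]
      simp [hab.symm, hg]

/-- The group `Z_2 x Z_{2k}`. -/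
abbrev Gk (k : ℕ) : Type := ZMod 2 × ZMod (2 * k)

/-- reduction of the second coordinate mod 2 -/
def red (k : ℕ) : ZMod (2 * k) →+* ZMod 2 := ZMod.castHom (Dvd.intro k rfl) (ZMod 2)

/-- reduction to `Z_2 x Z_2` -/
def P (k : ℕ) (g : Gk k) : ZMod 2 × ZMod 2 := (g.1, red k g.2)

theorem red_zsmul (k : ℕ) (c : ℤ) (x : ZMod (2 * k)) : red k (c • x) = (c : ZMod 2) * red k x := by
  rw [map_zsmul, zsmul_eq_mul]

theorem P_comb (k : ℕ) (a b : Gk k) (l m : ℤ) :
    P k (l • a + m • b) = ((l : ZMod 2) * (P k a).1 + (m : ZMod 2) * (P k b).1,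
      (l : ZMod 2) * (P k a).2 + (m : ZMod 2) * (P k b).2) := by
  unfold P
  refine Prod.ext ?_ ?_
  · simp [zsmul_eq_mul]
  · simp only [zsmul_eq_mul, Prod.snd_add, Prod.snd_mul, Prod.snd_intCast, map_add, map_mul, map_intCast]

theorem dec_aux : ∀ p q : ZMod 2 × ZMod 2,
    (∀ t : ZMod 2 × ZMod 2, ∃ l m : ZMod 2, (l * p.1 + m * q.1, l * p.2 + m * q.2) = t) →
    ∀ l m : ZMod 2, ((l * p.1 + m * q.1, l * p.2 + m * q.2) = p → l = 1 ∧ m = 0) ∧
      ((l * p.1 + m * q.1, l * p.2 + m * q.2) = (p.1 + q.1, p.2 + q.2) → l = 1 ∧ m = 1) := by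
  decide

theorem red_natCast (k n : ℕ) : red k (n : ZMod (2 * k)) = (n : ZMod 2) := by
  simp [red]

/-- lift of an element of `Z_2 x Z_2`, shifted by `2 r` -/
def lift (k : ℕ) (t : ZMod 2 × ZMod 2) (r : ℕ) : Gk k := (t.1, ((2 * r + t.2.val : ℕ) : ZMod (2 * k)))

theorem P_lift (k : ℕ) (t : ZMod 2 × ZMod 2) (r : ℕ) : P k (lift k t r) = t := by
  unfold P lift
  ext
  · rfl
  · simp only [red_natCast]
    push_cast
    have : (2 : ZMod 2) = 0 := rfl
    rw [this, zero_mul, zero_add]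
    simp

theorem lift_inj (k : ℕ) (t : ZMod 2 × ZMod 2) (r r' : ℕ) (hr : r < k) (hr' : r' < k)
    (h : lift k t r = lift k t r') : r = r' := by
  unfold lift at h
  have h2 := congrArg Prod.snd h
  simp only at h2
  have hv : t.2.val < 2 := ZMod.val_lt t.2
  rw [ZMod.natCast_eq_natCast_iff] at h2
  have := Nat.ModEq.eq_of_lt_of_lt h2 (by omega) (by omega)
  omega

/-- number of `j < s` with `i + j` odd -/
theorem inner_sum (i s : ℕ) :
    (∑ j ∈ Finset.range s, if (i + j) % 2 = 1 then 1 else 0) = (s + i % 2) / 2 := by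
  induction s with
  | zero => simp only [Finset.range_zero, Finset.sum_empty]; omega
  | succ s ih =>
    rw [Finset.sum_range_succ, ih]
    split_ifs <;> omega

theorem outer_sum (s n : ℕ) :
    (∑ i ∈ Finset.range n, (s + i % 2) / 2) = ((n + 1) / 2) * (s / 2) + (n / 2) * ((s + 1) / 2) := by
  induction n with
  | zero => simp
  | succ n ih =>
    rw [Finset.sum_range_succ, ih]
    rcases Nat.even_or_odd' n with ⟨c, hc | hc⟩
    · have h1 : (n + 1) / 2 = c := by omega
      have h2 : n / 2 = c := by omega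
      have h3 : (n + 1 + 1) / 2 = c + 1 := by omega
      have h4 : n % 2 = 0 := by omega
      rw [h1, h2, h3, h4]; simp; ring
    · have h1 : (n + 1) / 2 = c + 1 := by omega
      have h2 : n / 2 = c := by omega
      have h3 : (n + 1 + 1) / 2 = c + 1 := by omega
      have h4 : n % 2 = 1 := by omega
      rw [h1, h2, h3, h4]; ring

theorem card_odd (s : ℕ) :
    (((Finset.range s) ×ˢ (Finset.range s)).filter (fun p => (p.1 + p.2) % 2 = 1)).card
      = s ^ 2 / 2 := by
  rw [Finset.card_filter, Finset.sum_product]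
  simp only [inner_sum, outer_sum]
  rcases Nat.even_or_odd' s with ⟨c, hc | hc⟩
  · have h1 : (s + 1) / 2 = c := by omega
    have h2 : s / 2 = c := by omega
    rw [h1, h2, hc]
    have : (2 * c) ^ 2 = 2 * (c * c + c * c) := by ring
    rw [this]; omega
  · have h1 : (s + 1) / 2 = c + 1 := by omega
    have h2 : s / 2 = c := by omega
    rw [h1, h2, hc]
    have : (2 * c + 1) ^ 2 = 2 * ((c + 1) * c + c * (c + 1)) + 1 := by ring
    rw [this]; omega

/-- counting bound: a spanning pair forces `k ≤ s^2/2`. -/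
theorem upper (k s : ℕ) (a b : Gk k) (h : Spans a b s) : k ≤ s ^ 2 / 2 := by
  classical
  -- parity information
  have hspan : ∀ t : ZMod 2 × ZMod 2, ∃ l m : ZMod 2,
      (l * (P k a).1 + m * (P k b).1, l * (P k a).2 + m * (P k b).2) = t := by
    intro t
    obtain ⟨l, m, _, hg⟩ := h (lift k t 0)
    refine ⟨(l : ZMod 2), (m : ZMod 2), ?_⟩
    rw [← P_comb, hg, P_lift]
  have hdec := dec_aux (P k a) (P k b) hspan
  set t : ZMod 2 × ZMod 2 := if s % 2 = 0 then P k a else ((P k a).1 + (P k b).1, (P k a).2 + (P k b).2) with ht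
  choose l m hlm hg using fun r : Fin k => h (lift k t r)
  have hpar : ∀ r : Fin k, (l r) % 2 = 1 ∧ (m r) % 2 = (s : ℤ) % 2 := by
    intro r
    have h1 := P_comb k a b (l r) (m r)
    rw [hg r, P_lift] at h1
    have hd := hdec (l r : ZMod 2) (m r : ZMod 2)
    by_cases hs : s % 2 = 0
    · rw [ht, if_pos hs] at h1
      obtain ⟨e1, e2⟩ := hd.1 h1.symm
      have e1' : ((l r : ℤ) : ZMod 2) = ((1 : ℤ) : ZMod 2) := by rw [e1]; rfl
      have e2' : ((m r : ℤ) : ZMod 2) = ((0 : ℤ) : ZMod 2) := by rw [e2]; rfl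
      rw [ZMod.intCast_eq_intCast_iff] at e1' e2'
      have := e1'; have := e2'
      unfold Int.ModEq at *
      constructor
      · simpa using e1'
      · have : ((s : ℤ) % 2) = 0 := by omega
        rw [this]; simpa using e2'
    · rw [ht, if_neg hs] at h1
      obtain ⟨e1, e2⟩ := hd.2 h1.symm
      have e1' : ((l r : ℤ) : ZMod 2) = ((1 : ℤ) : ZMod 2) := by rw [e1]; rfl
      have e2' : ((m r : ℤ) : ZMod 2) = ((1 : ℤ) : ZMod 2) := by rw [e2]; rfl
      rw [ZMod.intCast_eq_intCast_iff] at e1' e2'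
      unfold Int.ModEq at *
      constructor
      · simpa using e1'
      · have : ((s : ℤ) % 2) = 1 := by omega
        rw [this]; simpa using e2'
  -- the injection
  let F : Fin k → ℕ × ℕ := fun r => (((l r + m r + s - 1) / 2).toNat, ((s - 1 - (l r - m r)) / 2).toNat)
  have hF : ∀ r : Fin k, (2 * ((F r).1 : ℤ) = l r + m r + s - 1) ∧ (2 * ((F r).2 : ℤ) = s - 1 - (l r - m r))
      ∧ (F r).1 < s ∧ (F r).2 < s ∧ ((F r).1 + (F r).2) % 2 = 1 := by
    intro r
    obtain ⟨p1, p2⟩ := hpar r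
    have hb := hlm r
    have hb1 := abs_add_le (l r) (m r)
    have hb2 := abs_sub (l r) (m r)
    have hb3 : |l r + m r| ≤ s := le_trans hb1 hb
    have hb4 : |l r - m r| ≤ s := le_trans hb2 hb
    rw [abs_le] at hb3 hb4
    have q1 : 0 ≤ l r + m r + s - 1 := by omega
    have q2 : 0 ≤ (s : ℤ) - 1 - (l r - m r) := by omega
    have e1 : (((l r + m r + s - 1) / 2).toNat : ℤ) = (l r + m r + s - 1) / 2 := by
      apply Int.toNat_of_nonneg; omega
    have e2 : (((s - 1 - (l r - m r)) / 2).toNat : ℤ) = (s - 1 - (l r - m r)) / 2 := by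
      apply Int.toNat_of_nonneg; omega
    have f1 : ((F r).1 : ℤ) = (l r + m r + s - 1) / 2 := e1
    have f2 : ((F r).2 : ℤ) = (s - 1 - (l r - m r)) / 2 := e2
    refine ⟨by omega, by omega, by omega, by omega, by omega⟩
  have hcard : (Finset.univ : Finset (Fin k)).card ≤
      (((Finset.range s) ×ˢ (Finset.range s)).filter (fun p => (p.1 + p.2) % 2 = 1)).card := by
    apply Finset.card_le_card_of_injOn F
    · intro r _
      obtain ⟨_, _, h3, h4, h5⟩ := hF r
      simp only [Finset.coe_filter, Finset.mem_product, Finset.mem_range, Set.mem_ofPred_eq]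
      exact ⟨⟨h3, h4⟩, h5⟩
    · intro r _ r' _ hrr
      obtain ⟨a1, a2, _⟩ := hF r
      obtain ⟨b1, b2, _⟩ := hF r'
      rw [hrr] at a1 a2
      have c1 : l r = l r' := by omega
      have c2 : m r = m r' := by omega
      have : lift k t r = lift k t r' := by rw [← hg r, ← hg r', c1, c2]
      exact Fin.ext (lift_inj k t r r' r.2 r'.2 this)
  rw [card_odd] at hcard
  simpa using hcard

/-- sets with at most one element never span -/
theorem not_small (k s : ℕ) (A : Finset (Gk k)) (hA : A.card ≤ 1) :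
    signedSumset A s ≠ Set.univ := by
  classical
  intro h
  obtain ⟨a, ha⟩ : ∃ a : Gk k, A ⊆ {a} := by
    rcases Finset.card_le_one_iff_subset_singleton.mp hA with ⟨a, ha⟩
    exact ⟨a, ha⟩
  have key : ∀ g : Gk k, ∃ l : ℤ, l • a = g := by
    intro g
    have hg : g ∈ signedSumset A s := by rw [h]; trivial
    obtain ⟨c, _, hs⟩ := hg
    rcases Finset.subset_singleton_iff.mp ha with h0 | h1
    · rw [h0] at hs; exact ⟨0, by simpa using hs⟩
    · rw [h1] at hs; exact ⟨c a, by simpa using hs⟩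
  obtain ⟨l, hl⟩ := key (lift k (1, 0) 0)
  obtain ⟨m, hm⟩ := key (lift k (0, 1) 0)
  have e1 := P_comb k a a l 0
  have e2 := P_comb k a a m 0
  simp only [zero_smul, add_zero, hl, hm, P_lift, Int.cast_zero, zero_mul] at e1 e2
  revert e1 e2
  generalize (l : ZMod 2) = l'
  generalize (m : ZMod 2) = m'
  generalize P k a = p
  revert p l' m'
  decide

theorem phi_eq_two_of (k s : ℕ) (a b : Gk k) (hab : a ≠ b) (h : Spans a b s) :
    phi (Gk k) s = 2 := by
  classical
  unfold phi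
  have hmem : 2 ∈ {m | ∃ A : Finset (Gk k), A.card = m ∧ signedSumset A s = Set.univ} :=
    ⟨{a, b}, Finset.card_pair hab, (pair_iff hab s).2 h⟩
  apply le_antisymm
  · exact Nat.sInf_le hmem
  · apply le_csInf ⟨2, hmem⟩
    rintro m ⟨A, hA, hs⟩
    by_contra hlt
    exact not_small k s A (by omega) hs

theorem spans_of_phi (k s : ℕ) (h : phi (Gk k) s = 2) : ∃ a b : Gk k, a ≠ b ∧ Spans a b s := by
  classical
  unfold phi at h
  have hne : {m | ∃ A : Finset (Gk k), A.card = m ∧ signedSumset A s = Set.univ}.Nonempty := by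
    by_contra hne
    rw [Set.not_nonempty_iff_eq_empty] at hne
    rw [hne] at h
    simp at h
  have hmem := Nat.sInf_mem hne
  rw [h] at hmem
  obtain ⟨A, hA, hs⟩ := hmem
  rw [Finset.card_eq_two] at hA
  obtain ⟨a, b, hab, rfl⟩ := hA
  exact ⟨a, b, hab, (pair_iff hab s).1 hs⟩

theorem le_of_phi (k s : ℕ) (h : phi (Gk k) s = 2) : k ≤ s ^ 2 / 2 := by
  obtain ⟨a, b, _, hs⟩ := spans_of_phi k s h
  exact upper k s a b hs

/-- the second coordinate, as an integer representative with `-k ≤ z < k` -/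
theorem exists_rep (k : ℕ) (hk : 0 < k) (x : ZMod (2 * k)) :
    ∃ z : ℤ, -(k : ℤ) ≤ z ∧ z < k ∧ ((z : ℤ) : ZMod (2 * k)) = x := by
  have : NeZero (2 * k) := ⟨by omega⟩
  have hv : x.val < 2 * k := ZMod.val_lt x
  have hx : ((x.val : ℕ) : ZMod (2 * k)) = x := ZMod.natCast_zmod_val x
  by_cases h : x.val < k
  · exact ⟨(x.val : ℤ), by omega, by omega, by simp⟩
  · refine ⟨(x.val : ℤ) - 2 * k, by omega, by omega, ?_⟩
    push_cast
    rw [hx]
    have : (2 : ZMod (2 * k)) * (k : ZMod (2 * k)) = 0 := by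
      have := ZMod.natCast_self (2 * k)
      push_cast at this
      exact this
    rw [this, sub_zero]

theorem exists_rep' (k : ℕ) (hk : 0 < k) (x : ZMod (2 * k)) :
    ∃ z : ℤ, 0 ≤ z ∧ z < 2 * k ∧ ((z : ℤ) : ZMod (2 * k)) = x := by
  have : NeZero (2 * k) := ⟨by omega⟩
  have hv : x.val < 2 * k := ZMod.val_lt x
  exact ⟨(x.val : ℤ), by omega, by omega, by simp⟩

theorem zmod2_cases (e : ZMod 2) : e = ((0 : ℤ) : ZMod 2) ∨ e = ((1 : ℤ) : ZMod 2) := by
  revert e; decide

/-- odd `s = 2 m + 1`: the pair `(1, m+1), (1, m)` spans for every `k ≤ s^2/2`. -/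
theorem spans_odd (k m : ℕ) (hk : 0 < k) (hle : k ≤ (2 * m + 1) ^ 2 / 2) :
    Spans ((1, ((m + 1 : ℕ) : ZMod (2 * k))) : Gk k) ((1, ((m : ℕ) : ZMod (2 * k))) : Gk k) (2 * m + 1) := by
  rintro ⟨e, x⟩
  obtain ⟨z, hz1, hz2, hz3⟩ := exists_rep k hk x
  have hk2 : 2 * (k : ℤ) < (2 * m + 1) * (2 * m + 1) := by
    have h1 : (2 * m + 1) ^ 2 = 2 * (2 * m * m + 2 * m) + 1 := by ring
    have h2 : k ≤ 2 * m * m + 2 * m := by rw [h1] at hle; omega
    have h3 : ((k : ℕ) : ℤ) ≤ 2 * m * m + 2 * m := by exact_mod_cast h2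
    nlinarith
  -- choose p of the parity of e with |2z - S p| ≤ S
  obtain ⟨p, hp1, hp2, hp3⟩ : ∃ p : ℤ, ((p : ℤ) : ZMod 2) = e ∧
      (2 * (m : ℤ) + 1) * (p - 1) ≤ 2 * z ∧ 2 * z ≤ (2 * (m : ℤ) + 1) * (p + 1) := by
    set S : ℤ := 2 * (m : ℤ) + 1 with hS
    have hSpos : 0 < S := by omega
    rcases zmod2_cases e with he | he
    · refine ⟨2 * ((2 * z + S) / (2 * S)), ?_, ?_, ?_⟩
      · rw [he]; push_cast
        have : (2 : ZMod 2) = 0 := rfl
        rw [this]; ring
      · have h1 := Int.mul_ediv_self_le (x := 2 * z + S) (k := 2 * S) (by omega)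
        nlinarith
      · have h1 := Int.lt_mul_ediv_self_add (x := 2 * z + S) (k := 2 * S) (by omega)
        nlinarith
    · refine ⟨2 * ((2 * z) / (2 * S)) + 1, ?_, ?_, ?_⟩
      · rw [he]; push_cast
        have : (2 : ZMod 2) = 0 := rfl
        rw [this]; ring
      · have h1 := Int.mul_ediv_self_le (x := 2 * z) (k := 2 * S) (by omega)
        nlinarith
      · have h1 := Int.lt_mul_ediv_self_add (x := 2 * z) (k := 2 * S) (by omega)
        nlinarith
  have hpS1 : p ≤ 2 * m + 1 := by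
    by_contra hcon
    push Not at hcon
    have : (2 * (m : ℤ) + 1) * (2 * m + 1) ≤ (2 * (m : ℤ) + 1) * (p - 1) := by
      apply mul_le_mul_of_nonneg_left _ (by positivity); omega
    omega
  have hpS2 : -(2 * (m : ℤ) + 1) ≤ p := by
    by_contra hcon
    push Not at hcon
    have : (2 * (m : ℤ) + 1) * (p + 1) ≤ (2 * (m : ℤ) + 1) * (-(2 * m + 1)) := by
      apply mul_le_mul_of_nonneg_left _ (by positivity); omega
    nlinarith
  -- q
  obtain ⟨q, hq⟩ : ∃ q : ℤ, q = 2 * z - (2 * (m : ℤ) + 1) * p := ⟨_, rfl⟩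
  have hq1 : q ≤ 2 * m + 1 := by rw [hq]; nlinarith
  have hq2 : -(2 * (m : ℤ) + 1) ≤ q := by rw [hq]; nlinarith
  obtain ⟨l, hl⟩ : ∃ l : ℤ, p + q = 2 * l := by
    refine ⟨z - m * p, ?_⟩
    rw [hq]; ring
  refine ⟨l, p - l, ?_, ?_⟩
  · have h1 : p = l + (p - l) := by ring
    push_cast
    rcases abs_cases l with h | h <;> rcases abs_cases (p - l) with h' | h' <;> omega
  · refine Prod.ext ?_ ?_
    · simp only [zsmul_eq_mul, Prod.fst_add, Prod.fst_mul, Prod.fst_intCast, mul_one]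
      rw [← hp1]; push_cast; ring
    · simp only [zsmul_eq_mul, Prod.snd_add, Prod.snd_mul, Prod.snd_intCast]
      rw [← hz3]
      have hzz : z = l * (m + 1) + (p - l) * m := by
        have : 2 * z = 2 * (l * (m + 1) + (p - l) * m) := by
          have := hl; rw [hq] at this; linarith
        omega
      rw [hzz]
      push_cast
      ring

/-- even `s = 2 m`: the pair `(1, 2m-1), (0, 1)` spans for `k = 2 m^2`. -/
theorem spans_even (m : ℕ) (hm : 0 < m) (k : ℕ) (hk : k = 2 * m ^ 2) :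
    Spans ((1, (((2 * m - 1 : ℤ)) : ZMod (2 * k))) : Gk k) ((0, 1) : Gk k) (2 * m) := by
  have hkpos : 0 < k := by rw [hk]; positivity
  have h4 : (4 * (m : ZMod (2 * k)) ^ 2) = 0 := by
    have := ZMod.natCast_self (2 * k)
    have h2 : ((2 * k : ℕ) : ZMod (2 * k)) = ((4 * m ^ 2 : ℕ) : ZMod (2 * k)) := by
      congr 1; rw [hk]; ring
    rw [h2] at this
    push_cast at this
    exact this
  rintro ⟨e, x⟩
  obtain ⟨z, hz1, hz2, hz3⟩ := exists_rep' k hkpos x
  have hz2' : z < 4 * (m : ℤ) * m := by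
    have : (k : ℤ) = 2 * (m : ℤ) ^ 2 := by exact_mod_cast hk
    rw [this] at hz2; nlinarith
  have hmz : (0 : ℤ) < m := by exact_mod_cast hm
  -- it is enough to find l, mu with the right parity and z = l (2m-1) + mu + t * 4 m^2
  suffices H : ∃ l mu t : ℤ, ((l : ℤ) : ZMod 2) = e ∧ |l| + |mu| ≤ 2 * m ∧
      z = l * (2 * m - 1) + mu + t * (4 * (m : ℤ) ^ 2) by
    obtain ⟨l, mu, t, h1, h2, h3⟩ := H
    refine ⟨l, mu, by push_cast; exact h2, ?_⟩
    refine Prod.ext ?_ ?_
    · simp [h1]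
    · simp only [zsmul_eq_mul, Prod.snd_add, Prod.snd_mul, Prod.snd_intCast]
      rw [← hz3, h3]
      push_cast
      rw [h4]
      ring
  rcases zmod2_cases e with he | he
  · -- even l
    obtain ⟨j, hj⟩ : ∃ j : ℤ, j = (z + 2 * m) / (4 * m) := ⟨_, rfl⟩
    have h1 := Int.mul_ediv_self_le (x := z + 2 * m) (k := 4 * m) (by omega)
    have h2 := Int.lt_mul_ediv_self_add (x := z + 2 * m) (k := 4 * m) (by omega)
    rw [← hj] at h1 h2
    have hj0 : 0 ≤ j := by rw [hj]; positivity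
    have hjm : j ≤ m := by
      by_contra hcon
      push Not at hcon
      have : 4 * (m : ℤ) * (m + 1) ≤ 4 * m * j := mul_le_mul_of_nonneg_left (by omega) (by omega)
      nlinarith
    obtain ⟨r, hr⟩ : ∃ r : ℤ, r = z - 4 * m * j := ⟨_, rfl⟩
    by_cases hc : r ≤ 2 * m - 4 * j
    · refine ⟨2 * j, r + 2 * j, 0, ?_, ?_, ?_⟩
      · rw [he]; push_cast
        have : (2 : ZMod 2) = 0 := rfl
        rw [this]; ring
      · rw [abs_of_nonneg (by omega : (0 : ℤ) ≤ 2 * j)]
        rcases abs_cases (r + 2 * j) with h | h <;> omega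
      · rw [hr]; ring
    · refine ⟨-(2 * (m - j)), r - 2 * m + 2 * j, 1, ?_, ?_, ?_⟩
      · rw [he]; push_cast
        have : (2 : ZMod 2) = 0 := rfl
        rw [this]; ring
      · rw [abs_neg, abs_of_nonneg (by omega : (0 : ℤ) ≤ 2 * ((m : ℤ) - j))]
        rcases abs_cases (r - 2 * m + 2 * j) with h | h <;> omega
      · rw [hr]; ring
  · -- odd l
    obtain ⟨j, hj⟩ : ∃ j : ℤ, j = z / (4 * m) := ⟨_, rfl⟩
    have h1 := Int.mul_ediv_self_le (x := z) (k := 4 * m) (by omega)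
    have h2 := Int.lt_mul_ediv_self_add (x := z) (k := 4 * m) (by omega)
    rw [← hj] at h1 h2
    have hj0 : 0 ≤ j := by rw [hj]; positivity
    have hjm : j < m := by
      by_contra hcon
      push Not at hcon
      have : 4 * (m : ℤ) * m ≤ 4 * m * j := mul_le_mul_of_nonneg_left (by omega) (by omega)
      nlinarith
    obtain ⟨r, hr⟩ : ∃ r : ℤ, r = z - 4 * m * j := ⟨_, rfl⟩
    by_cases hc : r ≤ 4 * m - 4 * j - 2
    · refine ⟨2 * j + 1, r + 2 * j - 2 * m + 1, 0, ?_, ?_, ?_⟩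
      · rw [he]; push_cast
        have : (2 : ZMod 2) = 0 := rfl
        rw [this]; ring
      · rw [abs_of_nonneg (by omega : (0 : ℤ) ≤ 2 * j + 1)]
        rcases abs_cases (r + 2 * j - 2 * m + 1) with h | h <;> omega
      · rw [hr]; ring
    · refine ⟨-(2 * (m - j) - 1), r - 4 * m + 2 * j + 1, 1, ?_, ?_, ?_⟩
      · rw [he]; push_cast
        have : (2 : ZMod 2) = 0 := rfl
        rw [this]; ring
      · rw [abs_neg, abs_of_nonneg (by omega : (0 : ℤ) ≤ 2 * ((m : ℤ) - j) - 1)]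
        rcases abs_cases (r - 4 * m + 2 * j + 1) with h | h <;> omega
      · rw [hr]; ring

theorem one_ne_zero' (k : ℕ) (hk : 0 < k) : (1 : ZMod (2 * k)) ≠ 0 := by
  have : Fact (1 < 2 * k) := ⟨by omega⟩
  exact one_ne_zero

/-- odd `s`: every `1 ≤ k ≤ s^2/2` has value 2. -/
theorem phi_odd (k s : ℕ) (hk : 0 < k) (hs : s % 2 = 1) (hle : k ≤ s ^ 2 / 2) :
    phi (Gk k) s = 2 := by
  obtain ⟨m, rfl⟩ : ∃ m, s = 2 * m + 1 := ⟨s / 2, by omega⟩
  refine phi_eq_two_of k _ _ _ ?_ (spans_odd k m hk hle)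
  intro h
  have h2 := congrArg Prod.snd h
  simp only [Nat.cast_add, Nat.cast_one] at h2
  exact one_ne_zero' k hk (by simpa using h2)

theorem phi_even (s : ℕ) (hs : s % 2 = 0) (h0 : 0 < s) : phi (Gk (s ^ 2 / 2)) s = 2 := by
  obtain ⟨m, rfl⟩ : ∃ m, s = 2 * m := ⟨s / 2, by omega⟩
  have hm : 0 < m := by omega
  have hk : (2 * m) ^ 2 / 2 = 2 * m ^ 2 := by
    have : (2 * m) ^ 2 = 2 * (2 * m ^ 2) := by ring
    rw [this]; omega
  refine phi_eq_two_of _ _ _ _ ?_ (spans_even m hm _ hk)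
  · intro h
    have h1 := congrArg Prod.fst h
    simp only at h1
    revert h1; decide

theorem isGreatest (s : ℕ) (hs : 2 ≤ s) :
    IsGreatest {k : ℕ | 0 < k ∧ phi (ZMod 2 × ZMod (2 * k)) s = 2} (s ^ 2 / 2) := by
  constructor
  · have hpos : 0 < s ^ 2 / 2 := by
      have : 2 ^ 2 ≤ s ^ 2 := Nat.pow_le_pow_left hs 2
      omega
    refine ⟨hpos, ?_⟩
    rcases Nat.mod_two_eq_zero_or_one s with h | h
    · exact phi_even s h (by omega)
    · exact phi_odd _ s hpos h le_rfl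
  · rintro k ⟨_, h⟩
    exact le_of_phi k s h

end Pool.Agent.Helper37.Span
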