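import Mathlib
import Pool.Agent.Helper37.Span

set_option autoImplicit false

namespace Pool.Agent.Helper37.Span

theorem dec_par : ∀ p q : ZMod 2 × ZMod 2,
    (∀ t : ZMod 2 × ZMod 2, ∃ l m : ZMod 2, (l * p.1 + m * q.1, l * p.2 + m * q.2) = t) →
    ∀ l m : ZMod 2, (l * p.1 + m * q.1, l * p.2 + m * q.2) = (0, 0) → l = 0 ∧ m = 0 := by
  decide

theorem span_par {k s : ℕ} {a b : Gk k} (h : Spans a b s) : ∀ t : ZMod 2 × ZMod 2, ∃ l m : ZMod 2,
      (l * (P k a).1 + m * (P k b).1, l * (P k a).2 + m * (P k b).2) = t := by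
  intro t
  obtain ⟨l, m, _, hg⟩ := h (lift k t 0)
  refine ⟨(l : ZMod 2), (m : ZMod 2), ?_⟩
  rw [← P_comb, hg, P_lift]

/-- a relation between `a` and `b` has even coefficients -/
theorem rel_even {k s : ℕ} {a b : Gk k} (h : Spans a b s) (l m : ℤ) (hr : l • a + m • b = 0) :
    l % 2 = 0 ∧ m % 2 = 0 := by
  have h1 := P_comb k a b l m
  rw [hr] at h1
  have h0 : P k (0 : Gk k) = (0, 0) := by simp [P]
  rw [h0] at h1
  obtain ⟨e1, e2⟩ := dec_par _ _ (span_par h) _ _ h1.symm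
  have e1' : ((l : ℤ) : ZMod 2) = ((0 : ℤ) : ZMod 2) := by rw [e1]; rfl
  have e2' : ((m : ℤ) : ZMod 2) = ((0 : ℤ) : ZMod 2) := by rw [e2]; rfl
  rw [ZMod.intCast_eq_intCast_iff] at e1' e2'
  unfold Int.ModEq at *
  omega

theorem red1 {k s : ℕ} (hs : s % 2 = 0) {a b : Gk k} (h : Spans a b s) (x y : ℤ) :
    ∃ i j : ℤ, 0 ≤ i ∧ i < s ∧ 0 ≤ j ∧ j < s ∧ (x - i) • (a + b) + (y - j) • (a - b) = 0 := by
  obtain ⟨l, m, hlm, hg⟩ := h ((x + y - s + 1) • a + (x - y) • b)
  have hrel : (l - (x + y - s + 1)) • a + (m - (x - y)) • b = 0 := by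
    have : (l - (x + y - s + 1)) • a + (m - (x - y)) • b =
      (l • a + m • b) - ((x + y - s + 1) • a + (x - y) • b) := by module
    rw [this, hg, sub_self]
  obtain ⟨p1, p2⟩ := rel_even h _ _ hrel
  have hb1 := abs_add_le l m
  have hb2 := abs_sub l m
  have hb3 : |l + m| ≤ s := le_trans hb1 hlm
  have hb4 : |l - m| ≤ s := le_trans hb2 hlm
  rw [abs_le] at hb3 hb4
  obtain ⟨i, hi⟩ : ∃ i : ℤ, 2 * i = l + m + s - 1 := ⟨(l + m + s - 1) / 2, by omega⟩
  obtain ⟨j, hj⟩ : ∃ j : ℤ, 2 * j = l - m + s - 1 := ⟨(l - m + s - 1) / 2, by omega⟩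
  refine ⟨i, j, by omega, by omega, by omega, by omega, ?_⟩
  have e : (x - i) • (a + b) + (y - j) • (a - b) =
      ((x - i) + (y - j)) • a + ((x - i) - (y - j)) • b := by module
  rw [e]
  have e1 : (x - i) + (y - j) = -(l - (x + y - s + 1)) := by omega
  have e2 : (x - i) - (y - j) = -(m - (x - y)) := by omega
  rw [e1, e2, neg_smul, neg_smul, ← neg_add, hrel, neg_zero]

theorem exC {k s : ℕ} (hs : s % 2 = 0) {a b : Gk k} (h : Spans a b s)
    (hbig : (s : ℤ) * s - s < 2 * k) :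
    ∃ c : ℤ, |c| < s ∧ (s : ℤ) • (a - b) = c • (a + b) := by
  classical
  by_contra hcon
  push Not at hcon
  -- improved reduction
  have red2 : ∀ x y : ℤ, ∃ i j : ℤ, 0 ≤ i ∧ i < s ∧ 0 ≤ j ∧ j < s - 1 ∧
      (x - i) • (a + b) + (y - j) • (a - b) = 0 := by
    intro x y
    obtain ⟨i, j, h1, h2, h3, h4, h5⟩ := red1 hs h x y
    by_cases hj : j < s - 1
    · exact ⟨i, j, h1, h2, h3, hj, h5⟩
    · have hj' : j = s - 1 := by omega
      obtain ⟨i', j', g1, g2, g3, g4, g5⟩ := red1 hs h i s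
      have hj0 : j' ≠ 0 := by
        intro h0
        apply hcon (i' - i)
        · rw [abs_lt]; constructor <;> omega
        · rw [h0, sub_zero] at g5
          have : (s : ℤ) • (a - b) = (i' - i) • (a + b) + ((i - i') • (a + b) + (s : ℤ) • (a - b)) := by module
          rw [this, g5, add_zero]
      refine ⟨i', j' - 1, g1, g2, by omega, by omega, ?_⟩
      have : (x - i') • (a + b) + (y - (j' - 1)) • (a - b) =
        ((x - i) • (a + b) + (y - j) • (a - b)) + ((i - i') • (a + b) + ((s : ℤ) - j') • (a - b)) := by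
        rw [hj']; module
      rw [this, h5, g5, add_zero]
  -- parity facts about `P a`, `P b`
  have hsp := span_par h
  have hne : P k a ≠ P k b := by
    intro he
    rw [he] at hsp
    revert hsp
    generalize P k b = q
    revert q
    decide
  have hdec := dec_aux (P k a) (P k b) hsp
  -- every element in the odd classes
  have hel : ∀ z : Fin k × Bool, ∃ i j : ℤ, 0 ≤ i ∧ i < s ∧ 0 ≤ j ∧ j < s - 1 ∧
      lift k (if z.2 then P k a else P k b) z.1 = (i + j - s + 1) • a + (i - j) • b := by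
    rintro ⟨r, t⟩
    obtain ⟨l, m, hlm, hg⟩ := h (lift k (if t then P k a else P k b) r)
    have hodd : (l + m) % 2 = 1 := by
      have h1 := P_comb k a b l m
      rw [hg, P_lift] at h1
      cases t with
      | true =>
        simp only [if_true] at h1
        obtain ⟨e1, e2⟩ := (hdec (l : ZMod 2) (m : ZMod 2)).1 h1.symm
        have e1' : ((l : ℤ) : ZMod 2) = ((1 : ℤ) : ZMod 2) := by rw [e1]; rfl
        have e2' : ((m : ℤ) : ZMod 2) = ((0 : ℤ) : ZMod 2) := by rw [e2]; rfl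
        rw [ZMod.intCast_eq_intCast_iff] at e1' e2'
        unfold Int.ModEq at *
        omega
      | false =>
        simp only [Bool.false_eq_true, if_false] at h1
        have h3 : ((l : ZMod 2) * (P k a).1 + ((m : ZMod 2) - 1) * (P k b).1,
          (l : ZMod 2) * (P k a).2 + ((m : ZMod 2) - 1) * (P k b).2) = (0, 0) := by
          have h1a := congrArg Prod.fst h1
          have h1b := congrArg Prod.snd h1
          simp only at h1a h1b
          ext
          · simp only; linear_combination -h1a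
          · simp only; linear_combination -h1b
        obtain ⟨e1, e2⟩ := dec_par _ _ hsp _ _ h3
        have e1' : ((l : ℤ) : ZMod 2) = ((0 : ℤ) : ZMod 2) := by rw [e1]; rfl
        have e2' : ((m : ℤ) : ZMod 2) = ((1 : ℤ) : ZMod 2) := by
          rw [sub_eq_zero] at e2; rw [e2]; rfl
        rw [ZMod.intCast_eq_intCast_iff] at e1' e2'
        unfold Int.ModEq at *
        omega
    obtain ⟨x, hx⟩ : ∃ x : ℤ, 2 * x = l + m + s - 1 := ⟨(l + m + s - 1) / 2, by omega⟩
    obtain ⟨y, hy⟩ : ∃ y : ℤ, 2 * y = l - m + s - 1 := ⟨(l - m + s - 1) / 2, by omega⟩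
    obtain ⟨i, j, h1, h2, h3, h4, h5⟩ := red2 x y
    refine ⟨i, j, h1, h2, h3, h4, ?_⟩
    simp only
    rw [← hg]
    have e1 : l = x + y - s + 1 := by omega
    have e2 : m = x - y := by omega
    have e3 : l • a + m • b = ((i + j - s + 1) • a + (i - j) • b) + ((x - i) • (a + b) + (y - j) • (a - b)) := by
      rw [e1, e2]; module
    rw [e3, h5, add_zero]
  choose fi fj f1 f2 f3 f4 f5 using hel
  have hcard : (Finset.univ : Finset (Fin k × Bool)).card ≤
      ((Finset.range s) ×ˢ (Finset.range (s - 1))).card := by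
    apply Finset.card_le_card_of_injOn (fun z => ((fi z).toNat, (fj z).toNat))
    · intro z _
      have := f1 z; have := f2 z; have := f3 z; have := f4 z
      simp only [Finset.coe_product, Finset.coe_range, Set.mem_prod, Set.mem_Iio]
      omega
    · intro z _ z' _ hzz
      simp only [Prod.mk.injEq] at hzz
      have c1 : fi z = fi z' := by
        have := f1 z; have := f1 z'; omega
      have c2 : fj z = fj z' := by
        have := f3 z; have := f3 z'; omega
      have c3 : lift k (if z.2 then P k a else P k b) z.1 = lift k (if z'.2 then P k a else P k b) z'.1 := by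
        rw [f5 z, f5 z', c1, c2]
      have c4 : (if z.2 then P k a else P k b) = (if z'.2 then P k a else P k b) := by
        rw [← P_lift k (if z.2 then P k a else P k b) z.1, c3, P_lift]
      have c5 : z.2 = z'.2 := by
        cases hz2 : z.2 with
        | true =>
          cases hz2' : z'.2 with
          | true => rfl
          | false =>
            rw [hz2, hz2'] at c4
            rw [if_pos rfl, if_neg (by decide)] at c4
            exact absurd c4 hne
        | false =>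
          cases hz2' : z'.2 with
          | false => rfl
          | true =>
            rw [hz2, hz2'] at c4
            rw [if_pos rfl, if_neg (by decide)] at c4
            exact absurd c4.symm hne
      rw [c5] at c3
      have c6 := lift_inj k _ z.1 z'.1 z.1.2 z'.1.2 c3
      exact Prod.ext (Fin.ext c6) c5
  simp only [Finset.card_univ, Fintype.card_prod, Fintype.card_fin, Fintype.card_bool,
    Finset.card_product, Finset.card_range] at hcard
  have hcard' : ((k * 2 : ℕ) : ℤ) ≤ ((s * (s - 1) : ℕ) : ℤ) := by exact_mod_cast hcard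
  rcases Nat.eq_zero_or_pos s with h0 | h0
  · rw [h0] at hcard' hbig; simp at hcard' hbig; omega
  · push_cast [Nat.cast_sub (by omega : 1 ≤ s)] at hcard'
    nlinarith

theorem spans_neg {k s : ℕ} {a b : Gk k} (h : Spans a b s) : Spans a (-b) s := by
  intro g
  obtain ⟨l, m, hlm, hg⟩ := h g
  exact ⟨l, -m, by simpa using hlm, by simpa using hg⟩

theorem int_lift (k : ℕ) (x : ZMod (2 * k)) : ∃ A : ℤ, ((A : ℤ) : ZMod (2 * k)) = x :=
  ZMod.intCast_surjective x

/-- necessity for even `s` -/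
theorem necessity {k s : ℕ} (hs : s % 2 = 0) (a b : Gk k) (h : Spans a b s)
    (hbig : (s : ℤ) * s - s < 2 * k) :
    (4 ∣ s ∧ 2 ∣ k) ∨ (s % 4 = 2 ∧ k % 4 = 2) := by
  obtain ⟨c, hc, hc'⟩ := exC hs h hbig
  obtain ⟨y, hy, hy'⟩ := exC hs (spans_neg h) hbig
  rw [sub_neg_eq_add, ← sub_eq_add_neg] at hy'
  obtain ⟨m, hm⟩ : ∃ m : ℕ, s = 2 * m := ⟨s / 2, by omega⟩
  -- relations
  have r1 : ((s : ℤ) - c) • a + (-(s : ℤ) - c) • b = 0 := by
    have : ((s : ℤ) - c) • a + (-(s : ℤ) - c) • b = (s : ℤ) • (a - b) - c • (a + b) := by module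
    rw [this, hc', sub_self]
  have r2 : ((s : ℤ) - y) • a + ((s : ℤ) + y) • b = 0 := by
    have : ((s : ℤ) - y) • a + ((s : ℤ) + y) • b = (s : ℤ) • (a + b) - y • (a - b) := by module
    rw [this, hy', sub_self]
  obtain ⟨p1, _⟩ := rel_even h _ _ r1
  obtain ⟨p2, _⟩ := rel_even h _ _ r2
  obtain ⟨c', rfl⟩ : ∃ c' : ℤ, c = 2 * c' := ⟨c / 2, by omega⟩
  obtain ⟨y', rfl⟩ : ∃ y' : ℤ, y = 2 * y' := ⟨y / 2, by omega⟩
  obtain ⟨A, hA⟩ := int_lift k a.2
  obtain ⟨B, hB⟩ := int_lift k b.2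
  obtain ⟨l, n, _, hln⟩ := h (0, 1)
  have q0 : (2 * (k : ℤ)) ∣ l * A + n * B - 1 := by
    have := congrArg Prod.snd hln
    simp only [zsmul_eq_mul, Prod.snd_add, Prod.snd_mul, Prod.snd_intCast] at this
    rw [← hA, ← hB] at this
    have h2 : ((l * A + n * B - 1 : ℤ) : ZMod (2 * k)) = 0 := by
      push_cast; rw [this]; ring
    rw [ZMod.intCast_zmod_eq_zero_iff_dvd] at h2
    exact_mod_cast h2
  have q1 : (2 * (k : ℤ)) ∣ ((s : ℤ) - 2 * c') * A + (-(s : ℤ) - 2 * c') * B := by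
    have := congrArg Prod.snd r1
    simp only [zsmul_eq_mul, Prod.snd_add, Prod.snd_mul, Prod.snd_intCast, Prod.snd_zero] at this
    rw [← hA, ← hB] at this
    have h2 : ((((s : ℤ) - 2 * c') * A + (-(s : ℤ) - 2 * c') * B : ℤ) : ZMod (2 * k)) = 0 := by
      rw [← this]; push_cast; ring
    rw [ZMod.intCast_zmod_eq_zero_iff_dvd] at h2
    exact_mod_cast h2
  have q2 : (2 * (k : ℤ)) ∣ ((s : ℤ) - 2 * y') * A + ((s : ℤ) + 2 * y') * B := by
    have := congrArg Prod.snd r2
    simp only [zsmul_eq_mul, Prod.snd_add, Prod.snd_mul, Prod.snd_intCast, Prod.snd_zero] at this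
    rw [← hA, ← hB] at this
    have h2 : ((((s : ℤ) - 2 * y') * A + ((s : ℤ) + 2 * y') * B : ℤ) : ZMod (2 * k)) = 0 := by
      rw [← this]; push_cast; ring
    rw [ZMod.intCast_zmod_eq_zero_iff_dvd] at h2
    exact_mod_cast h2
  obtain ⟨w0, hw0⟩ := q0
  obtain ⟨w1, hw1⟩ := q1
  obtain ⟨w2, hw2⟩ := q2
  have hsm : (s : ℤ) = 2 * m := by exact_mod_cast hm
  rw [hsm] at hw1 hw2 hc hy hbig
  -- halve the relations
  have R1 : ((m : ℤ) - c') * A + (-(m : ℤ) - c') * B = k * w1 := by linarith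
  have R2 : ((m : ℤ) - y') * A + ((m : ℤ) + y') * B = k * w2 := by linarith
  -- determinant
  have D : 2 * ((m : ℤ) * m - c' * y') * (l * A + n * B) =
      k * (l * ((m + y') * w1 + (m + c') * w2) + n * ((m - c') * w2 - (m - y') * w1)) := by
    have e1 : 2 * ((m : ℤ) * m - c' * y') * A = k * ((m + y') * w1 + (m + c') * w2) := by
      linear_combination (m + y') * R1 + (m + c') * R2
    have e2 : 2 * ((m : ℤ) * m - c' * y') * B = k * ((m - c') * w2 - (m - y') * w1) := by
      linear_combination (m - c') * R2 - (m - y') * R1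
    linear_combination l * e1 + n * e2
  have hdvd : (k : ℤ) ∣ 2 * ((m : ℤ) * m - c' * y') := by
    have e : 2 * ((m : ℤ) * m - c' * y') = 2 * ((m : ℤ) * m - c' * y') * (l * A + n * B)
      - 2 * ((m : ℤ) * m - c' * y') * (l * A + n * B - 1) := by ring
    rw [e, D, hw0]
    exact Dvd.dvd.sub (Dvd.intro _ rfl) ⟨2 * (m * m - c' * y') * 2 * w0, by ring⟩
  obtain ⟨t, ht⟩ := hdvd
  -- bounds
  have hcm : |c'| < m := by
    rw [abs_mul] at hc; norm_num at hc; omega
  have hym : |y'| < m := by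
    rw [abs_mul] at hy; norm_num at hy; omega
  have hm0 : (0 : ℤ) < m := lt_of_le_of_lt (abs_nonneg _) hcm
  have hcy : |c' * y'| ≤ (m - 1) * (m - 1) := by
    rw [abs_mul]
    exact mul_le_mul (by omega) (by omega) (abs_nonneg _) (by omega)
  rw [abs_le] at hcy
  have hkpos : (0 : ℤ) < k := by nlinarith
  have ht1 : t = 1 := by
    have htpos : 0 < t := by
      by_contra hcon
      push Not at hcon
      have : (k : ℤ) * t ≤ 0 := mul_nonpos_of_nonneg_of_nonpos hkpos.le hcon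
      nlinarith
    by_contra hne
    have ht2 : 2 ≤ t := by omega
    have : (k : ℤ) * 2 ≤ k * t := mul_le_mul_of_nonneg_left ht2 hkpos.le
    nlinarith
  rw [ht1, mul_one] at ht
  have hk2 : k % 2 = 0 := by omega
  rcases Nat.mod_two_eq_zero_or_one m with hmm | hmm
  · left
    constructor
    · omega
    · omega
  · right
    refine ⟨by omega, ?_⟩
    by_contra hk4
    -- then `k` is divisible by 4, so `c' y'` is odd
    have hk4' : k % 4 = 0 := by omega
    have hmm2 : ((m : ℤ) * m) % 2 = 1 := by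
      have : (m : ℤ) % 2 = 1 := by omega
      rw [Int.mul_emod, this]; norm_num
    have hcy2 : (c' * y') % 2 = 1 := by
      have h4 : (k : ℤ) % 4 = 0 := by omega
      omega
    have hc2 : c' % 2 = 1 := by
      rcases Int.emod_two_eq_zero_or_one c' with h0 | h1
      · rw [Int.mul_emod, h0] at hcy2; simp at hcy2
      · exact h1
    have hy2 : y' % 2 = 1 := by
      rcases Int.emod_two_eq_zero_or_one y' with h0 | h1
      · rw [Int.mul_emod, h0] at hcy2; simp at hcy2
      · exact h1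
    obtain ⟨u1, hu1⟩ : ∃ u : ℤ, (m : ℤ) - c' = 2 * u := ⟨((m : ℤ) - c') / 2, by omega⟩
    obtain ⟨u2, hu2⟩ : ∃ u : ℤ, (m : ℤ) + c' = 2 * u := ⟨((m : ℤ) + c') / 2, by omega⟩
    obtain ⟨v1, hv1⟩ : ∃ u : ℤ, (m : ℤ) - y' = 2 * u := ⟨((m : ℤ) - y') / 2, by omega⟩
    obtain ⟨v2, hv2⟩ : ∃ u : ℤ, (m : ℤ) + y' = 2 * u := ⟨((m : ℤ) + y') / 2, by omega⟩
    obtain ⟨κ, hκ⟩ : ∃ κ : ℤ, (k : ℤ) = 4 * κ := ⟨(k : ℤ) / 4, by omega⟩
    have S1 : u1 * A - u2 * B = 2 * κ * w1 := by
      have e : -(m : ℤ) - c' = -(2 * u2) := by omega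
      rw [hu1, e, hκ] at R1; linarith
    have S2 : v1 * A + v2 * B = 2 * κ * w2 := by
      rw [hv1, hv2, hκ] at R2; linarith
    have hdet : u1 * v2 + u2 * v1 = κ := by
      have : 4 * (u1 * v2 + u2 * v1) = 4 * κ := by
        rw [← hκ, ← ht]
        have : 4 * (u1 * v2 + u2 * v1) = (2 * u1) * (2 * v2) + (2 * u2) * (2 * v1) := by ring
        rw [this, ← hu1, ← hu2, ← hv1, ← hv2]; ring
      omega
    have e1 : κ * A = 2 * κ * (v2 * w1 + u2 * w2) := by
      rw [← hdet]
      rw [← hdet] at S1 S2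
      linear_combination v2 * S1 + u2 * S2
    have e2 : κ * B = 2 * κ * (u1 * w2 - v1 * w1) := by
      rw [← hdet]
      rw [← hdet] at S1 S2
      linear_combination u1 * S2 - v1 * S1
    have e3 : κ * (l * A + n * B) = 2 * κ * (l * (v2 * w1 + u2 * w2) + n * (u1 * w2 - v1 * w1)) := by
      linear_combination l * e1 + n * e2
    have e4 : l * A + n * B = 1 + 2 * (k : ℤ) * w0 := by linarith
    rw [e4] at e3
    have hκ0 : κ ≠ 0 := by omega
    have e5 : (1 + 2 * ((k : ℤ) * w0)) = 2 * (l * (v2 * w1 + u2 * w2) + n * (u1 * w2 - v1 * w1)) := by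
      apply mul_left_cancel₀ hκ0
      rw [← mul_assoc 2 (k : ℤ) w0, e3]; ring
    generalize (k : ℤ) * w0 = X1 at e5
    generalize l * (v2 * w1 + u2 * w2) + n * (u1 * w2 - v1 * w1) = X2 at e5
    clear * - e5
    omega

/-- even `s = 2 m`, `2 k ≤ s^2 - s`: the pair `(1, m), (1, m-1)` spans. -/
theorem spans_even_small (k m : ℕ) (hk : 0 < k) (hle : 2 * (k : ℤ) ≤ (2 * m) * (2 * m) - 2 * m) :
    Spans ((1, ((m : ℤ) : ZMod (2 * k))) : Gk k) ((1, (((m : ℤ) - 1 : ℤ) : ZMod (2 * k))) : Gk k) (2 * m) := by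
  rintro ⟨e, x⟩
  obtain ⟨z, hz1, hz2, hz3⟩ := exists_rep k hk x
  have hm1 : (1 : ℤ) ≤ m := by
    have : (0 : ℤ) < k := by exact_mod_cast hk
    by_contra hcon
    have : (m : ℤ) = 0 := by omega
    rw [this] at hle; omega
  obtain ⟨p, hp1, hp2, hp3⟩ : ∃ p : ℤ, ((p : ℤ) : ZMod 2) = e ∧
      (2 * (m : ℤ) - 1) * (p - 1) ≤ 2 * z ∧ 2 * z < (2 * (m : ℤ) - 1) * (p + 1) := by
    set S : ℤ := 2 * (m : ℤ) - 1 with hS
    have hSpos : 0 < S := by omega
    rcases zmod2_cases e with he | he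
    · refine ⟨2 * ((2 * z + S) / (2 * S)), ?_, ?_, ?_⟩
      · rw [he]; push_cast
        have : (2 : ZMod 2) = 0 := rfl
        rw [this]; ring
      · have h1 := Int.mul_ediv_self_le (x := 2 * z + S) (k := 2 * S) (by omega)
        nlinarith
      · have h1 := Int.lt_mul_ediv_self_add (x := 2 * z + S) (k := 2 * S) (by omega)
        nlinarith
    · refine ⟨2 * ((2 * z) / (2 * S)) + 1, ?_, ?_, ?_⟩
      · rw [he]; push_cast
        have : (2 : ZMod 2) = 0 := rfl
        rw [this]; ring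
      · have h1 := Int.mul_ediv_self_le (x := 2 * z) (k := 2 * S) (by omega)
        nlinarith
      · have h1 := Int.lt_mul_ediv_self_add (x := 2 * z) (k := 2 * S) (by omega)
        nlinarith
  have hpS1 : p ≤ 2 * m := by
    by_contra hcon
    push Not at hcon
    have : (2 * (m : ℤ) - 1) * (2 * m) ≤ (2 * (m : ℤ) - 1) * (p - 1) := by
      apply mul_le_mul_of_nonneg_left _ (by omega); omega
    nlinarith
  have hpS2 : -(2 * (m : ℤ)) ≤ p := by
    by_contra hcon
    push Not at hcon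
    have : (2 * (m : ℤ) - 1) * (p + 1) ≤ (2 * (m : ℤ) - 1) * (-(2 * m)) := by
      apply mul_le_mul_of_nonneg_left _ (by omega); omega
    nlinarith
  obtain ⟨q, hq⟩ : ∃ q : ℤ, q = 2 * z - (2 * (m : ℤ) - 1) * p := ⟨_, rfl⟩
  have hq1 : q ≤ 2 * m - 1 := by rw [hq]; nlinarith
  have hq2 : -(2 * (m : ℤ) - 1) ≤ q := by rw [hq]; nlinarith
  obtain ⟨l, hl⟩ : ∃ l : ℤ, p + q = 2 * l := by
    refine ⟨z - m * p + p, ?_⟩
    rw [hq]; ring
  refine ⟨l, p - l, ?_, ?_⟩
  · push_cast
    rcases abs_cases l with h | h <;> rcases abs_cases (p - l) with h' | h' <;> omega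
  · refine Prod.ext ?_ ?_
    · simp only [zsmul_eq_mul, Prod.fst_add, Prod.fst_mul, Prod.fst_intCast, mul_one]
      rw [← hp1]; push_cast; ring
    · simp only [zsmul_eq_mul, Prod.snd_add, Prod.snd_mul, Prod.snd_intCast]
      rw [← hz3]
      have hzz : z = l * m + (p - l) * (m - 1) := by
        have : 2 * z = 2 * (l * m + (p - l) * (m - 1)) := by
          have := hl; rw [hq] at this; linarith
        omega
      rw [hzz]
      push_cast
      ring

/-- a sufficient criterion for spanning when `s = 2 m` -/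
theorem spans_of_relations {k m : ℕ} (hk : 0 < k) (hle : k ≤ 2 * m * m) (a b : Gk k)
    (hgen : ∀ g : Gk k, ∃ l n : ℤ, l • a + n • b = g)
    (h1 : (2 : ℤ) • (a - b) = (2 * (m : ℤ)) • (a + b)) (h2 : (k : ℤ) • (a + b) = 0) :
    Spans a b (2 * m) := by
  have hm0 : (0 : ℤ) < m := by
    rcases Nat.eq_zero_or_pos m with h0 | h0
    · rw [h0] at hle; omega
    · exact_mod_cast h0
  have hk0 : (0 : ℤ) < k := by exact_mod_cast hk
  have hle' : (k : ℤ) ≤ 2 * m * m := by exact_mod_cast hle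
  have red : ∀ x y : ℤ, ∃ i j : ℤ, 0 ≤ i ∧ i < 2 * m ∧ 0 ≤ j ∧ j < 2 * m ∧
      x • (a + b) + y • (a - b) = i • (a + b) + j • (a - b) := by
    intro x y
    obtain ⟨Y, e, hy, he0, he1⟩ : ∃ Y e : ℤ, y = 2 * Y + e ∧ 0 ≤ e ∧ e ≤ 1 :=
      ⟨y / 2, y % 2, by omega, by omega, by omega⟩
    obtain ⟨X, Q, hX, hX0, hX1⟩ : ∃ X Q : ℤ, x + 2 * m * Y = X + k * Q ∧ 0 ≤ X ∧ X < k :=
      ⟨(x + 2 * m * Y) % k, (x + 2 * m * Y) / k, (Int.emod_add_mul_ediv _ _).symm,
        Int.emod_nonneg _ (by omega), Int.emod_lt_of_pos _ hk0⟩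
    obtain ⟨i, t, hit, hi0, hi1⟩ : ∃ i t : ℤ, X = i + 2 * m * t ∧ 0 ≤ i ∧ i < 2 * m :=
      ⟨X % (2 * m), X / (2 * m), (Int.emod_add_mul_ediv _ _).symm,
        Int.emod_nonneg _ (by omega), Int.emod_lt_of_pos _ (by omega)⟩
    have ht0 : 0 ≤ t := by
      by_contra hcon
      push Not at hcon
      have : 2 * (m : ℤ) * t ≤ 2 * m * (-1) := mul_le_mul_of_nonneg_left (by omega) (by omega)
      omega
    have ht1 : t < m := by
      by_contra hcon
      push Not at hcon
      have : 2 * (m : ℤ) * m ≤ 2 * m * t := mul_le_mul_of_nonneg_left (by omega) (by omega)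
      omega
    refine ⟨i, 2 * t + e, hi0, hi1, by omega, by omega, ?_⟩
    have e1 : x • (a + b) + y • (a - b) = x • (a + b) + Y • ((2 : ℤ) • (a - b)) + e • (a - b) := by
      rw [hy]; module
    have e2 : i • (a + b) + (2 * t + e) • (a - b) =
        i • (a + b) + t • ((2 : ℤ) • (a - b)) + e • (a - b) := by module
    rw [e1, e2, h1]
    have e3 : x • (a + b) + Y • ((2 * (m : ℤ)) • (a + b)) = (x + 2 * m * Y) • (a + b) := by module
    have e4 : i • (a + b) + t • ((2 * (m : ℤ)) • (a + b)) = (i + 2 * m * t) • (a + b) := by module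
    rw [e3, e4, hX, ← hit, add_smul, mul_comm (k : ℤ) Q, mul_smul, h2, smul_zero, add_zero]
  intro g
  obtain ⟨l, n, hg⟩ := hgen g
  rcases Int.emod_two_eq_zero_or_one (l + n) with hpar | hpar
  · obtain ⟨x, hx⟩ : ∃ x : ℤ, 2 * x = l + n + 2 * m := ⟨(l + n + 2 * m) / 2, by omega⟩
    obtain ⟨y, hy⟩ : ∃ y : ℤ, 2 * y = l - n + 2 * m := ⟨(l - n + 2 * m) / 2, by omega⟩
    obtain ⟨i, j, hi0, hi1, hj0, hj1, hij⟩ := red x y
    refine ⟨i + j - 2 * m, i - j, ?_, ?_⟩
    · push_cast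
      rcases abs_cases (i + j - 2 * (m : ℤ)) with h | h <;> rcases abs_cases (i - j) with h' | h' <;> omega
    · rw [← hg]
      have e1 : l = x + y - 2 * m := by omega
      have e2 : n = x - y := by omega
      have e3 : (i + j - 2 * (m : ℤ)) • a + (i - j) • b =
        (i • (a + b) + j • (a - b)) - (2 * (m : ℤ)) • a := by module
      have e4 : (x + y - 2 * (m : ℤ)) • a + (x - y) • b =
        (x • (a + b) + y • (a - b)) - (2 * (m : ℤ)) • a := by module
      rw [e1, e2, e3, e4, hij]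
  · obtain ⟨x, hx⟩ : ∃ x : ℤ, 2 * x = l + n + 2 * m - 1 := ⟨(l + n + 2 * m - 1) / 2, by omega⟩
    obtain ⟨y, hy⟩ : ∃ y : ℤ, 2 * y = l - n + 2 * m - 1 := ⟨(l - n + 2 * m - 1) / 2, by omega⟩
    obtain ⟨i, j, hi0, hi1, hj0, hj1, hij⟩ := red x y
    refine ⟨i + j - 2 * m + 1, i - j, ?_, ?_⟩
    · push_cast
      rcases abs_cases (i + j - 2 * (m : ℤ) + 1) with h | h <;> rcases abs_cases (i - j) with h' | h' <;> omega
    · rw [← hg]
      have e1 : l = x + y - 2 * m + 1 := by omega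
      have e2 : n = x - y := by omega
      have e3 : (i + j - 2 * (m : ℤ) + 1) • a + (i - j) • b =
        (i • (a + b) + j • (a - b)) - (2 * (m : ℤ) - 1) • a := by module
      have e4 : (x + y - 2 * (m : ℤ) + 1) • a + (x - y) • b =
        (x • (a + b) + y • (a - b)) - (2 * (m : ℤ) - 1) • a := by module
      rw [e1, e2, e3, e4, hij]

/-- if `(1,0)` and `(0,1)` are combinations of `a, b` then everything is -/
theorem gen_of {k : ℕ} {a b : Gk k} (h10 : ((1, 0) : Gk k) ∈ AddSubgroup.closure {a, b})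
    (h01 : ((0, 1) : Gk k) ∈ AddSubgroup.closure {a, b}) (g : Gk k) :
    ∃ l n : ℤ, l • a + n • b = g := by
  rw [← AddSubgroup.mem_closure_pair]
  obtain ⟨e, x⟩ := g
  obtain ⟨E, hE⟩ : ∃ E : ℤ, ((E : ℤ) : ZMod 2) = e := ZMod.intCast_surjective e
  obtain ⟨X, hX⟩ := int_lift k x
  have : ((e, x) : Gk k) = E • ((1, 0) : Gk k) + X • ((0, 1) : Gk k) := by
    refine Prod.ext ?_ ?_
    · simp only [zsmul_eq_mul, Prod.fst_add, Prod.fst_mul, Prod.fst_intCast, mul_one, mul_zero, add_zero, hE]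
    · simp only [zsmul_eq_mul, Prod.snd_add, Prod.snd_mul, Prod.snd_intCast, mul_one, mul_zero, zero_add, hX]
  rw [this]
  exact add_mem (zsmul_mem h10 E) (zsmul_mem h01 X)

theorem two_k_zero (k : ℕ) : (2 : ZMod (2 * k)) * (k : ZMod (2 * k)) = 0 := by
  have := ZMod.natCast_self (2 * k)
  push_cast at this
  exact this

/-- `m` even, `k` even, `k ≤ 2 m^2` -/
theorem spans_even_even (k m : ℕ) (hk : 0 < k) (hle : k ≤ 2 * m * m) (hm : m % 2 = 0) (hk2 : k % 2 = 0) :
    Spans ((1, (((m : ℤ) + 1 : ℤ) : ZMod (2 * k))) : Gk k) ((0, ((1 - (m : ℤ) : ℤ) : ZMod (2 * k))) : Gk k)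
      (2 * m) := by
  obtain ⟨n, hn⟩ : ∃ n : ℕ, m = 2 * n := ⟨m / 2, by omega⟩
  obtain ⟨κ, hκ⟩ : ∃ κ : ℕ, k = 2 * κ := ⟨k / 2, by omega⟩
  have two0 : (2 : ZMod 2) = 0 := rfl
  apply spans_of_relations hk hle
  · have ha : ((1, (((m : ℤ) + 1 : ℤ) : ZMod (2 * k))) : Gk k) ∈
      AddSubgroup.closure {((1, (((m : ℤ) + 1 : ℤ) : ZMod (2 * k))) : Gk k),
        ((0, ((1 - (m : ℤ) : ℤ) : ZMod (2 * k))) : Gk k)} :=
      AddSubgroup.subset_closure (by simp)
    have hb : ((0, ((1 - (m : ℤ) : ℤ) : ZMod (2 * k))) : Gk k) ∈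
      AddSubgroup.closure {((1, (((m : ℤ) + 1 : ℤ) : ZMod (2 * k))) : Gk k),
        ((0, ((1 - (m : ℤ) : ℤ) : ZMod (2 * k))) : Gk k)} :=
      AddSubgroup.subset_closure (by simp)
    apply gen_of
    · have := add_mem (zsmul_mem ha (1 - m)) (zsmul_mem hb (-(1 + m)))
      convert this using 1
      refine Prod.ext ?_ ?_
      · simp only [zsmul_eq_mul, Prod.fst_add, Prod.fst_mul, Prod.fst_intCast, mul_one, mul_zero, add_zero]
        rw [hn]; push_cast; rw [two0]; ring
      · simp only [zsmul_eq_mul, Prod.snd_add, Prod.snd_mul, Prod.snd_intCast]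
        push_cast; ring
    · have := add_mem (zsmul_mem ha (n * m)) (zsmul_mem hb (1 + n * (m + 2)))
      convert this using 1
      refine Prod.ext ?_ ?_
      · simp only [zsmul_eq_mul, Prod.fst_add, Prod.fst_mul, Prod.fst_intCast, mul_one, mul_zero, add_zero]
        rw [hn]; push_cast; rw [two0]; ring
      · simp only [zsmul_eq_mul, Prod.snd_add, Prod.snd_mul, Prod.snd_intCast]
        rw [hn]; push_cast; ring
  · refine Prod.ext ?_ ?_
    · simp only [zsmul_eq_mul, Prod.fst_add, Prod.fst_sub, Prod.fst_mul, Prod.fst_intCast]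
      push_cast; rw [two0]; ring
    · simp only [zsmul_eq_mul, Prod.snd_add, Prod.snd_sub, Prod.snd_mul, Prod.snd_intCast]
      push_cast; ring
  · refine Prod.ext ?_ ?_
    · simp only [zsmul_eq_mul, Prod.fst_add, Prod.fst_mul, Prod.fst_intCast, Prod.fst_zero]
      rw [hκ]; push_cast; rw [two0]; ring
    · simp only [zsmul_eq_mul, Prod.snd_add, Prod.snd_mul, Prod.snd_intCast, Prod.snd_zero]
      have := two_k_zero k
      push_cast
      linear_combination this

/-- `m` odd, `k ≡ 2 mod 4`, `k ≤ 2 m^2` -/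
theorem spans_even_odd (k m h : ℕ) (hle : k ≤ 2 * m * m) (hm : m % 2 = 1)
    (hh : h % 2 = 1) (hkh : k = 2 * h) :
    Spans ((1, (((m : ℤ) + 1 + h : ℤ) : ZMod (2 * k))) : Gk k)
      ((0, ((1 - (m : ℤ) + h : ℤ) : ZMod (2 * k))) : Gk k) (2 * m) := by
  obtain ⟨n, hn⟩ : ∃ n : ℕ, m = 2 * n + 1 := ⟨m / 2, by omega⟩
  obtain ⟨κ, hκ⟩ : ∃ κ : ℕ, h = 2 * κ + 1 := ⟨h / 2, by omega⟩
  have hk : 0 < k := by omega
  have two0 : (2 : ZMod 2) = 0 := rfl
  have hk2h : (k : ZMod (2 * k)) = 2 * (h : ZMod (2 * k)) := by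
    have : ((k : ℕ) : ZMod (2 * k)) = ((2 * h : ℕ) : ZMod (2 * k)) := congrArg _ hkh
    rw [this]; push_cast; rfl
  have h4h : (4 : ZMod (2 * k)) * (h : ZMod (2 * k)) = 0 := by
    have h1 := two_k_zero k
    rw [hk2h] at h1
    linear_combination h1
  apply spans_of_relations hk hle
  · have ha : ((1, (((m : ℤ) + 1 + h : ℤ) : ZMod (2 * k))) : Gk k) ∈
      AddSubgroup.closure {((1, (((m : ℤ) + 1 + h : ℤ) : ZMod (2 * k))) : Gk k),
        ((0, ((1 - (m : ℤ) + h : ℤ) : ZMod (2 * k))) : Gk k)} :=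
      AddSubgroup.subset_closure (by simp)
    have hb : ((0, ((1 - (m : ℤ) + h : ℤ) : ZMod (2 * k))) : Gk k) ∈
      AddSubgroup.closure {((1, (((m : ℤ) + 1 + h : ℤ) : ZMod (2 * k))) : Gk k),
        ((0, ((1 - (m : ℤ) + h : ℤ) : ZMod (2 * k))) : Gk k)} :=
      AddSubgroup.subset_closure (by simp)
    set H := AddSubgroup.closure {((1, (((m : ℤ) + 1 + h : ℤ) : ZMod (2 * k))) : Gk k),
        ((0, ((1 - (m : ℤ) + h : ℤ) : ZMod (2 * k))) : Gk k)} with hH
    -- tau = (0, 2h)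
    have htau : ((0, 2 * (h : ZMod (2 * k))) : Gk k) ∈ H := by
      have := add_mem (zsmul_mem ha (1 - m)) (zsmul_mem hb (-(1 + m)))
      convert this using 1
      refine Prod.ext ?_ ?_
      · simp only [zsmul_eq_mul, Prod.fst_add, Prod.fst_mul, Prod.fst_intCast, mul_one, mul_zero, add_zero]
        rw [hn]; push_cast; rw [two0]; ring
      · simp only [zsmul_eq_mul, Prod.snd_add, Prod.snd_mul, Prod.snd_intCast]
        have hm2 : (m : ZMod (2 * k)) = 2 * n + 1 := by rw [hn]; push_cast; rfl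
        push_cast
        rw [hm2]
        linear_combination (n + 1 : ZMod (2 * k)) * h4h
    have h12 : ((1, 2) : Gk k) ∈ H := by
      have := sub_mem (add_mem ha hb) htau
      convert this using 1
      refine Prod.ext ?_ ?_
      · simp only [Prod.fst_add, Prod.fst_sub]
        ring
      · simp only [Prod.snd_add, Prod.snd_sub]
        push_cast; ring
    have h10 : ((1, 0) : Gk k) ∈ H := by
      have := sub_mem (zsmul_mem h12 (h : ℤ)) htau
      convert this using 1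
      refine Prod.ext ?_ ?_
      · simp only [zsmul_eq_mul, Prod.fst_sub, Prod.fst_mul, Prod.fst_intCast]
        rw [hκ]; push_cast; rw [two0]; ring
      · simp only [zsmul_eq_mul, Prod.snd_sub, Prod.snd_mul, Prod.snd_intCast]
        push_cast; ring
    have h02 : ((0, 2) : Gk k) ∈ H := by
      have := sub_mem h12 h10
      convert this using 1
      refine Prod.ext ?_ ?_
      · simp
      · simp
    apply gen_of h10
    have := sub_mem hb (zsmul_mem h02 ((κ : ℤ) - n))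
    convert this using 1
    refine Prod.ext ?_ ?_
    · simp
    · simp only [zsmul_eq_mul, Prod.snd_sub, Prod.snd_mul, Prod.snd_intCast]
      rw [hn, hκ]; push_cast; ring
  · refine Prod.ext ?_ ?_
    · simp only [zsmul_eq_mul, Prod.fst_add, Prod.fst_sub, Prod.fst_mul, Prod.fst_intCast]
      push_cast; rw [two0]; ring
    · simp only [zsmul_eq_mul, Prod.snd_add, Prod.snd_sub, Prod.snd_mul, Prod.snd_intCast]
      push_cast
      linear_combination (-(m : ZMod (2 * k))) * h4h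
  · refine Prod.ext ?_ ?_
    · simp only [zsmul_eq_mul, Prod.fst_add, Prod.fst_mul, Prod.fst_intCast, Prod.fst_zero]
      rw [hkh]; push_cast; rw [two0]; ring
    · simp only [zsmul_eq_mul, Prod.snd_add, Prod.snd_mul, Prod.snd_intCast, Prod.snd_zero]
      push_cast
      rw [hk2h]
      linear_combination (1 + (h : ZMod (2 * k))) * h4h

theorem phi_even_small (k s : ℕ) (hk : 0 < k) (hs : s % 2 = 0) (hle : 2 * k ≤ s ^ 2 - s) :
    phi (Gk k) s = 2 := by
  obtain ⟨m, rfl⟩ : ∃ m, s = 2 * m := ⟨s / 2, by omega⟩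
  have h1 : 2 * m ≤ (2 * m) ^ 2 := Nat.le_self_pow (by norm_num) _
  have h2 : 2 * (k : ℤ) ≤ (2 * m) * (2 * m) - 2 * m := by
    have : 2 * k + 2 * m ≤ (2 * m) ^ 2 := by omega
    have h3 : ((2 * k + 2 * m : ℕ) : ℤ) ≤ (((2 * m) ^ 2 : ℕ) : ℤ) := by exact_mod_cast this
    push_cast at h3
    nlinarith
  refine phi_eq_two_of k _ _ _ ?_ (spans_even_small k m hk h2)
  intro h
  have h2 := congrArg Prod.snd h
  simp only at h2
  push_cast at h2
  exact one_ne_zero' k hk (by linear_combination h2)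

theorem phi_even_special (k s : ℕ) (hk : 0 < k) (hle : 2 * k ≤ s ^ 2)
    (h : (4 ∣ s ∧ 2 ∣ k) ∨ (s % 4 = 2 ∧ k % 4 = 2)) : phi (Gk k) s = 2 := by
  obtain ⟨m, rfl⟩ : ∃ m, s = 2 * m := ⟨s / 2, by omega⟩
  have hle' : k ≤ 2 * m * m := by
    have : (2 * m) ^ 2 = 2 * (2 * m * m) := by ring
    omega
  rcases h with ⟨h1, h2⟩ | ⟨h1, h2⟩
  · refine phi_eq_two_of k _ _ _ ?_ (spans_even_even k m hk hle' (by omega) (by omega))
    intro h
    have h1 := congrArg Prod.fst h
    simp only at h1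
    revert h1; decide
  · obtain ⟨hh, hkh⟩ : ∃ hh : ℕ, k = 2 * hh := ⟨k / 2, by omega⟩
    refine phi_eq_two_of k _ _ _ ?_ (spans_even_odd k m hh hle' (by omega) (by omega) hkh)
    intro h
    have h1 := congrArg Prod.fst h
    simp only at h1
    revert h1; decide

/-- The complete classification. -/
theorem classification (s k : ℕ) (hk : 0 < k) :
    phi (ZMod 2 × ZMod (2 * k)) s = 2 ↔
      2 * k ≤ s ^ 2 ∧ (Odd s ∨ 2 * k ≤ s ^ 2 - s ∨ (4 ∣ s ∧ 2 ∣ k) ∨ (s % 4 = 2 ∧ k % 4 = 2)) := by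
  constructor
  · intro h
    have hle := le_of_phi k s h
    refine ⟨by omega, ?_⟩
    rcases Nat.mod_two_eq_zero_or_one s with hs | hs
    · right
      by_cases hbig : 2 * k ≤ s ^ 2 - s
      · left; exact hbig
      · right
        obtain ⟨a, b, _, hab⟩ := spans_of_phi k s h
        apply necessity hs a b hab
        have h1 : s ≤ s ^ 2 := Nat.le_self_pow (by norm_num) _
        have h2 : s ^ 2 < 2 * k + s := by omega
        have h3 : ((s ^ 2 : ℕ) : ℤ) < ((2 * k + s : ℕ) : ℤ) := by exact_mod_cast h2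
        push_cast at h3
        nlinarith
    · left; exact Nat.odd_iff.mpr hs
  · rintro ⟨hle, h | h | h⟩
    · exact phi_odd k s hk (Nat.odd_iff.mp h) (by omega)
    · rcases Nat.mod_two_eq_zero_or_one s with hs | hs
      · exact phi_even_small k s hk hs h
      · exact phi_odd k s hk hs (by omega)
    · exact phi_even_special k s hk hle h

end Pool.Agent.Helper37.Span
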